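import Mathlib

set_option autoImplicit false

open OnePoint ComplexConjugate

namespace H26Apo

abbrev X := OnePoint ℂ
abbrev GL2 := Matrix.GeneralLinearGroup (Fin 2) ℂ

/-- homogeneous representative -/
noncomputable def rp (x : X) : ℂ × ℂ := OnePoint.elim x (1, 0) (fun z => (z, 1))

@[simp] lemma rp_infty : rp ∞ = (1, 0) := rfl
@[simp] lemma rp_coe (z : ℂ) : rp (z : X) = (z, 1) := rfl

/-- the four coordinates in homogeneous form -/
noncomputable def tv (p q : ℂ) : Fin 4 → ℝ :=
  ![2*(p.re^2+p.im^2) - 2*(p.re*q.re+p.im*q.im) - 4*(p.im*q.re-p.re*q.im) + 2*(q.re^2+q.im^2),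
    2*(p.re^2+p.im^2) - 2*(p.re*q.re+p.im*q.im),
    2*(q.re^2+q.im^2) - 2*(p.re*q.re+p.im*q.im),
    2*(p.re*q.re+p.im*q.im)]

noncomputable def t (x : X) : Fin 4 → ℝ := tv (rp x).1 (rp x).2

lemma tv_smul (m p q : ℂ) (j : Fin 4) :
    tv (m*p) (m*q) j = (m.re^2+m.im^2) * tv p q j := by
  fin_cases j <;> simp [tv] <;> ring

lemma smul_rp (g : GL2) (x : X) : ∃ m : ℂ, m ≠ 0 ∧
    rp (g • x) = (m * (g 0 0 * (rp x).1 + g 0 1 * (rp x).2),
      m * (g 1 0 * (rp x).1 + g 1 1 * (rp x).2)) := by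
  have hdet : g 0 0 * g 1 1 - g 0 1 * g 1 0 ≠ 0 := by
    have := g.det_ne_zero
    rwa [Matrix.det_fin_two] at this
  induction x using OnePoint.rec with
  | infty =>
    rw [smul_infty_eq_ite]
    by_cases h : g 1 0 = 0
    · have h0 : g 0 0 ≠ 0 := by
        intro h0; apply hdet; rw [h, h0]; ring
      refine ⟨(g 0 0)⁻¹, inv_ne_zero h0, ?_⟩
      simp [h, h0]
    · refine ⟨(g 1 0)⁻¹, inv_ne_zero h, ?_⟩
      simp [h, div_eq_inv_mul]
  | coe z =>
    rw [smul_some_eq_ite]
    by_cases h : g 1 0 * z + g 1 1 = 0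
    · have h0 : g 0 0 * z + g 0 1 ≠ 0 := by
        intro h0; apply hdet
        by_cases h1 : g 1 0 = 0
        · have h2 : g 1 1 = 0 := by rw [h1] at h; simpa using h
          rw [h1, h2]; ring
        · have e1 : g 1 1 = - (g 1 0 * z) := by linear_combination h
          have e2 : g 0 1 = - (g 0 0 * z) := by linear_combination h0
          rw [e1, e2]; ring
      refine ⟨(g 0 0 * z + g 0 1)⁻¹, inv_ne_zero h0, ?_⟩
      simp [h, h0]
    · refine ⟨(g 1 0 * z + g 1 1)⁻¹, inv_ne_zero h, ?_⟩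
      simp [h, div_eq_inv_mul]

noncomputable def conjX (x : X) : X := OnePoint.map conj x

lemma rp_conj (x : X) : rp (conjX x) = (conj (rp x).1, conj (rp x).2) := by
  induction x using OnePoint.rec with
  | infty => simp [conjX]
  | coe z => simp [conjX]

lemma conjX_conjX (x : X) : conjX (conjX x) = x := by
  induction x using OnePoint.rec with
  | infty => simp [conjX]
  | coe z => simp [conjX]

/-- conjugate matrix -/
noncomputable def cg (g : GL2) : GL2 := g.map (starRingEnd ℂ)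

lemma conjX_smul (g : GL2) (x : X) : conjX (g • x) = cg g • conjX x := by
  unfold conjX cg
  exact OnePoint.map_smul (starRingEnd ℂ) g x

noncomputable def Mm : Fin 4 → Matrix (Fin 2) (Fin 2) ℂ :=
  ![!![1+2*Complex.I, -2; 2, -1+2*Complex.I], !![1, 0; 2, -1], !![-1, 2; 0, 1], !![-1, 0; 0, 1]]

lemma Mm_det (i : Fin 4) : (Mm i).det ≠ 0 := by
  have h : (Mm i).det = -1 := by
    fin_cases i
    · simp only [Mm, Matrix.det_fin_two]
      simp
      linear_combination 4 * Complex.I_mul_I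
    all_goals (simp [Mm, Matrix.det_fin_two])
  rw [h]; norm_num

noncomputable def Mg (i : Fin 4) : GL2 := Matrix.GeneralLinearGroup.mkOfDetNeZero (Mm i) (Mm_det i)

noncomputable def rho (i : Fin 4) (x : X) : X := Mg i • conjX x

/-- the linear action of the reflections on the coordinates -/
def R (i : Fin 4) (v : Fin 4 → ℝ) : Fin 4 → ℝ := fun j => if j = i then - v i else v j + 2 * v i

lemma tv_M (i : Fin 4) (p q : ℂ) (j : Fin 4) :
    tv (Mm i 0 0 * conj p + Mm i 0 1 * conj q) (Mm i 1 0 * conj p + Mm i 1 1 * conj q) j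
      = R i (tv p q) j := by
  fin_cases i <;> fin_cases j <;> simp [tv, R, Mm] <;> ring

lemma t_rho (i : Fin 4) (x : X) : ∃ l : ℝ, 0 < l ∧ ∀ j, t (rho i x) j = l * R i (t x) j := by
  obtain ⟨m, hm, h⟩ := smul_rp (Mg i) (conjX x)
  refine ⟨m.re^2+m.im^2, ?_, fun j => ?_⟩
  · have := Complex.normSq_pos.mpr hm
    rw [Complex.normSq_apply] at this
    nlinarith
  · unfold t rho
    rw [h]
    simp only
    rw [tv_smul, rp_conj]
    simp only
    have := tv_M i (rp x).1 (rp x).2 j
    unfold Mg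
    simp only [Matrix.GeneralLinearGroup.mkOfDetNeZero]
    rw [← this]
    rfl

lemma tv_null (p q : ℂ) : 2 * ∑ j, (tv p q j)^2 = (∑ j, tv p q j)^2 := by
  simp [tv, Fin.sum_univ_four]; ring

noncomputable def sg (x : X) : ℝ := ∑ j, t x j

lemma t_null (x : X) : 2 * ∑ j, (t x j)^2 = (sg x)^2 := tv_null _ _

lemma sg_infty : sg (∞ : X) = 4 := by
  simp [sg, t, tv, Fin.sum_univ_four]; norm_num

lemma sg_coe (z : ℂ) : sg (z : X) = 4*(z.re-1/2)^2 + 4*(z.im-1/2)^2 + 2 := by
  simp [sg, t, tv, Fin.sum_univ_four]; ring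

lemma sg_pos (x : X) : 0 < sg x := by
  induction x using OnePoint.rec with
  | infty => rw [sg_infty]; norm_num
  | coe z => rw [sg_coe]; positivity

/-- evaluation of a linear form in the four coordinates -/
noncomputable def Q (c : Fin 4 → ℝ) (x : X) : ℝ := ∑ j, c j * t x j

lemma t_inj (x y : X) (l : ℝ) (hl : 0 < l) (h : ∀ j, t x j = l * t y j) : x = y := by
  induction x using OnePoint.rec with
  | infty =>
    induction y using OnePoint.rec with
    | infty => rfl
    | coe w =>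
      have h2 := h 2
      have h3 := h 3
      simp [t, tv] at h2 h3
      exfalso
      have : l * 2 = 0 := by
        rcases h3 with h3 | h3
        · linarith
        · rcases h2 with h2 | h2
          · linarith
          · linarith
      linarith
  | coe z =>
    induction y using OnePoint.rec with
    | infty =>
      have h2 := h 2
      have h3 := h 3
      simp [t, tv] at h2 h3
      exfalso
      linarith
    | coe w =>
      have h0 := h 0
      have h1 := h 1
      have h2 := h 2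
      have h3 := h 3
      simp [t, tv] at h0 h1 h2 h3
      have hl1 : l = 1 := by linarith
      subst hl1
      have e1 : z.re = w.re := by linarith
      have e2 : z.im = w.im := by linarith
      rw [Complex.ext e1 e2]

lemma t_surj (v : Fin 4 → ℝ) (hv : 2 * ∑ j, (v j)^2 = (∑ j, v j)^2) (hp : 0 < ∑ j, v j) :
    ∃ x : X, ∃ l : ℝ, 0 < l ∧ ∀ j, t x j = l * v j := by
  rw [Fin.sum_univ_four, Fin.sum_univ_four] at hv
  rw [Fin.sum_univ_four] at hp
  have key : (v 1 + v 3) * (v 2 + v 3) / 4 = (v 3)^2/4 + (v 1 + v 2 + v 3 - v 0)^2/16 := by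
    nlinarith
  have h23 : 0 ≤ v 2 + v 3 := by
    by_contra hneg
    push Not at hneg
    obtain ⟨P, hP⟩ : ∃ P, P = (v 1 + v 3)/2 := ⟨_, rfl⟩
    obtain ⟨S, hS⟩ : ∃ S, S = (v 2 + v 3)/2 := ⟨_, rfl⟩
    obtain ⟨a, ha⟩ : ∃ a, a = (v 3)/2 := ⟨_, rfl⟩
    obtain ⟨b, hb⟩ : ∃ b, b = (v 1 + v 2 + v 3 - v 0)/4 := ⟨_, rfl⟩
    have k1 : P * S = a^2 + b^2 := by rw [hP, hS, ha, hb]; linarith
    have k2 : a + b < P + S := by rw [hP, hS, ha, hb]; linarith
    have k3 : S < 0 := by rw [hS]; linarith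
    have k4 : P ≤ 0 := by
      by_contra h
      push Not at h
      nlinarith [mul_pos_of_neg_of_neg (neg_neg_of_pos h) k3, sq_nonneg a, sq_nonneg b]
    have k5 : (P + S)^2 < (a+b)^2 := by nlinarith
    nlinarith [sq_nonneg (a - b), sq_nonneg P, sq_nonneg S]
  rcases h23.eq_or_lt with h23 | h23
  · have e : (v 3)^2/4 + (v 1 + v 2 + v 3 - v 0)^2/16 = 0 := by rw [← key, ← h23]; ring
    have e3 : v 3 = 0 := by
      have : (v 3)^2 = 0 := by nlinarith [sq_nonneg (v 3), sq_nonneg (v 1 + v 2 + v 3 - v 0)]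
      exact pow_eq_zero_iff (two_ne_zero) |>.mp this
    have e0 : v 1 + v 2 + v 3 - v 0 = 0 := by
      have : (v 1 + v 2 + v 3 - v 0)^2 = 0 := by
        nlinarith [sq_nonneg (v 3), sq_nonneg (v 1 + v 2 + v 3 - v 0)]
      exact pow_eq_zero_iff (two_ne_zero) |>.mp this
    have e2 : v 2 = 0 := by linarith
    have hv1 : 0 < v 1 := by linarith
    refine ⟨∞, 2 / v 1, by positivity, fun j => ?_⟩
    have e0' : v 0 = v 1 := by linarith
    fin_cases j <;> simp [t, tv, e2, e3, e0', hv1.ne']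
  · refine ⟨(⟨v 3 / (v 2 + v 3), (v 1 + v 2 + v 3 - v 0)/2/(v 2 + v 3)⟩ : ℂ), 2/(v 2 + v 3),
      by positivity, fun j => ?_⟩
    have hne : v 2 + v 3 ≠ 0 := h23.ne'
    have key2 : (v 3 / (v 2 + v 3))^2 + ((v 1 + v 2 + v 3 - v 0)/2/(v 2 + v 3))^2
        = (v 1 + v 3)/(v 2 + v 3) := by
      field_simp
      nlinarith
    fin_cases j <;> simp [t, tv]
    · rw [key2]; field_simp; ring
    · rw [key2]; field_simp; ring
    · field_simp; ring
    · field_simp

end H26Apo
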