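import Pool.Agent.H26R3.ApoRoots

set_option autoImplicit false

open OnePoint ComplexConjugate Filter Topology

namespace H26Apo

def Rh : Set X := insert (OnePoint.infty : OnePoint ℂ) (Set.range (fun x : ℝ => OnePoint.some (x : ℂ)))

def IsCirc (S : Set X) : Prop := ∃ g : GL2, S = (fun w : OnePoint ℂ => g • w) '' Rh

def Zc (v : Fin 4 → ℝ) : Set X := {x | Q v x = 0}

def sgm (i : Fin 4) : Fin 4 → ℝ := fun j => if j = i then -1 else 1

def Ci (i : Fin 4) : Set X := Zc (sgm i)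

def Tg (S T : Set X) : Prop := ∃! p, p ∈ S ∩ T

def imf (p q : ℂ) : ℝ := p.im * q.re - p.re * q.im

lemma imf_smul (m p q : ℂ) : imf (m*p) (m*q) = (m.re^2+m.im^2) * imf p q := by
  simp [imf]; ring

lemma mem_Rh (x : X) : x ∈ Rh ↔ imf (rp x).1 (rp x).2 = 0 := by
  unfold Rh
  induction x using OnePoint.rec with
  | infty => simp [imf]
  | coe z =>
    simp only [rp_coe, imf]
    constructor
    · rintro (h | ⟨y, hy⟩)
      · exact absurd h (OnePoint.coe_ne_infty z)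
      · have := OnePoint.coe_injective hy
        subst this
        simp
    · intro h
      right
      refine ⟨z.re, ?_⟩
      have hz : ((z.re : ℝ) : ℂ) = z := by
        apply Complex.ext
        · simp
        · simp at h ⊢; exact h.symm
      show (((z.re : ℝ) : ℂ) : X) = (z : X)
      rw [hz]

lemma Q_tv (v : Fin 4 → ℝ) (x : X) : Q v x = ∑ j, v j * tv (rp x).1 (rp x).2 j := rfl

lemma Q_smul (v : Fin 4 → ℝ) (g : GL2) (x : X) : ∃ l : ℝ, 0 < l ∧
    Q v (g • x) = l * ∑ j, v j * tv (g 0 0 * (rp x).1 + g 0 1 * (rp x).2)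
      (g 1 0 * (rp x).1 + g 1 1 * (rp x).2) j := by
  obtain ⟨m, hm, h⟩ := smul_rp g x
  refine ⟨m.re^2+m.im^2, ?_, ?_⟩
  · have := Complex.normSq_pos.mpr hm
    rw [Complex.normSq_apply] at this
    nlinarith
  · rw [Q_tv, h, Finset.mul_sum]
    apply Finset.sum_congr rfl
    intro j _
    rw [tv_smul]
    ring

/-- a matrix whose pulled back form is a multiple of the imaginary part maps the real circle onto
the zero set -/
lemma img_Rh (g : GL2) (v : Fin 4 → ℝ) (k : ℝ) (hk : k ≠ 0)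
    (h : ∀ p q : ℂ, ∑ j, v j * tv (g 0 0 * p + g 0 1 * q) (g 1 0 * p + g 1 1 * q) j
      = k * imf p q) : (fun w : OnePoint ℂ => g • w) '' Rh = Zc v := by
  ext y
  constructor
  · rintro ⟨x, hx, rfl⟩
    obtain ⟨l, hl, e⟩ := Q_smul v g x
    show Q v (g • x) = 0
    rw [e, h, (mem_Rh x).mp hx]; ring
  · intro hy
    refine ⟨g⁻¹ • y, ?_, by simp⟩
    rw [mem_Rh]
    obtain ⟨l, hl, e⟩ := Q_smul v g (g⁻¹ • y)
    rw [h, smul_inv_smul] at e
    have hy' : Q v y = 0 := hy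
    rw [hy'] at e
    have : l * (k * imf (rp (g⁻¹ • y)).1 (rp (g⁻¹ • y)).2) = 0 := e.symm
    rcases mul_eq_zero.mp this with h1 | h1
    · exact absurd h1 hl.ne'
    · rcases mul_eq_zero.mp h1 with h2 | h2
      · exact absurd h2 hk
      · exact h2

lemma circ_form (S : Set X) (hS : IsCirc S) : ∃ v : Fin 4 → ℝ, B v v = 4 ∧ S = Zc v := by
  obtain ⟨g, rfl⟩ := hS
  obtain ⟨m, hm⟩ : ∃ m : GL2, m = g⁻¹ := ⟨_, rfl⟩
  have hdet : m 0 0 * m 1 1 - m 0 1 * m 1 0 ≠ 0 := by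
    have := m.det_ne_zero
    rwa [Matrix.det_fin_two] at this
  obtain ⟨a, ha⟩ : ∃ a, a = m 0 0 := ⟨_, rfl⟩
  obtain ⟨b, hb⟩ : ∃ b, b = m 0 1 := ⟨_, rfl⟩
  obtain ⟨c, hc⟩ : ∃ c, c = m 1 0 := ⟨_, rfl⟩
  obtain ⟨d, hd⟩ : ∃ d, d = m 1 1 := ⟨_, rfl⟩
  rw [← ha, ← hb, ← hc, ← hd] at hdet
  obtain ⟨s, hs⟩ : ∃ s, s = ‖a * d - b * c‖ := ⟨_, rfl⟩
  have hs0 : 0 < s := by rw [hs]; exact norm_pos_iff.mpr hdet
  have hs2 : s^2 = (a * d - b * c).re^2 + (a * d - b * c).im^2 := by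
    rw [hs, ← Complex.normSq_eq_norm_sq, Complex.normSq_apply]; ring
  obtain ⟨A, hA⟩ : ∃ A, A = a.im*c.re - a.re*c.im := ⟨_, rfl⟩
  obtain ⟨D, hD⟩ : ∃ D, D = b.im*d.re - b.re*d.im := ⟨_, rfl⟩
  obtain ⟨Xc, hX⟩ : ∃ Xc, Xc = (a.im*d.re - a.re*d.im) + (b.im*c.re-b.re*c.im) := ⟨_, rfl⟩
  obtain ⟨Y, hY⟩ : ∃ Y, Y = (a.re*d.re + a.im*d.im) - (b.re*c.re+b.im*c.im) := ⟨_, rfl⟩
  have hn : (Xc^2+Y^2)/4 - A*D = s^2/4 := by
    rw [hs2, hX, hY, hA, hD]; simp; ring
  refine ⟨fun j => (4/s) * (![-Y/4, A/2+Y/4, Y/4+D/2, A/2+Xc/2+Y/4+D/2] : Fin 4 → ℝ) j, ?_, ?_⟩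
  · have : s^2 = Xc^2+Y^2-4*A*D := by linarith
    simp [B, Fin.sum_univ_four]
    field_simp
    rw [this]
    ring
  · ext y
    have e1 : y ∈ (fun w : OnePoint ℂ => g • w) '' Rh ↔ m • y ∈ Rh := by
      constructor
      · rintro ⟨x, hx, rfl⟩
        rw [hm]; simpa using hx
      · intro h
        exact ⟨m • y, h, by simp [hm]⟩
    rw [e1, mem_Rh]
    obtain ⟨mu, hmu, h⟩ := smul_rp m y
    rw [h]
    simp only
    rw [imf_smul, ← ha, ← hb, ← hc, ← hd]
    have hmu' : 0 < mu.re^2+mu.im^2 := by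
      have := Complex.normSq_pos.mpr hmu
      rw [Complex.normSq_apply] at this
      nlinarith
    have e2 : Q (fun j => (4/s) * (![-Y/4, A/2+Y/4, Y/4+D/2, A/2+Xc/2+Y/4+D/2] : Fin 4 → ℝ) j) y
        = (4/s) * imf (a * (rp y).1 + b * (rp y).2) (c * (rp y).1 + d * (rp y).2) := by
      rw [Q_tv]
      generalize (rp y).1 = p
      generalize (rp y).2 = q
      rw [hA, hD, hX, hY]
      simp [Fin.sum_univ_four, tv, imf]
      ring
    show _ ↔ Q _ y = 0
    rw [e2]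
    have h4 : (4/s) ≠ 0 := by positivity
    constructor
    · intro h
      rcases mul_eq_zero.mp h with h | h
      · exact absurd h hmu'.ne'
      · rw [h]; ring
    · intro h
      rcases mul_eq_zero.mp h with h | h
      · exact absurd h h4
      · rw [h]; ring

lemma circ_Rh : IsCirc Rh := ⟨1, by simp⟩

lemma Ci_circ (i : Fin 4) : IsCirc (Ci i) := by
  fin_cases i
  · refine ⟨1, (img_Rh 1 (sgm 0) 4 (by norm_num) ?_).symm⟩
    intro p q
    simp [sgm, tv, imf, Fin.sum_univ_four]; ring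
  · refine ⟨Matrix.GeneralLinearGroup.mkOfDetNeZero !![1, Complex.I; 0, 1] (by simp),
      (img_Rh _ (sgm 1) (-4) (by norm_num) ?_).symm⟩
    intro p q
    simp [sgm, tv, imf, Fin.sum_univ_four, Matrix.GeneralLinearGroup.mkOfDetNeZero]; ring
  · refine ⟨Matrix.GeneralLinearGroup.mkOfDetNeZero !![0, 1; 1, -Complex.I] (by simp),
      (img_Rh _ (sgm 2) 4 (by norm_num) ?_).symm⟩
    intro p q
    simp [sgm, tv, imf, Fin.sum_univ_four, Matrix.GeneralLinearGroup.mkOfDetNeZero]; ring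
  · refine ⟨Matrix.GeneralLinearGroup.mkOfDetNeZero !![1, 1-Complex.I; 1, -Complex.I]
        (by rw [Matrix.det_fin_two]; simp; intro h; have := congrArg Complex.re h; simp at this),
      (img_Rh _ (sgm 3) 4 (by norm_num) ?_).symm⟩
    intro p q
    simp [sgm, tv, imf, Fin.sum_univ_four, Matrix.GeneralLinearGroup.mkOfDetNeZero]; ring

lemma conj_Rh : conjX '' Rh = Rh := by
  have h : ∀ x, x ∈ Rh → conjX x ∈ Rh := by
    intro x hx
    rw [mem_Rh] at hx ⊢
    rw [rp_conj]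
    simp [imf] at hx ⊢
    linarith
  ext y
  constructor
  · rintro ⟨x, hx, rfl⟩
    exact h x hx
  · intro hy
    exact ⟨conjX y, h y hy, conjX_conjX y⟩

lemma rho_circ (i : Fin 4) (S : Set X) (hS : IsCirc S) : IsCirc (rho i '' S) := by
  obtain ⟨g, rfl⟩ := hS
  refine ⟨Mg i * cg g, ?_⟩
  ext y
  constructor
  · rintro ⟨_, ⟨x, hx, rfl⟩, rfl⟩
    refine ⟨conjX x, ?_, ?_⟩
    · rw [← conj_Rh]; exact ⟨x, hx, rfl⟩
    · show (Mg i * cg g) • conjX x = rho i (g • x)
      unfold rho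
      rw [conjX_smul, mul_smul]
  · rintro ⟨x, hx, rfl⟩
    refine ⟨g • conjX x, ⟨conjX x, ?_, rfl⟩, ?_⟩
    · rw [← conj_Rh]; exact ⟨x, hx, rfl⟩
    · show rho i (g • conjX x) = (Mg i * cg g) • x
      unfold rho
      rw [conjX_smul, mul_smul, conjX_conjX]

lemma act_circ (w : List (Fin 4)) (S : Set X) (hS : IsCirc S) : IsCirc (act w '' S) := by
  induction w with
  | nil => simpa using hS
  | cons i w ih =>
    have : act (i :: w) '' S = rho i '' (act w '' S) := by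
      rw [Set.image_image]; rfl
    rw [this]
    exact rho_circ i _ ih

lemma act_inj (w : List (Fin 4)) : Function.Injective (act w) := by
  intro x y h
  rw [← act_rev w x, ← act_rev w y, h]

lemma act_Zc (w : List (Fin 4)) (v : Fin 4 → ℝ) : act w '' (Zc v) = Zc (lc w v) := by
  ext y
  constructor
  · rintro ⟨x, hx, rfl⟩
    obtain ⟨l, hl, h⟩ := Q_act w x
    show Q _ _ = 0
    have hx' : Q v x = 0 := hx
    rw [h, hx']; ring
  · intro hy
    refine ⟨act w.reverse y, ?_, act_rev' w y⟩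
    obtain ⟨l, hl, h⟩ := Q_act w (act w.reverse y)
    have h1 := h v
    rw [act_rev'] at h1
    have hy' : Q (lc w v) y = 0 := hy
    rw [hy'] at h1
    rcases mul_eq_zero.mp h1.symm with h2 | h2
    · exact absurd h2 hl.ne'
    · exact h2

lemma act_act_image (u w : List (Fin 4)) (S : Set X) : act u '' (act w '' S) = act (u ++ w) '' S := by
  rw [Set.image_image]
  congr 1
  ext x
  rw [act_append]

lemma act_rev_image (w : List (Fin 4)) (S : Set X) : act w.reverse '' (act w '' S) = S := by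
  rw [Set.image_image]
  simp [act_rev]

lemma act_rev_image' (w : List (Fin 4)) (S : Set X) : act w '' (act w.reverse '' S) = S := by
  rw [Set.image_image]
  simp [act_rev']

lemma Tg_image (f : X → X) (hf : Function.Injective f) (S T : Set X) (h : Tg S T) :
    Tg (f '' S) (f '' T) := by
  obtain ⟨p, ⟨hp1, hp2⟩, hu⟩ := h
  refine ⟨f p, ⟨⟨p, hp1, rfl⟩, ⟨p, hp2, rfl⟩⟩, ?_⟩
  rintro y ⟨⟨a, ha, rfl⟩, ⟨b, hb, hab⟩⟩
  have := hf hab
  subst this
  rw [hu b ⟨ha, hb⟩]

/-! ### four distinct indices -/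

def Quad (i j k l : Fin 4) : Prop := i ≠ j ∧ i ≠ k ∧ i ≠ l ∧ j ≠ k ∧ j ≠ l ∧ k ≠ l

instance (i j k l : Fin 4) : Decidable (Quad i j k l) := by unfold Quad; infer_instance

lemma sum4 {K : Type*} [AddCommMonoid K] {i j k l : Fin 4} (h : Quad i j k l) (f : Fin 4 → K) :
    ∑ a, f a = f i + f j + f k + f l := by
  have hu : (Finset.univ : Finset (Fin 4)) = {i, j, k, l} := by
    revert i j k l; decide
  obtain ⟨h1, h2, h3, h4, h5, h6⟩ := h
  rw [hu, Finset.sum_insert, Finset.sum_insert, Finset.sum_insert, Finset.sum_singleton]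
  · simp only [add_assoc]
  · simp [h6]
  · simp [h4, h5]
  · simp [h1, h2, h3]

lemma exists_quad (i : Fin 4) : ∃ j k l, Quad i j k l := by revert i; decide

lemma exists_fourth {i j k : Fin 4} (h1 : i ≠ j) (h2 : i ≠ k) (h3 : j ≠ k) :
    ∃ l, Quad i j k l := by revert i j k; decide

lemma quad_cases {i j k l : Fin 4} (h : Quad i j k l) (a : Fin 4) :
    a = i ∨ a = j ∨ a = k ∨ a = l := by revert i j k l a; decide

lemma pt_param {i j k l : Fin 4} (h : Quad i j k l) (u v : ℝ) (huv : u ≠ 0 ∨ v ≠ 0) :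
    ∃ x : X, ∃ m : ℝ, 0 < m ∧ t x i = m * (u^2+u*v+v^2) ∧ t x j = m * (-(u*v)) ∧
      t x k = m * (u*(u+v)) ∧ t x l = m * (v*(u+v)) := by
  have h' := h
  obtain ⟨h1, h2, h3, h4, h5, h6⟩ := h
  have hpos : 0 < u^2+u*v+v^2 := by
    rcases huv with h | h
    · have : 0 < u^2 := by positivity
      nlinarith [sq_nonneg (u+2*v)]
    · have : 0 < v^2 := by positivity
      nlinarith [sq_nonneg (2*u+v)]
  obtain ⟨x, m, hm, hx⟩ := t_surj (fun a => if a = i then u^2+u*v+v^2 else if a = j then -(u*v)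
    else if a = k then u*(u+v) else v*(u+v)) (by
      rw [sum4 h', sum4 h']
      simp only [if_true, h1.symm, h2.symm, h3.symm, h4.symm, h5.symm, h6.symm, if_false]
      ring) (by
      rw [sum4 h']
      simp only [if_true, h1.symm, h2.symm, h3.symm, h4.symm, h5.symm, h6.symm, if_false]
      nlinarith)
  refine ⟨x, m, hm, ?_, ?_, ?_, ?_⟩
  · rw [hx]; simp
  · rw [hx]; simp [h1.symm]
  · rw [hx]; simp [h2.symm, h4.symm]
  · rw [hx]; simp [h3.symm, h5.symm, h6.symm]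

/-- a circle tangent to a base circle has the corresponding coordinate `±1` -/
lemma tan_coord (i : Fin 4) (v : Fin 4 → ℝ) (hv : B v v = 4) (h : Tg (Ci i) (Zc v)) :
    (v i)^2 = 1 := by
  obtain ⟨j, k, l, hq⟩ := exists_quad i
  have hq' := hq
  obtain ⟨h1, h2, h3, h4, h5, h6⟩ := hq
  obtain ⟨p, ⟨hp1, hp2⟩, hu⟩ := h
  have hv' : 2*((v i)^2+(v j)^2+(v k)^2+(v l)^2) - (v i+v j+v k+v l)^2 = 4 := by
    rw [← hv]; unfold B; rw [sum4 hq', sum4 hq']; ring
  obtain ⟨α, hα⟩ : ∃ α, α = v i + v k := ⟨_, rfl⟩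
  obtain ⟨β, hβ⟩ : ∃ β, β = v i - v j + v k + v l := ⟨_, rfl⟩
  obtain ⟨γ, hγ⟩ : ∃ γ, γ = v i + v l := ⟨_, rfl⟩
  have hdisc : β^2 - 4*α*γ = 4 - 4*(v i)^2 := by
    rw [hα, hβ, hγ]; nlinarith
  have hmem : ∀ a b : ℝ, (a ≠ 0 ∨ b ≠ 0) → α*a^2+β*a*b+γ*b^2 = 0 →
      ∃ x : X, x ∈ Ci i ∩ Zc v ∧ ∃ m : ℝ, 0 < m ∧ t x i = m * (a^2+a*b+b^2) ∧
        t x j = m * (-(a*b)) ∧ t x k = m * (a*(a+b)) ∧ t x l = m * (b*(a+b)) := by
    intro a b hab hz
    obtain ⟨x, m, hm, e1, e2, e3, e4⟩ := pt_param hq' a b hab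
    refine ⟨x, ⟨?_, ?_⟩, m, hm, e1, e2, e3, e4⟩
    · show Q _ _ = 0
      unfold Q
      rw [sum4 hq', e1, e2, e3, e4]
      simp [sgm, h1.symm, h2.symm, h3.symm]
      ring
    · show Q _ _ = 0
      unfold Q
      rw [sum4 hq', e1, e2, e3, e4]
      have : m * (α*a^2+β*a*b+γ*b^2) = 0 := by rw [hz]; ring
      rw [hα, hβ, hγ] at this
      linarith
  by_contra hne
  have hd0 : β^2 - 4*α*γ ≠ 0 := by
    rw [hdisc]; intro h; apply hne; linarith
  -- nonnegativity of the discriminant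
  have hd1 : 0 ≤ β^2 - 4*α*γ := by
    have e1 : t p j + t p k + t p l = t p i := by
      have : Q (sgm i) p = 0 := hp1
      unfold Q at this
      rw [sum4 hq'] at this
      simp [sgm, h1.symm, h2.symm, h3.symm] at this
      linarith
    have e2 : v i * t p i + v j * t p j + v k * t p k + v l * t p l = 0 := by
      have : Q v p = 0 := hp2
      unfold Q at this
      rwa [sum4 hq'] at this
    have e3 := t_null p
    have e4 := sg_pos p
    unfold sg at e3 e4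
    rw [sum4 hq', sum4 hq'] at e3
    rw [sum4 hq'] at e4
    have e5 : t p j * t p k + t p k * t p l + t p j * t p l = 0 := by
      rw [← e1] at e3; nlinarith
    rw [← e1] at e2
    generalize t p j = J at *
    generalize t p k = K at *
    generalize t p l = L at *
    have e6 : α*K^2+β*K*L+γ*L^2 = 0 := by
      have : (K+L)*((v i)*(J+K+L)+v j*J+v k*K+v l*L) = 0 := by rw [e2]; ring
      rw [hα, hβ, hγ]
      linear_combination this - (v i + v j) * e5
    by_cases hL : L = 0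
    · by_cases hK : K = 0
      · subst hL hK
        have hJ : J ≠ 0 := by
          intro hJ; subst hJ; linarith
        have : v i + v j = 0 := by
          have : (v i + v j) * J = 0 := by linarith
          rcases mul_eq_zero.mp this with h | h
          · exact h
          · exact absurd h hJ
        have hb : β = α + γ := by rw [hα, hβ, hγ]; linarith
        rw [hb]; nlinarith [sq_nonneg (α - γ)]
      · subst hL
        have : α = 0 := by
          have : α * K^2 = 0 := by linarith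
          rcases mul_eq_zero.mp this with h | h
          · exact h
          · exact absurd (pow_eq_zero_iff (two_ne_zero) |>.mp h) hK
        rw [this]; nlinarith [sq_nonneg β]
    · have hL2 : 0 < L^2 := by positivity
      have : (β^2-4*α*γ) * L^2 = (2*α*K+β*L)^2 := by linear_combination (-4*α) * e6
      by_contra hneg
      push Not at hneg
      nlinarith [sq_nonneg (2*α*K+β*L), mul_pos (neg_pos.mpr hneg) hL2]
  have hd2 : 0 < β^2 - 4*α*γ := lt_of_le_of_ne hd1 (Ne.symm hd0)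
  -- two distinct solutions
  have two : ∃ a b c d : ℝ, (a ≠ 0 ∨ b ≠ 0) ∧ (c ≠ 0 ∨ d ≠ 0) ∧ α*a^2+β*a*b+γ*b^2 = 0 ∧
      α*c^2+β*c*d+γ*d^2 = 0 ∧ a*d - b*c ≠ 0 := by
    by_cases ha : α = 0
    · have hb : β ≠ 0 := by
        intro hb; rw [ha, hb] at hd2; simp at hd2
      refine ⟨1, 0, -γ, β, Or.inl one_ne_zero, Or.inr hb, ?_, ?_, ?_⟩
      · rw [ha]; ring
      · rw [ha]; ring
      · simpa using hb
    · obtain ⟨s, hs⟩ : ∃ s, s = √(β^2-4*α*γ) := ⟨_, rfl⟩
      have hs2 : s^2 = β^2-4*α*γ := by rw [hs]; exact Real.sq_sqrt hd1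
      have hs0 : 0 < s := by rw [hs]; exact Real.sqrt_pos.mpr hd2
      refine ⟨-β+s, 2*α, -β-s, 2*α, Or.inr (by simpa using ha), Or.inr (by simpa using ha), ?_, ?_, ?_⟩
      · linear_combination α * hs2
      · linear_combination α * hs2
      · have : (-β+s)*(2*α) - 2*α*(-β-s) = 4*α*s := by ring
        rw [this]
        exact mul_ne_zero (mul_ne_zero (by norm_num) ha) hs0.ne'
  obtain ⟨a, b, c, d, hab, hcd, z1, z2, hcr⟩ := two
  obtain ⟨x, hx, m, hm, x1, x2, x3, x4⟩ := hmem a b hab z1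
  obtain ⟨y, hy, n, hn, y1, y2, y3, y4⟩ := hmem c d hcd z2
  have hxy : x = y := by rw [hu x hx, hu y hy]
  subst hxy
  apply hcr
  have f1 : m*(a*b) = n*(c*d) := by linarith
  have f2 : m*a^2 = n*c^2 := by
    have : m * (a*(a+b)) = n * (c*(c+d)) := by rw [← x3, y3]
    linarith
  have f3 : m*b^2 = n*d^2 := by
    have : m * (b*(a+b)) = n * (d*(c+d)) := by rw [← x4, y4]
    linarith
  have f4 : (m*n)*(a*d-b*c)^2 = 0 := by
    have : (m*n)*(a*d-b*c)^2 = (m*a^2)*(n*d^2) - 2*(m*(a*b))*(n*(c*d)) + (m*b^2)*(n*c^2) := by ring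
    rw [this, f1, f2, f3]; ring
  rcases mul_eq_zero.mp f4 with h | h
  · exact absurd h (by positivity)
  · exact pow_eq_zero_iff (two_ne_zero) |>.mp h

end H26Apo
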