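import Pool.Agent.H26R3.ApoLim

set_option autoImplicit false

open OnePoint ComplexConjugate Filter Topology

namespace H26Apo

noncomputable def aa : ℝ := 2 - √2
noncomputable def rr : ℝ := 2 + √2
noncomputable def mu : ℝ := 17 + 12 * √2

noncomputable def cinf : Fin 4 → ℝ :=
  ![0 + √6/2, 1/2 - √6/2, 1 - √6/2, -1/2 - √6/2]
noncomputable def fN (b : ℝ) : Fin 4 → ℝ := ![0, 1/2, b^2/2, 1/2 - b + b^2/2]

lemma s2 : √2 * √2 = 2 := Real.mul_self_sqrt (by norm_num)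
lemma s2' : (√2)^2 = 2 := Real.sq_sqrt (by norm_num)
lemma s2pos : 0 < √2 := Real.sqrt_pos.mpr (by norm_num)
lemma s2lt : √2 < 3/2 := by
  have := s2'; have h := s2pos; nlinarith
lemma s2gt : 1 < √2 := by
  have := s2'; have h := s2pos; nlinarith

lemma mu_pos : 0 < mu := by unfold mu; have := s2pos; positivity
lemma mu_gt : 1 < mu := by unfold mu; have := s2pos; linarith
lemma mu_inv : mu⁻¹ = 17 - 12 * √2 := by
  rw [inv_eq_iff_eq_inv, eq_comm, inv_eq_iff_eq_inv]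
  have h : (17 - 12 * √2) * mu = 1 := by
    unfold mu; have := s2'; nlinarith
  exact (eq_inv_of_mul_eq_one_left h)

lemma aa_sq : aa^2 = 4 * aa - 2 := by unfold aa; have := s2'; nlinarith
lemma rr_sq : rr^2 = 4 * rr - 2 := by unfold rr; have := s2'; nlinarith

lemma QN (b : ℝ) (x : X) : Q (fN b) x =
    ((rp x).1.re - b * (rp x).2.re)^2 + ((rp x).1.im - b * (rp x).2.im)^2 := by
  rw [Q_tv]
  simp [fN, tv, Fin.sum_univ_four]
  ring

lemma QN_nonneg (b : ℝ) (x : X) : 0 ≤ Q (fN b) x := by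
  rw [QN]; positivity

lemma QN_zero (b : ℝ) (x : X) : Q (fN b) x = 0 ↔ x = ((b : ℂ) : X) := by
  rw [QN]
  constructor
  · intro h
    have h1 : ((rp x).1.re - b * (rp x).2.re)^2 = 0 := by nlinarith [sq_nonneg ((rp x).1.re - b * (rp x).2.re), sq_nonneg ((rp x).1.im - b * (rp x).2.im)]
    have h2 : ((rp x).1.im - b * (rp x).2.im)^2 = 0 := by nlinarith [sq_nonneg ((rp x).1.re - b * (rp x).2.re), sq_nonneg ((rp x).1.im - b * (rp x).2.im)]
    have h1' := pow_eq_zero_iff (two_ne_zero) |>.mp h1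
    have h2' := pow_eq_zero_iff (two_ne_zero) |>.mp h2
    induction x using OnePoint.rec with
    | infty => simp at h1'
    | coe z =>
      simp at h1' h2'
      have : z = (b : ℂ) := Complex.ext (by simp; linarith) (by simp; linarith)
      rw [this]
  · rintro rfl
    simp

lemma Qinf (b : ℝ) (hb : b^2 = 4*b-2) : Q cinf ((b : ℂ) : X) = 0 := by
  rw [Q_tv]
  simp [cinf, tv, Fin.sum_univ_four]
  nlinarith

lemma Rc1_inf : Rc 1 cinf = cinf := by
  ext j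
  fin_cases j <;> simp [Rc, cinf, Fin.sum_univ_four]
  ring

lemma Rc1_a : Rc 1 (fN aa) = fun j => mu⁻¹ * fN rr j := by
  have h := s2'
  rw [mu_inv]
  ext j
  fin_cases j <;> simp [Rc, fN, Fin.sum_univ_four, aa, rr] <;> nlinarith

lemma Rc1_r : Rc 1 (fN rr) = fun j => mu * fN aa j := by
  have h := s2'
  ext j
  fin_cases j <;> simp [Rc, fN, Fin.sum_univ_four, aa, rr, mu] <;> nlinarith

lemma lc_inf : lc [2,3,2] cinf = cinf := by
  ext j
  fin_cases j <;> simp [Rc, cinf, Fin.sum_univ_four] <;> ring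

lemma lc_a : lc [2,3,2] (fN aa) = fN rr := by
  have h := s2'
  ext j
  fin_cases j <;> simp [Rc, fN, Fin.sum_univ_four, aa, rr] <;> nlinarith

lemma lc_r : lc [2,3,2] (fN rr) = fN aa := by
  have h := s2'
  ext j
  fin_cases j <;> simp [Rc, fN, Fin.sum_univ_four, aa, rr] <;> nlinarith

lemma Q_scal (k : ℝ) (c : Fin 4 → ℝ) (x : X) : Q (fun j => k * c j) x = k * Q c x := by
  unfold Q
  rw [Finset.mul_sum]
  exact Finset.sum_congr rfl (fun j _ => by ring)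

lemma tr1 (x : X) : ∃ l : ℝ, 0 < l ∧ Q cinf (rho 1 x) = l * Q cinf x ∧
    Q (fN aa) (rho 1 x) = l * (mu⁻¹ * Q (fN rr) x) ∧ Q (fN rr) (rho 1 x) = l * (mu * Q (fN aa) x) := by
  obtain ⟨l, hl, h⟩ := Q_rho 1 x
  have h' : ∀ c, Q c (rho 1 x) = l * Q (Rc 1 c) x := by
    intro c
    have := h (Rc 1 c)
    rwa [Rc_invol] at this
  refine ⟨l, hl, ?_, ?_, ?_⟩
  · rw [h', Rc1_inf]
  · rw [h', Rc1_a, Q_scal]
  · rw [h', Rc1_r, Q_scal]

lemma tr2 (x : X) : ∃ l : ℝ, 0 < l ∧ Q cinf (act [2,3,2] x) = l * Q cinf x ∧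
    Q (fN aa) (act [2,3,2] x) = l * Q (fN rr) x ∧ Q (fN rr) (act [2,3,2] x) = l * Q (fN aa) x := by
  obtain ⟨l, hl, h⟩ := Q_act [2,3,2] x
  have h' : ∀ c, Q c (act [2,3,2] x) = l * Q (lc [2,3,2] c) x := by
    intro c
    have := h (lc [2,3,2] c)
    have e := lc_rev [2,3,2] c
    rw [show ([2,3,2] : List (Fin 4)).reverse = [2,3,2] from rfl] at e
    rwa [e] at this
  refine ⟨l, hl, ?_, ?_, ?_⟩
  · rw [h', lc_inf]
  · rw [h', lc_a]
  · rw [h', lc_r]

/-- coefficients -/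
def Zs : Set ℝ := {s | s = 0 ∨ ∃ k : ℤ, s = 2 * mu^k}

def E : Set X := {x | ∃ s ∈ Zs, Q cinf x + s * Q (fN aa) x = 0 ∨ Q cinf x + s * Q (fN rr) x = 0}

lemma Zs_mul (s : ℝ) (hs : s ∈ Zs) : mu * s ∈ Zs ∧ mu⁻¹ * s ∈ Zs := by
  have hm := mu_pos.ne'
  rcases hs with rfl | ⟨k, rfl⟩
  · simp [Zs]
  · constructor
    · right; refine ⟨k+1, ?_⟩; rw [zpow_add_one₀ hm]; ring
    · right; refine ⟨k-1, ?_⟩; rw [zpow_sub_one₀ hm]; ring

lemma E_1 (x : X) (hx : x ∈ E) : rho 1 x ∈ E := by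
  obtain ⟨l, hl, h1, h2, h3⟩ := tr1 x
  have hm := mu_pos.ne'
  obtain ⟨s, hs, h | h⟩ := hx
  · refine ⟨mu⁻¹ * s, (Zs_mul s hs).2, Or.inr ?_⟩
    rw [h1, h3]
    have : l * Q cinf x + mu⁻¹ * s * (l * (mu * Q (fN aa) x)) = l * (Q cinf x + s * Q (fN aa) x) := by
      field_simp
    rw [this, h]; ring
  · refine ⟨mu * s, (Zs_mul s hs).1, Or.inl ?_⟩
    rw [h1, h2]
    have : l * Q cinf x + mu * s * (l * (mu⁻¹ * Q (fN rr) x)) = l * (Q cinf x + s * Q (fN rr) x) := by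
      field_simp
    rw [this, h]; ring

lemma E_2 (x : X) (hx : x ∈ E) : act [2,3,2] x ∈ E := by
  obtain ⟨l, hl, h1, h2, h3⟩ := tr2 x
  obtain ⟨s, hs, h | h⟩ := hx
  · refine ⟨s, hs, Or.inr ?_⟩
    rw [h1, h3]
    have : l * Q cinf x + s * (l * Q (fN aa) x) = l * (Q cinf x + s * Q (fN aa) x) := by ring
    rw [this, h]; ring
  · refine ⟨s, hs, Or.inl ?_⟩
    rw [h1, h2]
    have : l * Q cinf x + s * (l * Q (fN rr) x) = l * (Q cinf x + s * Q (fN rr) x) := by ring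
    rw [this, h]; ring

lemma Zs_closed : IsClosed Zs := by
  rw [← isOpen_compl_iff, isOpen_iff_mem_nhds]
  intro y hy
  have hy' : y ∉ Zs := hy
  rcases lt_trichotomy y 0 with h | h | h
  · filter_upwards [Iio_mem_nhds h] with z hz
    rintro (rfl | ⟨k, rfl⟩)
    · exact absurd (show (0:ℝ) < 0 from hz) (lt_irrefl 0)
    · have := zpow_pos mu_pos k
      have hz' : 2 * mu^k < 0 := hz
      linarith
  · exact absurd (Or.inl h) hy'
  · obtain ⟨n, hn1, hn2⟩ := exists_mem_Ico_zpow (x := y/2) (by linarith) mu_gt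
    have hne : 2 * mu^n ≠ y := fun h' => hy' (Or.inr ⟨n, h'.symm⟩)
    have h1 : 2 * mu^n < y := lt_of_le_of_ne (by linarith) hne
    have h2 : y < 2 * mu^(n+1) := by linarith
    filter_upwards [Ioo_mem_nhds h1 h2] with z hz
    rintro (rfl | ⟨k, rfl⟩)
    · have := zpow_pos mu_pos n
      have := hz.1
      linarith
    · have a1 : mu^n < mu^k := by linarith [hz.1]
      have a2 : mu^k < mu^(n+1) := by linarith [hz.2]
      rw [zpow_lt_zpow_iff_right₀ mu_gt] at a1 a2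
      omega

lemma Eb_closed (b : ℝ) (hb : b^2 = 4*b-2) :
    IsClosed {x : X | ∃ s ∈ Zs, Q cinf x + s * Q (fN b) x = 0} := by
  have heq : ∀ x s, Q cinf x + s * Q (fN b) x
      = sg x * ((∑ j, cinf j * tau x j) + s * ∑ j, fN b j * tau x j) := by
    intro x s
    rw [Q_eq, Q_eq]; ring
  rw [← isOpen_compl_iff, isOpen_iff_mem_nhds]
  intro x hx
  have hx' : ¬ ∃ s ∈ Zs, Q cinf x + s * Q (fN b) x = 0 := hx
  have hN : (∑ j, fN b j * tau x j) ≠ 0 := by
    intro h0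
    have : Q (fN b) x = 0 := by rw [Q_eq, h0]; ring
    rw [QN_zero] at this
    subst this
    exact hx' ⟨0, Or.inl rfl, by rw [Qinf b hb]; ring⟩
  have hf : - (∑ j, cinf j * tau x j) / (∑ j, fN b j * tau x j) ∉ Zs := by
    intro h
    apply hx'
    refine ⟨_, h, ?_⟩
    rw [heq]
    field_simp
    ring
  have hc : ContinuousAt (fun y : X => - (∑ j, cinf j * tau y j) / (∑ j, fN b j * tau y j)) x :=
    ContinuousAt.div ((Qn_cont cinf).continuousAt.neg) (Qn_cont (fN b)).continuousAt hN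
  have n1 := hc.preimage_mem_nhds (Zs_closed.isOpen_compl.mem_nhds hf)
  have n2 := (Qn_cont (fN b)).continuousAt.preimage_mem_nhds (isOpen_ne.mem_nhds hN)
  filter_upwards [n1, n2] with y hy1 hy2
  rintro ⟨s, hs, h⟩
  apply hy1
  have hy2' : (∑ j, fN b j * tau y j) ≠ 0 := hy2
  rw [heq] at h
  rcases mul_eq_zero.mp h with h | h
  · exact absurd h (sg_pos y).ne'
  · have : - (∑ j, cinf j * tau y j) / (∑ j, fN b j * tau y j) = s := by
      rw [div_eq_iff hy2']; linarith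
    show - (∑ j, cinf j * tau y j) / (∑ j, fN b j * tau y j) ∈ Zs
    rw [this]; exact hs

lemma E_closed : IsClosed E := by
  have : E = {x : X | ∃ s ∈ Zs, Q cinf x + s * Q (fN aa) x = 0}
      ∪ {x : X | ∃ s ∈ Zs, Q cinf x + s * Q (fN rr) x = 0} := by
    ext x
    constructor
    · rintro ⟨s, hs, h | h⟩
      · exact Or.inl ⟨s, hs, h⟩
      · exact Or.inr ⟨s, hs, h⟩
    · rintro (⟨s, hs, h⟩ | ⟨s, hs, h⟩)
      · exact ⟨s, hs, Or.inl h⟩
      · exact ⟨s, hs, Or.inr h⟩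
  rw [this]
  exact (Eb_closed aa aa_sq).union (Eb_closed rr rr_sq)

/-! ### irrationality -/

lemma no_sq (d : ℕ) (hd : Irrational √(d : ℝ)) (A Y : ℤ) (h : A^2 = d * Y^2) : Y = 0 := by
  by_contra hY
  apply hd
  refine ⟨|(A : ℚ)| / |(Y : ℚ)|, ?_⟩
  have hY' : (Y : ℝ) ≠ 0 := by exact_mod_cast hY
  have h' : (A : ℝ)^2 = d * (Y : ℝ)^2 := by exact_mod_cast h
  symm
  rw [Real.sqrt_eq_iff_mul_self_eq (by positivity) (by positivity)]
  push_cast
  rw [div_mul_div_comm, abs_mul_abs_self, abs_mul_abs_self]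
  rw [eq_div_iff (by positivity)]
  nlinarith

lemma irr2 (A C : ℤ) (h : (A : ℝ) + C * √2 = 0) : A = 0 ∧ C = 0 := by
  have h2 := s2'
  have h3 : ((A^2 : ℤ) : ℝ) = ((2 * C^2 : ℤ) : ℝ) := by
    push_cast
    have : (A : ℝ) = - (C * √2) := by linarith
    rw [this]; nlinarith
  have h4 : A^2 = ((2 : ℕ) : ℤ) * C^2 := by exact_mod_cast h3
  have hC := no_sq 2 (by simpa using irrational_sqrt_two) A C h4
  subst hC
  simp at h4
  exact ⟨h4, rfl⟩

lemma irr6 (A C W : ℤ) (h : (A : ℝ) + C * √2 = √6 * W) : W = 0 ∧ A = 0 ∧ C = 0 := by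
  have h6 : (√6)^2 = 6 := Real.sq_sqrt (by norm_num)
  have h2 := s2'
  have e : ((A^2 + 2*C^2 - 6*W^2 : ℤ) : ℝ) + ((2*A*C : ℤ) : ℝ) * √2 = 0 := by
    push_cast
    have : ((A : ℝ) + C * √2)^2 = (√6 * W)^2 := by rw [h]
    nlinarith
  obtain ⟨e1, e2⟩ := irr2 _ _ e
  have hW : W = 0 := by
    have : A = 0 ∨ C = 0 := by
      rcases mul_eq_zero.mp e2 with h | h
      · left; omega
      · right; exact h
    rcases this with rfl | rfl
    · apply no_sq 3 _ C W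
      · push_cast; nlinarith
      · have := irrational_sqrt_ofNat_iff (n := 3)
        have h3 : ¬ IsSquare 3 := by
          rintro ⟨n, hn⟩
          have : n < 3 := by nlinarith
          interval_cases n <;> omega
        simpa using this.mpr h3
    · apply no_sq 6 _ A W
      · push_cast; nlinarith
      · have := irrational_sqrt_ofNat_iff (n := 6)
        have h3 : ¬ IsSquare 6 := by
          rintro ⟨n, hn⟩
          have : n < 6 := by nlinarith
          interval_cases n <;> omega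
        simpa using this.mpr h3
  subst hW
  refine ⟨rfl, ?_⟩
  exact irr2 A C (by rw [h]; simp)

lemma mu_zpow (k : ℤ) : ∃ u v : ℤ, mu^k = u + v * √2 ∧ u^2 - 2*v^2 = 1 := by
  have hm := mu_pos.ne'
  have h2 := s2'
  induction k using Int.induction_on with
  | zero => exact ⟨1, 0, by simp, by norm_num⟩
  | succ n ih =>
    obtain ⟨u, v, h, h'⟩ := ih
    refine ⟨17*u+24*v, 12*u+17*v, ?_, by nlinarith⟩
    rw [zpow_add_one₀ hm, h]
    unfold mu
    push_cast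
    linear_combination (12*(v:ℝ)) * h2
  | pred n ih =>
    obtain ⟨u, v, h, h'⟩ := ih
    refine ⟨17*u-24*v, -12*u+17*v, ?_, by nlinarith⟩
    rw [zpow_sub_one₀ hm, h, mu_inv]
    push_cast
    linear_combination (-12*(v:ℝ)) * h2

/-- the arithmetic core -/
lemma arith (k0 k1 k2 k3 u v : ℤ) (e : ℤ) (he : e = 1 ∨ e = -1)
    (hnull : 2*(k0^2+k1^2+k2^2+k3^2) = (k0+k1+k2+k3)^2) (hpos : 0 < k0+k1+k2+k3)
    (huv : u^2 - 2*v^2 = 1 ∨ (u = 0 ∧ v = 0))
    (hy : k1+k2+k3-k0 = 0)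
    (hA : (k1+2*k2-k3) + 2*u*(k1+6*k2+3*k3) + e*4*v*(4*k2+2*k3) = 0)
    (hB : 2*v*(k1+6*k2+3*k3) + e*2*u*(4*k2+2*k3) = 0) : False := by
  have h0 : k0 = k1+k2+k3 := by linarith
  subst h0
  have hn : k1*k2+k2*k3+k1*k3 = 0 := by nlinarith
  have he2 : e*e = 1 := by rcases he with rfl | rfl <;> norm_num
  obtain ⟨m, hm⟩ : ∃ m, m = k2 + k3 := ⟨_, rfl⟩
  obtain ⟨n, hn'⟩ : ∃ n, n = k3 - 2*m := ⟨_, rfl⟩
  have hk3 : k3 = n + 2*m := by linarith
  have hk2 : k2 = -n - m := by linarith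
  -- multiplied by m
  have c1 : m*(k1+6*k2+3*k3) = n^2+2*m^2 := by rw [hm] at hn' ⊢; subst hn'; nlinarith
  have c2 : m*(k1+2*k2-k3) = n^2-2*m^2 := by rw [hm] at hn' ⊢; subst hn'; nlinarith
  have c3 : 4*k2+2*k3 = -2*n := by linarith
  have a1 : (n^2-2*m^2) + 2*u*(n^2+2*m^2) - e*8*v*(n*m) = 0 := by
    have : m * ((k1+2*k2-k3) + 2*u*(k1+6*k2+3*k3) + e*4*v*(4*k2+2*k3)) = 0 := by rw [hA]; ring
    rw [c3] at this
    linear_combination this - c2 - 2*u*c1
  have a2 : 2*v*(n^2+2*m^2) - e*4*u*(n*m) = 0 := by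
    have : m * (2*v*(k1+6*k2+3*k3) + e*2*u*(4*k2+2*k3)) = 0 := by rw [hB]; ring
    rw [c3] at this
    linear_combination this - 2*v*c1
  -- norm computation
  have key : m = 0 ∧ n = 0 := by
    rcases huv with huv | ⟨hu, hv⟩
    · -- (n^2-2m^2)^2 = 4 (u^2-2v^2) (n^2-2m^2)^2
      have x1 : n^2-2*m^2 = -2*(u*(n^2+2*m^2)-4*e*v*(n*m)) := by linarith [a1]
      have x2 : (u*(n^2+2*m^2)-4*e*v*(n*m))^2 - 2*(v*(n^2+2*m^2)-2*e*u*(n*m))^2
          = (n^2-2*m^2)^2 := by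
        linear_combination (n^2-2*m^2)^2*huv + (16*v^2-8*u^2)*(n*m)^2*he2
      have x3 : v*(n^2+2*m^2)-2*e*u*(n*m) = 0 := by linarith [a2]
      rw [x3] at x2
      have x4 : (n^2-2*m^2)^2 = 4 * (u*(n^2+2*m^2)-4*e*v*(n*m))^2 := by
        rw [x1]; ring
      have x5 : (n^2-2*m^2)^2 = 0 := by linarith
      have x6 := pow_eq_zero_iff (two_ne_zero) |>.mp x5
      have x7 : n^2 = ((2:ℕ):ℤ) * m^2 := by push_cast; linarith
      have hm0 := no_sq 2 (by simpa using irrational_sqrt_two) n m x7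
      rw [hm0] at x7
      simp at x7
      exact ⟨hm0, x7⟩
    · subst hu hv
      have : n^2 = ((2:ℕ):ℤ) * m^2 := by push_cast; linarith
      have hm0 := no_sq 2 (by simpa using irrational_sqrt_two) n m this
      rw [hm0] at this
      simp at this
      exact ⟨hm0, this⟩
  obtain ⟨hm0, hn0⟩ := key
  have z3 : k3 = 0 := by rw [hk3, hm0, hn0]; ring
  have z2 : k2 = 0 := by rw [hk2, hm0, hn0]; ring
  rw [z2, z3] at hA hpos
  have : k1 * (1 + 2*u) = 0 := by linarith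
  rcases mul_eq_zero.mp this with h | h
  · omega
  · omega

end H26Apo
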