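import Pool.Agent.H26R3.ApoGrp

set_option autoImplicit false

open OnePoint ComplexConjugate Filter Topology

namespace H26Apo

noncomputable def fC (s : ℝ) : Fin 4 → ℝ := fun j => cinf j + s * fN aa j

noncomputable def ee : ℂ := ⟨√3, 1⟩

lemma s3' : (√3)^2 = 3 := Real.sq_sqrt (by norm_num)
lemma s62 : √6 * √2 = 2 * √3 := by
  have : √6 = √2 * √3 := by
    rw [← Real.sqrt_mul (by norm_num)]; norm_num
  rw [this]; linear_combination √3 * s2'

lemma ee_ne : ee ≠ 0 := by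
  intro h
  have := congrArg Complex.im h
  simp [ee] at this

noncomputable def M0 : GL2 := Matrix.GeneralLinearGroup.mkOfDetNeZero
  !![(aa : ℂ) * ee, (rr : ℂ); ee, 1] (by
    rw [Matrix.det_fin_two]
    simp
    intro h
    have h1 : ((aa : ℂ) - rr) * ee = 0 := by linear_combination h
    rcases mul_eq_zero.mp h1 with h2 | h2
    · have h3 := congrArg Complex.re h2
      simp at h3
      unfold aa rr at h3
      have := s2pos
      linarith
    · exact ee_ne h2)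

noncomputable def Us (s : ℝ) : GL2 where
  val := !![1, -(Complex.I * (s/4 : ℝ)); 0, 1]
  inv := !![1, (Complex.I * (s/4 : ℝ)); 0, 1]
  val_inv := by
    ext i j
    fin_cases i <;> fin_cases j <;> simp [Matrix.mul_apply, Fin.sum_univ_two]
  inv_val := by
    ext i j
    fin_cases i <;> fin_cases j <;> simp [Matrix.mul_apply, Fin.sum_univ_two]

noncomputable def Ms (s : ℝ) : GL2 := M0 * Us s

lemma Us_cont : Continuous Us := by
  rw [Units.continuous_iff]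
  constructor
  · apply continuous_matrix
    intro i j
    fin_cases i <;> fin_cases j <;> simp [Us] <;> fun_prop
  · apply continuous_matrix
    intro i j
    show Continuous fun s => (Us s).inv i j
    fin_cases i <;> fin_cases j <;> simp [Us] <;> fun_prop

lemma Ms_cont : Continuous Ms := continuous_const.mul Us_cont

lemma step1 (s q : ℂ) (σ : ℝ) : ∑ j, fC σ j * tv (aa * s + rr * q) (s + q) j
    = -8*(s.re*q.re+s.im*q.im) + 8*√3*(s.im*q.re-s.re*q.im) + 8*σ*(q.re^2+q.im^2) := by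
  have h2 := s2'
  have h6 := s62
  simp [fC, cinf, fN, tv, Fin.sum_univ_four, aa, rr]
  linear_combination ((s.re^2+s.im^2)+(q.re^2+q.im^2)-2*(s.re*q.re+s.im*q.im)
    + 4*σ*(q.re^2+q.im^2)) * h2 + 4*(s.im*q.re-s.re*q.im)*h6

lemma Ms_form (σ : ℝ) (p q : ℂ) : ∑ j, fC σ j * tv ((Ms σ) 0 0 * p + (Ms σ) 0 1 * q)
    ((Ms σ) 1 0 * p + (Ms σ) 1 1 * q) j = 32 * imf p q := by
  have h3 := s3'
  have e00 : (Ms σ) 0 0 = aa * ee := by
    simp [Ms, M0, Us, Matrix.mul_apply, Fin.sum_univ_two, Matrix.GeneralLinearGroup.mkOfDetNeZero]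
  have e01 : (Ms σ) 0 1 = - (aa * ee * (Complex.I * (σ/4 : ℝ))) + rr := by
    simp [Ms, M0, Us, Matrix.mul_apply, Fin.sum_univ_two, Matrix.GeneralLinearGroup.mkOfDetNeZero]
  have e10 : (Ms σ) 1 0 = ee := by
    simp [Ms, M0, Us, Matrix.mul_apply, Fin.sum_univ_two, Matrix.GeneralLinearGroup.mkOfDetNeZero]
  have e11 : (Ms σ) 1 1 = - (ee * (Complex.I * (σ/4 : ℝ))) + 1 := by
    simp [Ms, M0, Us, Matrix.mul_apply, Fin.sum_univ_two, Matrix.GeneralLinearGroup.mkOfDetNeZero]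
  obtain ⟨s, hs⟩ : ∃ s, s = ee * (p - Complex.I * (σ/4 : ℝ) * q) := ⟨_, rfl⟩
  have f1 : (Ms σ) 0 0 * p + (Ms σ) 0 1 * q = aa * s + rr * q := by
    rw [e00, e01, hs]; ring
  have f2 : (Ms σ) 1 0 * p + (Ms σ) 1 1 * q = s + q := by
    rw [e10, e11, hs]; ring
  rw [f1, f2, step1]
  have sre : s.re = √3*(p.re+σ/4*q.im) - (p.im-σ/4*q.re) := by
    rw [hs]; simp [ee]
  have sim : s.im = √3*(p.im-σ/4*q.re) + (p.re+σ/4*q.im) := by
    rw [hs]; simp [ee]
  rw [sre, sim]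
  unfold imf
  linear_combination 8*((p.im-σ/4*q.re)*q.re-(p.re+σ/4*q.im)*q.im)*h3

lemma Ms_img (σ : ℝ) : (fun w : OnePoint ℂ => Ms σ • w) '' Rh = Zc (fC σ) :=
  img_Rh (Ms σ) (fC σ) 32 (by norm_num) (Ms_form σ)

lemma Q_fC (σ : ℝ) (x : X) : Q (fC σ) x = Q cinf x + σ * Q (fN aa) x := by
  unfold fC; rw [Q_add]

def Cc : Set X := Zc (fC 2)

lemma Cc_E (x : X) (hx : x ∈ Cc) : x ∈ E := by
  have hx' : Q (fC 2) x = 0 := hx
  rw [Q_fC] at hx'
  exact ⟨2, Or.inr ⟨0, by simp⟩, Or.inl hx'⟩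

lemma pa_Cc : pa ∈ Cc := by
  show Q _ _ = 0
  rw [Q_fC, show Q cinf pa = 0 from Qinf aa aa_sq, (QN_zero aa pa).mpr rfl]; ring

lemma pa_ne_pr : pr ≠ pa := by
  intro h
  have h1 : ((rr : ℂ)) = (aa : ℂ) := OnePoint.coe_injective h
  have h2 : rr = aa := by exact_mod_cast h1
  unfold rr aa at h2
  have := s2pos
  linarith

lemma pr_Cc : pr ∉ Cc := by
  intro h
  have hx' : Q (fC 2) pr = 0 := h
  rw [Q_fC, show Q cinf pr = 0 from Qinf rr rr_sq] at hx'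
  have : Q (fN aa) pr = 0 := by linarith
  exact pa_ne_pr ((QN_zero aa pr).mp this)

def Ln : ℕ → List (Fin 4 → ℤ)
| 0 => []
| (n+1) => k34 :: e1 :: Ln n

lemma Ln_MM (n : ℕ) : ∀ m ∈ Ln n, MM m := by
  induction n with
  | zero => simp [Ln]
  | succ n ih =>
    intro m hm
    rw [Ln, List.mem_cons, List.mem_cons] at hm
    rcases hm with rfl | rfl | hm
    · exact Or.inr (Or.inl rfl)
    · exact Or.inl rfl
    · exact ih m hm

lemma Ln_even (n : ℕ) : Even (Ln n).length := by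
  induction n with
  | zero => simp [Ln]
  | succ n ih =>
    simp only [Ln, List.length_cons]
    obtain ⟨a, ha⟩ := ih
    exact ⟨a+1, by omega⟩

lemma step_Q (σ : ℝ) (x : X) : ∃ l : ℝ, 0 < l ∧
    Q (fC σ) (rf k34 (rf e1 x)) = l * Q (fC (mu * σ)) x := by
  rw [rf_e1, rf_k34]
  obtain ⟨l, hl, h1, h2, h3⟩ := tr1 x
  obtain ⟨l', hl', h1', h2', h3'⟩ := tr2 (rho 1 x)
  refine ⟨l' * l, by positivity, ?_⟩
  rw [Q_fC, Q_fC, h1', h2', h1, h3]
  ring

lemma Ln_Q (n : ℕ) (σ : ℝ) (x : X) : ∃ l : ℝ, 0 < l ∧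
    Q (fC σ) (ra (Ln n) x) = l * Q (fC (mu^n * σ)) x := by
  induction n generalizing σ with
  | zero => exact ⟨1, one_pos, by simp [Ln]⟩
  | succ n ih =>
    obtain ⟨l, hl, h⟩ := step_Q σ (ra (Ln n) x)
    obtain ⟨l', hl', h'⟩ := ih (mu * σ)
    refine ⟨l * l', by positivity, ?_⟩
    show Q (fC σ) (rf k34 (rf e1 (ra (Ln n) x))) = _
    rw [h, h', pow_succ]
    rw [show mu^n * (mu * σ) = mu^n * mu * σ by ring]
    ring

lemma ra_surj (l : List (Fin 4 → ℤ)) (hl : ∀ m ∈ l, MM m) (x : X) : ra l (ra l.reverse x) = x := by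
  have := ra_rev l.reverse (fun m hm => hl m (List.mem_reverse.mp hm)) x
  rwa [List.reverse_reverse] at this

lemma Ln_img (n : ℕ) : ra (Ln n) '' Cc = Zc (fC (2 * (mu^n)⁻¹)) := by
  have hm : mu^n ≠ 0 := pow_ne_zero _ mu_pos.ne'
  have e : mu^n * (2 * (mu^n)⁻¹) = 2 := by field_simp
  ext y
  constructor
  · rintro ⟨x, hx, rfl⟩
    obtain ⟨l, hl, h⟩ := Ln_Q n (2 * (mu^n)⁻¹) x
    show Q _ _ = 0
    have hx' : Q (fC 2) x = 0 := hx
    rw [h, e, hx']; ring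
  · intro hy
    refine ⟨ra (Ln n).reverse y, ?_, ra_surj _ (Ln_MM n) y⟩
    obtain ⟨l, hl, h⟩ := Ln_Q n (2 * (mu^n)⁻¹) (ra (Ln n).reverse y)
    rw [ra_surj _ (Ln_MM n), e] at h
    have hy' : Q (fC (2 * (mu^n)⁻¹)) y = 0 := hy
    rw [hy'] at h
    show Q _ _ = 0
    exact (mul_eq_zero.mp h.symm).resolve_left hl.ne'

def Sset : Set GL2 := {h : GL2 | ∃ γ ∈ Gam, (fun w : OnePoint ℂ => h • w) '' Rh
  = (fun w : OnePoint ℂ => γ • w) '' Cc}

lemma ra_inj (l : List (Fin 4 → ℤ)) (hl : ∀ m ∈ l, MM m) : Function.Injective (ra l) := by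
  intro x y h
  rw [← ra_rev l hl x, ← ra_rev l hl y, h]

lemma Sset_seq (n : ℕ) : Ms (2 * (mu^n)⁻¹) ∈ Sset := by
  obtain ⟨g, hg, h⟩ := Gam_real (Ln n) (Ln_MM n) (Ln_even n)
  refine ⟨g, hg, ?_⟩
  rw [Ms_img, show (fun w : OnePoint ℂ => g • w) = ra (Ln n) from funext h, Ln_img]

lemma Sset_not_closed : ¬ IsClosed Sset := by
  intro hcl
  have hlim : Tendsto (fun n : ℕ => Ms (2 * (mu^n)⁻¹)) atTop (𝓝 (Ms 0)) := by
    apply Ms_cont.continuousAt.tendsto.comp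
    have h1 : Tendsto (fun n : ℕ => (mu^n)⁻¹) atTop (𝓝 0) :=
      (tendsto_pow_atTop_atTop_of_one_lt mu_gt).inv_tendsto_atTop
    have := h1.const_mul 2
    simpa using this
  have h0 : Ms 0 ∈ Sset := hcl.mem_of_tendsto hlim (Eventually.of_forall Sset_seq)
  obtain ⟨γ, ⟨l, hl, _, hγ⟩, h⟩ := h0
  rw [Ms_img, show (fun w : OnePoint ℂ => γ • w) = ra l from funext hγ] at h
  have ha : pa ∈ Zc (fC 0) := by
    show Q _ _ = 0
    rw [Q_fC, show Q cinf pa = 0 from Qinf aa aa_sq]; ring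
  have hr : pr ∈ Zc (fC 0) := by
    show Q _ _ = 0
    rw [Q_fC, show Q cinf pr = 0 from Qinf rr rr_sq]; ring
  rcases cls l hl with hD | ⟨m, hN⟩
  · have h1 : ra l pr ∈ Zc (fC 0) := by
      rcases Dm_pts hD with ⟨_, h2⟩ | ⟨_, h2⟩ <;> rw [h2] <;> assumption
    rw [h] at h1
    obtain ⟨x, hx, hx'⟩ := h1
    rw [ra_inj l hl hx'] at hx
    exact pr_Cc hx
  · obtain ⟨hm, hE⟩ := Nm_E hN
    rw [h] at ha hr
    obtain ⟨x, hx, hx'⟩ := ha
    obtain ⟨y, hy, hy'⟩ := hr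
    apply not_both hm
    · rw [← hx']; exact hE x (Cc_E x hx)
    · rw [← hy']; exact hE y (Cc_E y hy)

/-! ### non-density -/

noncomputable def G0 : GL2 := Matrix.GeneralLinearGroup.mkOfDetNeZero
  !![Complex.I, 1/2; 0, 1] (by rw [Matrix.det_fin_two]; simp)

noncomputable def phi (b : ℝ) (k : GL2) : ℝ :=
  imf (k 1 1 * b - k 0 1) (- k 1 0 * b + k 0 0)

lemma phi_zero (b : ℝ) (k : GL2) (h : ((b : ℂ) : X) ∈ (fun w : OnePoint ℂ => k • w) '' Rh) :
    phi b k = 0 := by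
  obtain ⟨x, hx, hxb⟩ := h
  obtain ⟨m, hm, e⟩ := smul_rp k x
  have hxb' : k • x = ((b : ℂ) : X) := hxb
  rw [hxb', rp_coe] at e
  have e1 := congrArg Prod.fst e
  have e2 := congrArg Prod.snd e
  simp only at e1 e2
  rw [mem_Rh] at hx
  have f1 : k 1 1 * (b : ℂ) - k 0 1 = (m * (k 0 0 * k 1 1 - k 0 1 * k 1 0)) * (rp x).1 := by
    linear_combination k 1 1 * e1 - k 0 1 * e2
  have f2 : - k 1 0 * (b : ℂ) + k 0 0 = (m * (k 0 0 * k 1 1 - k 0 1 * k 1 0)) * (rp x).2 := by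
    linear_combination - k 1 0 * e1 + k 0 0 * e2
  unfold phi
  rw [f1, f2, imf_smul, hx]; ring

lemma ent_cont (i j : Fin 2) : Continuous (fun k : GL2 => k i j) :=
  (Units.continuous_val (M := Matrix (Fin 2) (Fin 2) ℂ)).matrix_elem i j

lemma phi_cont (b : ℝ) : Continuous (phi b) := by
  have h00 := ent_cont 0 0
  have h01 := ent_cont 0 1
  have h10 := ent_cont 1 0
  have h11 := ent_cont 1 1
  unfold phi imf
  fun_prop

noncomputable def psi (j : Fin 4) (k : GL2) : ℝ :=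
  tv (k 0 0 * (-1) + k 0 1 * 1) (k 1 0 * (-1) + k 1 1 * 1) j

lemma psi_cont (j : Fin 4) : Continuous (psi j) := by
  have h00 := ent_cont 0 0
  have h01 := ent_cont 0 1
  have h10 := ent_cont 1 0
  have h11 := ent_cont 1 1
  unfold psi
  fin_cases j <;> simp [tv] <;> fun_prop

lemma G0_not_closure : G0 ∉ closure Sset := by
  intro hcl
  have g00 : G0 0 0 = Complex.I := rfl
  have g01 : G0 0 1 = 1/2 := rfl
  have g10 : G0 1 0 = 0 := rfl
  have g11 : G0 1 1 = 1 := rfl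
  have pa0 : phi aa G0 ≠ 0 := by
    unfold phi imf
    rw [g00, g01, g10, g11]
    simp
    unfold aa
    have := s2lt; have := s2gt
    intro h
    norm_num at h
    have h2 := s2'
    nlinarith
  have pr0 : phi rr G0 ≠ 0 := by
    unfold phi imf
    rw [g00, g01, g10, g11]
    simp
    unfold rr
    have := s2lt; have := s2gt
    intro h
    norm_num at h
    nlinarith
  have ps0 : ∀ j, 0 < psi j G0 := by
    intro j
    unfold psi
    rw [g00, g01, g10, g11]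
    fin_cases j <;> simp [tv] <;> norm_num
  have n1 := (phi_cont aa).continuousAt.preimage_mem_nhds (isOpen_ne.mem_nhds pa0)
  have n2 := (phi_cont rr).continuousAt.preimage_mem_nhds (isOpen_ne.mem_nhds pr0)
  have n3 : ∀ j, ∀ᶠ k in 𝓝 G0, 0 < psi j k := fun j =>
    (psi_cont j).continuousAt.preimage_mem_nhds (isOpen_Ioi.mem_nhds (ps0 j))
  have n4 : ∀ᶠ k in 𝓝 G0, ∀ j, 0 < psi j k := eventually_all.mpr n3
  rw [mem_closure_iff_frequently] at hcl
  obtain ⟨k, ⟨γ, ⟨l, hl, _, hγ⟩, h⟩, k1, k2, k3⟩ := (hcl.and_eventually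
    (Filter.Eventually.and n1 (Filter.Eventually.and n2 n4))).exists
  rw [show (fun w : OnePoint ℂ => γ • w) = ra l from funext hγ] at h
  rcases cls l hl with hD | ⟨m, hN⟩
  · have h1 : ra l pa ∈ (fun w : OnePoint ℂ => k • w) '' Rh := by
      rw [h]; exact ⟨pa, pa_Cc, rfl⟩
    rcases Dm_pts hD with ⟨h2, _⟩ | ⟨h2, _⟩
    · rw [h2] at h1; exact k1 (phi_zero aa k h1)
    · rw [h2] at h1; exact k2 (phi_zero rr k h1)
  · obtain ⟨hm, hE⟩ := Nm_E hN
    have h1 : k • (((-1 : ℝ) : ℂ) : X) ∈ ra l '' Cc := by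
      rw [← h]
      exact ⟨(((-1 : ℝ) : ℂ) : X), Or.inr ⟨-1, rfl⟩, rfl⟩
    obtain ⟨x, hx, hx'⟩ := h1
    have h2 := hE x (Cc_E x hx)
    rw [hx'] at h2
    obtain ⟨_, hp, hs⟩ := MM_PR hm
    obtain ⟨a, ha, e⟩ := Q_smul (cs m) k (((-1 : ℝ) : ℂ) : X)
    have h3 : Qz m (k • (((-1 : ℝ) : ℂ) : X)) = a * ∑ j, cs m j * psi j k := by
      unfold Qz
      rw [e]
      simp [psi]
    rw [h3] at h2
    have h4 : 0 < ∑ j, cs m j * psi j k := by
      have hex : ∃ j, 0 < m j := by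
        by_contra hcon
        push Not at hcon
        have : ∑ j, m j ≤ 0 := Finset.sum_nonpos (fun j _ => hcon j)
        omega
      obtain ⟨j, hj⟩ := hex
      apply Finset.sum_pos'
      · intro i _
        exact mul_nonneg (by unfold cs; exact_mod_cast hp i) (k3 i).le
      · exact ⟨j, Finset.mem_univ j, mul_pos (by unfold cs; exact_mod_cast hj) (k3 j)⟩
    have := mul_pos ha h4
    linarith

lemma G0_meets : ((fun w : OnePoint ℂ => G0 • w) '' Rh ∩ closure (⋃₀ Pk)).Nonempty := by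
  refine ⟨G0 • ((0 : ℂ) : X), ⟨((0:ℂ) : X), Or.inr ⟨0, by simp⟩, rfl⟩, subset_closure ?_⟩
  refine ⟨Ci 0, Pk_base 0, ?_⟩
  show Q _ _ = 0
  obtain ⟨a, ha, e⟩ := Q_smul (sgm 0) G0 ((0:ℂ) : X)
  rw [e]
  have g00 : G0 0 0 = Complex.I := rfl
  have g01 : G0 0 1 = 1/2 := rfl
  have g10 : G0 1 0 = 0 := rfl
  have g11 : G0 1 1 = 1 := rfl
  rw [g00, g01, g10, g11]
  simp [sgm, tv, Fin.sum_univ_four]
  right
  norm_num

/-! ### separation -/

lemma sep_side (y : X) : (0 < Q (fC 2) y → ∃ z : ℂ, 0 < z.im ∧ Ms 2 • (z : X) = y) ∧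
    (Q (fC 2) y < 0 → ∃ z : ℂ, z.im < 0 ∧ Ms 2 • (z : X) = y) := by
  obtain ⟨l, hl, e⟩ := Q_smul (fC 2) (Ms 2) ((Ms 2)⁻¹ • y)
  rw [smul_inv_smul, Ms_form] at e
  obtain ⟨x, hx⟩ : ∃ x, x = (Ms 2)⁻¹ • y := ⟨_, rfl⟩
  have hx' : Ms 2 • x = y := by rw [hx]; simp
  rw [← hx] at e
  induction x using OnePoint.rec with
  | infty =>
    simp [imf] at e
    constructor <;> intro h <;> linarith
  | coe z =>
    simp [imf] at e
    constructor
    · intro h
      refine ⟨z, ?_, hx'⟩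
      rw [e] at h
      by_contra hcon
      push Not at hcon
      nlinarith [mul_nonneg hl.le (neg_nonneg.mpr hcon)]
    · intro h
      refine ⟨z, ?_, hx'⟩
      rw [e] at h
      by_contra hcon
      push Not at hcon
      nlinarith [mul_nonneg hl.le hcon]

lemma real_mem (x : ℝ) : ((x : ℂ) : X) ∈ closure (⋃₀ Pk) := by
  apply subset_closure
  refine ⟨Ci 0, Pk_base 0, ?_⟩
  show Q _ _ = 0
  rw [Q_tv]
  simp [sgm, tv, Fin.sum_univ_four]
  ring

lemma Q_at0 : 0 < Q (fC 2) (((0:ℝ) : ℂ) : X) := by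
  rw [Q_tv]
  simp [fC, cinf, fN, tv, Fin.sum_univ_four, aa]
  have := s2'; have := s2lt; have := s2gt
  nlinarith

lemma Q_at1 : Q (fC 2) (((1:ℝ) : ℂ) : X) < 0 := by
  rw [Q_tv]
  simp [fC, cinf, fN, tv, Fin.sum_univ_four, aa]
  have := s2'; have := s2lt; have := s2gt
  nlinarith

end H26Apo
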