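import Pool.Agent.H26R3.ApoE

set_option autoImplicit false

open OnePoint ComplexConjugate Filter Topology

namespace H26Apo

lemma notE_b (x : X) (k : Fin 4 → ℤ) (l : ℝ) (hl : 0 < l) (h : ∀ j, t x j = l * k j)
    (e : ℤ) (he : e = 1 ∨ e = -1) (b : ℝ) (hb : b = 2 + e * √2) (u v : ℤ)
    (huv : u^2 - 2*v^2 = 1 ∨ (u = 0 ∧ v = 0)) :
    Q cinf x + 2 * (u + v * √2) * Q (fN b) x ≠ 0 := by
  intro h0
  have hs2 := s2'
  have hnull := t_null x
  have hpos := sg_pos x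
  unfold sg at hnull hpos
  simp_rw [h] at hnull hpos
  rw [← Finset.mul_sum] at hpos hnull
  have hpos' : (0:ℝ) < ∑ j, (k j : ℝ) := (mul_pos_iff_of_pos_left hl).mp hpos
  have hpos'' : 0 < k 0 + k 1 + k 2 + k 3 := by
    rw [Fin.sum_univ_four] at hpos'
    exact_mod_cast hpos'
  have hnull'' : 2*((k 0)^2+(k 1)^2+(k 2)^2+(k 3)^2) = (k 0+k 1+k 2+k 3)^2 := by
    have : l^2 * (2 * ∑ j, (k j : ℝ)^2) = l^2 * (∑ j, (k j : ℝ))^2 := by
      rw [← mul_pow, ← hnull, Finset.mul_sum, Finset.mul_sum, Finset.mul_sum]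
      apply Finset.sum_congr rfl
      intro j _
      ring
    have := mul_left_cancel₀ (by positivity) this
    rw [Fin.sum_univ_four, Fin.sum_univ_four] at this
    exact_mod_cast this
  have he2 : (e:ℝ)*e = 1 := by rcases he with rfl | rfl <;> norm_num
  unfold Q at h0
  simp_rw [h] at h0
  rw [Fin.sum_univ_four, Fin.sum_univ_four] at h0
  simp [cinf, fN] at h0
  have h1 : (((k 1+2*k 2-k 3) + 2*u*(k 1+6*k 2+3*k 3) + e*4*v*(4*k 2+2*k 3) : ℤ) : ℝ)
      + ((2*v*(k 1+6*k 2+3*k 3) + e*2*u*(4*k 2+2*k 3) : ℤ) : ℝ) * √2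
      = √6 * ((k 1 + k 2 + k 3 - k 0 : ℤ) : ℝ) := by
    push_cast
    have hb2 : b^2 = 6 + 4*e*√2 := by
      rw [hb]; nlinarith
    rw [hb2, hb] at h0
    have : l * (((k 1+2*k 2-k 3) + 2*u*(k 1+6*k 2+3*k 3) + e*4*v*(4*k 2+2*k 3) : ℝ)
      + ((2*v*(k 1+6*k 2+3*k 3) + e*2*u*(4*k 2+2*k 3))) * √2
      - √6 * ((k 1 + k 2 + k 3 - k 0))) = 0 := by
      linear_combination 2 * h0 - 2*l*e*v*(4*k 2+2*k 3)*hs2
    have := (mul_eq_zero.mp this).resolve_left hl.ne'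
    linarith
  obtain ⟨e1, e2, e3⟩ := irr6 _ _ _ h1
  exact arith (k 0) (k 1) (k 2) (k 3) u v e he hnull'' hpos'' huv e1 e2 e3

lemma notE (x : X) (k : Fin 4 → ℤ) (l : ℝ) (hl : 0 < l) (h : ∀ j, t x j = l * k j) : x ∉ E := by
  rintro ⟨s, hs, hx⟩
  obtain ⟨u, v, hs', huv⟩ : ∃ u v : ℤ, s = 2 * (u + v * √2) ∧
      (u^2 - 2*v^2 = 1 ∨ (u = 0 ∧ v = 0)) := by
    rcases hs with rfl | ⟨k, rfl⟩
    · exact ⟨0, 0, by simp, Or.inr ⟨rfl, rfl⟩⟩
    · obtain ⟨u, v, h1, h2⟩ := mu_zpow k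
      exact ⟨u, v, by rw [h1], Or.inl h2⟩
  rw [hs'] at hx
  rcases hx with hx | hx
  · exact notE_b x k l hl h (-1) (Or.inr rfl) aa (by unfold aa; push_cast; ring) u v huv hx
  · exact notE_b x k l hl h 1 (Or.inl rfl) rr (by unfold rr; push_cast; ring) u v huv hx

/-- points of the packing inside a half space, off `E` -/
lemma tp (c : Fin 4 → ℤ) (hc : IsRoot c) : ∃ x, x ∈ ⋃₀ Pk ∧ Qz c x < 0 ∧ x ∉ E := by
  obtain ⟨w, i, rfl⟩ := hc
  obtain ⟨j, k, l, hq⟩ := exists_quad i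
  have hij := hq.1
  obtain ⟨p, hp, _⟩ := exists_pt' i j hij
  obtain ⟨p, m, hm, hpt⟩ := exists_pt i j hij
  have hpP : p ∈ ⋃₀ Pk := by
    refine ⟨Ci i, Pk_base i, ?_⟩
    show Q _ _ = 0
    unfold Q
    simp_rw [hpt]
    revert hij
    clear hq hpt
    revert i j
    intro i j hij
    fin_cases i <;> fin_cases j <;> simp [sgl, sgm, Fin.sum_univ_four] at hij ⊢
  refine ⟨act (w ++ [i]) p, act_U _ p hpP, ?_, ?_⟩
  · rw [act_append]
    obtain ⟨a, ha, h1⟩ := Qz_act w (act [i] p)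
    rw [h1, Qz_sgl]
    obtain ⟨b, hb, h2⟩ := t_rho i p
    have : t (act [i] p) i = b * R i (t p) i := h2 i
    rw [this]
    have h3 : R i (t p) i = - m := by
      simp [R, hpt, sgl, hij]
    rw [h3]
    have := mul_pos ha (mul_pos hb hm)
    linarith
  · obtain ⟨a, ha, h1⟩ := t_act (w ++ [i]) p
    apply notE _ (Lt (w ++ [i]) (fun j' => sgl i j' + 1 * sgl j j')) (a*m) (by positivity)
    intro j'
    rw [h1]
    have e1 : t p = fun j' => m * cs (fun j' => sgl i j' + 1 * sgl j j') j' := by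
      ext j'
      rw [hpt]
      simp [cs, sgl]
    rw [e1, Lt_smul, Lt_cast]
    simp only [cs]
    ring

lemma Qz_cont_nhds (c : Fin 4 → ℤ) (x : X) (h : Qz c x < 0) : {y | Qz c y < 0} ∈ 𝓝 x := by
  have e : ∀ y, Qz c y < 0 ↔ ∑ j, cs c j * tau y j < 0 := by
    intro y
    unfold Qz
    rw [Q_eq]
    constructor
    · intro h
      by_contra hcon
      push Not at hcon
      have := mul_nonneg (sg_pos y).le hcon
      linarith
    · intro h
      exact mul_neg_of_pos_of_neg (sg_pos y) h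
  have := (Qn_cont (cs c)).continuousAt.preimage_mem_nhds (isOpen_Iio.mem_nhds ((e x).mp h))
  filter_upwards [this] with y hy
  exact (e y).mpr hy

lemma F8 (c : Fin 4 → ℤ) (hc : PR c) : ∃ c1, PR c1 ∧ (∀ y, Qz c y ≤ Qz c1 y) ∧
    (∀ y ∈ E, 0 < Qz c1 y) := by
  obtain ⟨x, hx1, hx2, hx3⟩ := tp c hc.1
  have hU : {y | Qz c y < 0} ∩ Eᶜ ∈ 𝓝 x :=
    inter_mem (Qz_cont_nhds c x hx2) (E_closed.isOpen_compl.mem_nhds hx3)
  obtain ⟨c1, h1, h2, h3⟩ := small x (Y_Pk x hx1) _ hU (∑ j, c j)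
  refine ⟨c1, h1, ?_, ?_⟩
  · rcases lam_cases h1.1 hc.1 with h | h
    · exfalso
      obtain ⟨y, _, hy2, _⟩ := tp c1 h1.1
      have h4 := lam_disj h1 hc h y
      have h5 : Qz c y < 0 := (h3 y hy2.le).1
      linarith
    · exact lam_nest h1 hc h h2
  · intro y hy
    by_contra hcon
    push Not at hcon
    exact (h3 y hcon).2 hy

/-! ### the family of half spaces -/

def e1 : Fin 4 → ℤ := sgl 1
def k34 : Fin 4 → ℤ := ![0, 0, 2, 1]

lemma k34_eq : k34 = lc [2] (sgl 3) := by decide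

lemma e1_Rt : Rt 1 e1 := Rt.base 1
lemma k34_Rt : Rt 2 k34 := by
  rw [k34_eq]; exact Rt.step (Rt.base 3) (by decide)

lemma e1_PR : PR e1 := Rt_PR e1_Rt
lemma k34_PR : PR k34 := Rt_PR k34_Rt

lemma sum_e1 : ∑ j, e1 j = 1 := by decide
lemma sum_k34 : ∑ j, k34 j = 3 := by decide
lemma B_ek : B e1 k34 = -3 := by decide

def Adm (m : Fin 4 → ℤ) : Prop :=
  PR m ∧ (∀ x ∈ E, 0 ≤ Qz m x) ∧ (∀ x, Qz e1 x < 0 → 0 ≤ Qz m x) ∧
    (∀ x, Qz k34 x < 0 → 0 ≤ Qz m x)

def MM (m : Fin 4 → ℤ) : Prop :=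
  m = e1 ∨ m = k34 ∨ (Adm m ∧ ∀ m', Adm m' → (∀ x, Qz m' x ≤ Qz m x) → m' = m)

lemma MM_PR {m : Fin 4 → ℤ} (h : MM m) : PR m := by
  rcases h with rfl | rfl | h
  · exact e1_PR
  · exact k34_PR
  · exact h.1.1

lemma exists_max (n : ℕ) : ∀ m, Adm m → ∑ j, m j ≤ n → ∃ m', MM m' ∧ Adm m' ∧
    (∀ x, Qz m' x ≤ Qz m x) := by
  induction n with
  | zero =>
    intro m hm hs
    have := hm.1.2.2
    push_cast at hs
    omega
  | succ n ih =>
    intro m hm hs
    by_cases h : ∀ m', Adm m' → (∀ x, Qz m' x ≤ Qz m x) → m' = m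
    · exact ⟨m, Or.inr (Or.inr ⟨hm, h⟩), hm, fun x => le_rfl⟩
    · push Not at h
      obtain ⟨m', h1, h2, h3⟩ := h
      have := sum_le h2 h3
      obtain ⟨m'', a1, a2, a3⟩ := ih m' h1 (by push_cast at hs; omega)
      exact ⟨m'', a1, a2, fun x => (a3 x).trans (h2 x)⟩

lemma Adm_e1 {m : Fin 4 → ℤ} (h : Adm m) (x : X) : 0 ≤ Qz e1 x + Qz m x := by
  rcases lam_cases e1_PR.1 h.1.1 with h1 | h1
  · exact lam_disj e1_PR h.1 h1 x
  · exfalso
    have h2 : 1 ≤ B m e1 := by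
      have : B m e1 = B e1 m := by unfold B; simp only [mul_comm]
      rwa [this]
    have h3 := lam_nest h.1 e1_PR h2 (by rw [sum_e1]; exact h.1.2.2)
    obtain ⟨y, _, hy, _⟩ := tp m h.1.1
    have := h.2.2.1 y (lt_of_le_of_lt (h3 y) hy)
    linarith

lemma B_comm (c d : Fin 4 → ℤ) : B c d = B d c := by unfold B; simp only [mul_comm]

lemma Adm_k {m : Fin 4 → ℤ} (h : Adm m) (x : X) : 0 ≤ Qz k34 x + Qz m x := by
  rcases lam_cases k34_PR.1 h.1.1 with h1 | h1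
  · exact lam_disj k34_PR h.1 h1 x
  · exfalso
    rcases le_total (∑ j, k34 j) (∑ j, m j) with hs | hs
    · have h3 := lam_nest h.1 k34_PR (by rwa [B_comm]) hs
      obtain ⟨y, _, hy, _⟩ := tp m h.1.1
      have := h.2.2.2 y (lt_of_le_of_lt (h3 y) hy)
      linarith
    · have h3 := lam_nest k34_PR h.1 h1 hs
      obtain ⟨y, _, hy, _⟩ := tp k34 k34_PR.1
      have := h.2.2.2 y hy
      have := h3 y
      linarith

lemma MM_disj {m m' : Fin 4 → ℤ} (h : MM m) (h' : MM m') (hne : m ≠ m') (x : X) :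
    0 ≤ Qz m x + Qz m' x := by
  have ek := lam_disj e1_PR k34_PR (by rw [B_ek]; norm_num)
  rcases h with rfl | rfl | ⟨h, hm⟩
  · rcases h' with rfl | rfl | ⟨h', hm'⟩
    · exact absurd rfl hne
    · exact ek x
    · exact Adm_e1 h' x
  · rcases h' with rfl | rfl | ⟨h', hm'⟩
    · have := ek x; linarith
    · exact absurd rfl hne
    · exact Adm_k h' x
  · rcases h' with rfl | rfl | ⟨h', hm'⟩
    · have := Adm_e1 h x; linarith
    · have := Adm_k h x; linarith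
    · rcases lam_cases h.1.1 h'.1.1 with h1 | h1
      · exact lam_disj h.1 h'.1 h1 x
      · exfalso
        rcases le_total (∑ j, m j) (∑ j, m' j) with hs | hs
        · exact hne (hm' m h (lam_nest h'.1 h.1 (by rwa [B_comm]) hs))
        · exact hne (hm m' h' (lam_nest h.1 h'.1 h1 hs)).symm

/-- maximal element below a root which is not strictly inside a member -/
lemma F6 (c : Fin 4 → ℤ) (hc : PR c) (hn : ∀ m, MM m → (∀ x, Qz m x ≤ Qz c x) → m = c) :
    ∃ m, MM m ∧ ∀ x, Qz c x ≤ Qz m x := by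
  rcases lam_cases hc.1 e1_PR.1 with h1 | h1
  swap
  · have := hn e1 (Or.inl rfl) (lam_nest hc e1_PR h1 (by rw [sum_e1]; exact hc.2.2))
    exact ⟨e1, Or.inl rfl, fun x => by rw [this]⟩
  have d1 := lam_disj hc e1_PR h1
  rcases lam_cases hc.1 k34_PR.1 with h2 | h2
  swap
  · rcases le_total (∑ j, k34 j) (∑ j, c j) with hs | hs
    · have := hn k34 (Or.inr (Or.inl rfl)) (lam_nest hc k34_PR h2 hs)
      exact ⟨k34, Or.inr (Or.inl rfl), fun x => by rw [this]⟩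
    · exact ⟨k34, Or.inr (Or.inl rfl), lam_nest k34_PR hc (by rwa [B_comm]) hs⟩
  have d2 := lam_disj hc k34_PR h2
  obtain ⟨c1, p1, p2, p3⟩ := F8 c hc
  have had : Adm c1 := by
    refine ⟨p1, fun x hx => (p3 x hx).le, fun x hx => ?_, fun x hx => ?_⟩
    · linarith [d1 x, p2 x]
    · linarith [d2 x, p2 x]
  obtain ⟨m, m1, m2, m3⟩ := exists_max (∑ j, c1 j).toNat c1 had (by
    have := p1.2.2; omega)
  rcases lam_cases hc.1 m2.1.1 with h3 | h3
  · exfalso
    have d3 := lam_disj hc m2.1 h3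
    obtain ⟨y, _, hy, _⟩ := tp c1 p1.1
    linarith [d3 y, p2 y, m3 y]
  · rcases le_total (∑ j, m j) (∑ j, c j) with hs | hs
    · have := hn m m1 (lam_nest hc m2.1 h3 hs)
      exact ⟨m, m1, fun x => by rw [this]⟩
    · exact ⟨m, m1, lam_nest m2.1 hc (by rwa [B_comm]) hs⟩

noncomputable def ra (l : List (Fin 4 → ℤ)) (x : X) : X := l.foldr rf x

@[simp] lemma ra_nil (x : X) : ra [] x = x := rfl
@[simp] lemma ra_cons (m : Fin 4 → ℤ) (l : List (Fin 4 → ℤ)) (x : X) :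
    ra (m :: l) x = rf m (ra l x) := rfl
lemma ra_append (l l' : List (Fin 4 → ℤ)) (x : X) : ra (l ++ l') x = ra l (ra l' x) := by
  simp [ra, List.foldr_append]

/-- every orbit visits the closed half space, with words of both parities -/
def Vis (c : Fin 4 → ℤ) : Prop := ∀ (z : X) (p : ℕ), ∃ l : List (Fin 4 → ℤ), (∀ m ∈ l, MM m) ∧
  l.length % 2 = p % 2 ∧ Qz c (ra l z) ≤ 0

lemma third : ∃ m, MM m ∧ m ≠ e1 ∧ m ≠ k34 := by
  have hc : PR (sgl 0 : Fin 4 → ℤ) := Rt_PR (Rt.base 0)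
  obtain ⟨c1, p1, p2, p3⟩ := F8 (sgl 0) hc
  have d1 := lam_disj hc e1_PR (by decide)
  have d2 := lam_disj hc k34_PR (by decide)
  have had : Adm c1 := by
    refine ⟨p1, fun x hx => (p3 x hx).le, fun x hx => ?_, fun x hx => ?_⟩
    · linarith [d1 x, p2 x]
    · linarith [d2 x, p2 x]
  obtain ⟨m, m1, m2, m3⟩ := exists_max (∑ j, c1 j).toNat c1 had (by
    have := p1.2.2; omega)
  refine ⟨m, m1, ?_, ?_⟩
  · rintro rfl
    obtain ⟨y, _, hy, _⟩ := tp e1 e1_PR.1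
    have := m2.2.2.1 y hy
    linarith
  · rintro rfl
    obtain ⟨y, _, hy, _⟩ := tp k34 k34_PR.1
    have := m2.2.2.2 y hy
    linarith

lemma e1_ne_k34 : e1 ≠ k34 := by decide

lemma two_others (m : Fin 4 → ℤ) : ∃ m1 m2, MM m1 ∧ MM m2 ∧ m ≠ m1 ∧ m ≠ m2 ∧ m1 ≠ m2 := by
  obtain ⟨m3, h1, h2, h3⟩ := third
  by_cases h : m = e1
  · subst h
    exact ⟨k34, m3, Or.inr (Or.inl rfl), h1, e1_ne_k34, h2.symm, h3.symm⟩
  · by_cases h' : m = k34
    · subst h'
      exact ⟨e1, m3, Or.inl rfl, h1, h, h3.symm, h2.symm⟩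
    · exact ⟨e1, k34, Or.inl rfl, Or.inr (Or.inl rfl), h, h', e1_ne_k34⟩

lemma Vis_even (m : Fin 4 → ℤ) (hm : MM m) (z : X) : ∃ l : List (Fin 4 → ℤ), (∀ m ∈ l, MM m) ∧
    l.length = 2 ∧ Qz m (ra l z) ≤ 0 := by
  obtain ⟨m1, m2, h1, h2, n1, n2, n3⟩ := two_others m
  have key : ∀ m', MM m' → m ≠ m' → 0 ≤ Qz m' z → Qz m (ra [m, m'] z) ≤ 0 := by
    intro m' hm' hne hz
    obtain ⟨l, hl, _, e⟩ := Q_rf (MM_PR hm').1 z
    obtain ⟨l', hl', _, e'⟩ := Q_rf (MM_PR hm).1 (rf m' z)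
    simp only [ra_cons, ra_nil]
    rw [e']
    have d := MM_disj hm hm' hne (rf m' z)
    have : 0 ≤ l * Qz m' z := mul_nonneg hl.le hz
    have : 0 ≤ Qz m (rf m' z) := by linarith
    have := mul_nonneg hl'.le this
    linarith
  rcases le_or_gt 0 (Qz m1 z) with h | h
  · exact ⟨[m, m1], by simp [hm, h1], rfl, key m1 h1 n1 h⟩
  · have := MM_disj h1 h2 n3 z
    exact ⟨[m, m2], by simp [hm, h2], rfl, key m2 h2 n2 (by linarith)⟩

lemma Vis_MM (m : Fin 4 → ℤ) (hm : MM m) : Vis m := by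
  intro z p
  rcases Nat.mod_two_eq_zero_or_one p with hp | hp
  · obtain ⟨l, h1, h2, h3⟩ := Vis_even m hm z
    exact ⟨l, h1, by rw [h2, hp], h3⟩
  · obtain ⟨l, h1, h2, h3⟩ := Vis_even m hm (rf m z)
    refine ⟨l ++ [m], ?_, ?_, ?_⟩
    · intro a ha
      rcases List.mem_append.mp ha with h | h
      · exact h1 a h
      · rw [List.mem_singleton.mp h]; exact hm
    · simp [h2, hp]
    · rw [ra_append]; exact h3

lemma Vis_mono {c d : Fin 4 → ℤ} (h : Vis d) (hcd : ∀ x, Qz c x ≤ Qz d x) : Vis c := by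
  intro z p
  obtain ⟨l, h1, h2, h3⟩ := h z p
  exact ⟨l, h1, h2, (hcd _).trans h3⟩

lemma Vis_refl {c m : Fin 4 → ℤ} (hm : MM m) (h : Vis (lc (wd m) c)) : Vis c := by
  intro z p
  obtain ⟨l, h1, h2, h3⟩ := h z (p+1)
  refine ⟨m :: l, ?_, ?_, ?_⟩
  · intro a ha
    rcases List.mem_cons.mp ha with rfl | h
    · exact hm
    · exact h1 a h
  · simp only [List.length_cons]; omega
  · obtain ⟨a, ha, h4, _⟩ := Q_rf (MM_PR hm).1 (ra l z)
    have := h4 (lc (wd m) c)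
    have e := lc_rev (wd m) c
    rw [wd_rev (MM_PR hm).1] at e
    rw [e] at this
    rw [ra_cons, this]
    exact mul_nonpos_of_nonneg_of_nonpos ha.le h3

lemma Vis_all (n : ℕ) : ∀ c, IsRoot c → ∑ j, c j ≤ n → Vis c := by
  have neg : ∀ c, PR (-c) → Vis c := by
    intro c hc
    have hq : ∀ x, Qz (-c) x = - Qz c x := by
      intro x; unfold Qz Q cs; simp
    rcases lam_cases hc.1 e1_PR.1 with h | h
    · have := lam_disj hc e1_PR h
      apply Vis_mono (Vis_MM e1 (Or.inl rfl))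
      intro x
      have := this x
      rw [hq] at this
      linarith
    · have h1 := lam_nest hc e1_PR h (by rw [sum_e1]; exact hc.2.2)
      have ek := lam_disj e1_PR k34_PR (by rw [B_ek]; norm_num)
      apply Vis_mono (Vis_MM k34 (Or.inr (Or.inl rfl)))
      intro x
      have h2 := h1 x
      rw [hq] at h2
      linarith [ek x]
  induction n with
  | zero =>
    intro c hc hs
    rcases root_PR hc with h | h
    · have := h.2.2; push_cast at hs; omega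
    · exact neg c h
  | succ n ih =>
    intro c hc hs
    rcases root_PR hc with h | h
    · by_cases hn : ∀ m, MM m → (∀ x, Qz m x ≤ Qz c x) → m = c
      · obtain ⟨m, h1, h2⟩ := F6 c h hn
        exact Vis_mono (Vis_MM m h1) h2
      · push Not at hn
        obtain ⟨m, h1, h2, h3⟩ := hn
        apply Vis_refl h1
        apply ih _ (hc.lc _)
        have hB : 1 ≤ B c m := by
          rcases lam_cases hc (MM_PR h1).1 with h4 | h4
          · exfalso
            have d := lam_disj h (MM_PR h1) h4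
            obtain ⟨y, _, hy, _⟩ := tp c hc
            linarith [d y, h2 y]
          · exact h4
        have e : ∑ j, lc (wd m) c j = ∑ j, c j - 2 * B c m * ∑ j, m j := by
          simp_rw [wd_lc (MM_PR h1).1]
          rw [Finset.sum_sub_distrib, ← Finset.mul_sum]
        rw [e]
        have := (MM_PR h1).2.2
        push_cast at hs
        nlinarith
    · exact neg c h

lemma Vis_root (c : Fin 4 → ℤ) (hc : IsRoot c) : Vis c :=
  Vis_all (∑ j, c j).toNat c hc (by omega)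

end H26Apo
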