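import Pool.Agent.H26R3.ApoFold

set_option autoImplicit false

open OnePoint ComplexConjugate Filter Topology

namespace H26Apo

/-- the orbit of a point under even words -/
def Orb (z : X) : Set X := {y | ∃ l : List (Fin 4 → ℤ), (∀ m ∈ l, MM m) ∧ Even l.length ∧ y = ra l z}

/-- two strictly disjoint closed half spaces in a closed half space -/
lemma two_sub (c : Fin 4 → ℤ) (hc : IsRoot c) (x : X) : ∃ d, IsRoot d ∧ (∀ y, Qz c y ≤ Qz d y) ∧
    0 < Qz d x := by
  obtain ⟨w, i, rfl⟩ := hc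
  obtain ⟨j, k, l, hq⟩ := exists_quad i
  have hq' := hq
  obtain ⟨h1, h2, h3, h4, h5, h6⟩ := hq
  set u := w ++ [i] with hu
  have ec : ∀ y, ∃ a : ℝ, 0 < a ∧ Qz (lc w (sgl i)) y = - (a * t (act u.reverse y) i) ∧
      ∀ d, Qz (lc u d) y = a * Qz d (act u.reverse y) := by
    intro y
    obtain ⟨a, ha, h⟩ := Qz_act u (act u.reverse y)
    simp only [act_rev'] at h
    refine ⟨a, ha, ?_, h⟩
    have e : lc w (sgl i : Fin 4 → ℤ) = lc u (-sgl i) := by
      rw [hu, lc_append]
      congr 1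
      simp only [lc_cons, lc_nil]
      ext b
      fin_cases i <;> fin_cases b <;> simp [Rc, sgl, Fin.sum_univ_four]
    rw [e, h, ← Qz_sgl]
    have : Qz (-sgl i) (act u.reverse y) = - Qz (sgl i) (act u.reverse y) := by
      unfold Qz Q cs; simp
    rw [this]; ring
  have ra1 : IsRoot (lc u (sgl j)) := ⟨u, j, rfl⟩
  have ra2 : IsRoot (lc u (lc [k] (sgl l))) := ⟨u ++ [k], l, (lc_append _ _ _).symm⟩
  have ek : ∀ y, Qz (lc [k] (sgl l)) y = t y l + 2 * t y k := by
    intro y
    have : (lc [k] (sgl l) : Fin 4 → ℤ) = fun a => sgl l a + 2 * sgl k a := by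
      simp only [lc_cons, lc_nil]
      ext a
      revert h6
      clear * - 
      intro h6
      fin_cases k <;> fin_cases l <;> fin_cases a <;> simp [Rc, sgl, Fin.sum_univ_four] at h6 ⊢
    rw [this]
    have e2 : cs (fun a => sgl l a + 2 * sgl k a) = fun a => sgl l a + 2 * sgl k a := by
      ext a; simp [cs, sgl]
    unfold Qz
    rw [e2, Q_add]
    have f1 : ∀ i : Fin 4, Q (sgl i) y = t y i := by
      intro i; rw [← cs_sgl]; exact Qz_sgl i y
    rw [f1, f1]
  have PRs : ∀ i : Fin 4, PR (sgl i : Fin 4 → ℤ) := fun i => Rt_PR (Rt.base i)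
  have pair : ∀ a b : Fin 4, a ≠ b → ∀ y, 0 ≤ t y a + t y b := by
    intro a b hab y
    rw [← Qz_sgl, ← Qz_sgl]
    refine lam_disj (PRs a) (PRs b) ?_ y
    revert hab
    clear * -
    revert a b
    decide
  by_cases hx : 0 < Qz (lc u (sgl j)) x
  · refine ⟨_, ra1, fun y => ?_, hx⟩
    obtain ⟨a, ha, e1, e2⟩ := ec y
    rw [e1, e2, Qz_sgl]
    have := pair i j h1 (act u.reverse y)
    nlinarith
  · refine ⟨_, ra2, fun y => ?_, ?_⟩
    · obtain ⟨a, ha, e1, e2⟩ := ec y
      rw [e1, e2, ek]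
      have p1 := pair i k h2 (act u.reverse y)
      have p2 := pair k l h6 (act u.reverse y)
      nlinarith
    · obtain ⟨a, ha, e1, e2⟩ := ec x
      rw [e2, Qz_sgl] at hx
      rw [e2, ek]
      apply mul_pos ha
      have hj : t (act u.reverse x) j ≤ 0 := by
        by_contra hcon
        push Not at hcon
        exact hx (mul_pos ha hcon)
      generalize act u.reverse x = x' at *
      by_contra hcon
      push Not at hcon
      have p1 := pair j k h4 x'
      have p2 := pair k l h6 x'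
      have z1 : t x' j + t x' k = 0 := by linarith
      have z2 : t x' k + t x' l = 0 := by linarith
      have z3 : t x' j = t x' l := by linarith
      -- all coordinates besides i vanish
      have hk : 0 ≤ t x' k := by linarith
      have hl0 : t x' l ≤ 0 := by linarith
      have hjl := pair j l h5 x'
      have z4 : t x' j = 0 := by linarith
      have z5 : t x' l = 0 := by linarith
      have z6 : t x' k = 0 := by linarith
      have e3 := t_null x'
      have e4 := sg_pos x'
      unfold sg at e3 e4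
      rw [sum4 hq', sum4 hq', z4, z5, z6] at e3
      rw [sum4 hq', z4, z5, z6] at e4
      nlinarith

lemma lower (z x : X) (hx : x ∈ ⋃₀ Pk) : x ∈ derivedSet (Orb z) := by
  rw [mem_derivedSet, accPt_iff_nhds]
  intro U hU
  obtain ⟨c, hc, _, hcU⟩ := small x (Y_Pk x hx) U hU 0
  obtain ⟨d, hd, hcd, hdx⟩ := two_sub c hc.1 x
  obtain ⟨l, h1, h2, h3⟩ := Vis_root d hd z 0
  refine ⟨ra l z, ⟨hcU _ ((hcd _).trans h3), l, h1, Nat.even_iff.mpr h2, rfl⟩, ?_⟩
  rintro rfl
  linarith

lemma ra_act (l : List (Fin 4 → ℤ)) (hl : ∀ m ∈ l, MM m) :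
    ∃ w : List (Fin 4), w.length % 2 = l.length % 2 ∧ ∀ x, ra l x = act w x := by
  induction l with
  | nil => exact ⟨[], rfl, fun x => rfl⟩
  | cons m l ih =>
    obtain ⟨w, h1, h2⟩ := ih (fun m' hm' => hl m' (List.mem_cons_of_mem _ hm'))
    refine ⟨wd m ++ w, ?_, fun x => ?_⟩
    · have := wd_len (MM_PR (hl m (List.mem_cons_self))).1
      obtain ⟨a, ha⟩ := this
      rw [List.length_append, ha, List.length_cons]
      omega
    · rw [ra_cons, act_append, h2]; rfl

lemma limit_set (z : X) : derivedSet (Orb z) = closure (⋃₀ Pk) := by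
  apply Set.Subset.antisymm
  · refine (derivedSet_mono _ _ ?_).trans (derived_sub z)
    rintro y ⟨l, h1, h2, rfl⟩
    obtain ⟨w, _, hw⟩ := ra_act l h1
    exact ⟨w, hw z⟩
  · apply closure_minimal
    · exact fun x hx => lower z x hx
    · exact isClosed_derivedSet _

lemma ra_rev (l : List (Fin 4 → ℤ)) (hl : ∀ m ∈ l, MM m) (x : X) : ra l.reverse (ra l x) = x := by
  induction l with
  | nil => rfl
  | cons m l ih =>
    rw [List.reverse_cons, ra_append]
    simp only [ra_cons, ra_nil]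
    rw [rf_invol (MM_PR (hl m (List.mem_cons_self))).1,
      ih (fun m' hm' => hl m' (List.mem_cons_of_mem _ hm'))]

/-- every word is realised by a matrix, possibly composed with conjugation -/
lemma real_word (w : List (Fin 4)) : ∃ g : GL2, (w.length % 2 = 0 → ∀ x : X, g • x = act w x) ∧
    (w.length % 2 = 1 → ∀ x : X, g • conjX x = act w x) := by
  induction w with
  | nil => exact ⟨1, fun _ x => by simp, fun h => by simp at h⟩
  | cons i w ih =>
    obtain ⟨g, h1, h2⟩ := ih
    refine ⟨Mg i * cg g, ?_, ?_⟩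
    · intro h x
      have h' : w.length % 2 = 1 := by simp only [List.length_cons] at h; omega
      rw [act_cons, ← h2 h' x]
      unfold rho
      rw [conjX_smul, conjX_conjX, mul_smul]
    · intro h x
      have h' : w.length % 2 = 0 := by simp only [List.length_cons] at h; omega
      rw [act_cons, ← h1 h' x]
      unfold rho
      rw [conjX_smul, mul_smul]

/-- the group -/
noncomputable def Gam : Subgroup GL2 where
  carrier := {g | ∃ l : List (Fin 4 → ℤ), (∀ m ∈ l, MM m) ∧ Even l.length ∧ ∀ x : X, g • x = ra l x}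
  one_mem' := ⟨[], by simp, by simp, fun x => by simp⟩
  mul_mem' := by
    rintro g g' ⟨l, h1, h2, h3⟩ ⟨l', h1', h2', h3'⟩
    refine ⟨l ++ l', ?_, ?_, fun x => ?_⟩
    · intro m hm
      rcases List.mem_append.mp hm with h | h
      · exact h1 m h
      · exact h1' m h
    · rw [List.length_append]; exact h2.add h2'
    · rw [mul_smul, h3', h3, ra_append]
  inv_mem' := by
    rintro g ⟨l, h1, h2, h3⟩
    refine ⟨l.reverse, ?_, ?_, fun x => ?_⟩
    · intro m hm; exact h1 m (List.mem_reverse.mp hm)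
    · rw [List.length_reverse]; exact h2
    · have h := ra_rev l h1 (g⁻¹ • x)
      rw [← h3, smul_inv_smul] at h
      exact h.symm

lemma Gam_real (l : List (Fin 4 → ℤ)) (h1 : ∀ m ∈ l, MM m) (h2 : Even l.length) :
    ∃ g ∈ Gam, ∀ x : X, g • x = ra l x := by
  obtain ⟨w, hw1, hw2⟩ := ra_act l h1
  obtain ⟨g, hg, _⟩ := real_word w
  have h3 : ∀ x : X, g • x = ra l x := by
    intro x
    rw [hg (by rw [hw1]; exact Nat.even_iff.mp h2), hw2]
  exact ⟨g, ⟨l, h1, h2, h3⟩, h3⟩

lemma Gam_orbit (z : X) : {w : X | ∃ g ∈ Gam, w = g • z} = Orb z := by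
  ext y
  constructor
  · rintro ⟨g, ⟨l, h1, h2, h3⟩, rfl⟩
    exact ⟨l, h1, h2, h3 z⟩
  · rintro ⟨l, h1, h2, rfl⟩
    obtain ⟨g, hg, h⟩ := Gam_real l h1 h2
    exact ⟨g, hg, (h z).symm⟩

lemma Gam_Pk (g : GL2) (hg : g ∈ Gam) (S : Set X) : S ∈ Pk ↔ (fun w : X => g • w) '' S ∈ Pk := by
  obtain ⟨l, h1, h2, h3⟩ := hg
  obtain ⟨w, _, hw⟩ := ra_act l h1
  have : (fun w : X => g • w) = act w := by
    ext x; rw [h3, hw]
  rw [this]
  exact act_Pk_iff w S

/-! ### dynamics on `E` -/

/-- reflections depend only on the root -/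
lemma act_eq (w w' : List (Fin 4)) (h : ∀ d : Fin 4 → ℝ, lc w.reverse d = lc w'.reverse d) (x : X) :
    act w x = act w' x := by
  obtain ⟨a, ha, h1⟩ := Q_act w x
  obtain ⟨b, hb, h2⟩ := Q_act w' x
  have e1 : ∀ d, Q d (act w x) = a * Q (lc w.reverse d) x := by
    intro d
    have := h1 (lc w.reverse d)
    rwa [lc_rev'] at this
  have e2 : ∀ d, Q d (act w' x) = b * Q (lc w'.reverse d) x := by
    intro d
    have := h2 (lc w'.reverse d)
    rwa [lc_rev'] at this
  apply t_inj _ _ (a/b) (by positivity)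
  intro j
  have f1 : ∀ y, Q (sgl j) y = t y j := by
    intro y; rw [← cs_sgl]; exact Qz_sgl j y
  rw [← f1, ← f1, e1, e2, h]
  field_simp

lemma rf_e1 (x : X) : rf e1 x = rho 1 x := by
  obtain ⟨w, i, h1, h2⟩ := wd_spec e1_PR.1
  have : act (wd e1) x = act [1] x := by
    apply act_eq
    intro d
    rw [wd_rev e1_PR.1, h2]
    ext j
    rw [lc_pal]
    have h1' : (sgl 1 : Fin 4 → ℝ) = lc w (sgl i) := by
      rw [← cs_sgl, ← cs_sgl, ← cs_lc, ← h1]; rfl
    rw [← h1']
    show _ = Rc 1 d j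
    rw [Rc_eq]
  exact this

lemma rf_k34 (x : X) : rf k34 x = act [2,3,2] x := by
  obtain ⟨w, i, h1, h2⟩ := wd_spec k34_PR.1
  have : act (wd k34) x = act [2,3,2] x := by
    apply act_eq
    intro d
    rw [wd_rev k34_PR.1, h2]
    ext j
    rw [lc_pal]
    have h1' : (lc [2] (sgl 3) : Fin 4 → ℝ) = lc w (sgl i) := by
      rw [← cs_sgl, ← cs_sgl, ← cs_lc, ← cs_lc, ← h1, k34_eq]
    rw [← h1']
    have := lc_pal [2] 3 d j
    simp only [List.reverse_cons, List.reverse_nil, List.nil_append, List.cons_append] at this ⊢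
    rw [this]
  exact this

/-- maps in the dihedral group -/
inductive Dm : (X → X) → Prop
| id : Dm (fun x => x)
| s1 (f : X → X) : Dm f → Dm (fun x => rf e1 (f x))
| s2 (f : X → X) : Dm f → Dm (fun x => rf k34 (f x))

lemma Dm_E {f : X → X} (hf : Dm f) (x : X) (hx : x ∈ E) : f x ∈ E := by
  induction hf with
  | id => exact hx
  | s1 f hf ih => show rf e1 (f x) ∈ E; rw [rf_e1]; exact E_1 _ ih
  | s2 f hf ih => show rf k34 (f x) ∈ E; rw [rf_k34]; exact E_2 _ ih

noncomputable def pa : X := ((aa : ℂ) : X)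
noncomputable def pr : X := ((rr : ℂ) : X)

lemma swap1 : rho 1 pa = pr ∧ rho 1 pr = pa := by
  constructor
  · obtain ⟨l, hl, _, _, h⟩ := tr1 pa
    have : Q (fN aa) pa = 0 := (QN_zero aa pa).mpr rfl
    rw [this] at h
    exact (QN_zero rr _).mp (by rw [h]; ring)
  · obtain ⟨l, hl, _, h, _⟩ := tr1 pr
    have : Q (fN rr) pr = 0 := (QN_zero rr pr).mpr rfl
    rw [this] at h
    exact (QN_zero aa _).mp (by rw [h]; ring)

lemma swap2 : act [2,3,2] pa = pr ∧ act [2,3,2] pr = pa := by
  constructor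
  · obtain ⟨l, hl, _, _, h⟩ := tr2 pa
    have : Q (fN aa) pa = 0 := (QN_zero aa pa).mpr rfl
    rw [this] at h
    exact (QN_zero rr _).mp (by rw [h]; ring)
  · obtain ⟨l, hl, _, h, _⟩ := tr2 pr
    have : Q (fN rr) pr = 0 := (QN_zero rr pr).mpr rfl
    rw [this] at h
    exact (QN_zero aa _).mp (by rw [h]; ring)

lemma Dm_pts {f : X → X} (hf : Dm f) : (f pa = pa ∧ f pr = pr) ∨ (f pa = pr ∧ f pr = pa) := by
  induction hf with
  | id => exact Or.inl ⟨rfl, rfl⟩
  | s1 f hf ih =>
    simp only [rf_e1]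
    rcases ih with ⟨h1, h2⟩ | ⟨h1, h2⟩ <;> rw [h1, h2]
    · exact Or.inr swap1
    · exact Or.inl ⟨swap1.2, swap1.1⟩
  | s2 f hf ih =>
    simp only [rf_k34]
    rcases ih with ⟨h1, h2⟩ | ⟨h1, h2⟩ <;> rw [h1, h2]
    · exact Or.inr swap2
    · exact Or.inl ⟨swap2.2, swap2.1⟩

/-- maps sending `E` into the closed half space `m` -/
inductive Nm : (Fin 4 → ℤ) → (X → X) → Prop
| base (m : Fin 4 → ℤ) (f : X → X) : MM m → m ≠ e1 → m ≠ k34 → Dm f → Nm m (fun x => rf m (f x))
| step (m m' : Fin 4 → ℤ) (f : X → X) : MM m → m ≠ m' → Nm m' f → Nm m (fun x => rf m (f x))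

lemma Nm_E {m : Fin 4 → ℤ} {f : X → X} (hf : Nm m f) : MM m ∧ ∀ x ∈ E, Qz m (f x) ≤ 0 := by
  induction hf with
  | base m f hm h1 h2 hf =>
    refine ⟨hm, fun x hx => ?_⟩
    have hE := Dm_E hf x hx
    have had : Adm m := by
      rcases hm with rfl | rfl | h
      · exact absurd rfl h1
      · exact absurd rfl h2
      · exact h.1
    obtain ⟨l, hl, _, e⟩ := Q_rf had.1.1 (f x)
    rw [e]
    have := mul_nonneg hl.le (had.2.1 _ hE)
    linarith
  | step m m' f hm hne hf ih =>
    refine ⟨hm, fun x hx => ?_⟩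
    have h1 := ih.2 x hx
    have h2 := MM_disj hm ih.1 hne (f x)
    obtain ⟨l, hl, _, e⟩ := Q_rf (MM_PR hm).1 (f x)
    rw [e]
    have : 0 ≤ Qz m (f x) := by linarith
    have := mul_nonneg hl.le this
    linarith

lemma cls (l : List (Fin 4 → ℤ)) (hl : ∀ m ∈ l, MM m) : Dm (ra l) ∨ ∃ m, Nm m (ra l) := by
  induction l with
  | nil => exact Or.inl Dm.id
  | cons m l ih =>
    have hm := hl m (List.mem_cons_self)
    have e : ra (m :: l) = fun x => rf m (ra l x) := rfl
    rw [e]
    rcases ih (fun m' hm' => hl m' (List.mem_cons_of_mem _ hm')) with h | ⟨m', h⟩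
    · by_cases h1 : m = e1
      · subst h1; exact Or.inl (Dm.s1 _ h)
      · by_cases h2 : m = k34
        · subst h2; exact Or.inl (Dm.s2 _ h)
        · exact Or.inr ⟨m, Nm.base m _ hm h1 h2 h⟩
    · by_cases hmm : m = m'
      · subst hmm
        generalize ra l = f at h
        cases h with
        | base _ f hm h1 h2 hf =>
          left
          have : (fun x => rf m (rf m (f x))) = f := by
            ext x; exact rf_invol (MM_PR hm).1 _
          rw [this]; exact hf
        | step _ m'' f hm hne hf =>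
          right
          have : (fun x => rf m (rf m (f x))) = f := by
            ext x; exact rf_invol (MM_PR hm).1 _
          rw [this]; exact ⟨m'', hf⟩
      · exact Or.inr ⟨m, Nm.step m m' _ hm hmm h⟩

/-! ### position of the two fixed points -/

lemma pa_e1 : Qz e1 pa < 0 := by
  unfold e1; rw [Qz_sgl]
  simp [pa, t, tv]
  unfold aa
  have := s2'; have := s2gt; have := s2lt
  nlinarith

lemma pr_k34 : Qz k34 pr < 0 := by
  unfold Qz Q
  simp [Fin.sum_univ_four, cs, k34, pr, t, tv]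
  unfold rr
  have := s2gt
  nlinarith

/-- a member of the family cannot have both points in its closed half space -/
lemma not_both {m : Fin 4 → ℤ} (hm : MM m) (h1 : Qz m pa ≤ 0) (h2 : Qz m pr ≤ 0) : False := by
  by_cases h : m = e1
  · subst h
    have := MM_disj hm (Or.inr (Or.inl rfl)) e1_ne_k34 pr
    have := pr_k34
    linarith
  · have := MM_disj hm (Or.inl rfl) h pa
    have := pa_e1
    linarith

end H26Apo
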