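import Pool.Agent.H26R3.ApoPack

set_option autoImplicit false

open OnePoint ComplexConjugate Filter Topology

namespace H26Apo

/-! ### small half spaces near points of the packing -/

def Y (x : X) : Prop := ∀ N : ℤ, ∃ c, PR c ∧ N ≤ ∑ j, c j ∧ Qz c x ≤ 0

lemma Qz_sgl (i : Fin 4) (x : X) : Qz (sgl i) x = t x i := by
  unfold Qz Q cs sgl
  simp

lemma exists_quad2 {i j : Fin 4} (h : j ≠ i) : ∃ k l, Quad i j k l := by revert i j; decide

lemma Ci_desc (i : Fin 4) (n : ℕ) : ∀ x ∈ Ci i, ∀ j, j ≠ i → 0 ≤ t x j →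
    ∃ k c, k ≠ i ∧ k ≠ j ∧ Rt k c ∧ (n : ℤ) + 1 ≤ ∑ a, c a ∧ Qz c x ≤ 0 := by
  have first : ∀ x ∈ Ci i, ∀ j, j ≠ i → 0 ≤ t x j → ∃ k, k ≠ i ∧ k ≠ j ∧ t x k ≤ 0 := by
    intro x hx j hj ht
    obtain ⟨k, l, hq⟩ := exists_quad2 hj
    have hq' := hq
    obtain ⟨h1, h2, h3, h4, h5, h6⟩ := hq
    have e3 := t_null x
    have e4 := sg_pos x
    unfold sg at e3 e4
    rw [sum4 hq', sum4 hq'] at e3
    rw [sum4 hq'] at e4
    have e1 : t x i = t x j + t x k + t x l := by
      have : Q (sgm i) x = 0 := hx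
      unfold Q at this
      rw [sum4 hq'] at this
      simp [sgm, h1.symm, h2.symm, h3.symm] at this
      linarith
    rw [e1] at e3 e4
    have e5 : t x j * t x k + t x k * t x l + t x j * t x l = 0 := by nlinarith
    by_cases hk : t x k ≤ 0
    · exact ⟨k, h2.symm, h4.symm, hk⟩
    · by_cases hl : t x l ≤ 0
      · exact ⟨l, h3.symm, h5.symm, hl⟩
      · push Not at hk hl
        exfalso
        nlinarith [mul_pos hk hl, mul_nonneg ht hk.le, mul_nonneg ht hl.le]
  induction n with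
  | zero =>
    intro x hx j hj ht
    obtain ⟨k, h1, h2, h3⟩ := first x hx j hj ht
    refine ⟨k, sgl k, h1, h2, Rt.base k, ?_, ?_⟩
    · fin_cases k <;> simp [sgl]
    · rw [Qz_sgl]; exact h3
  | succ n ih =>
    intro x hx j hj ht
    obtain ⟨k, h1, h2, h3⟩ := first x hx j hj ht
    have hx' : rho k x ∈ Ci i := by
      rw [← rho_Ci h1]; exact ⟨x, hx, rfl⟩
    have ht' : 0 ≤ t (rho k x) k := by
      obtain ⟨l, hl, h⟩ := t_rho k x
      rw [h]
      simp [R]
      exact mul_nonpos_of_nonneg_of_nonpos hl.le h3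
    obtain ⟨m, c, m1, m2, m3, m4, m5⟩ := ih (rho k x) hx' k h1 ht'
    refine ⟨k, Rc k c, h1, h2, Rt.step m3 m2.symm, ?_, ?_⟩
    · obtain ⟨t0, t1⟩ := Rt_top m3
      have hsum : c m + c k ≤ ∑ a, c a := by
        rw [← Finset.sum_pair m2]
        exact Finset.sum_le_sum_of_subset_of_nonneg (Finset.subset_univ _)
          (fun k _ _ => t0 k)
      rw [sum_Rc]
      push_cast
      linarith
    · obtain ⟨l, hl, h⟩ := Q_rho k (rho k x)
      rw [rho_invol] at h
      have := h (cs c)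
      unfold Qz
      rw [cs_Rc, this]
      exact mul_nonpos_of_nonneg_of_nonpos hl.le m5

lemma Y_Ci (i : Fin 4) (x : X) (hx : x ∈ Ci i) : Y x := by
  intro N
  obtain ⟨j, k, l, hq⟩ := exists_quad i
  have hq' := hq
  obtain ⟨h1, h2, h3, h4, h5, h6⟩ := hq
  have : ∃ a, a ≠ i ∧ 0 ≤ t x a := by
    by_contra hcon
    push Not at hcon
    have e4 := sg_pos x
    unfold sg at e4
    rw [sum4 hq'] at e4
    have : Q (sgm i) x = 0 := hx
    unfold Q at this
    rw [sum4 hq'] at this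
    simp [sgm, h1.symm, h2.symm, h3.symm] at this
    linarith [hcon j h1.symm, hcon k h2.symm, hcon l h3.symm]
  obtain ⟨a, ha, ht⟩ := this
  obtain ⟨k, c, _, _, h3, h4, h5⟩ := Ci_desc i N.toNat x hx a ha ht
  exact ⟨c, Rt_PR h3, by omega, h5⟩

lemma sum_neg (c : Fin 4 → ℤ) : ∑ j, (-c) j = - ∑ j, c j := by simp

lemma Y_rho (k : Fin 4) (x : X) (hx : Y x) : Y (rho k x) := by
  intro N
  obtain ⟨c, hc, hN, hQ⟩ := hx (max (3 * N) 2)
  have hr : IsRoot (Rc k c) := hc.1.lc [k]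
  have hQ' : Qz (Rc k c) (rho k x) ≤ 0 := by
    obtain ⟨l, hl, h⟩ := Q_rho k x
    unfold Qz
    rw [cs_Rc, h]
    exact mul_nonpos_of_nonneg_of_nonpos hl.le hQ
  have h2 : 2 ≤ ∑ j, c j := le_trans (le_max_right _ _) hN
  have h3 : 3 * N ≤ ∑ j, c j := le_trans (le_max_left _ _) hN
  rcases root_cases hr with ⟨j, h⟩ | ⟨j, h⟩
  · refine ⟨Rc k c, Rt_PR h, ?_, hQ'⟩
    have e : ∑ j, c j = 3 * ∑ j, Rc k c j - 4 * Rc k c k := by
      have := sum_Rc k (Rc k c)
      rwa [Rc_invol] at this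
    have := (Rt_PR h).2.1 k
    omega
  · exfalso
    have e : Rc k (- Rc k c) = - c := by rw [Rc_neg, Rc_invol]
    by_cases hkj : k = j
    · subst hkj
      generalize hd : - Rc k c = d at h e
      cases h with
      | base =>
        have : Rc k (sgl k) = (- sgl k : Fin 4 → ℤ) := by
          ext j
          fin_cases k <;> fin_cases j <;> simp [Rc, sgl, Fin.sum_univ_four]
        rw [this] at e
        have e' : c = sgl k := by rw [← neg_neg c, ← e, neg_neg]
        rw [e'] at h2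
        fin_cases k <;> simp [sgl] at h2
      | step h hj =>
        rw [Rc_invol] at e
        have := (Rt_PR h).2.2
        rw [e, sum_neg] at this
        omega
    · have := (Rt_PR (Rt.step h hkj)).2.2
      rw [e, sum_neg] at this
      omega

lemma Y_act (w : List (Fin 4)) (x : X) (hx : Y x) : Y (act w x) := by
  induction w with
  | nil => exact hx
  | cons i w ih => exact Y_rho i _ ih

lemma Y_Pk (x : X) (hx : x ∈ ⋃₀ Pk) : Y x := by
  obtain ⟨S, hS, hxS⟩ := hx
  obtain ⟨w, i, rfl⟩ := Pk_sub hS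
  obtain ⟨y, hy, rfl⟩ := hxS
  exact Y_act w y (Y_Ci i y hy)

lemma small (x : X) (hx : Y x) (U : Set X) (hU : U ∈ 𝓝 x) (M : ℤ) :
    ∃ c, PR c ∧ M ≤ ∑ j, c j ∧ ∀ y, Qz c y ≤ 0 → y ∈ U := by
  obtain ⟨e, he, hb⟩ := nbhd x U hU
  obtain ⟨n, hn⟩ := exists_nat_gt (2/e)
  obtain ⟨c, hc, hN, hQ⟩ := hx (max M (n+1))
  refine ⟨c, hc, le_trans (le_max_left _ _) hN, fun y hy => hb y ?_⟩
  have h1 : ((n:ℤ)+1) ≤ ∑ j, c j := le_trans (le_max_right _ _) hN
  have h2 : (n:ℝ) + 1 ≤ ((∑ j, c j : ℤ) : ℝ) := by exact_mod_cast h1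
  have hpos : 0 < ((∑ j, c j : ℤ) : ℝ) := by
    have : (0:ℝ) ≤ n := Nat.cast_nonneg n
    linarith
  have hBB : 2 * ∑ j, (cs c j)^2 = 1 + (((∑ j, c j : ℤ) : ℝ))^2 := by
    have := BB (cs c)
    rw [← cs_B, root_B hc.1, sumcs] at this
    push_cast at this ⊢
    linarith
  have := size2 (cs c) _ hpos (sumcs c) hBB x y hQ hy
  refine lt_of_le_of_lt this ?_
  generalize ((∑ j, c j : ℤ) : ℝ) = N at *
  have h3 : 1 ≤ N := by
    have : (0:ℝ) ≤ n := Nat.cast_nonneg n
    linarith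
  rw [div_lt_iff₀ (by positivity)]
  have h4 : 2 < e * N := by
    rw [div_lt_iff₀ he] at hn
    nlinarith
  nlinarith

/-! ### discreteness -/

section gen
variable {K : Type*} [CommRing K]

def Rg (i : Fin 4) (v : Fin 4 → K) : Fin 4 → K := fun j => if j = i then - v i else v j + 2 * v i

def Lt (w : List (Fin 4)) (v : Fin 4 → K) : Fin 4 → K := w.foldr Rg v

@[simp] lemma Lt_nil (c : Fin 4 → K) : Lt [] c = c := rfl
@[simp] lemma Lt_cons (i : Fin 4) (w : List (Fin 4)) (c : Fin 4 → K) :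
    Lt (i :: w) c = Rg i (Lt w c) := rfl

lemma Rg_lin (i : Fin 4) (c d : Fin 4 → K) (k : K) :
    Rg i (fun j => c j + k * d j) = fun j => Rg i c j + k * Rg i d j := by
  ext j
  unfold Rg; split_ifs <;> ring

lemma Lt_lin (w : List (Fin 4)) (c d : Fin 4 → K) (k : K) :
    Lt w (fun j => c j + k * d j) = fun j => Lt w c j + k * Lt w d j := by
  induction w with
  | nil => rfl
  | cons i w ih => simp only [Lt_cons, ih, Rg_lin]

lemma Lt_zero (w : List (Fin 4)) : Lt w (fun _ => (0:K)) = fun _ => 0 := by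
  induction w with
  | nil => rfl
  | cons i w ih => simp only [Lt_cons, ih]; ext j; simp [Rg]

lemma Lt_smul (w : List (Fin 4)) (d : Fin 4 → K) (k : K) :
    Lt w (fun j => k * d j) = fun j => k * Lt w d j := by
  have := Lt_lin w (fun _ => (0:K)) d k
  rw [Lt_zero] at this
  simpa using this

lemma B_Rg (i : Fin 4) (c d : Fin 4 → K) : B (Rg i c) (Rg i d) = B c d := by
  fin_cases i <;> simp [Rg, B, Fin.sum_univ_four] <;> ring

lemma B_Lt (w : List (Fin 4)) (c d : Fin 4 → K) : B (Lt w c) (Lt w d) = B c d := by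
  induction w with
  | nil => rfl
  | cons i w ih => simp only [Lt_cons, B_Rg, ih]

lemma Lt_basis (w : List (Fin 4)) (v : Fin 4 → K) (j : Fin 4) :
    Lt w v j = v 0 * Lt w (sgl 0) j + v 1 * Lt w (sgl 1) j + v 2 * Lt w (sgl 2) j
      + v 3 * Lt w (sgl 3) j := by
  have e : v = fun j => (((fun _ => (0:K)) j + v 0 * sgl 0 j) + v 1 * sgl 1 j + v 2 * sgl 2 j)
      + v 3 * sgl 3 j := by
    ext j; fin_cases j <;> simp [sgl]
  conv_lhs => rw [e]
  rw [Lt_lin, Lt_lin, Lt_lin, Lt_lin, Lt_zero]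
  simp

end gen

lemma Lt_cast (w : List (Fin 4)) (v : Fin 4 → ℤ) : Lt w (cs v) = cs (Lt w v) := by
  induction w with
  | nil => rfl
  | cons i w ih =>
    rw [Lt_cons, Lt_cons, ih]
    ext j
    by_cases h : j = i <;> simp [Rg, cs, h]

lemma t_act (w : List (Fin 4)) (x : X) : ∃ l : ℝ, 0 < l ∧ ∀ j, t (act w x) j = l * Lt w (t x) j := by
  induction w with
  | nil => exact ⟨1, one_pos, fun j => by simp⟩
  | cons i w ih =>
    obtain ⟨l, hl, h⟩ := ih
    obtain ⟨m, hm, h'⟩ := t_rho i (act w x)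
    refine ⟨m*l, by positivity, fun j => ?_⟩
    rw [act_cons, h', show t (act w x) = fun j => l * Lt w (t x) j from funext h, R_smul]
    rw [mul_assoc]
    rfl

noncomputable def Jf (w : List (Fin 4)) (x : X) : ℝ := ∑ j, Lt w (tau x) j

lemma tau_act (w : List (Fin 4)) (x : X) : 0 < Jf w x ∧
    ∀ j, Lt w (tau x) j = Jf w x * tau (act w x) j := by
  obtain ⟨l, hl, h⟩ := t_act w x
  have hs := sg_pos x
  have hs' := sg_pos (act w x)
  have e1 : ∀ j, Lt w (tau x) j = (1/sg x) * Lt w (t x) j := by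
    intro j
    have : tau x = fun j => (1/sg x) * t x j := by ext j; unfold tau; ring
    rw [this, Lt_smul]
  have e2 : ∀ j, Lt w (tau x) j = (sg (act w x) / (sg x * l)) * tau (act w x) j := by
    intro j
    rw [e1]
    unfold tau
    rw [h]
    field_simp
  have e3 : Jf w x = sg (act w x) / (sg x * l) := by
    unfold Jf
    simp_rw [e2]
    rw [← Finset.mul_sum, tau_sum, mul_one]
  rw [e3]
  exact ⟨by positivity, e2⟩

lemma dq_B (x y : X) : dq x y = - B (tau x) (tau y) := by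
  rw [dq_eq, B, tau_sum, tau_sum]; ring

lemma dq_act (w : List (Fin 4)) (x y : X) :
    dq x y = Jf w x * Jf w y * dq (act w x) (act w y) := by
  rw [dq_B, dq_B, ← B_Lt w (tau x) (tau y)]
  rw [show Lt w (tau x) = fun j => Jf w x * tau (act w x) j from funext (tau_act w x).2,
    show Lt w (tau y) = fun j => Jf w y * tau (act w y) j from funext (tau_act w y).2]
  simp only [B, Fin.sum_univ_four]
  ring

def Lam : Set X := closure (⋃₀ Pk)

lemma act_U (w : List (Fin 4)) (x : X) (hx : x ∈ ⋃₀ Pk) : act w x ∈ ⋃₀ Pk := by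
  obtain ⟨S, hS, hxS⟩ := hx
  exact ⟨act w '' S, act_Pk w S hS, ⟨x, hxS, rfl⟩⟩

lemma act_Lam (w : List (Fin 4)) (x : X) (hx : x ∈ Lam) : act w x ∈ Lam :=
  map_mem_closure (act_cont w) hx (fun y hy => act_U w y hy)

lemma sep (A C : Set X) (hA : IsClosed A) (hC : IsClosed C) (h : Disjoint A C) :
    ∃ e : ℝ, 0 < e ∧ ∀ a ∈ A, ∀ c ∈ C, e ≤ dq a c := by
  by_cases hne : (A ×ˢ C).Nonempty
  · have hA' : IsCompact A := hA.isCompact
    have hC' : IsCompact C := hC.isCompact
    have hcm : IsCompact (A ×ˢ C) := hA'.prod hC'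
    have hf : ContinuousOn (fun p : X × X => dq p.1 p.2) (A ×ˢ C) := dq_cont.continuousOn
    obtain ⟨p, hp, hmin⟩ := IsCompact.exists_isMinOn hcm hne hf
    refine ⟨dq p.1 p.2, dq_pos p.1 p.2 (fun h' => ?_), fun a' ha' c' hc' => ?_⟩
    · have h1 : p.1 ∈ A := (Set.mem_prod.mp hp).1
      have h2 : p.2 ∈ C := (Set.mem_prod.mp hp).2
      rw [← h'] at h2
      exact Set.disjoint_left.mp h h1 h2
    · have hm : (a', c') ∈ A ×ˢ C := Set.mk_mem_prod ha' hc'
      exact isMinOn_iff.mp hmin (a', c') hm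
  · refine ⟨1, one_pos, fun a ha c hc => ?_⟩
    exact absurd ⟨(a, c), Set.mk_mem_prod ha hc⟩ hne

lemma tau_abs (x : X) (j : Fin 4) : |tau x j| ≤ 1 := by
  have h := tau_sq x
  have := Finset.single_le_sum (f := fun j => (tau x j)^2)
    (fun i _ => sq_nonneg _) (Finset.mem_univ j)
  rw [h] at this
  rw [abs_le]
  constructor <;> nlinarith

/-- octahedron points, in the packing -/
lemma exists_pt' (i j : Fin 4) (h : i ≠ j) : ∃ x : X, x ∈ ⋃₀ Pk ∧
    ∀ k, tau x k = (sgl i k + sgl j k)/2 := by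
  obtain ⟨x, l, hl, hx⟩ := exists_pt i j h
  refine ⟨x, ⟨Ci i, Pk_base i, ?_⟩, ?_⟩
  · show Q _ _ = 0
    unfold Q
    simp_rw [hx]
    revert h
    fin_cases i <;> fin_cases j <;> simp [sgl, sgm, Fin.sum_univ_four]
  · intro k
    unfold tau sg
    simp_rw [hx]
    rw [← Finset.mul_sum]
    have : ∑ k, (sgl i k + sgl j k : ℝ) = 2 := by
      revert h
      fin_cases i <;> fin_cases j <;> simp [sgl, Fin.sum_univ_four] <;> norm_num
    rw [this]
    field_simp

lemma finite_bdd (z : X) (C : ℝ) :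
    {y : X | ∃ w, y = act w z ∧ ∀ k j, |Lt w (sgl k : Fin 4 → ℝ) j| ≤ C}.Finite := by
  classical
  let L : Set (Fin 4 → Fin 4 → ℤ) := Set.Icc (fun _ _ => -⌈C⌉) (fun _ _ => ⌈C⌉)
  have hL : L.Finite := Set.finite_Icc _ _
  let f : (Fin 4 → Fin 4 → ℤ) → X := fun M =>
    if h : ∃ w, (fun k j => Lt w (sgl k : Fin 4 → ℤ) j) = M then act h.choose z else z
  apply (hL.image f).subset
  rintro y ⟨w, rfl, hw⟩
  refine ⟨fun k j => Lt w (sgl k : Fin 4 → ℤ) j, ?_, ?_⟩
  · have key : ∀ k j, |Lt w (sgl k : Fin 4 → ℤ) j| ≤ ⌈C⌉ := by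
      intro k j
      have h1 := hw k j
      rw [← cs_sgl, Lt_cast] at h1
      unfold cs at h1
      have h2 : ((|Lt w (sgl k : Fin 4 → ℤ) j| : ℤ) : ℝ) ≤ (⌈C⌉ : ℝ) := by
        push_cast
        exact h1.trans (Int.le_ceil C)
      exact_mod_cast h2
    constructor
    · intro k j
      exact (abs_le.mp (key k j)).1
    · intro k j
      exact (abs_le.mp (key k j)).2
  · have hex : ∃ w', (fun k j => Lt w' (sgl k : Fin 4 → ℤ) j)
        = (fun k j => Lt w (sgl k : Fin 4 → ℤ) j) := ⟨w, rfl⟩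
    show (if h : ∃ w', (fun k j => Lt w' (sgl k : Fin 4 → ℤ) j)
        = (fun k j => Lt w (sgl k : Fin 4 → ℤ) j) then act h.choose z else z) = act w z
    rw [dif_pos hex]
    have hsp := hex.choose_spec
    generalize hex.choose = w' at hsp
    obtain ⟨l, hl, h⟩ := t_act w' z
    obtain ⟨m, hm, h'⟩ := t_act w z
    have e : ∀ j, Lt w' (t z) j = Lt w (t z) j := by
      intro j
      rw [Lt_basis, Lt_basis w]
      have : ∀ k, Lt w' (sgl k : Fin 4 → ℝ) j = Lt w (sgl k : Fin 4 → ℝ) j := by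
        intro k
        rw [← cs_sgl, Lt_cast, Lt_cast]
        have := congrFun (congrFun hsp k) j
        unfold cs
        exact_mod_cast this
      rw [this, this, this, this]
    apply t_inj _ _ (l/m) (by positivity)
    intro j
    rw [h, h', e]
    field_simp

lemma disc_main (z u : X) (hz : z ∉ Lam) (hu : u ∉ Lam) :
    ∃ V ∈ 𝓝 u, {y : X | (∃ w, y = act w z) ∧ y ∈ V}.Finite := by
  have hcl : IsClosed Lam := isClosed_closure
  obtain ⟨V, hV, hVc, hVs⟩ := exists_mem_nhds_isClosed_subset (hcl.isOpen_compl.mem_nhds hu)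
  refine ⟨V, hV, ?_⟩
  obtain ⟨e, he, hsep⟩ := sep V Lam hVc hcl (Set.disjoint_left.mpr (fun x hx hx' => hVs hx hx'))
  obtain ⟨d, hd, hsep'⟩ := sep {z} Lam isClosed_singleton hcl
    (Set.disjoint_left.mpr (fun x hx hx' => by
      rw [Set.mem_singleton_iff] at hx; subst hx; exact hz hx'))
  have hsep2 : ∀ c ∈ Lam, d ≤ dq z c := fun c hc => hsep' z rfl c hc
  obtain ⟨p1, hp1, ht1⟩ := exists_pt' 0 1 (by decide)
  obtain ⟨p2, hp2, ht2⟩ := exists_pt' 2 3 (by decide)
  have hp1' : p1 ∈ Lam := subset_closure hp1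
  have hp2' : p2 ∈ Lam := subset_closure hp2
  have hdq : dq p1 p2 = 1 := by
    rw [dq_eq, Fin.sum_univ_four]
    simp only [ht1, ht2]
    simp [sgl]
  -- lower bound for Jf w z
  have low : ∀ w, d ≤ Jf w z := by
    intro w
    have a1 := dq_act w (act w.reverse p1) (act w.reverse p2)
    rw [act_rev', act_rev', hdq, mul_one] at a1
    have a2 := dq_le (act w.reverse p1) (act w.reverse p2)
    rw [a1] at a2
    have j1 := (tau_act w (act w.reverse p1)).1
    have j2 := (tau_act w (act w.reverse p2)).1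
    have j0 := (tau_act w z).1
    have b1 := dq_act w z (act w.reverse p1)
    have b2 := dq_act w z (act w.reverse p2)
    rw [act_rev'] at b1 b2
    have c1 := hsep2 _ (act_Lam w.reverse p1 hp1')
    have c2 := hsep2 _ (act_Lam w.reverse p2 hp2')
    have d1 := dq_le (act w z) p1
    have d2 := dq_le (act w z) p2
    rcases le_or_gt (Jf w (act w.reverse p1)) 1 with h | h
    · have f1 : Jf w z * Jf w (act w.reverse p1) * dq (act w z) p1 ≤ Jf w z := by
        calc Jf w z * Jf w (act w.reverse p1) * dq (act w z) p1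
            ≤ Jf w z * Jf w (act w.reverse p1) * 1 := by gcongr
          _ ≤ Jf w z * 1 * 1 := by gcongr
          _ = Jf w z := by ring
      linarith
    · have h' : Jf w (act w.reverse p2) ≤ 1 := by
        by_contra hcon
        push Not at hcon
        nlinarith
      have f1 : Jf w z * Jf w (act w.reverse p2) * dq (act w z) p2 ≤ Jf w z := by
        calc Jf w z * Jf w (act w.reverse p2) * dq (act w z) p2
            ≤ Jf w z * Jf w (act w.reverse p2) * 1 := by gcongr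
          _ ≤ Jf w z * 1 * 1 := by gcongr
          _ = Jf w z := by ring
      linarith
  -- upper bound on the limit set
  have up : ∀ w, act w z ∈ V → ∀ c ∈ Lam, Jf w c ≤ 1/(d*e) := by
    intro w hw c hc
    have a1 := dq_act w z c
    have a2 := hsep _ hw _ (act_Lam w c hc)
    have a3 := dq_le z c
    have j0 := (tau_act w c).1
    have j1 := low w
    have j2 := (tau_act w z).1
    rw [le_div_iff₀ (by positivity)]
    calc Jf w c * (d * e) = d * Jf w c * e := by ring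
      _ ≤ Jf w z * Jf w c * dq (act w z) (act w c) := by gcongr
      _ = dq z c := a1.symm
      _ ≤ 1 := a3
  apply (finite_bdd z (3 * (1/(d*e)))).subset
  rintro y ⟨⟨w, rfl⟩, hy⟩
  refine ⟨w, rfl, ?_⟩
  have up' := up w hy
  -- bounds for sums of pairs of basis vectors
  have pair : ∀ a b : Fin 4, a ≠ b → ∀ j,
      |Lt w (sgl a : Fin 4 → ℝ) j + Lt w (sgl b : Fin 4 → ℝ) j| ≤ 2 * (1/(d*e)) := by
    intro a b hab j
    obtain ⟨p, hp, ht⟩ := exists_pt' a b hab
    have h1 := (tau_act w p).2 j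
    have h2 : Lt w (tau p) j = (Lt w (sgl a : Fin 4 → ℝ) j + Lt w (sgl b : Fin 4 → ℝ) j)/2 := by
      rw [show tau p = fun k => (1/2 : ℝ) * (sgl a k + 1 * sgl b k) by
        ext k; rw [ht]; ring]
      rw [Lt_smul, Lt_lin]
      simp only
      ring
    rw [h2] at h1
    have h3 := up' p (subset_closure hp)
    have h4 := (tau_act w p).1
    have h5 := tau_abs (act w p) j
    have h6 : Lt w (sgl a : Fin 4 → ℝ) j + Lt w (sgl b : Fin 4 → ℝ) j
        = 2 * (Jf w p * tau (act w p) j) := by linarith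
    rw [h6, abs_mul, abs_mul, abs_two, abs_of_pos h4]
    have : Jf w p * |tau (act w p) j| ≤ 1/(d*e) * 1 := by gcongr
    linarith
  intro k j
  obtain ⟨a, b, c, hq⟩ := exists_quad k
  obtain ⟨h1, h2, h3, h4, h5, h6⟩ := hq
  have p1 := abs_le.mp (pair k a h1 j)
  have p2 := abs_le.mp (pair k b h2 j)
  have p3 := abs_le.mp (pair a b h4 j)
  rw [abs_le]
  constructor <;> linarith [p1.1, p1.2, p2.1, p2.2, p3.1, p3.2]

/-- accumulation points of orbits lie in the closure of the packing -/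
lemma derived_sub (z : X) : derivedSet {y : X | ∃ w, y = act w z} ⊆ Lam := by
  intro u hu
  by_contra hul
  have hcl : IsClosed Lam := isClosed_closure
  by_cases hz : z ∈ Lam
  · have h1 : u ∈ closure {y : X | ∃ w, y = act w z} := derivedSet_subset_closure _ hu
    have h2 : closure {y : X | ∃ w, y = act w z} ⊆ Lam := by
      apply closure_minimal _ hcl
      rintro y ⟨w, rfl⟩
      exact act_Lam w z hz
    exact hul (h2 h1)
  · obtain ⟨V, hV, hfin⟩ := disc_main z u hz hul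
    rw [mem_derivedSet, accPt_iff_nhds] at hu
    have hfin' : ({y : X | (∃ w, y = act w z) ∧ y ∈ V} \ {u}).Finite := hfin.subset Set.sdiff_subset
    have hopen : V ∩ ({y : X | (∃ w, y = act w z) ∧ y ∈ V} \ {u})ᶜ ∈ 𝓝 u :=
      inter_mem hV (hfin'.isClosed.isOpen_compl.mem_nhds (by simp))
    obtain ⟨y, ⟨⟨hy1, hy2⟩, hy3⟩, hy4⟩ := hu _ hopen
    exact hy2 ⟨⟨hy3, hy1⟩, hy4⟩

end H26Apo
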