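import Pool.Agent.H26R3.ApoCirc

set_option autoImplicit false

open OnePoint ComplexConjugate Filter Topology

namespace H26Apo

def Comp (F : Set (Set X)) : Prop :=
  ∀ S ∈ F, ∀ T ∈ F, ∀ U ∈ F, ∀ V : Set X, IsCirc V →
    (∃! p, p ∈ S ∩ T) → (∃! p, p ∈ T ∩ U) → (∃! p, p ∈ S ∩ U) → S ∩ T ∩ U = ∅ →
    (∃! p, p ∈ V ∩ S) → (∃! p, p ∈ V ∩ T) → (∃! p, p ∈ V ∩ U) → V ∈ F

def Pk : Set (Set X) :=
  ⋂₀ {F : Set (Set X) | Ci 0 ∈ F ∧ Ci 1 ∈ F ∧ Ci 2 ∈ F ∧ Ci 3 ∈ F ∧ Comp F}

lemma Tg_symm {S T : Set X} (h : Tg S T) : Tg T S := by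
  unfold Tg; rwa [Set.inter_comm]

lemma Pk_min (F : Set (Set X)) (h : ∀ i, Ci i ∈ F) (hF : Comp F) : Pk ⊆ F :=
  Set.sInter_subset_of_mem ⟨h 0, h 1, h 2, h 3, hF⟩

lemma Pk_base (i : Fin 4) : Ci i ∈ Pk := by
  rintro F ⟨h0, h1, h2, h3, -⟩
  fin_cases i <;> assumption

lemma Pk_comp : Comp Pk := by
  intro S hS T hT U hU V hV h1 h2 h3 h4 h5 h6 h7 F hF
  exact hF.2.2.2.2 S (hS F hF) T (hT F hF) U (hU F hF) V hV h1 h2 h3 h4 h5 h6 h7

/-- base circles are pairwise tangent -/
lemma Ci_pt {i j k l : Fin 4} (h : Quad i j k l) (x : X) :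
    x ∈ Ci i ∩ Ci j ↔ t x k = 0 ∧ t x l = 0 := by
  have h' := h
  obtain ⟨h1, h2, h3, h4, h5, h6⟩ := h
  have e3 := t_null x
  have e4 := sg_pos x
  unfold sg at e3 e4
  rw [sum4 h', sum4 h'] at e3
  rw [sum4 h'] at e4
  have a1 : x ∈ Ci i ↔ - t x i + t x j + t x k + t x l = 0 := by
    show Q _ _ = 0 ↔ _
    unfold Q
    rw [sum4 h']
    simp [sgm, h1.symm, h2.symm, h3.symm]
  have a2 : x ∈ Ci j ↔ t x i - t x j + t x k + t x l = 0 := by
    show Q _ _ = 0 ↔ _
    unfold Q
    rw [sum4 h']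
    simp [sgm, h1, h4.symm, h5.symm]
    constructor <;> intro h <;> linarith
  rw [Set.mem_inter_iff, a1, a2]
  constructor
  · rintro ⟨b1, b2⟩
    have c1 : t x k + t x l = 0 := by linarith
    have c2 : t x i = t x j := by linarith
    have c3 : t x l = - t x k := by linarith
    rw [c2, c3] at e3
    have : (t x k)^2 = 0 := by nlinarith
    have c4 : t x k = 0 := pow_eq_zero_iff (two_ne_zero) |>.mp this
    exact ⟨c4, by rw [c3, c4]; ring⟩
  · rintro ⟨b1, b2⟩
    rw [b1, b2] at e3 e4 ⊢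
    have : (t x i - t x j)^2 = 0 := by nlinarith
    have c4 : t x i - t x j = 0 := pow_eq_zero_iff (two_ne_zero) |>.mp this
    constructor <;> linarith

lemma Ci_tg {i j : Fin 4} (hij : i ≠ j) : Tg (Ci i) (Ci j) := by
  obtain ⟨k, l, h⟩ : ∃ k l, Quad i j k l := by revert i j; decide
  have h' := h
  obtain ⟨h1, h2, h3, h4, h5, h6⟩ := h
  obtain ⟨x, m, hm, hx⟩ := exists_pt i j hij
  refine ⟨x, ?_, ?_⟩
  · show x ∈ Ci i ∩ Ci j
    rw [Ci_pt h']
    rw [hx, hx]
    simp [sgl, h2.symm, h3.symm, h4.symm, h5.symm]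
  · intro y hy
    have hy' : y ∈ Ci i ∩ Ci j := hy
    rw [Ci_pt h'] at hy'
    obtain ⟨y1, y2⟩ := hy'
    have e3 := t_null y
    have e4 := sg_pos y
    unfold sg at e3 e4
    rw [sum4 h', sum4 h'] at e3
    rw [sum4 h'] at e4
    rw [y1, y2] at e3 e4
    have : (t y i - t y j)^2 = 0 := by nlinarith
    have c4 : t y i - t y j = 0 := pow_eq_zero_iff (two_ne_zero) |>.mp this
    have hp : 0 < t y i := by linarith
    apply t_inj y x (t y i / m) (by positivity)
    intro a
    rw [hx]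
    rcases quad_cases h' a with rfl | rfl | rfl | rfl
    · simp [sgl, h1]; field_simp
    · simp [sgl, h1.symm]; field_simp; linarith
    · simp [sgl, h2.symm, h4.symm, y1]
    · simp [sgl, h3.symm, h5.symm, y2]

lemma Ci_triple {i j k : Fin 4} (h1 : i ≠ j) (h2 : i ≠ k) (h3 : j ≠ k) :
    Ci i ∩ Ci j ∩ Ci k = ∅ := by
  obtain ⟨l, h⟩ := exists_fourth h1 h2 h3
  ext x
  simp only [Set.mem_empty_iff_false, iff_false]
  rintro ⟨⟨a1, a2⟩, a3⟩
  have b1 := (Ci_pt h x).mp ⟨a1, a2⟩
  have h' : Quad i k j l := by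
    obtain ⟨q1, q2, q3, q4, q5, q6⟩ := h
    exact ⟨q2, q1, q3, q4.symm, q6, q5⟩
  have b2 := (Ci_pt h' x).mp ⟨a1, a3⟩
  have e4 := sg_pos x
  have a1' : Q (sgm i) x = 0 := a1
  unfold sg at e4
  unfold Q at a1'
  rw [sum4 h] at e4 a1'
  obtain ⟨q1, q2, q3, q4, q5, q6⟩ := h
  simp [sgm, q1.symm, q2.symm, q3.symm] at a1'
  linarith [b1.1, b1.2, b2.1]

lemma Ci_not_tg (i : Fin 4) : ¬ Tg (Ci i) (Ci i) := by
  rintro ⟨p, _, hu⟩
  obtain ⟨j, k, l, h⟩ := exists_quad i
  have h' := h
  obtain ⟨h1, h2, h3, h4, h5, h6⟩ := h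
  obtain ⟨x, ⟨x1, x2⟩, _⟩ := Ci_tg h1
  obtain ⟨y, ⟨y1, y2⟩, _⟩ := Ci_tg h2
  have e1 := hu x ⟨x1, x1⟩
  have e2 := hu y ⟨y1, y1⟩
  have : x ∈ Ci i ∩ Ci j ∩ Ci k := ⟨⟨x1, x2⟩, by rw [e1, ← e2]; exact y2⟩
  rw [Ci_triple h1 h2 h4] at this
  exact this

lemma Rc_sgm {i j : Fin 4} (h : i ≠ j) : Rc i (sgm j) = sgm j := by
  ext k
  revert h
  fin_cases i <;> fin_cases j <;> fin_cases k <;> simp [Rc, sgm, Fin.sum_univ_four] <;> norm_num

lemma act_one (i : Fin 4) : act [i] = rho i := rfl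

lemma rho_Ci {i j : Fin 4} (h : i ≠ j) : rho i '' (Ci j) = Ci j := by
  rw [← act_one, Ci, act_Zc]
  simp only [lc_cons, lc_nil]
  rw [Rc_sgm h]

lemma rho_inj (i : Fin 4) : Function.Injective (rho i) := by
  rw [← act_one]; exact act_inj _

lemma rho_Ci_mem (i : Fin 4) : rho i '' (Ci i) ∈ Pk := by
  obtain ⟨j, k, l, h⟩ := exists_quad i
  obtain ⟨h1, h2, h3, h4, h5, h6⟩ := h
  have key : ∀ a, i ≠ a → Tg (rho i '' Ci i) (Ci a) := by
    intro a ha
    rw [← rho_Ci ha]
    exact Tg_image _ (rho_inj i) _ _ (Ci_tg ha)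
  exact Pk_comp (Ci j) (Pk_base j) (Ci k) (Pk_base k) (Ci l) (Pk_base l) _
    (rho_circ i _ (Ci_circ i)) (Ci_tg h4) (Ci_tg h6) (Ci_tg h5) (Ci_triple h4 h5 h6)
    (key j h1) (key k h2) (key l h3)

lemma rho_Pk (i : Fin 4) (S : Set X) (hS : S ∈ Pk) : rho i '' S ∈ Pk := by
  have : Pk ⊆ {S | rho i '' S ∈ Pk} := by
    apply Pk_min
    · intro j
      by_cases h : i = j
      · subst h; exact rho_Ci_mem i
      · show rho i '' Ci j ∈ Pk
        rw [rho_Ci h]; exact Pk_base j
    · intro S hS T hT U hU V hV h1 h2 h3 h4 h5 h6 h7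
      have inj := rho_inj i
      exact Pk_comp _ hS _ hT _ hU _ (rho_circ i V hV) (Tg_image _ inj _ _ h1)
        (Tg_image _ inj _ _ h2) (Tg_image _ inj _ _ h3)
        (by rw [← Set.image_inter inj, ← Set.image_inter inj, h4, Set.image_empty])
        (Tg_image _ inj _ _ h5) (Tg_image _ inj _ _ h6) (Tg_image _ inj _ _ h7)
  exact this hS

lemma act_Pk (w : List (Fin 4)) (S : Set X) (hS : S ∈ Pk) : act w '' S ∈ Pk := by
  induction w with
  | nil => simpa using hS
  | cons i w ih =>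
    have : act (i :: w) '' S = rho i '' (act w '' S) := by
      rw [Set.image_image]; rfl
    rw [this]
    exact rho_Pk i _ ih

lemma act_Pk_iff (w : List (Fin 4)) (S : Set X) : S ∈ Pk ↔ act w '' S ∈ Pk := by
  refine ⟨act_Pk w S, fun h => ?_⟩
  have := act_Pk w.reverse _ h
  rwa [act_rev_image] at this

/-! ### structure of the orbit -/

inductive T : Fin 4 → (Fin 4 → ℝ) → Prop
| base (i : Fin 4) : T i (Rc i (sgm i))
| step {i j : Fin 4} {c : Fin 4 → ℝ} : T i c → j ≠ i → T j (Rc j c)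

lemma T_top {i : Fin 4} {c : Fin 4 → ℝ} (h : T i c) : (∀ k, 1 ≤ c k) ∧ ∑ k, c k + 1 ≤ 2 * c i := by
  induction h with
  | base i =>
    constructor
    · intro k
      fin_cases i <;> fin_cases k <;> simp [Rc, sgm, Fin.sum_univ_four] <;> norm_num
    · fin_cases i <;> simp [Rc, sgm, Fin.sum_univ_four] <;> norm_num
  | @step i j c h hj ih =>
    obtain ⟨h0, h1⟩ := ih
    have hsum : c i + c j ≤ ∑ k, c k := by
      rw [← Finset.sum_pair hj.symm]
      exact Finset.sum_le_sum_of_subset_of_nonneg (Finset.subset_univ _)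
        (fun k _ _ => by linarith [h0 k])
    have e : Rc j c j = 2 * (∑ k, c k) - 3 * c j := by simp [Rc]
    constructor
    · intro k
      by_cases hk : k = j
      · subst hk
        rw [e]
        have := h0 k
        have := h0 i
        linarith
      · simp only [Rc, hk, if_false]; exact h0 k
    · rw [sum_Rc, e]
      linarith

lemma T_top4 {i : Fin 4} {c : Fin 4 → ℝ} (h : T i c) : 4 ≤ c i := by
  obtain ⟨h0, h1⟩ := T_top h
  obtain ⟨j, k, l, hq⟩ := exists_quad i
  rw [sum4 hq] at h1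
  linarith [h0 j, h0 k, h0 l]

lemma sr_cases (w : List (Fin 4)) (i : Fin 4) :
    (∃ k, lc w (sgm i) = sgm k) ∨ (∃ j, T j (lc w (sgm i))) := by
  induction w with
  | nil => exact Or.inl ⟨i, rfl⟩
  | cons a w ih =>
    rw [lc_cons]
    rcases ih with ⟨k, h⟩ | ⟨j, h⟩
    · rw [h]
      by_cases ha : a = k
      · subst ha; exact Or.inr ⟨a, T.base a⟩
      · exact Or.inl ⟨k, Rc_sgm ha⟩
    · by_cases ha : a = j
      · subst ha
        generalize lc w (sgm i) = c at h ⊢
        cases h with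
        | base => left; rw [Rc_invol]; exact ⟨a, rfl⟩
        | step h hj => right; rw [Rc_invol]; exact ⟨_, h⟩
      · exact Or.inr ⟨a, T.step h ha⟩

lemma red (A : Finset (Fin 4)) {j : Fin 4} {c : Fin 4 → ℝ} (h : T j c) (hA : ∀ a ∈ A, (c a)^2 = 1) :
    ∃ w l, (∀ b ∈ w, b ∉ A) ∧ l ∉ A ∧ c = lc w (sgm l) := by
  induction h with
  | base j =>
    have hj : j ∉ A := by
      intro hj
      have h4 := T_top4 (T.base j)
      have := hA j hj
      nlinarith
    exact ⟨[j], j, by simpa using hj, hj, rfl⟩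
  | @step i j c h hji ih =>
    have hj : j ∉ A := by
      intro hj
      have h4 := T_top4 (T.step h hji)
      have := hA j hj
      nlinarith
    obtain ⟨w, l, h1, h2, h3⟩ := ih (by
      intro a ha
      have := hA a ha
      have haj : a ≠ j := by rintro rfl; exact hj ha
      simpa [Rc, haj] using this)
    refine ⟨j :: w, l, ?_, h2, by rw [lc_cons, ← h3]⟩
    intro b hb
    rcases List.mem_cons.mp hb with rfl | hb
    · exact hj
    · exact h1 b hb

lemma stab (w : List (Fin 4)) (i : Fin 4) (h : ∀ b ∈ w, b ≠ i) : act w '' (Ci i) = Ci i := by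
  induction w with
  | nil => simp
  | cons a w ih =>
    have : act (a :: w) '' Ci i = rho a '' (act w '' Ci i) := by
      rw [Set.image_image]; rfl
    rw [this, ih (fun b hb => h b (List.mem_cons_of_mem _ hb))]
    exact rho_Ci (h a (List.mem_cons_self))

lemma B_sgm (i : Fin 4) : B (sgm i) (sgm i) = 4 := by
  fin_cases i <;> simp [B, sgm, Fin.sum_univ_four] <;> norm_num

/-- normal form of an orbit circle tangent to base circles in `A` -/
lemma norm_form (A : Finset (Fin 4)) (w : List (Fin 4)) (k : Fin 4)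
    (h : ∀ a ∈ A, Tg (Ci a) (act w '' Ci k)) :
    ∃ w' l, (∀ b ∈ w', b ∉ A) ∧ l ∉ A ∧ act w '' Ci k = act w' '' Ci l := by
  have e : act w '' Ci k = Zc (lc w (sgm k)) := by rw [Ci, act_Zc]
  have hB : B (lc w (sgm k)) (lc w (sgm k)) = 4 := by rw [B_lc, B_sgm]
  have h1 : ∀ a ∈ A, (lc w (sgm k) a)^2 = 1 := by
    intro a ha
    have := h a ha
    rw [e] at this
    exact tan_coord a _ hB this
  rcases sr_cases w k with ⟨m, hm⟩ | ⟨j, hj⟩
  · have e' : act w '' Ci k = Ci m := by rw [e, hm]; rfl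
    refine ⟨[], m, by simp, ?_, by rw [e']; simp⟩
    intro hm'
    have := h m hm'
    rw [e'] at this
    exact Ci_not_tg m this
  · obtain ⟨w', l, h2, h3, h4⟩ := red A hj h1
    refine ⟨w', l, h2, h3, ?_⟩
    rw [e, h4, Ci, act_Zc]

lemma Zc_neg (v : Fin 4 → ℝ) : Zc (fun j => - v j) = Zc v := by
  ext x
  show Q _ _ = 0 ↔ Q _ _ = 0
  unfold Q
  simp

/-- Descartes: circles tangent to three base circles -/
lemma descartes {i k m n : Fin 4} (hq : Quad i k m n) (V : Set X) (hV : IsCirc V)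
    (h1 : Tg (Ci i) V) (h2 : Tg (Ci k) V) (h3 : Tg (Ci m) V) :
    V = Ci n ∨ V = rho n '' Ci n := by
  obtain ⟨v, hv, rfl⟩ := circ_form V hV
  have a1 := tan_coord i v hv h1
  have a2 := tan_coord k v hv h2
  have a3 := tan_coord m v hv h3
  have hq' := hq
  obtain ⟨q1, q2, q3, q4, q5, q6⟩ := hq
  have hv' : 2*((v i)^2+(v k)^2+(v m)^2+(v n)^2) - (v i+v k+v m+v n)^2 = 4 := by
    rw [← hv]; unfold B; rw [sum4 hq', sum4 hq']; ring
  have e2 : rho n '' Ci n = Zc (Rc n (sgm n)) := by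
    rw [← act_one, Ci, act_Zc]; rfl
  have eR : ∀ a, Rc n (sgm n) a = if a = n then 7 else 1 := by
    intro a
    fin_cases n <;> fin_cases a <;> simp [Rc, sgm, Fin.sum_univ_four] <;> norm_num
  have pm : ∀ y : ℝ, y^2 = 1 → y = 1 ∨ y = -1 := by
    intro y hy
    have : (y - 1) * (y + 1) = 0 := by linarith
    rcases mul_eq_zero.mp this with h | h
    · left; linarith
    · right; linarith
  have bad : ∀ a, Tg (Ci a) (Zc v) → v ≠ sgm a := by
    intro a ha hva
    rw [hva] at ha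
    exact Ci_not_tg a ha
  have bad' : ∀ a, Tg (Ci a) (Zc v) → v ≠ fun j => - sgm a j := by
    intro a ha hva
    rw [hva, Zc_neg] at ha
    exact Ci_not_tg a ha
  have ext4 : ∀ f : Fin 4 → ℝ, v i = f i → v k = f k → v m = f m → v n = f n → v = f := by
    intro f f1 f2 f3 f4
    ext a
    rcases quad_cases hq' a with rfl | rfl | rfl | rfl <;> assumption
  rcases pm _ a1 with b1 | b1 <;> rcases pm _ a2 with b2 | b2 <;> rcases pm _ a3 with b3 | b3 <;>
    rw [b1, b2, b3] at hv'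
  · have : (v n - 7) * (v n + 1) = 0 := by nlinarith
    rcases mul_eq_zero.mp this with h | h
    · right
      rw [e2]
      have : v = Rc n (sgm n) := by
        apply ext4
        · rw [eR]; simp [q3, b1]
        · rw [eR]; simp [q5, b2]
        · rw [eR]; simp [q6, b3]
        · rw [eR]; simp; linarith
      rw [this]
    · left
      have : v = sgm n := by
        apply ext4
        · simp [sgm, q3, b1]
        · simp [sgm, q5, b2]
        · simp [sgm, q6, b3]
        · simp [sgm]; linarith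
      rw [this]; rfl
  · exfalso
    have : (v n - 1)^2 = 0 := by nlinarith
    have h : v n = 1 := by
      have := pow_eq_zero_iff (two_ne_zero) |>.mp this
      linarith
    apply bad m h3
    apply ext4 <;> simp [sgm, q2, q4, q6.symm, b1, b2, b3, h]
  · exfalso
    have : (v n - 1)^2 = 0 := by nlinarith
    have h : v n = 1 := by
      have := pow_eq_zero_iff (two_ne_zero) |>.mp this
      linarith
    apply bad k h2
    apply ext4 <;> simp [sgm, q1, q4.symm, q5.symm, b1, b2, b3, h]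
  · exfalso
    have : (v n + 1)^2 = 0 := by nlinarith
    have h : v n = -1 := by
      have := pow_eq_zero_iff (two_ne_zero) |>.mp this
      linarith
    apply bad' i h1
    apply ext4 <;> simp [sgm, q1.symm, q2.symm, q3.symm, b1, b2, b3, h]
  · exfalso
    have : (v n - 1)^2 = 0 := by nlinarith
    have h : v n = 1 := by
      have := pow_eq_zero_iff (two_ne_zero) |>.mp this
      linarith
    apply bad i h1
    apply ext4 <;> simp [sgm, q1.symm, q2.symm, q3.symm, b1, b2, b3, h]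
  · exfalso
    have : (v n + 1)^2 = 0 := by nlinarith
    have h : v n = -1 := by
      have := pow_eq_zero_iff (two_ne_zero) |>.mp this
      linarith
    apply bad' k h2
    apply ext4 <;> simp [sgm, q1, q4.symm, q5.symm, b1, b2, b3, h]
  · exfalso
    have : (v n + 1)^2 = 0 := by nlinarith
    have h : v n = -1 := by
      have := pow_eq_zero_iff (two_ne_zero) |>.mp this
      linarith
    apply bad' m h3
    apply ext4 <;> simp [sgm, q2, q4, q6.symm, b1, b2, b3, h]
  · have : (v n + 7) * (v n - 1) = 0 := by nlinarith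
    rcases mul_eq_zero.mp this with h | h
    · right
      rw [e2, ← Zc_neg (Rc n (sgm n))]
      have : v = fun j => - Rc n (sgm n) j := by
        apply ext4
        · simp only [eR]; simp [q3, b1]
        · simp only [eR]; simp [q5, b2]
        · simp only [eR]; simp [q6, b3]
        · simp only [eR]; simp; linarith
      rw [this]
    · left
      have : v = fun j => - sgm n j := by
        apply ext4
        · simp [sgm, q3, b1]
        · simp [sgm, q5, b2]
        · simp [sgm, q6, b3]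
        · simp [sgm]; linarith
      rw [this, Zc_neg]; rfl

def Fo : Set (Set X) := {S | ∃ w i, S = act w '' Ci i}

lemma Fo_comp : Comp Fo := by
  rintro S ⟨w1, i, rfl⟩ T ⟨w2, k, rfl⟩ U ⟨w3, l, rfl⟩ V hV hST hTU hSU _ hVS hVT hVU
  -- step 1
  have s1 : Tg (Ci i) (act (w1.reverse ++ w2) '' Ci k) := by
    have := Tg_image _ (act_inj w1.reverse) _ _ hST
    rwa [act_rev_image, act_act_image] at this
  obtain ⟨u, k', hu1, hk', hu2⟩ := norm_form {i} _ k (by
    intro a ha; rw [Finset.mem_singleton] at ha; subst ha; exact s1)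
  have hu1' : ∀ b ∈ u, b ≠ i := fun b hb => by simpa using hu1 b hb
  have hk'' : i ≠ k' := fun h => hk' (by simp [h])
  have eS : act w1 '' Ci i = act (w1 ++ u) '' Ci i := by
    rw [← act_act_image, stab u i hu1']
  have eT : act w2 '' Ci k = act (w1 ++ u) '' Ci k' := by
    rw [← act_act_image, ← hu2, ← act_act_image, act_rev_image']
  rw [eS] at hST hSU hVS
  rw [eT] at hST hTU hVT
  generalize w1 ++ u = w4 at *
  -- step 2
  have s2 : ∀ a ∈ ({i, k'} : Finset (Fin 4)), Tg (Ci a) (act (w4.reverse ++ w3) '' Ci l) := by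
    intro a ha
    rw [Finset.mem_insert, Finset.mem_singleton] at ha
    rcases ha with rfl | rfl
    · have := Tg_image _ (act_inj w4.reverse) _ _ hSU
      rwa [act_rev_image, act_act_image] at this
    · have := Tg_image _ (act_inj w4.reverse) _ _ hTU
      rwa [act_rev_image, act_act_image] at this
  obtain ⟨u', m, hu3, hm, hu4⟩ := norm_form {i, k'} _ l s2
  have hu5 : ∀ b ∈ u', b ≠ i := fun b hb => by
    have := hu3 b hb; simp at this; exact this.1
  have hu6 : ∀ b ∈ u', b ≠ k' := fun b hb => by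
    have := hu3 b hb; simp at this; exact this.2
  have hm1 : i ≠ m := fun h => hm (by simp [h])
  have hm2 : k' ≠ m := fun h => hm (by simp [h])
  have eS : act w4 '' Ci i = act (w4 ++ u') '' Ci i := by
    rw [← act_act_image, stab u' i hu5]
  have eT : act w4 '' Ci k' = act (w4 ++ u') '' Ci k' := by
    rw [← act_act_image, stab u' k' hu6]
  have eU : act w3 '' Ci l = act (w4 ++ u') '' Ci m := by
    rw [← act_act_image, ← hu4, ← act_act_image, act_rev_image']
  rw [eS] at hVS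
  rw [eT] at hVT
  rw [eU] at hVU
  generalize w4 ++ u' = w5 at *
  have c1 := Tg_symm (Tg_image _ (act_inj w5.reverse) _ _ hVS)
  have c2 := Tg_symm (Tg_image _ (act_inj w5.reverse) _ _ hVT)
  have c3 := Tg_symm (Tg_image _ (act_inj w5.reverse) _ _ hVU)
  rw [act_rev_image] at c1 c2 c3
  obtain ⟨n, hq⟩ := exists_fourth hk'' hm1 hm2
  rcases descartes hq _ (act_circ w5.reverse V hV) c1 c2 c3 with h | h
  · refine ⟨w5, n, ?_⟩
    rw [← h, act_rev_image']
  · refine ⟨w5 ++ [n], n, ?_⟩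
    rw [← act_act_image, act_one, ← h, act_rev_image']

lemma Pk_sub : Pk ⊆ Fo := Pk_min Fo (fun i => ⟨[], i, by simp⟩) Fo_comp

end H26Apo
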