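import Pool.Agent.H26R3.ApoTop

set_option autoImplicit false

open OnePoint ComplexConjugate Filter Topology

namespace H26Apo

section gen
variable {K : Type*} [CommRing K]

def Rc (i : Fin 4) (c : Fin 4 → K) : Fin 4 → K :=
  fun j => if j = i then 2 * (∑ k, c k) - 3 * c i else c j

def B (c d : Fin 4 → K) : K := 2 * ∑ j, c j * d j - (∑ j, c j) * (∑ j, d j)

def sgl (i : Fin 4) : Fin 4 → K := fun j => if j = i then 1 else 0

lemma Rc_invol (i : Fin 4) (c : Fin 4 → K) : Rc i (Rc i c) = c := by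
  ext j
  fin_cases i <;> fin_cases j <;> simp [Rc, Fin.sum_univ_four] <;> ring

lemma B_Rc (i : Fin 4) (c d : Fin 4 → K) : B (Rc i c) (Rc i d) = B c d := by
  fin_cases i <;> simp [Rc, B, Fin.sum_univ_four] <;> ring

lemma sum_Rc (i : Fin 4) (c : Fin 4 → K) : ∑ j, Rc i c j = 3 * ∑ j, c j - 4 * c i := by
  fin_cases i <;> simp [Rc, Fin.sum_univ_four] <;> ring

lemma Rc_eq (i : Fin 4) (c : Fin 4 → K) (j : Fin 4) :
    Rc i c j = c j - 2 * B c (sgl i) * sgl i j := by
  fin_cases i <;> fin_cases j <;> simp [Rc, B, sgl, Fin.sum_univ_four] <;> ring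

lemma B_sgl (i : Fin 4) (c : Fin 4 → K) : B c (sgl i) = 2 * c i - ∑ j, c j := by
  fin_cases i <;> simp [B, sgl, Fin.sum_univ_four]

lemma Rc_lin (i : Fin 4) (c d : Fin 4 → K) (k : K) :
    Rc i (fun j => c j + k * d j) = fun j => Rc i c j + k * Rc i d j := by
  ext j
  fin_cases i <;> fin_cases j <;> simp [Rc, Fin.sum_univ_four] <;> ring

def lc (w : List (Fin 4)) (c : Fin 4 → K) : Fin 4 → K := w.foldr Rc c

@[simp] lemma lc_nil (c : Fin 4 → K) : lc [] c = c := rfl
@[simp] lemma lc_cons (i : Fin 4) (w : List (Fin 4)) (c : Fin 4 → K) :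
    lc (i :: w) c = Rc i (lc w c) := rfl
lemma lc_append (u w : List (Fin 4)) (c : Fin 4 → K) : lc (u ++ w) c = lc u (lc w c) := by
  simp [lc, List.foldr_append]

lemma lc_rev (w : List (Fin 4)) (c : Fin 4 → K) : lc w.reverse (lc w c) = c := by
  induction w with
  | nil => rfl
  | cons i w ih =>
    rw [List.reverse_cons, lc_append]
    simp only [lc_cons, lc_nil, Rc_invol, ih]

lemma lc_rev' (w : List (Fin 4)) (c : Fin 4 → K) : lc w (lc w.reverse c) = c := by
  have := lc_rev w.reverse c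
  rwa [List.reverse_reverse] at this

lemma B_lc (w : List (Fin 4)) (c d : Fin 4 → K) : B (lc w c) (lc w d) = B c d := by
  induction w with
  | nil => rfl
  | cons i w ih => simp only [lc_cons, B_Rc, ih]

lemma lc_lin (w : List (Fin 4)) (c d : Fin 4 → K) (k : K) :
    lc w (fun j => c j + k * d j) = fun j => lc w c j + k * lc w d j := by
  induction w with
  | nil => rfl
  | cons i w ih => simp only [lc_cons, ih, Rc_lin]

/-- the palindromic word acts as the reflection -/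
lemma lc_pal (w : List (Fin 4)) (i : Fin 4) (d : Fin 4 → K) (j : Fin 4) :
    lc (w ++ [i] ++ w.reverse) d j
      = d j - 2 * B d (lc w (sgl i)) * lc w (sgl i) j := by
  rw [lc_append, lc_append]
  simp only [lc_cons, lc_nil]
  have h : Rc i (lc w.reverse d) = fun j => lc w.reverse d j
      + (- 2 * B (lc w.reverse d) (sgl i)) * sgl i j := by
    ext j; rw [Rc_eq]; ring
  rw [h, lc_lin, lc_rev']
  have : B (lc w.reverse d) (sgl i) = B d (lc w (sgl i)) := by
    rw [← B_lc w (lc w.reverse d) (sgl i), lc_rev']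
  simp only [this]
  ring

end gen

/-- cast -/
def cs (c : Fin 4 → ℤ) : Fin 4 → ℝ := fun j => (c j : ℝ)

lemma cs_Rc (i : Fin 4) (c : Fin 4 → ℤ) : cs (Rc i c) = Rc i (cs c) := by
  ext j
  fin_cases i <;> fin_cases j <;> simp [Rc, cs, Fin.sum_univ_four]

lemma cs_lc (w : List (Fin 4)) (c : Fin 4 → ℤ) : cs (lc w c) = lc w (cs c) := by
  induction w with
  | nil => rfl
  | cons i w ih => simp only [lc_cons, cs_Rc, ih]

lemma cs_sgl (i : Fin 4) : cs (sgl i) = sgl i := by
  ext j; simp [cs, sgl]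

lemma cs_B (c d : Fin 4 → ℤ) : ((B c d : ℤ) : ℝ) = B (cs c) (cs d) := by
  simp [B, cs]

noncomputable def act (w : List (Fin 4)) (x : X) : X := w.foldr rho x

@[simp] lemma act_nil (x : X) : act [] x = x := rfl
@[simp] lemma act_cons (i : Fin 4) (w : List (Fin 4)) (x : X) :
    act (i :: w) x = rho i (act w x) := rfl
lemma act_append (u w : List (Fin 4)) (x : X) : act (u ++ w) x = act u (act w x) := by
  simp [act, List.foldr_append]

lemma act_rev (w : List (Fin 4)) (x : X) : act w.reverse (act w x) = x := by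
  induction w with
  | nil => rfl
  | cons i w ih =>
    rw [List.reverse_cons, act_append]
    simp only [act_cons, act_nil, rho_invol, ih]

lemma act_rev' (w : List (Fin 4)) (x : X) : act w (act w.reverse x) = x := by
  have := act_rev w.reverse x
  rwa [List.reverse_reverse] at this

lemma act_cont (w : List (Fin 4)) : Continuous (act w) := by
  induction w with
  | nil => exact continuous_id
  | cons i w ih => exact (rho_cont i).comp ih

lemma sum_dual (i : Fin 4) (c v : Fin 4 → ℝ) : ∑ j, Rc i c j * R i v j = ∑ j, c j * v j := by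
  fin_cases i <;> simp [Rc, R, Fin.sum_univ_four] <;> ring

lemma Q_rho (i : Fin 4) (x : X) : ∃ l : ℝ, 0 < l ∧ ∀ c, Q (Rc i c) (rho i x) = l * Q c x := by
  obtain ⟨l, hl, h⟩ := t_rho i x
  refine ⟨l, hl, fun c => ?_⟩
  unfold Q
  simp_rw [h]
  rw [← sum_dual i c (t x), Finset.mul_sum]
  apply Finset.sum_congr rfl
  intro j _
  ring

lemma Q_act (w : List (Fin 4)) (x : X) :
    ∃ l : ℝ, 0 < l ∧ ∀ c, Q (lc w c) (act w x) = l * Q c x := by
  induction w with
  | nil => exact ⟨1, one_pos, fun c => by simp⟩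
  | cons i w ih =>
    obtain ⟨l, hl, h⟩ := ih
    obtain ⟨m, hm, h'⟩ := Q_rho i (act w x)
    refine ⟨m*l, by positivity, fun c => ?_⟩
    rw [lc_cons, act_cons, h', h]
    ring

noncomputable def Qz (c : Fin 4 → ℤ) (x : X) : ℝ := Q (cs c) x

lemma Qz_act (w : List (Fin 4)) (x : X) :
    ∃ l : ℝ, 0 < l ∧ ∀ c, Qz (lc w c) (act w x) = l * Qz c x := by
  obtain ⟨l, hl, h⟩ := Q_act w x
  exact ⟨l, hl, fun c => by unfold Qz; rw [cs_lc, h]⟩

lemma Q_add (c d : Fin 4 → ℝ) (x : X) (k : ℝ) : Q (fun j => c j + k * d j) x = Q c x + k * Q d x := by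
  unfold Q
  rw [Finset.mul_sum, ← Finset.sum_add_distrib]
  apply Finset.sum_congr rfl
  intro j _
  ring

/-! ### roots -/

def IsRoot (c : Fin 4 → ℤ) : Prop := ∃ w i, c = lc w (sgl i)

inductive Rt : Fin 4 → (Fin 4 → ℤ) → Prop
| base (i : Fin 4) : Rt i (sgl i)
| step {i j : Fin 4} {c : Fin 4 → ℤ} : Rt i c → j ≠ i → Rt j (Rc j c)

lemma Rt_root {i : Fin 4} {c : Fin 4 → ℤ} (h : Rt i c) : IsRoot c := by
  induction h with
  | base i => exact ⟨[], i, rfl⟩
  | step h hj ih =>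
    obtain ⟨w, i, rfl⟩ := ih
    exact ⟨_ :: w, i, rfl⟩

lemma IsRoot.lc {c : Fin 4 → ℤ} (h : IsRoot c) (w : List (Fin 4)) : IsRoot (lc w c) := by
  obtain ⟨u, i, rfl⟩ := h
  exact ⟨w ++ u, i, (lc_append _ _ _).symm⟩

lemma Rt_top {i : Fin 4} {c : Fin 4 → ℤ} (h : Rt i c) : (∀ k, 0 ≤ c k) ∧ ∑ k, c k + 1 ≤ 2 * c i := by
  induction h with
  | base i =>
    constructor
    · intro k; simp only [sgl]; split_ifs <;> norm_num
    · fin_cases i <;> simp [sgl]
  | @step i j c h hj ih =>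
    obtain ⟨h0, h1⟩ := ih
    have hsum : c i + c j ≤ ∑ k, c k := by
      rw [← Finset.sum_pair hj.symm]
      exact Finset.sum_le_sum_of_subset_of_nonneg (Finset.subset_univ _) (fun k _ _ => h0 k)
    have e : Rc j c j = 2 * (∑ k, c k) - 3 * c j := by simp [Rc]
    constructor
    · intro k
      by_cases hk : k = j
      · subst hk
        rw [e]
        have := h0 k
        have := h0 i
        linarith
      · simp only [Rc, hk, if_false]; exact h0 k
    · rw [sum_Rc, e]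
      linarith

lemma Rc_neg (i : Fin 4) (c : Fin 4 → ℤ) : Rc i (-c) = - Rc i c := by
  ext j
  fin_cases i <;> fin_cases j <;> simp [Rc, Fin.sum_univ_four] <;> ring

lemma Rt_Rc {i : Fin 4} {c : Fin 4 → ℤ} (h : Rt i c) (k : Fin 4) :
    (∃ j, Rt j (Rc k c)) ∨ (∃ j, Rt j (- Rc k c)) := by
  by_cases hk : k = i
  · subst hk
    cases h with
    | base =>
      right
      refine ⟨k, ?_⟩
      have : - Rc k (sgl k) = (sgl k : Fin 4 → ℤ) := by
        ext j
        fin_cases k <;> fin_cases j <;> simp [Rc, sgl, Fin.sum_univ_four]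
      rw [this]
      exact Rt.base k
    | step h hj =>
      left
      rw [Rc_invol]
      exact ⟨_, h⟩
  · left
    exact ⟨k, Rt.step h hk⟩

lemma root_cases {c : Fin 4 → ℤ} (h : IsRoot c) : (∃ j, Rt j c) ∨ (∃ j, Rt j (-c)) := by
  obtain ⟨w, i, rfl⟩ := h
  induction w with
  | nil => exact Or.inl ⟨i, Rt.base i⟩
  | cons k w ih =>
    rw [lc_cons]
    rcases ih with ⟨j, h⟩ | ⟨j, h⟩
    · exact Rt_Rc h k
    · have := Rt_Rc h k
      rw [Rc_neg, neg_neg] at this
      exact this.symm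

lemma root_odd {c : Fin 4 → ℤ} (h : IsRoot c) : Odd (∑ k, c k) := by
  obtain ⟨w, i, rfl⟩ := h
  induction w with
  | nil => fin_cases i <;> simp [sgl]
  | cons k w ih =>
    rw [lc_cons, sum_Rc]
    obtain ⟨a, ha⟩ := ih
    rw [ha]
    exact ⟨3*a+1 - 2 * H26Apo.lc w (sgl i) k, by ring⟩

lemma root_B {c : Fin 4 → ℤ} (h : IsRoot c) : B c c = 1 := by
  obtain ⟨w, i, rfl⟩ := h
  rw [B_lc]
  fin_cases i <;> simp [B, sgl]

lemma B_odd {c d : Fin 4 → ℤ} (hc : IsRoot c) (hd : IsRoot d) : Odd (B c d) := by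
  have h := (root_odd hc).mul (root_odd hd)
  unfold B
  obtain ⟨a, ha⟩ := h
  rw [ha]
  exact ⟨∑ j, c j * d j - a - 1, by ring⟩

/-- positive roots -/
def PR (c : Fin 4 → ℤ) : Prop := IsRoot c ∧ (∀ k, 0 ≤ c k) ∧ 1 ≤ ∑ k, c k

lemma Rt_PR {i : Fin 4} {c : Fin 4 → ℤ} (h : Rt i c) : PR c := by
  obtain ⟨h0, h1⟩ := Rt_top h
  refine ⟨Rt_root h, h0, ?_⟩
  have : 0 ≤ ∑ k, c k := Finset.sum_nonneg (fun k _ => h0 k)
  have : c i ≤ ∑ k, c k := Finset.single_le_sum (fun k _ => h0 k) (Finset.mem_univ i)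
  linarith

lemma root_PR {c : Fin 4 → ℤ} (h : IsRoot c) : PR c ∨ PR (-c) := by
  rcases root_cases h with ⟨j, h⟩ | ⟨j, h⟩
  · exact Or.inl (Rt_PR h)
  · exact Or.inr (Rt_PR h)

lemma lam_cases {c d : Fin 4 → ℤ} (hc : IsRoot c) (hd : IsRoot d) : B c d ≤ -1 ∨ 1 ≤ B c d := by
  obtain ⟨a, ha⟩ := B_odd hc hd
  omega

lemma sumcs (c : Fin 4 → ℤ) : ∑ j, cs c j = ((∑ j, c j : ℤ) : ℝ) := by simp [cs]

lemma BB (v : Fin 4 → ℝ) : B v v = 2 * ∑ j, (v j)^2 - (∑ j, v j)^2 := by
  unfold B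
  simp only [Fin.sum_univ_four]; ring

lemma lam_disj {c d : Fin 4 → ℤ} (hc : PR c) (hd : PR d) (h : B c d ≤ -1) (x : X) :
    0 ≤ Qz c x + Qz d x := by
  have e := Q_add (cs c) (cs d) x 1
  rw [one_mul] at e
  unfold Qz
  rw [← e]
  apply SD
  · have h1 : B (fun j => cs c j + 1 * cs d j) (fun j => cs c j + 1 * cs d j)
        = B (cs c) (cs c) + B (cs d) (cs d) + 2 * B (cs c) (cs d) := by
      simp only [B, Fin.sum_univ_four]; ring
    rw [← cs_B, ← cs_B, ← cs_B, root_B hc.1, root_B hd.1, BB] at h1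
    have h2 : ((B c d : ℤ) : ℝ) ≤ -1 := by exact_mod_cast h
    push_cast at h1
    linarith
  · rw [Finset.sum_add_distrib]
    simp only [one_mul]
    rw [sumcs, sumcs]
    have h1 := hc.2.2
    have h2 := hd.2.2
    have : 0 ≤ ∑ j, c j + ∑ j, d j := by linarith
    exact_mod_cast this

lemma lam_nest {c d : Fin 4 → ℤ} (hc : PR c) (hd : PR d) (h : 1 ≤ B c d)
    (hs : ∑ j, d j ≤ ∑ j, c j) (x : X) : Qz d x ≤ Qz c x := by
  have e := Q_add (cs c) (cs d) x (-1)
  unfold Qz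
  suffices 0 ≤ Q (fun j => cs c j + -1 * cs d j) x by linarith
  apply SD
  · have h1 : B (fun j => cs c j + (-1) * cs d j) (fun j => cs c j + (-1) * cs d j)
        = B (cs c) (cs c) + B (cs d) (cs d) - 2 * B (cs c) (cs d) := by
      simp only [B, Fin.sum_univ_four]; ring
    rw [← cs_B, ← cs_B, ← cs_B, root_B hc.1, root_B hd.1, BB] at h1
    have h2 : (1 : ℝ) ≤ ((B c d : ℤ) : ℝ) := by exact_mod_cast h
    push_cast at h1
    linarith
  · rw [Finset.sum_add_distrib, ← Finset.mul_sum, sumcs, sumcs]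
    have : 0 ≤ ∑ j, c j + (-1) * ∑ j, d j := by linarith
    exact_mod_cast this

/-- octahedron points -/
lemma exists_pt (i j : Fin 4) (h : i ≠ j) : ∃ x : X, ∃ l : ℝ, 0 < l ∧
    ∀ k, t x k = l * (sgl i k + sgl j k) := by
  apply t_surj
  · revert h
    fin_cases i <;> fin_cases j <;> simp [sgl, Fin.sum_univ_four] <;> norm_num
  · revert h
    fin_cases i <;> fin_cases j <;> simp [sgl, Fin.sum_univ_four]

lemma pair_le {c d : Fin 4 → ℤ} (h : ∀ x, Qz d x ≤ Qz c x) (i j : Fin 4) (hij : i ≠ j) :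
    d i + d j ≤ c i + c j := by
  obtain ⟨x, l, hl, hx⟩ := exists_pt i j hij
  have e : ∀ c : Fin 4 → ℤ, Qz c x = l * ((c i + c j : ℤ) : ℝ) := by
    intro c
    unfold Qz Q
    simp_rw [hx]
    fin_cases i <;> fin_cases j <;> simp [sgl, Fin.sum_univ_four, cs] <;> ring
  have := h x
  rw [e, e] at this
  have h2 := le_of_mul_le_mul_left this hl
  exact_mod_cast h2

lemma sum_le {c d : Fin 4 → ℤ} (h : ∀ x, Qz d x ≤ Qz c x) (hne : d ≠ c) :
    ∑ j, d j < ∑ j, c j := by
  have h01 := pair_le h 0 1 (by decide)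
  have h23 := pair_le h 2 3 (by decide)
  have h02 := pair_le h 0 2 (by decide)
  have h13 := pair_le h 1 3 (by decide)
  have h03 := pair_le h 0 3 (by decide)
  have h12 := pair_le h 1 2 (by decide)
  simp only [Fin.sum_univ_four]
  by_contra hc
  push Not at hc
  apply hne
  ext j
  fin_cases j <;> simp <;> omega

/-! ### reflections in roots -/

open Classical in
noncomputable def wd (c : Fin 4 → ℤ) : List (Fin 4) :=
  if h : IsRoot c then h.choose ++ [h.choose_spec.choose] ++ h.choose.reverse else []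

lemma wd_spec {c : Fin 4 → ℤ} (h : IsRoot c) : ∃ w i, c = lc w (sgl i) ∧
    wd c = w ++ [i] ++ w.reverse := by
  refine ⟨h.choose, h.choose_spec.choose, h.choose_spec.choose_spec, ?_⟩
  unfold wd
  rw [dif_pos h]

lemma wd_rev {c : Fin 4 → ℤ} (h : IsRoot c) : (wd c).reverse = wd c := by
  obtain ⟨w, i, _, h2⟩ := wd_spec h
  rw [h2]; simp

lemma wd_len {c : Fin 4 → ℤ} (h : IsRoot c) : Odd (wd c).length := by
  obtain ⟨w, i, _, h2⟩ := wd_spec h
  rw [h2]
  refine ⟨w.length, ?_⟩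
  simp only [List.length_append, List.length_reverse, List.length_singleton]
  ring

lemma wd_lc {c : Fin 4 → ℤ} (h : IsRoot c) (d : Fin 4 → ℤ) (j : Fin 4) :
    lc (wd c) d j = d j - 2 * B d c * c j := by
  obtain ⟨w, i, h1, h2⟩ := wd_spec h
  rw [h2, lc_pal, ← h1]

noncomputable def rf (c : Fin 4 → ℤ) (x : X) : X := act (wd c) x

lemma rf_invol {c : Fin 4 → ℤ} (h : IsRoot c) (x : X) : rf c (rf c x) = x := by
  unfold rf
  have := act_rev (wd c) x
  rwa [wd_rev h] at this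

/-- evaluation under the reflection in a root -/
lemma Q_rf {c : Fin 4 → ℤ} (h : IsRoot c) (x : X) :
    ∃ l : ℝ, 0 < l ∧ (∀ d, Qz (lc (wd c) d) (rf c x) = l * Qz d x) ∧
      Qz c (rf c x) = - (l * Qz c x) := by
  obtain ⟨l, hl, h1⟩ := Qz_act (wd c) x
  refine ⟨l, hl, h1, ?_⟩
  have h2 := h1 c
  have h3 : lc (wd c) c = -c := by
    ext j
    rw [wd_lc h, root_B h]
    simp; ring
  rw [h3] at h2
  have h4 : Qz (-c) (act (wd c) x) = - Qz c (act (wd c) x) := by
    unfold Qz Q cs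
    simp
  rw [h4] at h2
  unfold rf
  linarith

end H26Apo
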