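import Pool.Agent.H26R3.ApoBase

set_option autoImplicit false

open OnePoint ComplexConjugate Filter Topology

namespace H26Apo

noncomputable def tau (x : X) : Fin 4 → ℝ := fun j => t x j / sg x

lemma tau_sum (x : X) : ∑ j, tau x j = 1 := by
  unfold tau
  rw [← Finset.sum_div]
  exact div_self (sg_pos x).ne'

lemma tau_sq (x : X) : ∑ j, (tau x j)^2 = 1/2 := by
  unfold tau
  have h := t_null x
  have hs := sg_pos x
  simp_rw [div_pow]
  rw [← Finset.sum_div, div_eq_iff (by positivity)]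
  linarith

lemma Q_eq (c : Fin 4 → ℝ) (x : X) : Q c x = sg x * ∑ j, c j * tau x j := by
  unfold Q tau
  rw [Finset.mul_sum]
  apply Finset.sum_congr rfl
  intro j _
  have hs := (sg_pos x).ne'
  field_simp

lemma SD (c : Fin 4 → ℝ) (h : 2 * ∑ j, (c j)^2 ≤ (∑ j, c j)^2) (h0 : 0 ≤ ∑ j, c j) (x : X) :
    0 ≤ Q c x := by
  rw [Q_eq]
  apply mul_nonneg (sg_pos x).le
  have h1 := tau_sum x
  have h2 := tau_sq x
  set u := tau x
  simp only [Fin.sum_univ_four] at *
  rcases h0.eq_or_lt with h0 | h0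
  · have e : (c 0)^2+(c 1)^2+(c 2)^2+(c 3)^2 ≤ 0 := by rw [← h0] at h; linarith
    have e0 : c 0 = 0 := by nlinarith [sq_nonneg (c 0), sq_nonneg (c 1), sq_nonneg (c 2), sq_nonneg (c 3)]
    have e1 : c 1 = 0 := by nlinarith [sq_nonneg (c 0), sq_nonneg (c 1), sq_nonneg (c 2), sq_nonneg (c 3)]
    have e2 : c 2 = 0 := by nlinarith [sq_nonneg (c 0), sq_nonneg (c 1), sq_nonneg (c 2), sq_nonneg (c 3)]
    have e3 : c 3 = 0 := by nlinarith [sq_nonneg (c 0), sq_nonneg (c 1), sq_nonneg (c 2), sq_nonneg (c 3)]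
    rw [e0, e1, e2, e3]; simp
  · obtain ⟨N, hN⟩ : ∃ N, N = c 0 + c 1 + c 2 + c 3 := ⟨_, rfl⟩
    rw [← hN] at h h0
    have key : (N * u 0 - N/2 + c 0)^2 + (N * u 1 - N/2 + c 1)^2 + (N * u 2 - N/2 + c 2)^2
        + (N * u 3 - N/2 + c 3)^2 = N^2 * (u 0^2+u 1^2+u 2^2+u 3^2) + N^2
          + (c 0^2+c 1^2+c 2^2+c 3^2) - N^2*(u 0+u 1+u 2+u 3)
          + 2*N*(c 0 * u 0 + c 1 * u 1 + c 2 * u 2 + c 3 * u 3) - N * (c 0 + c 1 + c 2 + c 3) := by
      ring
    rw [h1, h2, ← hN] at key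
    have pos := add_nonneg (add_nonneg (add_nonneg (sq_nonneg (N * u 0 - N/2 + c 0))
      (sq_nonneg (N * u 1 - N/2 + c 1))) (sq_nonneg (N * u 2 - N/2 + c 2)))
      (sq_nonneg (N * u 3 - N/2 + c 3))
    rw [key] at pos
    have : 0 ≤ 2*N*(c 0 * u 0 + c 1 * u 1 + c 2 * u 2 + c 3 * u 3) := by nlinarith
    by_contra hneg
    push Not at hneg
    nlinarith

lemma size1 (c : Fin 4 → ℝ) (N : ℝ) (hN : 0 < N) (hc : ∑ j, c j = N)
    (h : 2 * ∑ j, (c j)^2 = 1 + N^2) (x : X) (hQ : Q c x ≤ 0) :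
    ∑ j, (tau x j - (1/2 - c j / N))^2 ≤ 1/(2*N^2) := by
  have hQ' : ∑ j, c j * tau x j ≤ 0 := by
    rw [Q_eq] at hQ
    by_contra hneg
    push Not at hneg
    nlinarith [mul_pos (sg_pos x) hneg]
  have h1 := tau_sum x
  have h2 := tau_sq x
  set u := tau x
  simp only [Fin.sum_univ_four] at *
  have key : (u 0 - (1/2 - c 0 / N))^2 + (u 1 - (1/2 - c 1/N))^2 + (u 2 - (1/2 - c 2/N))^2
        + (u 3 - (1/2 - c 3 / N))^2 = (u 0^2+u 1^2+u 2^2+u 3^2) + 1
          + (c 0^2+c 1^2+c 2^2+c 3^2)/N^2 - (u 0+u 1+u 2+u 3)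
          + 2/N*(c 0 * u 0 + c 1 * u 1 + c 2 * u 2 + c 3 * u 3) - (c 0 + c 1 + c 2 + c 3)/N := by
    field_simp
    ring
  rw [key, h1, h2, hc]
  have e1 : N / N = 1 := div_self hN.ne'
  have e2 : (c 0^2+c 1^2+c 2^2+c 3^2)/N^2 = 1/(2*N^2) + 1/2 := by
    field_simp
    linarith
  have e3 : 2/N*(c 0 * u 0 + c 1 * u 1 + c 2 * u 2 + c 3 * u 3) ≤ 0 :=
    mul_nonpos_of_nonneg_of_nonpos (by positivity) hQ'
  rw [e1, e2]
  linarith

noncomputable def dq (x y : X) : ℝ := ∑ j, (tau x j - tau y j)^2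

lemma size2 (c : Fin 4 → ℝ) (N : ℝ) (hN : 0 < N) (hc : ∑ j, c j = N)
    (h : 2 * ∑ j, (c j)^2 = 1 + N^2) (x y : X) (hx : Q c x ≤ 0) (hy : Q c y ≤ 0) :
    dq x y ≤ 2/N^2 := by
  have h1 := size1 c N hN hc h x hx
  have h2 := size1 c N hN hc h y hy
  unfold dq
  have : ∀ j, (tau x j - tau y j)^2 ≤ 2*(tau x j - (1/2 - c j / N))^2
      + 2*(tau y j - (1/2 - c j / N))^2 := by
    intro j
    nlinarith [sq_nonneg ((tau x j - (1/2 - c j / N)) + (tau y j - (1/2 - c j / N)))]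
  calc ∑ j, (tau x j - tau y j)^2 ≤ ∑ j, (2*(tau x j - (1/2 - c j / N))^2
      + 2*(tau y j - (1/2 - c j / N))^2) := Finset.sum_le_sum (fun j _ => this j)
    _ = 2 * ∑ j, (tau x j - (1/2 - c j / N))^2 + 2 * ∑ j, (tau y j - (1/2 - c j / N))^2 := by
        rw [Finset.sum_add_distrib, Finset.mul_sum, Finset.mul_sum]
    _ ≤ 2 * (1/(2*N^2)) + 2 * (1/(2*N^2)) := by gcongr
    _ = 2/N^2 := by field_simp; ring

lemma tau_infty : tau ∞ = ![1/2, 1/2, 0, 0] := by
  ext j
  unfold tau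
  rw [sg_infty]
  fin_cases j <;> simp [t, tv] <;> norm_num

lemma tau_coe (z : ℂ) (j : Fin 4) : tau (z : X) j = t (z : X) j / (4*(z.re-1/2)^2 + 4*(z.im-1/2)^2 + 2) := by
  unfold tau
  rw [sg_coe]

lemma t_coe_cont (j : Fin 4) : Continuous (fun z : ℂ => t (z : X) j) := by
  fin_cases j <;> simp [t, tv] <;> fun_prop

lemma tau_dist_infty (z : ℂ) (j : Fin 4) :
    (tau (z : X) j - tau ∞ j)^2 ≤ 2 / sg (z : X) := by
  have h1 := tau_sum (z : X)
  have h2 := tau_sq (z : X)
  have h3 : tau (z : X) 2 + tau (z : X) 3 = 2 / sg (z : X) := by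
    unfold tau
    rw [← add_div]
    congr 1
    simp [t, tv]
  rw [Fin.sum_univ_four] at h1 h2
  rw [tau_infty, ← h3]
  fin_cases j <;> simp <;>
  nlinarith [sq_nonneg (tau (z:X) 0 - 1/2), sq_nonneg (tau (z:X) 1 - 1/2),
    sq_nonneg (tau (z:X) 2), sq_nonneg (tau (z:X) 3)]

lemma tau_cont : Continuous tau := by
  apply continuous_pi
  intro j
  rw [OnePoint.continuous_iff]
  constructor
  · rw [Filter.coclosedCompact_eq_cocompact, tendsto_iff_norm_sub_tendsto_zero]
    have h1 : Tendsto (fun z : ℂ => ‖z‖⁻¹) (cocompact ℂ) (𝓝 0) :=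
      tendsto_inv_atTop_zero.comp (tendsto_norm_cocompact_atTop)
    refine squeeze_zero' (Eventually.of_forall fun z => norm_nonneg _) ?_ h1
    filter_upwards [(tendsto_norm_cocompact_atTop (E := ℂ)).eventually_gt_atTop 0] with z hz'
    rw [Real.norm_eq_abs]
    have h2 := tau_dist_infty z j
    have h3 : 2 * ‖z‖^2 ≤ sg (z : X) := by
      rw [sg_coe, ← Complex.normSq_eq_norm_sq, Complex.normSq_apply]
      nlinarith [sq_nonneg (z.re - 1), sq_nonneg (z.im - 1)]
    apply abs_le_of_sq_le_sq _ (by positivity)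
    refine h2.trans ?_
    rw [inv_pow, div_le_iff₀ (sg_pos _)]
    rw [inv_mul_eq_div, le_div_iff₀ (by positivity)]
    exact h3
  · simp_rw [tau_coe]
    apply Continuous.div (t_coe_cont j) (by fun_prop)
    intro z
    positivity

lemma tau_inj : Function.Injective tau := by
  intro x y h
  refine t_inj x y (sg x / sg y) (div_pos (sg_pos x) (sg_pos y)) (fun j => ?_)
  have := congrFun h j
  unfold tau at this
  have h1 := (sg_pos x).ne'
  have h2 := (sg_pos y).ne'
  rw [div_eq_div_iff h1 h2] at this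
  field_simp
  linarith

lemma tau_emb : IsClosedEmbedding tau := tau_cont.isClosedEmbedding tau_inj

lemma nbhd (x : X) (U : Set X) (hU : U ∈ 𝓝 x) : ∃ e : ℝ, 0 < e ∧ ∀ y, dq x y < e → y ∈ U := by
  rw [tau_emb.isInducing.nhds_eq_comap, Filter.mem_comap] at hU
  obtain ⟨V, hV, hVU⟩ := hU
  rw [Metric.mem_nhds_iff] at hV
  obtain ⟨e, he, hb⟩ := hV
  refine ⟨e^2, by positivity, fun y hy => hVU (hb ?_)⟩
  rw [Metric.mem_ball, dist_pi_lt_iff he]
  intro j
  rw [Real.dist_eq]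
  apply abs_lt_of_sq_lt_sq _ he.le
  refine lt_of_le_of_lt ?_ hy
  unfold dq
  have := Finset.single_le_sum (f := fun j => (tau x j - tau y j)^2)
    (fun i _ => sq_nonneg _) (Finset.mem_univ j)
  nlinarith

lemma Qn_cont (c : Fin 4 → ℝ) : Continuous (fun x : X => ∑ j, c j * tau x j) := by
  have := tau_cont
  fun_prop

lemma dq_cont : Continuous (fun p : X × X => dq p.1 p.2) := by
  unfold dq
  have := tau_cont
  fun_prop

lemma dq_eq (x y : X) : dq x y = 1 - 2 * ∑ j, tau x j * tau y j := by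
  unfold dq
  have h1 := tau_sq x
  have h2 := tau_sq y
  simp only [Fin.sum_univ_four] at *
  linarith

lemma dq_le (x y : X) : dq x y ≤ 1 := by
  rw [dq_eq]
  have h1 := tau_sq x
  have h2 := tau_sq y
  have h3 := tau_sum x
  have h4 := tau_sum y
  have := SD (fun j => t y j) (by rw [t_null]; rfl) (sg_pos y).le x
  rw [Q_eq] at this
  have h5 : ∑ j, t y j * tau x j = sg y * ∑ j, tau x j * tau y j := by
    rw [Finset.mul_sum]
    apply Finset.sum_congr rfl
    intro j _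
    unfold tau
    have hs := (sg_pos y).ne'
    field_simp
  rw [h5] at this
  have h6 : 0 ≤ ∑ j, tau x j * tau y j := by
    by_contra hneg
    push Not at hneg
    nlinarith [mul_pos (sg_pos x) (sg_pos y), mul_pos (mul_pos (sg_pos x) (sg_pos y)) (neg_pos.mpr hneg)]
  linarith

lemma dq_pos (x y : X) (h : x ≠ y) : 0 < dq x y := by
  by_contra hneg
  push Not at hneg
  apply h
  apply tau_inj
  ext j
  have := Finset.single_le_sum (f := fun j => (tau x j - tau y j)^2)
    (fun i _ => sq_nonneg _) (Finset.mem_univ j)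
  have h2 : (tau x j - tau y j)^2 ≤ 0 := this.trans hneg
  nlinarith [sq_nonneg (tau x j - tau y j), pow_eq_zero_iff (two_ne_zero) |>.mp (le_antisymm h2 (sq_nonneg _))]

/-! ### the reflections -/

lemma R_invol (i : Fin 4) (v : Fin 4 → ℝ) : R i (R i v) = v := by
  ext j
  unfold R
  by_cases h : j = i
  · subst h; simp
  · simp [h]

lemma R_smul (i : Fin 4) (l : ℝ) (v : Fin 4 → ℝ) (j : Fin 4) :
    R i (fun k => l * v k) j = l * R i v j := by
  unfold R
  split_ifs <;> ring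

lemma rho_invol (i : Fin 4) (x : X) : rho i (rho i x) = x := by
  obtain ⟨l, hl, h⟩ := t_rho i x
  obtain ⟨m, hm, h'⟩ := t_rho i (rho i x)
  apply t_inj _ _ (m*l) (by positivity)
  intro j
  rw [h' j, show t (rho i x) = fun j => l * R i (t x) j from funext h, R_smul, R_invol]
  ring

lemma sum_R (i : Fin 4) (v : Fin 4 → ℝ) : ∑ j, R i v j = ∑ j, v j + 4 * v i := by
  fin_cases i <;> simp [R, Fin.sum_univ_four] <;> ring

lemma rho_cont (i : Fin 4) : Continuous (rho i) := by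
  rw [tau_emb.isInducing.continuous_iff]
  have h : tau ∘ rho i = fun x => fun j => R i (tau x) j / (1 + 4 * tau x i) := by
    ext x j
    obtain ⟨l, hl, h⟩ := t_rho i x
    have hs := sg_pos x
    have hs' := sg_pos (rho i x)
    have e1 : sg (rho i x) = l * (sg x + 4 * t x i) := by
      unfold sg
      simp_rw [h]
      rw [← Finset.mul_sum, sum_R]
    have e2 : 0 < sg x + 4 * t x i := by
      rw [e1] at hs'
      exact (mul_pos_iff_of_pos_left hl).mp hs'
    have e3 : R i (tau x) j = (1/sg x) * R i (t x) j := by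
      rw [← R_smul]
      congr 1
      ext k
      unfold tau
      ring
    show tau (rho i x) j = _
    rw [e3]
    unfold tau
    rw [h, e1]
    field_simp
  rw [h]
  have hp : ∀ x : X, 1 + 4 * tau x i ≠ 0 := by
    intro x
    obtain ⟨l, hl, h⟩ := t_rho i x
    have hs := sg_pos x
    have hs' := sg_pos (rho i x)
    have e1 : sg (rho i x) = l * (sg x + 4 * t x i) := by
      unfold sg
      simp_rw [h]
      rw [← Finset.mul_sum, sum_R]
    have e2 : 0 < sg x + 4 * t x i := by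
      rw [e1] at hs'
      exact (mul_pos_iff_of_pos_left hl).mp hs'
    unfold tau
    intro h0
    have : sg x + 4 * t x i = 0 := by
      field_simp at h0
      linarith
    linarith
  apply continuous_pi
  intro j
  have := tau_cont
  apply Continuous.div
  · unfold R
    split_ifs <;> fun_prop
  · fun_prop
  · exact hp

end H26Apo
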