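import Mathlib

set_option autoImplicit false

namespace Pool.Agent.H26R3

/-- The intersection of the eight half-spaces lies in the ball of radius `0.42`. -/
lemma ball_cert (x y z : ℝ)
    (h0 : (19/2000) * x + (1161/10000) * y + (189/500) * z ≤ (757/10000))
    (h1 : (291/10000) * x + (153/400) * y + (481/5000) * z ≤ (757/10000))
    (h2 : (1829/5000) * x + (-1343/5000) * y + (1263/10000) * z ≤ (1057/10000))
    (h3 : (-2641/10000) * x + (-141/500) * y + (-2697/10000) * z ≤ (529/5000))
    (h4 : (143/5000) * x + (6/625) * y + (-4703/10000) * z ≤ (529/5000))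
    (h5 : (4163/10000) * x + (4059/10000) * y + (-833/5000) * z ≤ (169/1000))
    (h6 : (-5289/10000) * x + (773/2500) * y + (-3/100) * z ≤ (347/2000))
    (h7 : (-2081/5000) * x + (-857/2000) * y + (349/1250) * z ≤ (1981/10000))
    : x ^ 2 + y ^ 2 + z ^ 2 ≤ 1764 / 10000 := by
  have l0 : 0 ≤ ((757/10000) + (-19/2000)*x + (-1161/10000)*y + (-189/500)*z) := by linarith
  have l1 : 0 ≤ ((757/10000) + (-291/10000)*x + (-153/400)*y + (-481/5000)*z) := by linarith
  have l2 : 0 ≤ ((1057/10000) + (-1829/5000)*x + (1343/5000)*y + (-1263/10000)*z) := by linarith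
  have l3 : 0 ≤ ((529/5000) + (2641/10000)*x + (141/500)*y + (2697/10000)*z) := by linarith
  have l4 : 0 ≤ ((529/5000) + (-143/5000)*x + (-6/625)*y + (4703/10000)*z) := by linarith
  have l5 : 0 ≤ ((169/1000) + (-4163/10000)*x + (-4059/10000)*y + (833/5000)*z) := by linarith
  have l6 : 0 ≤ ((347/2000) + (5289/10000)*x + (-773/2500)*y + (3/100)*z) := by linarith
  have l7 : 0 ≤ ((1981/10000) + (2081/5000)*x + (857/2000)*y + (-349/1250)*z) := by linarith
  rcases le_total 0 (5 * x + 7 * y + 6 * z) with hn | hn
  · have l8 : 0 ≤ ((0) + (5)*x + (7)*y + (6)*z) := by linarith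
    have key : 1764 / 10000 - (x ^ 2 + y ^ 2 + z ^ 2) = (7377/1000) * (((757/10000) + (-19/2000)*x + (-1161/10000)*y + (-189/500)*z) * ((529/5000) + (-143/5000)*x + (-6/625)*y + (4703/10000)*z)) + (2329/1000) * (((757/10000) + (-19/2000)*x + (-1161/10000)*y + (-189/500)*z) * ((169/1000) + (-4163/10000)*x + (-4059/10000)*y + (833/5000)*z)) + (919/250) * (((757/10000) + (-291/10000)*x + (-153/400)*y + (-481/5000)*z) * ((1057/10000) + (-1829/5000)*x + (1343/5000)*y + (-1263/10000)*z)) + (651/250) * (((1057/10000) + (-1829/5000)*x + (1343/5000)*y + (-1263/10000)*z) * ((347/2000) + (5289/10000)*x + (-773/2500)*y + (3/100)*z)) + (36/125) * (((169/1000) + (-4163/10000)*x + (-4059/10000)*y + (833/5000)*z) * ((0) + (5)*x + (7)*y + (6)*z)) + (1058534213/20000000000) * ((-91357781/962303830) + (1)*x + (6348848421/5292671065)*y + (61969731/50647570)*z) ^ 2 + (28857733037994555371/132316776625000000000) * ((-20584182217664127887/115430932151978221484) + (0)*x + (1)*y + (18161478629996683993/115430932151978221484)*z) ^ 2 + (146559612949207156674246226743/2885773303799455537100000000000)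 * ((2707783577490747130074074272/48853204316402385558082075581) + (0)*x + (0)*y + (1)*z) ^ 2 + (181410668753439233384881465197443201/65137605755203180744109434108000000000) * ((1) + (0)*x + (0)*y + (0)*z) ^ 2 := by ring
    have e1 : 0 ≤ 1764 / 10000 - (x ^ 2 + y ^ 2 + z ^ 2) := by
      rw [key]
      have m0 := mul_nonneg l0 l4
      have m1 := mul_nonneg l0 l5
      have m2 := mul_nonneg l1 l2
      have m3 := mul_nonneg l2 l6
      have m4 := mul_nonneg l5 l8
      positivity
    linarith
  · have l8 : 0 ≤ ((0) + (-5)*x + (-7)*y + (-6)*z) := by linarith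
    have key : 1764 / 10000 - (x ^ 2 + y ^ 2 + z ^ 2) = (397/100) * (((1057/10000) + (-1829/5000)*x + (1343/5000)*y + (-1263/10000)*z) * ((347/2000) + (5289/10000)*x + (-773/2500)*y + (3/100)*z)) + (399/1000) * (((529/5000) + (2641/10000)*x + (141/500)*y + (2697/10000)*z) * ((0) + (-5)*x + (-7)*y + (-6)*z)) + (116/25) * (((529/5000) + (-143/5000)*x + (-6/625)*y + (4703/10000)*z) * ((1981/10000) + (2081/5000)*x + (857/2000)*y + (-349/1250)*z)) + (1750966181/5000000000) * ((630615209/7003864724) + (1)*x + (1813038069/3501932362)*y + (5337906907/7003864724)*z) ^ 2 + (1490440969512781687/35019323620000000000) * ((212153920222494183/2980881939025563374) + (0)*x + (1)*y + (612515838229916657/2980881939025563374)*z) ^ 2 + (241318073101273006240465481/3726102423781954217500000000) * ((-31382824604215419158800893/241318073101273006240465481) + (0)*x + (0)*y + (1)*z) ^ 2 + (331032232918047065956718511868719/150823795688295628900290925625000000) * ((1) + (0)*x + (0)*y + (0)*z) ^ 2 := by ring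
    have e1 : 0 ≤ 1764 / 10000 - (x ^ 2 + y ^ 2 + z ^ 2) := by
      rw [key]
      have m0 := mul_nonneg l2 l6
      have m1 := mul_nonneg l3 l8
      have m2 := mul_nonneg l4 l7
      positivity
    linarith

end Pool.Agent.H26R3
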