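import Pool.Agent.H26R3.MartinElts
import Pool.Agent.H26R3.MartinCert

set_option autoImplicit false
open Matrix

namespace Pool.Agent.H26R3

/-- The base point. -/
def E0 : Fin 4 → ℝ := Pi.single 0 1

lemma LB_E0 (y : Fin 4 → ℝ) : LB E0 y = -y 0 := by simp [LB_eq, E0]

lemma inv_mulVec (g : Matrix.GeneralLinearGroup (Fin 4) ℝ) (y : Fin 4 → ℝ) :
    (g : Matrix (Fin 4) (Fin 4) ℝ) *ᵥ (((g⁻¹ : Matrix.GeneralLinearGroup (Fin 4) ℝ) :
      Matrix (Fin 4) (Fin 4) ℝ) *ᵥ y) = y := by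
  have h1 : (g : Matrix (Fin 4) (Fin 4) ℝ) * ((g⁻¹ : Matrix.GeneralLinearGroup (Fin 4) ℝ) :
      Matrix (Fin 4) (Fin 4) ℝ) = 1 := by
    rw [← Matrix.GeneralLinearGroup.coe_mul, mul_inv_cancel]; rfl
  rw [Matrix.mulVec_mulVec, h1, Matrix.one_mulVec]

lemma Gam_form {g : Matrix.GeneralLinearGroup (Fin 4) ℝ} (hg : g ∈ Gam) (u v : Fin 4 → ℝ) :
    LB ((g : Matrix (Fin 4) (Fin 4) ℝ) *ᵥ u) ((g : Matrix (Fin 4) (Fin 4) ℝ) *ᵥ v) = LB u v := by
  obtain ⟨X, hX, h⟩ := Gam_lift hg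
  exact lift_form h hX u v

lemma Gam_adj {g : Matrix.GeneralLinearGroup (Fin 4) ℝ} (hg : g ∈ Gam) (u v : Fin 4 → ℝ) :
    LB ((g : Matrix (Fin 4) (Fin 4) ℝ) *ᵥ u) v
      = LB u (((g⁻¹ : Matrix.GeneralLinearGroup (Fin 4) ℝ) : Matrix (Fin 4) (Fin 4) ℝ) *ᵥ v) := by
  have h := Gam_form hg u (((g⁻¹ : Matrix.GeneralLinearGroup (Fin 4) ℝ) :
    Matrix (Fin 4) (Fin 4) ℝ) *ᵥ v)
  rw [inv_mulVec] at h
  exact h

/-- The displaced base point is far in any direction of a Dirichlet reduced point. -/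
lemma reduced_LB {g : Matrix.GeneralLinearGroup (Fin 4) ℝ} (hg : g ∈ Gam) {y : Fin 4 → ℝ}
    (hy : ∀ h ∈ Gam, y 0 ≤ ((h : Matrix (Fin 4) (Fin 4) ℝ) *ᵥ y) 0) :
    y 0 ≤ -(LB ((g : Matrix (Fin 4) (Fin 4) ℝ) *ᵥ E0) y) := by
  rw [Gam_adj hg, LB_E0, neg_neg]
  exact hy _ (Gam.inv_mem hg)

lemma lift_E0 {g : Matrix (Fin 4) (Fin 4) ℝ} {X : Matrix (Fin 2) (Fin 2) ℂ} (h : IsLift g X) :
    g *ᵥ E0 = Hinv (X * Xᴴ) := by
  have h1 := h E0
  have h2 : Hm E0 = 1 := by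
    ext i j; fin_cases i <;> fin_cases j <;> simp [Hm, E0]
  rw [h2, Matrix.mul_one] at h1
  rw [← Hinv_Hm (g *ᵥ E0), h1]

lemma exists_elt {x : OQ (Polynomial ℤ)} {z : OQ ℂ} (h : x.map evc = z) (hx : Good x) :
    ∃ g ∈ Gam, IsLift (g : Matrix (Fin 4) (Fin 4) ℝ) (phi z) := by
  subst h
  have hdet : (phi (x.map evc)).det = 1 := by rw [phi_det, hx.1]
  refine ⟨Matrix.GeneralLinearGroup.mkOfDetNeZero (rho (phi (x.map evc)))
    (by rw [rho_det hdet]; norm_num), ⟨?_, x, hx, ?_⟩, ?_⟩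
  · exact rho_det hdet
  · exact rho_lift _
  · exact rho_lift _

lemma evc_X : evc Polynomial.X = thc := by simp [evc]
lemma ev1_X : ev1 Polynomial.X = th1 := by simp [ev1]
lemma ev2_X : ev2 Polynomial.X = th2 := by simp [ev2]

lemma coord_le {y : Fin 4 → ℝ} (hyy : LB y y = -1) (h0 : 0 < y 0) :
    |y 1| ≤ y 0 ∧ |y 2| ≤ y 0 ∧ |y 3| ≤ y 0 := by
  rw [LB_eq] at hyy
  refine ⟨?_, ?_, ?_⟩ <;> apply abs_le_of_sq_le_sq _ h0.le <;> nlinarith

/-- The half-space of one group element. -/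
lemma half {z : OQ ℂ} (hz : ∃ g ∈ Gam, IsLift (g : Matrix (Fin 4) (Fin 4) ℝ) (phi z))
    {P0 P1 P2 P3 : ℝ} (hP : PB (phi z) P0 P1 P2 P3) {y : Fin 4 → ℝ} (hyy : LB y y = -1)
    (h0 : 0 < y 0) (hy : ∀ h ∈ Gam, y 0 ≤ ((h : Matrix (Fin 4) (Fin 4) ℝ) *ᵥ y) 0)
    (a b c d : ℝ)
    (hd : P0 - 1 + |a - P1| + |b - P2| + |c - P3| + 1.36e-4 ≤ d) :
    a * (y 1 / y 0) + b * (y 2 / y 0) + c * (y 3 / y 0) ≤ d := by
  obtain ⟨g, hg, hl⟩ := hz
  have h1 := reduced_LB hg hy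
  rw [lift_E0 hl, LB_eq] at h1
  obtain ⟨q0, q1, q2, q3⟩ := hP
  obtain ⟨c1, c2, c3⟩ := coord_le hyy h0
  have e : a * (y 1 / y 0) + b * (y 2 / y 0) + c * (y 3 / y 0)
      = (a * y 1 + b * y 2 + c * y 3) / y 0 := by ring
  rw [e, div_le_iff₀ h0]
  have k0 : Hinv (phi z * (phi z)ᴴ) 0 * y 0 ≤ (P0 + 3.4e-5) * y 0 := by
    apply mul_le_mul_of_nonneg_right _ h0.le
    have := (abs_le.1 q0).2
    linarith
  have aux : ∀ (A P H Y : ℝ), |H - P| ≤ 3.4e-5 → |Y| ≤ y 0 →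
      A * Y ≤ H * Y + (|A - P| + 3.4e-5) * y 0 := by
    intro A P H Y hH hY
    have e1 : A * Y = H * Y + (A - H) * Y := by ring
    have e2 : (A - H) * Y ≤ |A - H| * |Y| := by rw [← abs_mul]; exact le_abs_self _
    have e3 : |A - H| ≤ |A - P| + 3.4e-5 := by
      have : A - H = (A - P) + -(H - P) := by ring
      rw [this]
      refine (abs_add_le _ _).trans ?_
      rw [abs_neg]; linarith
    have e4 : |A - H| * |Y| ≤ (|A - P| + 3.4e-5) * y 0 :=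
      mul_le_mul e3 hY (abs_nonneg _) (by positivity)
    linarith
  have k1 := aux a P1 _ _ q1 c1
  have k2 := aux b P2 _ _ q2 c2
  have k3 := aux c P3 _ _ q3 c3
  have k4 := mul_le_mul_of_nonneg_right hd h0.le
  linarith

lemma good0 : Good (el0 Polynomial.X) := by
  refine ⟨?_, ?_, ?_⟩
  · rw [el0_map, evc_X]; exact el0_nrm thc_root
  · rw [el0_map, ev1_X]; exact el0_nrm th1_root
  · rw [el0_map, ev2_X]; exact el0_nrm th2_root
lemma good1 : Good (el1 Polynomial.X) := by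
  refine ⟨?_, ?_, ?_⟩
  · rw [el1_map, evc_X]; exact el1_nrm thc_root
  · rw [el1_map, ev1_X]; exact el1_nrm th1_root
  · rw [el1_map, ev2_X]; exact el1_nrm th2_root
lemma good2 : Good (el2 Polynomial.X) := by
  refine ⟨?_, ?_, ?_⟩
  · rw [el2_map, evc_X]; exact el2_nrm thc_root
  · rw [el2_map, ev1_X]; exact el2_nrm th1_root
  · rw [el2_map, ev2_X]; exact el2_nrm th2_root
lemma good3 : Good (el3 Polynomial.X) := by
  refine ⟨?_, ?_, ?_⟩
  · rw [el3_map, evc_X]; exact el3_nrm thc_root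
  · rw [el3_map, ev1_X]; exact el3_nrm th1_root
  · rw [el3_map, ev2_X]; exact el3_nrm th2_root
lemma good4 : Good (el4 Polynomial.X) := by
  refine ⟨?_, ?_, ?_⟩
  · rw [el4_map, evc_X]; exact el4_nrm thc_root
  · rw [el4_map, ev1_X]; exact el4_nrm th1_root
  · rw [el4_map, ev2_X]; exact el4_nrm th2_root
lemma good5 : Good (el5 Polynomial.X) := by
  refine ⟨?_, ?_, ?_⟩
  · rw [el5_map, evc_X]; exact el5_nrm thc_root
  · rw [el5_map, ev1_X]; exact el5_nrm th1_root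
  · rw [el5_map, ev2_X]; exact el5_nrm th2_root
lemma good6 : Good (el6 Polynomial.X) := by
  refine ⟨?_, ?_, ?_⟩
  · rw [el6_map, evc_X]; exact el6_nrm thc_root
  · rw [el6_map, ev1_X]; exact el6_nrm th1_root
  · rw [el6_map, ev2_X]; exact el6_nrm th2_root
lemma good7 : Good (el7 Polynomial.X) := by
  refine ⟨?_, ?_, ?_⟩
  · rw [el7_map, evc_X]; exact el7_nrm thc_root
  · rw [el7_map, ev1_X]; exact el7_nrm th1_root
  · rw [el7_map, ev2_X]; exact el7_nrm th2_root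

/-- A Dirichlet reduced point is within the ball around the base point. -/
lemma reduced_ball {y : Fin 4 → ℝ} (hyy : LB y y = -1) (h0 : 0 < y 0)
    (hy : ∀ h ∈ Gam, y 0 ≤ ((h : Matrix (Fin 4) (Fin 4) ℝ) *ᵥ y) 0) :
    0.8236 * (y 0) ^ 2 ≤ 1 := by
  have g0 := exists_elt ((el0_map evc Polynomial.X).trans (by rw [evc_X])) good0
  have g1 := exists_elt ((el1_map evc Polynomial.X).trans (by rw [evc_X])) good1
  have g2 := exists_elt ((el2_map evc Polynomial.X).trans (by rw [evc_X])) good2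
  have g3 := exists_elt ((el3_map evc Polynomial.X).trans (by rw [evc_X])) good3
  have g4 := exists_elt ((el4_map evc Polynomial.X).trans (by rw [evc_X])) good4
  have g5 := exists_elt ((el5_map evc Polynomial.X).trans (by rw [evc_X])) good5
  have g6 := exists_elt ((el6_map evc Polynomial.X).trans (by rw [evc_X])) good6
  have g7 := exists_elt ((el7_map evc Polynomial.X).trans (by rw [evc_X])) good7
  have h := ball_cert (y 1 / y 0) (y 2 / y 0) (y 3 / y 0)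
    (half g0 el0_p hyy h0 hy _ _ _ _ (by norm_num))
    (half g1 el1_p hyy h0 hy _ _ _ _ (by norm_num))
    (half g2 el2_p hyy h0 hy _ _ _ _ (by norm_num))
    (half g3 el3_p hyy h0 hy _ _ _ _ (by norm_num))
    (half g4 el4_p hyy h0 hy _ _ _ _ (by norm_num))
    (half g5 el5_p hyy h0 hy _ _ _ _ (by norm_num))
    (half g6 el6_p hyy h0 hy _ _ _ _ (by norm_num))
    (half g7 el7_p hyy h0 hy _ _ _ _ (by norm_num))
  have e : (y 1 / y 0) ^ 2 + (y 2 / y 0) ^ 2 + (y 3 / y 0) ^ 2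
      = (y 1 ^ 2 + y 2 ^ 2 + y 3 ^ 2) / (y 0) ^ 2 := by
    field_simp
  rw [e, div_le_iff₀ (by positivity)] at h
  rw [LB_eq] at hyy
  nlinarith

/-- Every point has a Dirichlet reduced translate. -/
lemma exists_reduced {z : Fin 4 → ℝ} (hzz : LB z z = -1) (h0 : 0 < z 0) :
    ∃ g ∈ Gam, 0 < ((g : Matrix (Fin 4) (Fin 4) ℝ) *ᵥ z) 0 ∧
      0.8236 * (((g : Matrix (Fin 4) (Fin 4) ℝ) *ᵥ z) 0) ^ 2 ≤ 1 := by
  set N : ℝ := √(z 1 ^ 2 + z 2 ^ 2 + z 3 ^ 2) with hN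
  have hN2 : N ^ 2 = z 1 ^ 2 + z 2 ^ 2 + z 3 ^ 2 := Real.sq_sqrt (by positivity)
  have hN0 : 0 ≤ N := Real.sqrt_nonneg _
  have hzz' := hzz
  rw [LB_eq] at hzz'
  have hNz : N < z 0 := by
    apply lt_of_pow_lt_pow_left₀ 2 h0.le
    nlinarith
  have hzN : 0 < z 0 - N := by linarith
  -- lower bound of the height
  have low : ∀ g ∈ Gam, (g : Matrix (Fin 4) (Fin 4) ℝ) 0 0 * (z 0 - N)
      ≤ ((g : Matrix (Fin 4) (Fin 4) ℝ) *ᵥ z) 0 := by
    intro g hg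
    set v : Fin 4 → ℝ := ((g⁻¹ : Matrix.GeneralLinearGroup (Fin 4) ℝ) :
      Matrix (Fin 4) (Fin 4) ℝ) *ᵥ E0 with hv
    have hgi := Gam.inv_mem hg
    have hv0 : v 0 = (g : Matrix (Fin 4) (Fin 4) ℝ) 0 0 := by
      have h1 := Gam_adj hg E0 E0
      rw [LB_E0, ← hv, LB_comm, LB_E0] at h1
      have h2 : ((g : Matrix (Fin 4) (Fin 4) ℝ) *ᵥ E0) 0 = (g : Matrix (Fin 4) (Fin 4) ℝ) 0 0 := by
        simp [E0]
      rw [h2] at h1
      linarith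
    have hvv : LB v v = -1 := by
      rw [hv, Gam_form hgi, LB_E0]; simp [E0]
    have hvp : 0 < v 0 := by rw [hv0]; exact Gam_pos hg
    have hgz : ((g : Matrix (Fin 4) (Fin 4) ℝ) *ᵥ z) 0 = -(LB v z) := by
      have h1 := Gam_adj hgi E0 z
      rw [inv_inv, LB_E0, ← hv] at h1
      linarith
    rw [hgz, ← hv0, LB_eq]
    rw [LB_eq] at hvv
    have hcs := cs3 (v 1) (v 2) (v 3) (z 1) (z 2) (z 3)
    rw [← hN2] at hcs
    have h3 : (v 1 * z 1 + v 2 * z 2 + v 3 * z 3) ^ 2 ≤ (v 0 * N) ^ 2 := by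
      refine hcs.trans ?_
      rw [mul_pow]
      apply mul_le_mul_of_nonneg_right _ (sq_nonneg _)
      nlinarith
    have h4 := le_of_abs_le (abs_le_of_sq_le_sq h3 (by positivity))
    linarith
  set K : ℝ := z 0 / (z 0 - N) with hK
  have hK1 : 1 ≤ K := by
    rw [hK, le_div_iff₀ hzN]; linarith
  have hfin := Gam_finite K
  obtain ⟨m, ⟨g, hg, hgm, -⟩, hmin⟩ := Set.exists_min_image _
    (fun m : Matrix (Fin 4) (Fin 4) ℝ => (m *ᵥ z) 0) hfin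
    ⟨1, 1, Gam.one_mem, rfl, by simpa using hK1⟩
  subst hgm
  have hone : (g : Matrix (Fin 4) (Fin 4) ℝ).mulVec z 0 ≤ z 0 := by
    have := hmin 1 ⟨1, Gam.one_mem, rfl, by simpa using hK1⟩
    simpa using this
  have hmin' : ∀ h ∈ Gam, ((g : Matrix (Fin 4) (Fin 4) ℝ) *ᵥ z) 0
      ≤ ((h : Matrix (Fin 4) (Fin 4) ℝ) *ᵥ z) 0 := by
    intro h hh
    by_cases hc : (h : Matrix (Fin 4) (Fin 4) ℝ) 0 0 ≤ K
    · exact hmin _ ⟨h, hh, rfl, hc⟩
    · push Not at hc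
      have h1 := low h hh
      have h2 : K * (z 0 - N) < (h : Matrix (Fin 4) (Fin 4) ℝ) 0 0 * (z 0 - N) :=
        mul_lt_mul_of_pos_right hc hzN
      have h3 : K * (z 0 - N) = z 0 := by
        rw [hK]; field_simp
      linarith
  have hpos : 0 < ((g : Matrix (Fin 4) (Fin 4) ℝ) *ᵥ z) 0 := by
    have h1 := low g hg
    have h2 := mul_pos (Gam_pos hg) hzN
    linarith
  refine ⟨g, hg, hpos, ?_⟩
  apply reduced_ball _ hpos
  · intro h hh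
    have := hmin' (h * g) (Gam.mul_mem hh hg)
    rw [Matrix.GeneralLinearGroup.coe_mul, ← Matrix.mulVec_mulVec] at this
    exact this
  · rw [Gam_form hg, hzz]

/-- The diameter bound. -/
lemma diam_bound {x y : Fin 4 → ℝ} (hx : LB x x = -1) (hx0 : 0 < x 0) (hy : LB y y = -1)
    (hy0 : 0 < y 0) : ∃ g ∈ Gam, -(LB x ((g : Matrix (Fin 4) (Fin 4) ℝ) *ᵥ y)) < 1.4284 := by
  obtain ⟨g, hg, hg0, hgb⟩ := exists_reduced hx hx0
  obtain ⟨h, hh, hh0, hhb⟩ := exists_reduced hy hy0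
  refine ⟨g⁻¹ * h, Gam.mul_mem (Gam.inv_mem hg) hh, ?_⟩
  rw [Matrix.GeneralLinearGroup.coe_mul, ← Matrix.mulVec_mulVec, ← Gam_adj hg]
  have h1 := Gam_form hg x x
  have h2 := Gam_form hh y y
  rw [hx] at h1
  rw [hy] at h2
  set u := (g : Matrix (Fin 4) (Fin 4) ℝ) *ᵥ x
  set v := (h : Matrix (Fin 4) (Fin 4) ℝ) *ᵥ y
  rw [LB_eq] at h1 h2 ⊢
  nlinarith [sq_nonneg (u 0 - v 0), sq_nonneg (u 1 + v 1), sq_nonneg (u 2 + v 2),
    sq_nonneg (u 3 + v 3)]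

end Pool.Agent.H26R3
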