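import Pool.Agent.H26R3.MartinGroup

set_option autoImplicit false
open Matrix

namespace Pool.Agent.H26R3

/-- `z` is within `e` of `a + b i` in each coordinate. -/
def AC (z : ℂ) (a b e : ℝ) : Prop := |z.re - a| ≤ e ∧ |z.im - b| ≤ e

lemma AC.nonneg {z : ℂ} {a b e : ℝ} (h : AC z a b e) : 0 ≤ e := (abs_nonneg _).trans h.1

lemma AC.mono {z : ℂ} {a b e f : ℝ} (h : AC z a b e) (hf : e ≤ f) : AC z a b f :=
  ⟨h.1.trans hf, h.2.trans hf⟩

lemma AC.add {z w : ℂ} {a b e c d f a' b' e' : ℝ} (hz : AC z a b e) (hw : AC w c d f)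
    (h1 : |a + c - a'| + (e + f) ≤ e') (h2 : |b + d - b'| + (e + f) ≤ e') :
    AC (z + w) a' b' e' := by
  constructor
  · refine le_trans ?_ h1
    rw [Complex.add_re]
    have : z.re + w.re - a' = (a + c - a') + (z.re - a) + (w.re - c) := by ring
    rw [this]
    refine (abs_add_three _ _ _).trans ?_
    linarith [hz.1, hw.1]
  · refine le_trans ?_ h2
    rw [Complex.add_im]
    have : z.im + w.im - b' = (b + d - b') + (z.im - b) + (w.im - d) := by ring
    rw [this]
    refine (abs_add_three _ _ _).trans ?_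
    linarith [hz.2, hw.2]

lemma abs_mul_sub {x y a c e f : ℝ} (hx : |x - a| ≤ e) (hy : |y - c| ≤ f) :
    |x * y - a * c| ≤ e * |c| + f * |a| + e * f := by
  have h : x * y - a * c = (x - a) * c + (y - c) * a + (x - a) * (y - c) := by ring
  rw [h]
  refine (abs_add_three _ _ _).trans ?_
  rw [abs_mul, abs_mul, abs_mul]
  have he : 0 ≤ e := (abs_nonneg _).trans hx
  have k1 := mul_le_mul_of_nonneg_right hx (abs_nonneg c)
  have k2 := mul_le_mul_of_nonneg_right hy (abs_nonneg a)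
  have k3 := mul_le_mul hx hy (abs_nonneg _) he
  linarith

lemma AC.mul {z w : ℂ} {a b e c d f a' b' e' : ℝ} (hz : AC z a b e) (hw : AC w c d f)
    (h1 : |a * c - b * d - a'| + (e * (|c| + |d|) + f * (|a| + |b|) + 2 * e * f) ≤ e')
    (h2 : |a * d + b * c - b'| + (e * (|c| + |d|) + f * (|a| + |b|) + 2 * e * f) ≤ e') :
    AC (z * w) a' b' e' := by
  have m1 := abs_mul_sub hz.1 hw.1
  have m2 := abs_mul_sub hz.2 hw.2
  have m3 := abs_mul_sub hz.1 hw.2
  have m4 := abs_mul_sub hz.2 hw.1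
  constructor
  · refine le_trans ?_ h1
    rw [Complex.mul_re]
    have : z.re * w.re - z.im * w.im - a' = (a * c - b * d - a') + (z.re * w.re - a * c)
        + -(z.im * w.im - b * d) := by ring
    rw [this]
    refine (abs_add_three _ _ _).trans ?_
    rw [abs_neg]
    linarith
  · refine le_trans ?_ h2
    rw [Complex.mul_im]
    have : z.re * w.im + z.im * w.re - b' = (a * d + b * c - b') + (z.re * w.im - a * d)
        + (z.im * w.re - b * c) := by ring
    rw [this]
    refine (abs_add_three _ _ _).trans ?_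
    linarith

lemma AC.intmul {z : ℂ} {a b e : ℝ} (hz : AC z a b e) (n : ℤ) :
    |((n : ℂ) * z).re - n * a| ≤ |(n : ℝ)| * e ∧ |((n : ℂ) * z).im - n * b| ≤ |(n : ℝ)| * e := by
  have e1 : ((n : ℂ) * z).re = n * z.re := by simp
  have e2 : ((n : ℂ) * z).im = n * z.im := by simp
  rw [e1, e2, ← mul_sub, ← mul_sub, abs_mul, abs_mul]
  exact ⟨mul_le_mul_of_nonneg_left hz.1 (abs_nonneg _),
    mul_le_mul_of_nonneg_left hz.2 (abs_nonneg _)⟩

lemma abs_add4 (a b c d : ℝ) : |a + b + c + d| ≤ |a| + |b| + |c| + |d| := by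
  have h1 := abs_add_three (a + b) c d
  have h2 := abs_add_le a b
  linarith

/-- Integral cubic polynomials in `t`. -/
def lin {A : Type} [CommRing A] (n0 n1 n2 n3 : ℤ) (t : A) : A :=
  n0 + n1 * t + n2 * t ^ 2 + n3 * t ^ 3

lemma lin_map {A B : Type} [CommRing A] [CommRing B] (f : A →+* B) (n0 n1 n2 n3 : ℤ) (t : A) :
    f (lin n0 n1 n2 n3 t) = lin n0 n1 n2 n3 (f t) := by
  simp [lin]

/-- The image of the base point is near `P`. -/
def PB (X : Matrix (Fin 2) (Fin 2) ℂ) (P0 P1 P2 P3 : ℝ) : Prop :=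
  |Hinv (X * Xᴴ) 0 - P0| ≤ 3.4e-5 ∧ |Hinv (X * Xᴴ) 1 - P1| ≤ 3.4e-5 ∧
  |Hinv (X * Xᴴ) 2 - P2| ≤ 3.4e-5 ∧ |Hinv (X * Xᴴ) 3 - P3| ≤ 3.4e-5

lemma prod_bd {x y a c : ℝ} (ha : |a| ≤ 1.6) (hc : |c| ≤ 1.6) (hx : |x - a| ≤ 2.5e-6)
    (hy : |y - c| ≤ 2.5e-6) : |x * y - a * c| ≤ 8.1e-6 := by
  refine (abs_mul_sub hx hy).trans ?_
  norm_num
  linarith

lemma PB_of {X : Matrix (Fin 2) (Fin 2) ℂ} {P0 P1 P2 P3 : ℝ}
    {a0 b0 a1 b1 a2 b2 a3 b3 : ℝ}
    (h0 : AC (X 0 0) a0 b0 2.5e-6) (h1 : AC (X 0 1) a1 b1 2.5e-6)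
    (h2 : AC (X 1 0) a2 b2 2.5e-6) (h3 : AC (X 1 1) a3 b3 2.5e-6)
    (ka0 : |a0| ≤ 1.6) (kb0 : |b0| ≤ 1.6) (ka1 : |a1| ≤ 1.6) (kb1 : |b1| ≤ 1.6)
    (ka2 : |a2| ≤ 1.6) (kb2 : |b2| ≤ 1.6) (ka3 : |a3| ≤ 1.6) (kb3 : |b3| ≤ 1.6)
    (q0 : |(a0 * a0 + b0 * b0 + a1 * a1 + b1 * b1 + a2 * a2 + b2 * b2 + a3 * a3 + b3 * b3) / 2
      - P0| ≤ 1e-6)
    (q1 : |(a0 * a2 + b0 * b2 + a1 * a3 + b1 * b3) - P1| ≤ 1e-6)
    (q2 : |(b0 * a2 - a0 * b2 + b1 * a3 - a1 * b3) - P2| ≤ 1e-6)
    (q3 : |(a0 * a0 + b0 * b0 + a1 * a1 + b1 * b1 - a2 * a2 - b2 * b2 - a3 * a3 - b3 * b3) / 2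
      - P3| ≤ 1e-6) : PB X P0 P1 P2 P3 := by
  have e0 : Hinv (X * Xᴴ) 0 = ((X 0 0).re * (X 0 0).re + (X 0 0).im * (X 0 0).im
      + (X 0 1).re * (X 0 1).re + (X 0 1).im * (X 0 1).im + (X 1 0).re * (X 1 0).re
      + (X 1 0).im * (X 1 0).im + (X 1 1).re * (X 1 1).re + (X 1 1).im * (X 1 1).im) / 2 := by
    simp [Hinv, Matrix.mul_apply, Fin.sum_univ_two]; ring
  have e1 : Hinv (X * Xᴴ) 1 = ((X 0 0).re * (X 1 0).re + (X 0 0).im * (X 1 0).im
      + (X 0 1).re * (X 1 1).re + (X 0 1).im * (X 1 1).im) := by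
    simp [Hinv, Matrix.mul_apply, Fin.sum_univ_two]; ring
  have e2 : Hinv (X * Xᴴ) 2 = ((X 0 0).im * (X 1 0).re - (X 0 0).re * (X 1 0).im
      + (X 0 1).im * (X 1 1).re - (X 0 1).re * (X 1 1).im) := by
    simp [Hinv, Matrix.mul_apply, Fin.sum_univ_two]; ring
  have e3 : Hinv (X * Xᴴ) 3 = ((X 0 0).re * (X 0 0).re + (X 0 0).im * (X 0 0).im
      + (X 0 1).re * (X 0 1).re + (X 0 1).im * (X 0 1).im - (X 1 0).re * (X 1 0).re
      - (X 1 0).im * (X 1 0).im - (X 1 1).re * (X 1 1).re - (X 1 1).im * (X 1 1).im) / 2 := by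
    simp [Hinv, Matrix.mul_apply, Fin.sum_univ_two]; ring
  have s0 := prod_bd ka0 ka0 h0.1 h0.1
  have s1 := prod_bd kb0 kb0 h0.2 h0.2
  have s2 := prod_bd ka1 ka1 h1.1 h1.1
  have s3 := prod_bd kb1 kb1 h1.2 h1.2
  have s4 := prod_bd ka2 ka2 h2.1 h2.1
  have s5 := prod_bd kb2 kb2 h2.2 h2.2
  have s6 := prod_bd ka3 ka3 h3.1 h3.1
  have s7 := prod_bd kb3 kb3 h3.2 h3.2
  have m0 := prod_bd ka0 ka2 h0.1 h2.1
  have m1 := prod_bd kb0 kb2 h0.2 h2.2
  have m2 := prod_bd ka1 ka3 h1.1 h3.1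
  have m3 := prod_bd kb1 kb3 h1.2 h3.2
  have n0 := prod_bd kb0 ka2 h0.2 h2.1
  have n1 := prod_bd ka0 kb2 h0.1 h2.2
  have n2 := prod_bd kb1 ka3 h1.2 h3.1
  have n3 := prod_bd ka1 kb3 h1.1 h3.2
  rw [abs_le] at s0 s1 s2 s3 s4 s5 s6 s7 m0 m1 m2 m3 n0 n1 n2 n3 q0 q1 q2 q3
  norm_num at s0 s1 s2 s3 s4 s5 s6 s7 m0 m1 m2 m3 n0 n1 n2 n3 q0 q1 q2 q3
  unfold PB
  rw [e0, e1, e2, e3]
  refine ⟨?_, ?_, ?_, ?_⟩ <;> rw [abs_le] <;> norm_num
  · constructor <;> linarith
  · constructor <;> linarith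
  · constructor <;> linarith
  · constructor <;> linarith

lemma ac_th : AC thc (-0.211895115) 0.40135785 0.00000005 := by
  have h1 := rt_lb; have h2 := rt_ub; have h3 := st_lb; have h4 := st_ub
  constructor
  · rw [abs_le]; constructor <;> simp only [thc] <;> norm_num at * <;> linarith
  · rw [abs_le]; constructor <;> simp only [thc] <;> norm_num at * <;> linarith

lemma ac_th2 : AC (thc * thc) (-0.116188584) (-0.1700915356) 0.000000061363 := AC.mul ac_th ac_th (by norm_num) (by norm_num)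

lemma ac_th3 : AC (thc * thc * thc) 0.0928873664 (-0.0105916348) 0.000000051974 := AC.mul ac_th2 ac_th (by norm_num) (by norm_num)

lemma AC_lin {n0 n1 n2 n3 : ℤ} {a b e : ℝ}
    (h1 : |(n0 : ℝ) + n1 * (-0.211895115) + n2 * (-0.116188584) + n3 * 0.0928873664 - a|
      + (|(n1 : ℝ)| * 0.00000005 + |(n2 : ℝ)| * 0.000000061363 + |(n3 : ℝ)| * 0.000000051974) ≤ e)
    (h2 : |n1 * 0.40135785 + n2 * (-0.1700915356) + n3 * (-0.0105916348) - b|
      + (|(n1 : ℝ)| * 0.00000005 + |(n2 : ℝ)| * 0.000000061363 + |(n3 : ℝ)| * 0.000000051974) ≤ e) :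
    AC (lin n0 n1 n2 n3 thc) a b e := by
  have k1 := ac_th.intmul n1
  have k2 := ac_th2.intmul n2
  have k3 := ac_th3.intmul n3
  have e1 : lin n0 n1 n2 n3 thc = (n0 : ℂ) + (n1 : ℂ) * thc + (n2 : ℂ) * (thc * thc)
      + (n3 : ℂ) * (thc * thc * thc) := by unfold lin; ring
  rw [e1]
  constructor
  · refine le_trans ?_ h1
    have : ((n0 : ℂ) + (n1 : ℂ) * thc + (n2 : ℂ) * (thc * thc)
      + (n3 : ℂ) * (thc * thc * thc)).re - a
      = ((n0 : ℝ) + n1 * (-0.211895115) + n2 * (-0.116188584) + n3 * 0.0928873664 - a) + (((n1 : ℂ) * thc).re - n1 * (-0.211895115))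
      + (((n2 : ℂ) * (thc * thc)).re - n2 * (-0.116188584))
      + (((n3 : ℂ) * (thc * thc * thc)).re - n3 * 0.0928873664) := by
      simp only [Complex.add_re, Complex.intCast_re]; ring
    rw [this]
    refine (abs_add4 _ _ _ _).trans ?_
    linarith [k1.1, k2.1, k3.1]
  · refine le_trans ?_ h2
    have : ((n0 : ℂ) + (n1 : ℂ) * thc + (n2 : ℂ) * (thc * thc)
      + (n3 : ℂ) * (thc * thc * thc)).im - b
      = (n1 * 0.40135785 + n2 * (-0.1700915356) + n3 * (-0.0105916348) - b) + (((n1 : ℂ) * thc).im - n1 * 0.40135785)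
      + (((n2 : ℂ) * (thc * thc)).im - n2 * (-0.1700915356))
      + (((n3 : ℂ) * (thc * thc * thc)).im - n3 * (-0.0105916348)) := by
      simp only [Complex.add_im, Complex.intCast_im]; ring
    rw [this]
    refine (abs_add4 _ _ _ _).trans ?_
    linarith [k1.2, k2.2, k3.2]

lemma ac_q : AC qc 1.732050808 0.0 0.000000001 := by
  have h1 : (1.732050807 : ℝ) ≤ √3 := Real.le_sqrt_of_sq_le (by norm_num)
  have h2 : √3 ≤ (1.732050808 : ℝ) := by
    rw [Real.sqrt_le_iff]; constructor <;> norm_num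
  constructor
  · rw [abs_le]; constructor <;> simp only [qc, Complex.ofReal_re] <;> norm_num at * <;> linarith
  · norm_num [qc]

lemma ac_psi : AC psi 0.34864215 1.588104885 0.00000005 := by
  have h := ac_th
  have e1 : psi.re = -(thc.im - 3 / 4) := by simp [psi]
  have e2 : psi.im = thc.re + 9 / 5 := by simp [psi]
  constructor
  · rw [e1]; have := h.2; rw [abs_le] at this ⊢; constructor <;> linarith [this.1, this.2]
  · rw [e2]; have := h.1; rw [abs_le] at this ⊢; constructor <;> linarith [this.1, this.2]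

lemma ac_w : AC wc 0.5 0.866025404 0.0000000005 := by
  have h := ac_q
  have e1 : wc.re = 1 / 2 - qc.im / 2 := by simp [wc]; ring
  have e2 : wc.im = qc.re / 2 := by simp [wc]
  constructor
  · have e3 : qc.im = 0 := by simp [qc]
    rw [e1, e3]; norm_num
  · rw [e2]; have := h.1; rw [abs_le] at this ⊢; constructor <;> linarith [this.1, this.2]

lemma ac_wb : AC wb 0.5 (-0.866025404) 0.0000000005 := by
  have h := ac_q
  have e1 : wb.re = 1 / 2 + qc.im / 2 := by simp [wb]; ring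
  have e2 : wb.im = -(qc.re / 2) := by simp [wb]
  constructor
  · have e3 : qc.im = 0 := by simp [qc]
    rw [e1, e3]; norm_num
  · rw [e2]; have := h.1; rw [abs_le] at this ⊢; constructor <;> linarith [this.1, this.2]

lemma ac_be : AC bec 0.2727272727 (-0.6818181818) 0.000000001 := by
  have e1 : bec.re = 3 / 11 := by simp [bec]; norm_num
  have e2 : bec.im = -(15 / 22) := by simp [bec]; norm_num
  constructor
  · rw [e1]; norm_num
  · rw [e2]; norm_num

lemma ac_qp : AC (qc * psi) 0.6038659176 2.7506783493 0.000000088588 := AC.mul ac_q ac_psi (by norm_num) (by norm_num)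

lemma ac_A : AC Ac 0.7012886392 0.9168927831 0.000000029631 := by
  have h := ac_qp
  have e1 : Ac.re = 1 / 2 + (qc * psi).re / 3 := by
    have : Ac = 1 / 2 + ((1 / 3 : ℝ) : ℂ) * (qc * psi) := by unfold Ac; push_cast; ring
    rw [this, Complex.add_re, Complex.re_ofReal_mul]; norm_num; ring
  have e2 : Ac.im = (qc * psi).im / 3 := by
    have : Ac = 1 / 2 + ((1 / 3 : ℝ) : ℂ) * (qc * psi) := by unfold Ac; push_cast; ring
    rw [this, Complex.add_im, Complex.im_ofReal_mul]; norm_num; ring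
  constructor
  · rw [e1]; have := h.1; rw [abs_le] at this ⊢; constructor <;> linarith [this.1, this.2]
  · rw [e2]; have := h.2; rw [abs_le] at this ⊢; constructor <;> linarith [this.1, this.2]

lemma ac_D : AC Dc 0.2987113608 (-0.9168927831) 0.000000029631 := by
  have h := ac_qp
  have e1 : Dc.re = 1 / 2 - (qc * psi).re / 3 := by
    have : Dc = 1 / 2 - ((1 / 3 : ℝ) : ℂ) * (qc * psi) := by unfold Dc; push_cast; ring
    rw [this, Complex.sub_re, Complex.re_ofReal_mul]; norm_num; ring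
  have e2 : Dc.im = -((qc * psi).im / 3) := by
    have : Dc = 1 / 2 - ((1 / 3 : ℝ) : ℂ) * (qc * psi) := by unfold Dc; push_cast; ring
    rw [this, Complex.sub_im, Complex.im_ofReal_mul]; norm_num; ring
  constructor
  · rw [e1]; have := h.1; rw [abs_le] at this ⊢; constructor <;> linarith [this.1, this.2]
  · rw [e2]; have := h.2; rw [abs_le] at this ⊢; constructor <;> linarith [this.1, this.2]

lemma ac_pp : AC (psi * psi) (-2.400525777) 1.1073606031 0.000000193712 := AC.mul ac_psi ac_psi (by norm_num) (by norm_num)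

lemma ac_B : AC Bc 0.0456138718 (-0.3355638191) 0.000000058802 := by
  have h := ac_pp
  have e0 : Bc = ((-(3 / 4) * (10 / 11) : ℝ) : ℂ) + ((-(10 / 33) : ℝ) : ℂ) * (psi * psi) := by
    unfold Bc; push_cast; ring
  have e1 : Bc.re = -(3 / 4) * (10 / 11) - (10 / 33) * (psi * psi).re := by
    rw [e0, Complex.add_re, Complex.re_ofReal_mul, Complex.ofReal_re]; ring
  have e2 : Bc.im = - (10 / 33) * (psi * psi).im := by
    rw [e0, Complex.add_im, Complex.im_ofReal_mul, Complex.ofReal_im]; ring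
  constructor
  · rw [e1]; have := h.1; rw [abs_le] at this ⊢; constructor <;> linarith [this.1, this.2]
  · rw [e2]; have := h.2; rw [abs_le] at this ⊢; constructor <;> linarith [this.1, this.2]

lemma ac_c : AC (11 / 10 : ℂ) 1.1 0.0 0.0 := by
  constructor <;> norm_num

lemma ac_E00_1 : AC (wc * Ac) (-0.4434081233) 1.0657801686 0.000000041321 := AC.mul ac_w ac_A (by norm_num) (by norm_num)

lemma ac_E00_2 : AC (bec * (11 / 10)) 0.3 (-0.75) 0.000000001131 := AC.mul ac_be ac_c (by norm_num) (by norm_num)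

lemma ac_E00 : AC (wc * Ac + bec * (11 / 10)) (-0.1434081233) 0.3157801686 0.000000042453 := AC.add ac_E00_1 ac_E00_2 (by norm_num) (by norm_num)

lemma ac_E01_1 : AC (wc * Bc) 0.3134137279 (-0.1282791378) 0.000000080521 := AC.mul ac_w ac_B (by norm_num) (by norm_num)

lemma ac_E01_2 : AC (bec * Dc) (-0.5436874355) (-0.453728505) 0.000000029525 := AC.mul ac_be ac_D (by norm_num) (by norm_num)

lemma ac_E01 : AC (wc * Bc + bec * Dc) (-0.2302737076) (-0.5820076428) 0.000000110047 := AC.add ac_E01_1 ac_E01_2 (by norm_num) (by norm_num)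

lemma ac_E10 : AC (wb * (11 / 10)) 0.55 (-0.9526279444) 0.000000000551 := AC.mul ac_wb ac_c (by norm_num) (by norm_num)

lemma ac_E11 : AC (wb * Dc) (-0.6446967625) (-0.7171380185) 0.00000004112 := AC.mul ac_wb ac_D (by norm_num) (by norm_num)

/-- Element number 0. -/
def el0 {A : Type} [CommRing A] (t : A) : OQ A :=
  ⟨lin 2 3 1 0 t, lin 0 (-2) (-1) 0 t, lin (-1) 1 3 1 t, lin 2 3 1 0 t⟩

lemma el0_map {A B : Type} [CommRing A] [CommRing B] (f : A →+* B) (t : A) :
    (el0 t).map f = el0 (f t) := by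
  simp only [OQ.map, el0, lin_map]

lemma el0_nrm {A : Type} [CommRing A] {t : A}
    (h : t ^ 4 + 5 * t ^ 3 + 7 * t ^ 2 + 3 * t + 1 = 0) : OQ.nrm (-1 - t) (el0 t) = 1 := by
  simp only [OQ.nrm, el0, lin]
  push_cast
  linear_combination ((0) * t ^ 0 + (0) * t ^ 1 + (0) * t ^ 2 + (0) * t ^ 3) * h

lemma el0_p : PB (phi (el0 thc)) 1.075372 0.009523 0.116076 0.37797 := by
  have x0 : AC (el0 thc).x0 1.248126071 1.0339820144 0.000000211364 :=
    AC_lin (by norm_num) (by norm_num)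
  have x1 : AC (el0 thc).x1 0.539978814 (-0.6326241644) 0.000000161364 :=
    AC_lin (by norm_num) (by norm_num)
  have x2 : AC (el0 thc).x2 (-1.4675735006) (-0.1195083916) 0.000000286064 :=
    AC_lin (by norm_num) (by norm_num)
  have x3 : AC (el0 thc).x3 1.248126071 1.0339820144 0.000000211364 :=
    AC_lin (by norm_num) (by norm_num)
  have a1 : AC ((el0 thc).x1 * wc) 0.8178580046 0.1513232883 0.000000221061 :=
    AC.mul x1 ac_w (by norm_num) (by norm_num)
  have a2 : AC ((el0 thc).x2 * Ac) (-0.9196162414) (-1.4294174287) 0.000000509948 :=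
    AC.mul x2 ac_A (by norm_num) (by norm_num)
  have a3 : AC ((el0 thc).x3 * (wc * Ac + bec * (11 / 10))) (-0.5055024323) 0.2458520409 0.000000193963 :=
    AC.mul x3 ac_E00 (by norm_num) (by norm_num)
  have a4 : AC ((el0 thc).x0 + (el0 thc).x1 * wc) 2.0659840756 1.1853053027 0.000000432426 :=
    AC.add x0 a1 (by norm_num) (by norm_num)
  have a5 : AC ((el0 thc).x0 + (el0 thc).x1 * wc + (el0 thc).x2 * Ac) 1.1463678342 (-0.244112126) 0.000000942375 :=
    AC.add a4 a2 (by norm_num) (by norm_num)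
  have a6 : AC ((el0 thc).x0 + (el0 thc).x1 * wc + (el0 thc).x2 * Ac + (el0 thc).x3 * (wc * Ac + bec * (11 / 10))) 0.6408654019 0.0017399149 0.000001136339 :=
    AC.add a5 a3 (by norm_num) (by norm_num)
  have b1 : AC ((el0 thc).x1 * bec) (-0.2840677083) (-0.5407012362) 0.00000015523 :=
    AC.mul x1 ac_be (by norm_num) (by norm_num)
  have b2 : AC ((el0 thc).x2 * Bc) (-0.1070444018) 0.4870133282 0.000000202384 :=
    AC.mul x2 ac_B (by norm_num) (by norm_num)
  have b3 : AC ((el0 thc).x3 * (wc * Bc + bec * Dc)) 0.314374817 (-0.9645177845) 0.000000422875 :=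
    AC.mul x3 ac_E01 (by norm_num) (by norm_num)
  have b4 : AC ((el0 thc).x1 * bec + (el0 thc).x2 * Bc) (-0.3911121101) (-0.053687908) 0.000000357615 :=
    AC.add b1 b2 (by norm_num) (by norm_num)
  have b5 : AC ((el0 thc).x1 * bec + (el0 thc).x2 * Bc + (el0 thc).x3 * (wc * Bc + bec * Dc)) (-0.0767372931) (-1.0182056925) 0.000000780491 :=
    AC.add b4 b3 (by norm_num) (by norm_num)
  have c1 : AC ((el0 thc).x2 * (11 / 10)) (-1.6143308507) (-0.1314592308) 0.000000314712 :=
    AC.mul x2 ac_c (by norm_num) (by norm_num)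
  have c2 : AC ((el0 thc).x3 * (wb * (11 / 10))) 1.6714695 (-0.6203096654) 0.000000318909 :=
    AC.mul x3 ac_E10 (by norm_num) (by norm_num)
  have c3 : AC ((el0 thc).x2 * (11 / 10) + (el0 thc).x3 * (wb * (11 / 10))) 0.0571386493 (-0.7517688962) 0.000000633622 :=
    AC.add c1 c2 (by norm_num) (by norm_num)
  have d1 : AC ((el0 thc).x1 * wb) (-0.2778791906) (-0.7839474527) 0.000000221061 :=
    AC.mul x1 ac_wb (by norm_num) (by norm_num)
  have d2 : AC ((el0 thc).x2 * Dc) (-0.5479572592) 1.3099090371 0.000000394785 :=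
    AC.mul x2 ac_D (by norm_num) (by norm_num)
  have d3 : AC ((el0 thc).x3 * (wb * Dc)) (-0.0631550242) (-1.5616835146) 0.000000381723 :=
    AC.mul x3 ac_E11 (by norm_num) (by norm_num)
  have d4 : AC ((el0 thc).x0 + (el0 thc).x1 * wb) 0.9702468804 0.2500345617 0.000000432426 :=
    AC.add x0 d1 (by norm_num) (by norm_num)
  have d5 : AC ((el0 thc).x0 + (el0 thc).x1 * wb + (el0 thc).x2 * Dc) 0.4222896212 1.5599435988 0.000000827212 :=
    AC.add d4 d2 (by norm_num) (by norm_num)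
  have d6 : AC ((el0 thc).x0 + (el0 thc).x1 * wb + (el0 thc).x2 * Dc + (el0 thc).x3 * (wb * Dc)) 0.359134597 (-0.0017399158) 0.000001208936 :=
    AC.add d5 d3 (by norm_num) (by norm_num)
  apply PB_of (X := phi (el0 thc)) (a0 := 0.6408654019) (b0 := 0.0017399149) (a1 := (-0.0767372931)) (b1 := (-1.0182056925)) (a2 := 0.0571386493) (b2 := (-0.7517688962)) (a3 := 0.359134597) (b3 := (-0.0017399158))
  · exact (AC.mono (by simpa [phi, G1, G2, G12] using a6) (by norm_num))
  · exact (AC.mono (by simpa [phi, G1, G2, G12] using b5) (by norm_num))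
  · exact (AC.mono (by simpa [phi, G1, G2, G12] using c3) (by norm_num))
  · exact (AC.mono (by simpa [phi, G1, G2, G12] using d6) (by norm_num))
  all_goals norm_num

/-- Element number 1. -/
def el1 {A : Type} [CommRing A] (t : A) : OQ A :=
  ⟨lin (-1) (-3) (-1) 0 t, lin 0 2 1 0 t, lin 1 (-1) (-3) (-1) t, lin (-2) (-3) (-1) 0 t⟩

lemma el1_map {A B : Type} [CommRing A] [CommRing B] (f : A →+* B) (t : A) :
    (el1 t).map f = el1 (f t) := by
  simp only [OQ.map, el1, lin_map]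

lemma el1_nrm {A : Type} [CommRing A] {t : A}
    (h : t ^ 4 + 5 * t ^ 3 + 7 * t ^ 2 + 3 * t + 1 = 0) : OQ.nrm (-1 - t) (el1 t) = 1 := by
  simp only [OQ.nrm, el1, lin]
  push_cast
  linear_combination ((0) * t ^ 0 + (0) * t ^ 1 + (0) * t ^ 2 + (0) * t ^ 3) * h

lemma el1_p : PB (phi (el1 thc)) 1.075372 0.029121 0.382512 0.09624 := by
  have x0 : AC (el1 thc).x0 (-0.248126071) (-1.0339820144) 0.000000211364 :=
    AC_lin (by norm_num) (by norm_num)
  have x1 : AC (el1 thc).x1 (-0.539978814) 0.6326241644 0.000000161364 :=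
    AC_lin (by norm_num) (by norm_num)
  have x2 : AC (el1 thc).x2 1.4675735006 0.1195083916 0.000000286064 :=
    AC_lin (by norm_num) (by norm_num)
  have x3 : AC (el1 thc).x3 (-1.248126071) (-1.0339820144) 0.000000211364 :=
    AC_lin (by norm_num) (by norm_num)
  have a1 : AC ((el1 thc).x1 * wc) (-0.8178580046) (-0.1513232883) 0.000000221061 :=
    AC.mul x1 ac_w (by norm_num) (by norm_num)
  have a2 : AC ((el1 thc).x2 * Ac) 0.9196162414 1.4294174287 0.000000509948 :=
    AC.mul x2 ac_A (by norm_num) (by norm_num)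
  have a3 : AC ((el1 thc).x3 * (wc * Ac + bec * (11 / 10))) 0.5055024323 (-0.2458520409) 0.000000193963 :=
    AC.mul x3 ac_E00 (by norm_num) (by norm_num)
  have a4 : AC ((el1 thc).x0 + (el1 thc).x1 * wc) (-1.0659840756) (-1.1853053027) 0.000000432426 :=
    AC.add x0 a1 (by norm_num) (by norm_num)
  have a5 : AC ((el1 thc).x0 + (el1 thc).x1 * wc + (el1 thc).x2 * Ac) (-0.1463678342) 0.244112126 0.000000942375 :=
    AC.add a4 a2 (by norm_num) (by norm_num)
  have a6 : AC ((el1 thc).x0 + (el1 thc).x1 * wc + (el1 thc).x2 * Ac + (el1 thc).x3 * (wc * Ac + bec * (11 / 10))) 0.3591345981 (-0.0017399149) 0.000001136339 :=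
    AC.add a5 a3 (by norm_num) (by norm_num)
  have b1 : AC ((el1 thc).x1 * bec) 0.2840677083 0.5407012362 0.00000015523 :=
    AC.mul x1 ac_be (by norm_num) (by norm_num)
  have b2 : AC ((el1 thc).x2 * Bc) 0.1070444018 (-0.4870133282) 0.000000202384 :=
    AC.mul x2 ac_B (by norm_num) (by norm_num)
  have b3 : AC ((el1 thc).x3 * (wc * Bc + bec * Dc)) (-0.314374817) 0.9645177845 0.000000422875 :=
    AC.mul x3 ac_E01 (by norm_num) (by norm_num)
  have b4 : AC ((el1 thc).x1 * bec + (el1 thc).x2 * Bc) 0.3911121101 0.053687908 0.000000357615 :=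
    AC.add b1 b2 (by norm_num) (by norm_num)
  have b5 : AC ((el1 thc).x1 * bec + (el1 thc).x2 * Bc + (el1 thc).x3 * (wc * Bc + bec * Dc)) 0.0767372931 1.0182056925 0.000000780491 :=
    AC.add b4 b3 (by norm_num) (by norm_num)
  have c1 : AC ((el1 thc).x2 * (11 / 10)) 1.6143308507 0.1314592308 0.000000314712 :=
    AC.mul x2 ac_c (by norm_num) (by norm_num)
  have c2 : AC ((el1 thc).x3 * (wb * (11 / 10))) (-1.6714695) 0.6203096654 0.000000318909 :=
    AC.mul x3 ac_E10 (by norm_num) (by norm_num)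
  have c3 : AC ((el1 thc).x2 * (11 / 10) + (el1 thc).x3 * (wb * (11 / 10))) (-0.0571386493) 0.7517688962 0.000000633622 :=
    AC.add c1 c2 (by norm_num) (by norm_num)
  have d1 : AC ((el1 thc).x1 * wb) 0.2778791906 0.7839474527 0.000000221061 :=
    AC.mul x1 ac_wb (by norm_num) (by norm_num)
  have d2 : AC ((el1 thc).x2 * Dc) 0.5479572592 (-1.3099090371) 0.000000394785 :=
    AC.mul x2 ac_D (by norm_num) (by norm_num)
  have d3 : AC ((el1 thc).x3 * (wb * Dc)) 0.0631550242 1.5616835146 0.000000381723 :=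
    AC.mul x3 ac_E11 (by norm_num) (by norm_num)
  have d4 : AC ((el1 thc).x0 + (el1 thc).x1 * wb) 0.0297531196 (-0.2500345617) 0.000000432426 :=
    AC.add x0 d1 (by norm_num) (by norm_num)
  have d5 : AC ((el1 thc).x0 + (el1 thc).x1 * wb + (el1 thc).x2 * Dc) 0.5777103788 (-1.5599435988) 0.000000827212 :=
    AC.add d4 d2 (by norm_num) (by norm_num)
  have d6 : AC ((el1 thc).x0 + (el1 thc).x1 * wb + (el1 thc).x2 * Dc + (el1 thc).x3 * (wb * Dc)) 0.640865403 0.0017399158 0.000001208936 :=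
    AC.add d5 d3 (by norm_num) (by norm_num)
  apply PB_of (X := phi (el1 thc)) (a0 := 0.3591345981) (b0 := (-0.0017399149)) (a1 := 0.0767372931) (b1 := 1.0182056925) (a2 := (-0.0571386493)) (b2 := 0.7517688962) (a3 := 0.640865403) (b3 := 0.0017399158)
  · exact (AC.mono (by simpa [phi, G1, G2, G12] using a6) (by norm_num))
  · exact (AC.mono (by simpa [phi, G1, G2, G12] using b5) (by norm_num))
  · exact (AC.mono (by simpa [phi, G1, G2, G12] using c3) (by norm_num))
  · exact (AC.mono (by simpa [phi, G1, G2, G12] using d6) (by norm_num))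
  all_goals norm_num

/-- Element number 2. -/
def el2 {A : Type} [CommRing A] (t : A) : OQ A :=
  ⟨lin 0 (-2) (-1) 0 t, lin (-1) (-1) 0 0 t, lin 2 3 1 0 t, lin (-1) (-4) (-4) (-1) t⟩

lemma el2_map {A B : Type} [CommRing A] [CommRing B] (f : A →+* B) (t : A) :
    (el2 t).map f = el2 (f t) := by
  simp only [OQ.map, el2, lin_map]

lemma el2_nrm {A : Type} [CommRing A] {t : A}
    (h : t ^ 4 + 5 * t ^ 3 + 7 * t ^ 2 + 3 * t + 1 = 0) : OQ.nrm (-1 - t) (el2 t) = 1 := by
  simp only [OQ.nrm, el2, lin]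
  push_cast
  linear_combination ((0) * t ^ 0 + (0) * t ^ 1 + (0) * t ^ 2 + (0) * t ^ 3) * h

lemma el2_p : PB (phi (el2 thc)) 1.105403 0.365842 (-0.268572) 0.12627 := by
  have x0 : AC (el2 thc).x0 0.539978814 (-0.6326241644) 0.000000161364 :=
    AC_lin (by norm_num) (by norm_num)
  have x1 : AC (el2 thc).x1 (-0.788104885) (-0.40135785) 0.000000050001 :=
    AC_lin (by norm_num) (by norm_num)
  have x2 : AC (el2 thc).x2 1.248126071 1.0339820144 0.000000211364 :=
    AC_lin (by norm_num) (by norm_num)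
  have x3 : AC (el2 thc).x3 0.2194474296 (-0.9144736228) 0.000000497427 :=
    AC_lin (by norm_num) (by norm_num)
  have a1 : AC ((el2 thc).x1 * wc) (-0.0464663483) (-0.8831977764) 0.000000068925 :=
    AC.mul x1 ac_w (by norm_num) (by norm_num)
  have a2 : AC ((el2 thc).x2 * Ac) (-0.072754013) 1.8695176267 0.000000409683 :=
    AC.mul x2 ac_A (by norm_num) (by norm_num)
  have a3 : AC ((el2 thc).x3 * (wc * Ac + bec * (11 / 10))) 0.2573020907 0.2004400924 0.000000276599 :=
    AC.mul x3 ac_E00 (by norm_num) (by norm_num)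
  have a4 : AC ((el2 thc).x0 + (el2 thc).x1 * wc) 0.4935124657 (-1.5158219408) 0.00000023029 :=
    AC.add x0 a1 (by norm_num) (by norm_num)
  have a5 : AC ((el2 thc).x0 + (el2 thc).x1 * wc + (el2 thc).x2 * Ac) 0.4207584527 0.3536956859 0.000000639974 :=
    AC.add a4 a2 (by norm_num) (by norm_num)
  have a6 : AC ((el2 thc).x0 + (el2 thc).x1 * wc + (el2 thc).x2 * Ac + (el2 thc).x3 * (wc * Ac + bec * (11 / 10))) 0.6780605434 0.5541357783 0.000000916574 :=
    AC.add a5 a3 (by norm_num) (by norm_num)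
  have b1 : AC ((el2 thc).x1 * bec) (-0.4885907754) 0.427883008 0.000000048968 :=
    AC.mul x1 ac_be (by norm_num) (by norm_num)
  have b2 : AC ((el2 thc).x2 * Bc) 0.4038988162 (-0.3716620281) 0.000000214807 :=
    AC.mul x2 ac_B (by norm_num) (by norm_num)
  have b3 : AC ((el2 thc).x3 * (wc * Bc + bec * Dc)) (-0.5827636108) 0.0828591504 0.000000528883 :=
    AC.mul x3 ac_E01 (by norm_num) (by norm_num)
  have b4 : AC ((el2 thc).x1 * bec + (el2 thc).x2 * Bc) (-0.0846919592) 0.0562209799 0.000000263776 :=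
    AC.add b1 b2 (by norm_num) (by norm_num)
  have b5 : AC ((el2 thc).x1 * bec + (el2 thc).x2 * Bc + (el2 thc).x3 * (wc * Bc + bec * Dc)) (-0.66745557) 0.1390801303 0.00000079266 :=
    AC.add b4 b3 (by norm_num) (by norm_num)
  have c1 : AC ((el2 thc).x2 * (11 / 10)) 1.3729386781 1.1373802158 0.000000232542 :=
    AC.mul x2 ac_c (by norm_num) (by norm_num)
  have c2 : AC ((el2 thc).x3 * (wb * (11 / 10))) (-0.7504570412) (-0.7120122463) 0.00000074809 :=
    AC.mul x3 ac_E10 (by norm_num) (by norm_num)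
  have c3 : AC ((el2 thc).x2 * (11 / 10) + (el2 thc).x3 * (wb * (11 / 10))) 0.6224816369 0.4253679695 0.000000980633 :=
    AC.add c1 c2 (by norm_num) (by norm_num)
  have d1 : AC ((el2 thc).x1 * wb) (-0.7416385367) 0.4818399264 0.000000068925 :=
    AC.mul x1 ac_wb (by norm_num) (by norm_num)
  have d2 : AC ((el2 thc).x2 * Dc) 1.320880084 (-0.8355356123) 0.000000324592 :=
    AC.mul x2 ac_D (by norm_num) (by norm_num)
  have d3 : AC ((el2 thc).x3 * (wb * Dc)) (-0.7972808492) 0.4321840892 0.000000724069 :=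
    AC.mul x3 ac_E11 (by norm_num) (by norm_num)
  have d4 : AC ((el2 thc).x0 + (el2 thc).x1 * wb) (-0.2016597227) (-0.150784238) 0.00000023029 :=
    AC.add x0 d1 (by norm_num) (by norm_num)
  have d5 : AC ((el2 thc).x0 + (el2 thc).x1 * wb + (el2 thc).x2 * Dc) 1.1192203613 (-0.9863198503) 0.000000554883 :=
    AC.add d4 d2 (by norm_num) (by norm_num)
  have d6 : AC ((el2 thc).x0 + (el2 thc).x1 * wb + (el2 thc).x2 * Dc + (el2 thc).x3 * (wb * Dc)) 0.3219395121 (-0.5541357611) 0.000001278953 :=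
    AC.add d5 d3 (by norm_num) (by norm_num)
  apply PB_of (X := phi (el2 thc)) (a0 := 0.6780605434) (b0 := 0.5541357783) (a1 := (-0.66745557)) (b1 := 0.1390801303) (a2 := 0.6224816369) (b2 := 0.4253679695) (a3 := 0.3219395121) (b3 := (-0.5541357611))
  · exact (AC.mono (by simpa [phi, G1, G2, G12] using a6) (by norm_num))
  · exact (AC.mono (by simpa [phi, G1, G2, G12] using b5) (by norm_num))
  · exact (AC.mono (by simpa [phi, G1, G2, G12] using c3) (by norm_num))
  · exact (AC.mono (by simpa [phi, G1, G2, G12] using d6) (by norm_num))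
  all_goals norm_num

/-- Element number 3. -/
def el3 {A : Type} [CommRing A] (t : A) : OQ A :=
  ⟨lin (-1) (-1) 0 0 t, lin 1 1 0 0 t, lin 0 (-2) (-1) 0 t, lin (-2) (-1) 0 0 t⟩

lemma el3_map {A B : Type} [CommRing A] [CommRing B] (f : A →+* B) (t : A) :
    (el3 t).map f = el3 (f t) := by
  simp only [OQ.map, el3, lin_map]

lemma el3_nrm {A : Type} [CommRing A] {t : A}
    (h : t ^ 4 + 5 * t ^ 3 + 7 * t ^ 2 + 3 * t + 1 = 0) : OQ.nrm (-1 - t) (el3 t) = 1 := by
  simp only [OQ.nrm, el3, lin]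
  push_cast
  linear_combination ((0) * t ^ 0 + (0) * t ^ 1 + (0) * t ^ 2 + (0) * t ^ 3) * h

lemma el3_p : PB (phi (el3 thc)) 1.105462 (-0.264143) (-0.281992) (-0.269731) := by
  have x0 : AC (el3 thc).x0 (-0.788104885) (-0.40135785) 0.000000050001 :=
    AC_lin (by norm_num) (by norm_num)
  have x1 : AC (el3 thc).x1 0.788104885 0.40135785 0.000000050001 :=
    AC_lin (by norm_num) (by norm_num)
  have x2 : AC (el3 thc).x2 0.539978814 (-0.6326241644) 0.000000161364 :=
    AC_lin (by norm_num) (by norm_num)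
  have x3 : AC (el3 thc).x3 (-1.788104885) (-0.40135785) 0.000000050001 :=
    AC_lin (by norm_num) (by norm_num)
  have a1 : AC ((el3 thc).x1 * wc) 0.0464663483 0.8831977764 0.000000068925 :=
    AC.mul x1 ac_w (by norm_num) (by norm_num)
  have a2 : AC ((el3 thc).x2 * Ac) 0.9587295384 0.0514505382 0.000000295883 :=
    AC.mul x2 ac_A (by norm_num) (by norm_num)
  have a3 : AC ((el3 thc).x3 * (wc * Ac + bec * (11 / 10))) 0.3831696154 (-0.507090086) 0.000000115947 :=
    AC.mul x3 ac_E00 (by norm_num) (by norm_num)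
  have a4 : AC ((el3 thc).x0 + (el3 thc).x1 * wc) (-0.7416385367) 0.4818399264 0.000000118927 :=
    AC.add x0 a1 (by norm_num) (by norm_num)
  have a5 : AC ((el3 thc).x0 + (el3 thc).x1 * wc + (el3 thc).x2 * Ac) 0.2170910017 0.5332904646 0.000000414811 :=
    AC.add a4 a2 (by norm_num) (by norm_num)
  have a6 : AC ((el3 thc).x0 + (el3 thc).x1 * wc + (el3 thc).x2 * Ac + (el3 thc).x3 * (wc * Ac + bec * (11 / 10))) 0.6002606171 0.0262003786 0.000000530759 :=
    AC.add a5 a3 (by norm_num) (by norm_num)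
  have b1 : AC ((el3 thc).x1 * bec) 0.4885907754 (-0.427883008) 0.000000048968 :=
    AC.mul x1 ac_be (by norm_num) (by norm_num)
  have b2 : AC ((el3 thc).x2 * Bc) (-0.1876552563) (-0.2100537906) 0.000000130497 :=
    AC.mul x2 ac_B (by norm_num) (by norm_num)
  have b3 : AC ((el3 thc).x3 * (wc * Bc + bec * Dc)) 0.1781602052 1.1331128694 0.000000281609 :=
    AC.mul x3 ac_E01 (by norm_num) (by norm_num)
  have b4 : AC ((el3 thc).x1 * bec + (el3 thc).x2 * Bc) 0.3009355191 (-0.6379367986) 0.000000179466 :=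
    AC.add b1 b2 (by norm_num) (by norm_num)
  have b5 : AC ((el3 thc).x1 * bec + (el3 thc).x2 * Bc + (el3 thc).x3 * (wc * Bc + bec * Dc)) 0.4790957243 0.4951760708 0.000000461076 :=
    AC.add b4 b3 (by norm_num) (by norm_num)
  have c1 : AC ((el3 thc).x2 * (11 / 10)) 0.5939766954 (-0.6958865808) 0.000000177542 :=
    AC.mul x2 ac_c (by norm_num) (by norm_num)
  have c2 : AC ((el3 thc).x3 * (wb * (11 / 10))) (-1.3658023904) 1.4826518635 0.000000076376 :=
    AC.mul x3 ac_E10 (by norm_num) (by norm_num)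
  have c3 : AC ((el3 thc).x2 * (11 / 10) + (el3 thc).x3 * (wb * (11 / 10))) (-0.771825695) 0.7867652827 0.000000253919 :=
    AC.add c1 c2 (by norm_num) (by norm_num)
  have d1 : AC ((el3 thc).x1 * wb) 0.7416385367 (-0.4818399264) 0.000000068925 :=
    AC.mul x1 ac_wb (by norm_num) (by norm_num)
  have d2 : AC ((el3 thc).x2 * Dc) (-0.4187507244) (-0.6840747026) 0.000000230922 :=
    AC.mul x2 ac_D (by norm_num) (by norm_num)
  have d3 : AC ((el3 thc).x3 * (wb * Dc)) 0.8649564571 1.5410721006 0.000000158137 :=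
    AC.mul x3 ac_E11 (by norm_num) (by norm_num)
  have d4 : AC ((el3 thc).x0 + (el3 thc).x1 * wb) (-0.0464663483) (-0.8831977764) 0.000000118927 :=
    AC.add x0 d1 (by norm_num) (by norm_num)
  have d5 : AC ((el3 thc).x0 + (el3 thc).x1 * wb + (el3 thc).x2 * Dc) (-0.4652170727) (-1.567272479) 0.00000034985 :=
    AC.add d4 d2 (by norm_num) (by norm_num)
  have d6 : AC ((el3 thc).x0 + (el3 thc).x1 * wb + (el3 thc).x2 * Dc + (el3 thc).x3 * (wb * Dc)) 0.3997393844 (-0.0262003784) 0.000000507988 :=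
    AC.add d5 d3 (by norm_num) (by norm_num)
  apply PB_of (X := phi (el3 thc)) (a0 := 0.6002606171) (b0 := 0.0262003786) (a1 := 0.4790957243) (b1 := 0.4951760708) (a2 := (-0.771825695)) (b2 := 0.7867652827) (a3 := 0.3997393844) (b3 := (-0.0262003784))
  · exact (AC.mono (by simpa [phi, G1, G2, G12] using a6) (by norm_num))
  · exact (AC.mono (by simpa [phi, G1, G2, G12] using b5) (by norm_num))
  · exact (AC.mono (by simpa [phi, G1, G2, G12] using c3) (by norm_num))
  · exact (AC.mono (by simpa [phi, G1, G2, G12] using d6) (by norm_num))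
  all_goals norm_num

/-- Element number 4. -/
def el4 {A : Type} [CommRing A] (t : A) : OQ A :=
  ⟨lin 2 1 0 0 t, lin (-1) (-1) 0 0 t, lin 0 2 1 0 t, lin 2 1 0 0 t⟩

lemma el4_map {A B : Type} [CommRing A] [CommRing B] (f : A →+* B) (t : A) :
    (el4 t).map f = el4 (f t) := by
  simp only [OQ.map, el4, lin_map]

lemma el4_nrm {A : Type} [CommRing A] {t : A}
    (h : t ^ 4 + 5 * t ^ 3 + 7 * t ^ 2 + 3 * t + 1 = 0) : OQ.nrm (-1 - t) (el4 t) = 1 := by
  simp only [OQ.nrm, el4, lin]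
  push_cast
  linear_combination ((0) * t ^ 0 + (0) * t ^ 1 + (0) * t ^ 2 + (0) * t ^ 3) * h

lemma el4_p : PB (phi (el4 thc)) 1.105462 0.028587 0.009597 (-0.470252) := by
  have x0 : AC (el4 thc).x0 1.788104885 0.40135785 0.000000050001 :=
    AC_lin (by norm_num) (by norm_num)
  have x1 : AC (el4 thc).x1 (-0.788104885) (-0.40135785) 0.000000050001 :=
    AC_lin (by norm_num) (by norm_num)
  have x2 : AC (el4 thc).x2 (-0.539978814) 0.6326241644 0.000000161364 :=
    AC_lin (by norm_num) (by norm_num)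
  have x3 : AC (el4 thc).x3 1.788104885 0.40135785 0.000000050001 :=
    AC_lin (by norm_num) (by norm_num)
  have a1 : AC ((el4 thc).x1 * wc) (-0.0464663483) (-0.8831977764) 0.000000068925 :=
    AC.mul x1 ac_w (by norm_num) (by norm_num)
  have a2 : AC ((el4 thc).x2 * Ac) (-0.9587295384) (-0.0514505382) 0.000000295883 :=
    AC.mul x2 ac_A (by norm_num) (by norm_num)
  have a3 : AC ((el4 thc).x3 * (wc * Ac + bec * (11 / 10))) (-0.3831696154) 0.507090086 0.000000115947 :=
    AC.mul x3 ac_E00 (by norm_num) (by norm_num)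
  have a4 : AC ((el4 thc).x0 + (el4 thc).x1 * wc) 1.7416385367 (-0.4818399264) 0.000000118927 :=
    AC.add x0 a1 (by norm_num) (by norm_num)
  have a5 : AC ((el4 thc).x0 + (el4 thc).x1 * wc + (el4 thc).x2 * Ac) 0.7829089983 (-0.5332904646) 0.000000414811 :=
    AC.add a4 a2 (by norm_num) (by norm_num)
  have a6 : AC ((el4 thc).x0 + (el4 thc).x1 * wc + (el4 thc).x2 * Ac + (el4 thc).x3 * (wc * Ac + bec * (11 / 10))) 0.3997393829 (-0.0262003786) 0.000000530759 :=
    AC.add a5 a3 (by norm_num) (by norm_num)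
  have b1 : AC ((el4 thc).x1 * bec) (-0.4885907754) 0.427883008 0.000000048968 :=
    AC.mul x1 ac_be (by norm_num) (by norm_num)
  have b2 : AC ((el4 thc).x2 * Bc) 0.1876552563 0.2100537906 0.000000130497 :=
    AC.mul x2 ac_B (by norm_num) (by norm_num)
  have b3 : AC ((el4 thc).x3 * (wc * Bc + bec * Dc)) (-0.1781602052) (-1.1331128694) 0.000000281609 :=
    AC.mul x3 ac_E01 (by norm_num) (by norm_num)
  have b4 : AC ((el4 thc).x1 * bec + (el4 thc).x2 * Bc) (-0.3009355191) 0.6379367986 0.000000179466 :=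
    AC.add b1 b2 (by norm_num) (by norm_num)
  have b5 : AC ((el4 thc).x1 * bec + (el4 thc).x2 * Bc + (el4 thc).x3 * (wc * Bc + bec * Dc)) (-0.4790957243) (-0.4951760708) 0.000000461076 :=
    AC.add b4 b3 (by norm_num) (by norm_num)
  have c1 : AC ((el4 thc).x2 * (11 / 10)) (-0.5939766954) 0.6958865808 0.000000177542 :=
    AC.mul x2 ac_c (by norm_num) (by norm_num)
  have c2 : AC ((el4 thc).x3 * (wb * (11 / 10))) 1.3658023904 (-1.4826518635) 0.000000076376 :=
    AC.mul x3 ac_E10 (by norm_num) (by norm_num)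
  have c3 : AC ((el4 thc).x2 * (11 / 10) + (el4 thc).x3 * (wb * (11 / 10))) 0.771825695 (-0.7867652827) 0.000000253919 :=
    AC.add c1 c2 (by norm_num) (by norm_num)
  have d1 : AC ((el4 thc).x1 * wb) (-0.7416385367) 0.4818399264 0.000000068925 :=
    AC.mul x1 ac_wb (by norm_num) (by norm_num)
  have d2 : AC ((el4 thc).x2 * Dc) 0.4187507244 0.6840747026 0.000000230922 :=
    AC.mul x2 ac_D (by norm_num) (by norm_num)
  have d3 : AC ((el4 thc).x3 * (wb * Dc)) (-0.8649564571) (-1.5410721006) 0.000000158137 :=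
    AC.mul x3 ac_E11 (by norm_num) (by norm_num)
  have d4 : AC ((el4 thc).x0 + (el4 thc).x1 * wb) 1.0464663483 0.8831977764 0.000000118927 :=
    AC.add x0 d1 (by norm_num) (by norm_num)
  have d5 : AC ((el4 thc).x0 + (el4 thc).x1 * wb + (el4 thc).x2 * Dc) 1.4652170727 1.567272479 0.00000034985 :=
    AC.add d4 d2 (by norm_num) (by norm_num)
  have d6 : AC ((el4 thc).x0 + (el4 thc).x1 * wb + (el4 thc).x2 * Dc + (el4 thc).x3 * (wb * Dc)) 0.6002606156 0.0262003784 0.000000507988 :=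
    AC.add d5 d3 (by norm_num) (by norm_num)
  apply PB_of (X := phi (el4 thc)) (a0 := 0.3997393829) (b0 := (-0.0262003786)) (a1 := (-0.4790957243)) (b1 := (-0.4951760708)) (a2 := 0.771825695) (b2 := (-0.7867652827)) (a3 := 0.6002606156) (b3 := 0.0262003784)
  · exact (AC.mono (by simpa [phi, G1, G2, G12] using a6) (by norm_num))
  · exact (AC.mono (by simpa [phi, G1, G2, G12] using b5) (by norm_num))
  · exact (AC.mono (by simpa [phi, G1, G2, G12] using c3) (by norm_num))
  · exact (AC.mono (by simpa [phi, G1, G2, G12] using d6) (by norm_num))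
  all_goals norm_num

/-- Element number 5. -/
def el5 {A : Type} [CommRing A] (t : A) : OQ A :=
  ⟨lin (-2) (-3) (-1) 0 t, lin 1 2 1 0 t, lin 1 (-1) (-3) (-1) t, lin (-2) (-3) (-1) 0 t⟩

lemma el5_map {A B : Type} [CommRing A] [CommRing B] (f : A →+* B) (t : A) :
    (el5 t).map f = el5 (f t) := by
  simp only [OQ.map, el5, lin_map]

lemma el5_nrm {A : Type} [CommRing A] {t : A}
    (h : t ^ 4 + 5 * t ^ 3 + 7 * t ^ 2 + 3 * t + 1 = 0) : OQ.nrm (-1 - t) (el5 t) = 1 := by
  simp only [OQ.nrm, el5, lin]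
  push_cast
  linear_combination ((-1) * t ^ 0 + (0) * t ^ 1 + (0) * t ^ 2 + (0) * t ^ 3) * h

lemma el5_p : PB (phi (el5 thc)) 1.168684 0.416284 0.405937 (-0.16657) := by
  have x0 : AC (el5 thc).x0 (-1.248126071) (-1.0339820144) 0.000000211364 :=
    AC_lin (by norm_num) (by norm_num)
  have x1 : AC (el5 thc).x1 0.460021186 0.6326241644 0.000000161364 :=
    AC_lin (by norm_num) (by norm_num)
  have x2 : AC (el5 thc).x2 1.4675735006 0.1195083916 0.000000286064 :=
    AC_lin (by norm_num) (by norm_num)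
  have x3 : AC (el5 thc).x3 (-1.248126071) (-1.0339820144) 0.000000211364 :=
    AC_lin (by norm_num) (by norm_num)
  have a1 : AC ((el5 thc).x1 * wc) (-0.3178580046) 0.7147021157 0.000000221021 :=
    AC.mul x1 ac_w (by norm_num) (by norm_num)
  have a2 : AC ((el5 thc).x2 * Ac) 0.9196162414 1.4294174287 0.000000509948 :=
    AC.mul x2 ac_A (by norm_num) (by norm_num)
  have a3 : AC ((el5 thc).x3 * (wc * Ac + bec * (11 / 10))) 0.5055024323 (-0.2458520409) 0.000000193963 :=
    AC.mul x3 ac_E00 (by norm_num) (by norm_num)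
  have a4 : AC ((el5 thc).x0 + (el5 thc).x1 * wc) (-1.5659840756) (-0.3192798987) 0.000000432386 :=
    AC.add x0 a1 (by norm_num) (by norm_num)
  have a5 : AC ((el5 thc).x0 + (el5 thc).x1 * wc + (el5 thc).x2 * Ac) (-0.6463678342) 1.11013753 0.000000942335 :=
    AC.add a4 a2 (by norm_num) (by norm_num)
  have a6 : AC ((el5 thc).x0 + (el5 thc).x1 * wc + (el5 thc).x2 * Ac + (el5 thc).x3 * (wc * Ac + bec * (11 / 10))) (-0.1408654019) 0.8642854891 0.000001136299 :=
    AC.add a5 a3 (by norm_num) (by norm_num)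
  have b1 : AC ((el5 thc).x1 * bec) 0.556794981 (-0.1411169456) 0.00000015515 :=
    AC.mul x1 ac_be (by norm_num) (by norm_num)
  have b2 : AC ((el5 thc).x2 * Bc) 0.1070444018 (-0.4870133282) 0.000000202384 :=
    AC.mul x2 ac_B (by norm_num) (by norm_num)
  have b3 : AC ((el5 thc).x3 * (wc * Bc + bec * Dc)) (-0.314374817) 0.9645177845 0.000000422875 :=
    AC.mul x3 ac_E01 (by norm_num) (by norm_num)
  have b4 : AC ((el5 thc).x1 * bec + (el5 thc).x2 * Bc) 0.6638393828 (-0.6281302738) 0.000000357535 :=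
    AC.add b1 b2 (by norm_num) (by norm_num)
  have b5 : AC ((el5 thc).x1 * bec + (el5 thc).x2 * Bc + (el5 thc).x3 * (wc * Bc + bec * Dc)) 0.3494645658 0.3363875107 0.000000780411 :=
    AC.add b4 b3 (by norm_num) (by norm_num)
  have c1 : AC ((el5 thc).x2 * (11 / 10)) 1.6143308507 0.1314592308 0.000000314712 :=
    AC.mul x2 ac_c (by norm_num) (by norm_num)
  have c2 : AC ((el5 thc).x3 * (wb * (11 / 10))) (-1.6714695) 0.6203096654 0.000000318909 :=
    AC.mul x3 ac_E10 (by norm_num) (by norm_num)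
  have c3 : AC ((el5 thc).x2 * (11 / 10) + (el5 thc).x3 * (wb * (11 / 10))) (-0.0571386493) 0.7517688962 0.000000633622 :=
    AC.add c1 c2 (by norm_num) (by norm_num)
  have d1 : AC ((el5 thc).x1 * wb) 0.7778791906 (-0.0820779513) 0.000000221021 :=
    AC.mul x1 ac_wb (by norm_num) (by norm_num)
  have d2 : AC ((el5 thc).x2 * Dc) 0.5479572592 (-1.3099090371) 0.000000394785 :=
    AC.mul x2 ac_D (by norm_num) (by norm_num)
  have d3 : AC ((el5 thc).x3 * (wb * Dc)) 0.0631550242 1.5616835146 0.000000381723 :=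
    AC.mul x3 ac_E11 (by norm_num) (by norm_num)
  have d4 : AC ((el5 thc).x0 + (el5 thc).x1 * wb) (-0.4702468804) (-1.1160599657) 0.000000432386 :=
    AC.add x0 d1 (by norm_num) (by norm_num)
  have d5 : AC ((el5 thc).x0 + (el5 thc).x1 * wb + (el5 thc).x2 * Dc) 0.0777103788 (-2.4259690028) 0.000000827172 :=
    AC.add d4 d2 (by norm_num) (by norm_num)
  have d6 : AC ((el5 thc).x0 + (el5 thc).x1 * wb + (el5 thc).x2 * Dc + (el5 thc).x3 * (wb * Dc)) 0.140865403 (-0.8642854882) 0.000001208896 :=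
    AC.add d5 d3 (by norm_num) (by norm_num)
  apply PB_of (X := phi (el5 thc)) (a0 := (-0.1408654019)) (b0 := 0.8642854891) (a1 := 0.3494645658) (b1 := 0.3363875107) (a2 := (-0.0571386493)) (b2 := 0.7517688962) (a3 := 0.140865403) (b3 := (-0.8642854882))
  · exact (AC.mono (by simpa [phi, G1, G2, G12] using a6) (by norm_num))
  · exact (AC.mono (by simpa [phi, G1, G2, G12] using b5) (by norm_num))
  · exact (AC.mono (by simpa [phi, G1, G2, G12] using c3) (by norm_num))
  · exact (AC.mono (by simpa [phi, G1, G2, G12] using d6) (by norm_num))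
  all_goals norm_num

/-- Element number 6. -/
def el6 {A : Type} [CommRing A] (t : A) : OQ A :=
  ⟨lin (-2) (-5) (-4) (-1) t, lin 1 4 4 1 t, lin 2 1 0 0 t, lin (-2) (-6) (-5) (-1) t⟩

lemma el6_map {A B : Type} [CommRing A] [CommRing B] (f : A →+* B) (t : A) :
    (el6 t).map f = el6 (f t) := by
  simp only [OQ.map, el6, lin_map]

lemma el6_nrm {A : Type} [CommRing A] {t : A}
    (h : t ^ 4 + 5 * t ^ 3 + 7 * t ^ 2 + 3 * t + 1 = 0) : OQ.nrm (-1 - t) (el6 t) = 1 := by
  simp only [OQ.nrm, el6, lin]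
  push_cast
  linear_combination ((0) * t ^ 0 + (-3) * t ^ 1 + (-4) * t ^ 2 + (-1) * t ^ 3) * h

lemma el6_p : PB (phi (el6 thc)) 1.173155 (-0.528931) 0.309231 (-0.03004) := by
  have x0 : AC (el6 thc).x0 (-0.5686574554) (-1.3158314728) 0.000000547427 :=
    AC_lin (by norm_num) (by norm_num)
  have x1 : AC (el6 thc).x1 (-0.2194474296) 0.9144736228 0.000000497427 :=
    AC_lin (by norm_num) (by norm_num)
  have x2 : AC (el6 thc).x2 1.788104885 0.40135785 0.000000050001 :=
    AC_lin (by norm_num) (by norm_num)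
  have x3 : AC (el6 thc).x3 (-0.2405737564) (-1.5470977872) 0.00000065879 :=
    AC_lin (by norm_num) (by norm_num)
  have a1 : AC ((el6 thc).x1 * wc) (-0.9016811034) 0.2671897625 0.000000680099 :=
    AC.mul x1 ac_w (by norm_num) (by norm_num)
  have a2 : AC ((el6 thc).x2 * Ac) 0.8859755254 1.9209681649 0.000000145831 :=
    AC.mul x2 ac_A (by norm_num) (by norm_num)
  have a3 : AC ((el6 thc).x3 * (wc * Ac + bec * (11 / 10))) 0.523043031 0.1458979689 0.000000378435 :=
    AC.mul x3 ac_E00 (by norm_num) (by norm_num)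
  have a4 : AC ((el6 thc).x0 + (el6 thc).x1 * wc) (-1.4703385588) (-1.0486417103) 0.000001227527 :=
    AC.add x0 a1 (by norm_num) (by norm_num)
  have a5 : AC ((el6 thc).x0 + (el6 thc).x1 * wc + (el6 thc).x2 * Ac) (-0.5843630334) 0.8723264546 0.000001373359 :=
    AC.add a4 a2 (by norm_num) (by norm_num)
  have a6 : AC ((el6 thc).x0 + (el6 thc).x1 * wc + (el6 thc).x2 * Ac + (el6 thc).x3 * (wc * Ac + bec * (11 / 10))) (-0.0613200024) 1.0182244235 0.000001751795 :=
    AC.add a5 a3 (by norm_num) (by norm_num)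
  have b1 : AC ((el6 thc).x1 * bec) 0.5636554438 0.3990251446 0.000000475999 :=
    AC.mul x1 ac_be (by norm_num) (by norm_num)
  have b2 : AC ((el6 thc).x2 * Bc) 0.21624356 (-0.5817158186) 0.000000147852 :=
    AC.mul x2 ac_B (by norm_num) (by norm_num)
  have b3 : AC ((el6 thc).x3 * (wc * Bc + bec * Dc)) (-0.8450249255) 0.4962717084 0.000000731892 :=
    AC.mul x3 ac_E01 (by norm_num) (by norm_num)
  have b4 : AC ((el6 thc).x1 * bec + (el6 thc).x2 * Bc) 0.7798990038 (-0.182690674) 0.000000623852 :=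
    AC.add b1 b2 (by norm_num) (by norm_num)
  have b5 : AC ((el6 thc).x1 * bec + (el6 thc).x2 * Bc + (el6 thc).x3 * (wc * Bc + bec * Dc)) (-0.0651259217) 0.3135810344 0.000001355745 :=
    AC.add b4 b3 (by norm_num) (by norm_num)
  have c1 : AC ((el6 thc).x2 * (11 / 10)) 1.9669153735 0.441493635 0.000000055003 :=
    AC.mul x2 ac_c (by norm_num) (by norm_num)
  have c2 : AC ((el6 thc).x3 * (wb * (11 / 10))) (-1.6061241508) (-0.6217264999) 0.000000990929 :=
    AC.mul x3 ac_E10 (by norm_num) (by norm_num)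
  have c3 : AC ((el6 thc).x2 * (11 / 10) + (el6 thc).x3 * (wb * (11 / 10))) 0.3607912227 (-0.1802328649) 0.000001045933 :=
    AC.add c1 c2 (by norm_num) (by norm_num)
  have d1 : AC ((el6 thc).x1 * wb) 0.6822336738 0.6472838603 0.000000680099 :=
    AC.mul x1 ac_wb (by norm_num) (by norm_num)
  have d2 : AC ((el6 thc).x2 * Dc) 0.9021293596 (-1.5196103149) 0.000000125702 :=
    AC.mul x2 ac_D (by norm_num) (by norm_num)
  have d3 : AC ((el6 thc).x3 * (wb * Dc)) (-0.9543855196) 1.1699335216 0.00000097072 :=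
    AC.mul x3 ac_E11 (by norm_num) (by norm_num)
  have d4 : AC ((el6 thc).x0 + (el6 thc).x1 * wb) 0.1135762184 (-0.6685476125) 0.000001227527 :=
    AC.add x0 d1 (by norm_num) (by norm_num)
  have d5 : AC ((el6 thc).x0 + (el6 thc).x1 * wb + (el6 thc).x2 * Dc) 1.015705578 (-2.1881579274) 0.00000135323 :=
    AC.add d4 d2 (by norm_num) (by norm_num)
  have d6 : AC ((el6 thc).x0 + (el6 thc).x1 * wb + (el6 thc).x2 * Dc + (el6 thc).x3 * (wb * Dc)) 0.0613200584 (-1.0182244058) 0.000002323951 :=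
    AC.add d5 d3 (by norm_num) (by norm_num)
  apply PB_of (X := phi (el6 thc)) (a0 := (-0.0613200024)) (b0 := 1.0182244235) (a1 := (-0.0651259217)) (b1 := 0.3135810344) (a2 := 0.3607912227) (b2 := (-0.1802328649)) (a3 := 0.0613200584) (b3 := (-1.0182244058))
  · exact (AC.mono (by simpa [phi, G1, G2, G12] using a6) (by norm_num))
  · exact (AC.mono (by simpa [phi, G1, G2, G12] using b5) (by norm_num))
  · exact (AC.mono (by simpa [phi, G1, G2, G12] using c3) (by norm_num))
  · exact (AC.mono (by simpa [phi, G1, G2, G12] using d6) (by norm_num))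
  all_goals norm_num

/-- Element number 7. -/
def el7 {A : Type} [CommRing A] (t : A) : OQ A :=
  ⟨lin (-1) 1 3 1 t, lin 2 3 1 0 t, lin (-1) (-4) (-4) (-1) t, lin (-1) (-1) 0 0 t⟩

lemma el7_map {A B : Type} [CommRing A] [CommRing B] (f : A →+* B) (t : A) :
    (el7 t).map f = el7 (f t) := by
  simp only [OQ.map, el7, lin_map]

lemma el7_nrm {A : Type} [CommRing A] {t : A}
    (h : t ^ 4 + 5 * t ^ 3 + 7 * t ^ 2 + 3 * t + 1 = 0) : OQ.nrm (-1 - t) (el7 t) = 1 := by
  simp only [OQ.nrm, el7, lin]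
  push_cast
  linear_combination ((-1) * t ^ 0 + (0) * t ^ 1 + (0) * t ^ 2 + (0) * t ^ 3) * h

lemma el7_p : PB (phi (el7 thc)) 1.19781 (-0.416169) (-0.428487) 0.2792 := by
  have x0 : AC (el7 thc).x0 (-1.4675735006) (-0.1195083916) 0.000000286064 :=
    AC_lin (by norm_num) (by norm_num)
  have x1 : AC (el7 thc).x1 1.248126071 1.0339820144 0.000000211364 :=
    AC_lin (by norm_num) (by norm_num)
  have x2 : AC (el7 thc).x2 0.2194474296 (-0.9144736228) 0.000000497427 :=
    AC_lin (by norm_num) (by norm_num)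
  have x3 : AC (el7 thc).x3 (-0.788104885) (-0.40135785) 0.000000050001 :=
    AC_lin (by norm_num) (by norm_num)
  have a1 : AC ((el7 thc).x1 * wc) (-0.2713916562) 1.5978998921 0.000000289921 :=
    AC.mul x1 ac_w (by norm_num) (by norm_num)
  have a2 : AC ((el7 thc).x2 * Ac) 0.9923702544 (-0.440100198) 0.000000838575 :=
    AC.mul x2 ac_A (by norm_num) (by norm_num)
  have a3 : AC ((el7 thc).x3 * (wc * Ac + bec * (11 / 10))) 0.2397614921 (-0.1913099174) 0.000000073494 :=
    AC.mul x3 ac_E00 (by norm_num) (by norm_num)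
  have a4 : AC ((el7 thc).x0 + (el7 thc).x1 * wc) (-1.7389651568) 1.4783915005 0.000000575986 :=
    AC.add x0 a1 (by norm_num) (by norm_num)
  have a5 : AC ((el7 thc).x0 + (el7 thc).x1 * wc + (el7 thc).x2 * Ac) (-0.7465949024) 1.0382913025 0.000001414562 :=
    AC.add a4 a2 (by norm_num) (by norm_num)
  have a6 : AC ((el7 thc).x0 + (el7 thc).x1 * wc + (el7 thc).x2 * Ac + (el7 thc).x3 * (wc * Ac + bec * (11 / 10))) (-0.5068334103) 0.8469813851 0.000001488057 :=
    AC.add a5 a3 (by norm_num) (by norm_num)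
  have b1 : AC ((el7 thc).x1 * bec) 1.0453857564 (-0.5689999536) 0.000000204062 :=
    AC.mul x1 ac_be (by norm_num) (by norm_num)
  have b2 : AC ((el7 thc).x2 * Bc) (-0.2968544144) (-0.1153513002) 0.000000256323 :=
    AC.mul x2 ac_B (by norm_num) (by norm_num)
  have b3 : AC ((el7 thc).x3 * (wc * Bc + bec * Dc)) (-0.0521135024) 0.5511052266 0.000000171562 :=
    AC.mul x3 ac_E01 (by norm_num) (by norm_num)
  have b4 : AC ((el7 thc).x1 * bec + (el7 thc).x2 * Bc) 0.748531342 (-0.6843512538) 0.000000460386 :=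
    AC.add b1 b2 (by norm_num) (by norm_num)
  have b5 : AC ((el7 thc).x1 * bec + (el7 thc).x2 * Bc + (el7 thc).x3 * (wc * Bc + bec * Dc)) 0.6964178396 (-0.1332460272) 0.000000631949 :=
    AC.add b4 b3 (by norm_num) (by norm_num)
  have c1 : AC ((el7 thc).x2 * (11 / 10)) 0.2413921726 (-1.0059209851) 0.000000547211 :=
    AC.mul x2 ac_c (by norm_num) (by norm_num)
  have c2 : AC ((el7 thc).x3 * (wb * (11 / 10))) (-0.8158023904) 0.5300239191 0.000000075825 :=
    AC.mul x3 ac_E10 (by norm_num) (by norm_num)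
  have c3 : AC ((el7 thc).x2 * (11 / 10) + (el7 thc).x3 * (wb * (11 / 10))) (-0.5744102178) (-0.475897066) 0.000000623037 :=
    AC.add c1 c2 (by norm_num) (by norm_num)
  have d1 : AC ((el7 thc).x1 * wb) 1.5195177272 (-0.5639178777) 0.000000289921 :=
    AC.mul x1 ac_wb (by norm_num) (by norm_num)
  have d2 : AC ((el7 thc).x2 * Dc) (-0.7729228248) (-0.4743734248) 0.000000638323 :=
    AC.mul x2 ac_D (by norm_num) (by norm_num)
  have d3 : AC ((el7 thc).x3 * (wb * Dc)) 0.2202596946 0.8239340821 0.000000117017 :=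
    AC.mul x3 ac_E11 (by norm_num) (by norm_num)
  have d4 : AC ((el7 thc).x0 + (el7 thc).x1 * wb) 0.0519442266 (-0.6834262693) 0.000000575986 :=
    AC.add x0 d1 (by norm_num) (by norm_num)
  have d5 : AC ((el7 thc).x0 + (el7 thc).x1 * wb + (el7 thc).x2 * Dc) (-0.7209785982) (-1.1577996941) 0.00000121431 :=
    AC.add d4 d2 (by norm_num) (by norm_num)
  have d6 : AC ((el7 thc).x0 + (el7 thc).x1 * wb + (el7 thc).x2 * Dc + (el7 thc).x3 * (wb * Dc)) (-0.5007189036) (-0.333865612) 0.000001331328 :=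
    AC.add d5 d3 (by norm_num) (by norm_num)
  apply PB_of (X := phi (el7 thc)) (a0 := (-0.5068334103)) (b0 := 0.8469813851) (a1 := 0.6964178396) (b1 := (-0.1332460272)) (a2 := (-0.5744102178)) (b2 := (-0.475897066)) (a3 := (-0.5007189036)) (b3 := (-0.333865612))
  · exact (AC.mono (by simpa [phi, G1, G2, G12] using a6) (by norm_num))
  · exact (AC.mono (by simpa [phi, G1, G2, G12] using b5) (by norm_num))
  · exact (AC.mono (by simpa [phi, G1, G2, G12] using c3) (by norm_num))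
  · exact (AC.mono (by simpa [phi, G1, G2, G12] using d6) (by norm_num))
  all_goals norm_num

end Pool.Agent.H26R3
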