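import Pool.Agent.H26R3.MartinTheta

set_option autoImplicit false
open Matrix

namespace Pool.Agent.H26R3

/-- Coordinates of an element of a quaternion order, in the basis `1, g₁, g₂, g₁ g₂`. -/
@[ext] structure OQ (A : Type) where
  x0 : A
  x1 : A
  x2 : A
  x3 : A

namespace OQ
variable {A : Type} [CommRing A]

/-- Multiplication, with `g₁² = g₁ - 1`, `g₂² = g₂ - 1` and trace of `g₁ g₂` equal to `τ`. -/
def mul (τ : A) (x y : OQ A) : OQ A where
  x0 := x.x0 * y.x0 - x.x1 * y.x1 - x.x2 * y.x2 + (τ - 1) * (x.x2 * y.x1) - x.x2 * y.x3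
    - x.x3 * y.x1 - x.x3 * y.x3
  x1 := x.x0 * y.x1 + x.x1 * y.x0 + x.x1 * y.x1 + x.x2 * y.x1 + x.x2 * y.x3
    + τ * (x.x3 * y.x1) - x.x3 * y.x2
  x2 := x.x0 * y.x2 + x.x2 * y.x0 - x.x1 * y.x3 + x.x2 * y.x1 + x.x2 * y.x2
    + τ * (x.x2 * y.x3) + x.x3 * y.x1
  x3 := x.x0 * y.x3 + x.x3 * y.x0 + x.x1 * y.x2 + x.x1 * y.x3 - x.x2 * y.x1
    + x.x3 * y.x2 + τ * (x.x3 * y.x3)

/-- The reduced norm. -/
def nrm (τ : A) (x : OQ A) : A :=
  x.x0 ^ 2 + x.x1 ^ 2 + x.x2 ^ 2 + x.x3 ^ 2 + x.x0 * x.x1 + x.x0 * x.x2 + τ * (x.x0 * x.x3)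
    + (1 - τ) * (x.x1 * x.x2) + x.x1 * x.x3 + x.x2 * x.x3

/-- Conjugation. -/
def conj (τ : A) (x : OQ A) : OQ A := ⟨x.x0 + x.x1 + x.x2 + τ * x.x3, -x.x1, -x.x2, -x.x3⟩

def one : OQ A := ⟨1, 0, 0, 0⟩

lemma nrm_mul (τ : A) (x y : OQ A) : nrm τ (mul τ x y) = nrm τ x * nrm τ y := by
  simp only [nrm, mul]; ring

lemma nrm_conj (τ : A) (x : OQ A) : nrm τ (conj τ x) = nrm τ x := by
  simp only [nrm, conj]; ring

lemma mul_conj (τ : A) (x : OQ A) : mul τ x (conj τ x) = ⟨nrm τ x, 0, 0, 0⟩ := by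
  ext <;> simp only [nrm, mul, conj] <;> ring

lemma nrm_one (τ : A) : nrm τ (one : OQ A) = 1 := by simp [nrm, one]

/-- Apply a ring homomorphism. -/
def map {B : Type} [CommRing B] (f : A →+* B) (x : OQ A) : OQ B := ⟨f x.x0, f x.x1, f x.x2, f x.x3⟩

lemma map_mul {B : Type} [CommRing B] (f : A →+* B) (τ : A) (x y : OQ A) :
    map f (mul τ x y) = mul (f τ) (map f x) (map f y) := by
  ext <;> simp [map, mul]

lemma map_conj {B : Type} [CommRing B] (f : A →+* B) (τ : A) (x : OQ A) :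
    map f (conj τ x) = conj (f τ) (map f x) := by
  ext <;> simp [map, conj]

lemma map_one {B : Type} [CommRing B] (f : A →+* B) : map f (one : OQ A) = one := by
  ext <;> simp [map, one]

end OQ

/-- `√3` as a complex number. -/
noncomputable def qc : ℂ := ((√3 : ℝ) : ℂ)

lemma qc_sq : qc ^ 2 = 3 := by
  have h : √3 ^ 2 = (3 : ℝ) := Real.sq_sqrt (by norm_num)
  unfold qc
  exact_mod_cast h

noncomputable def psi : ℂ := Complex.I * (thc + 9 / 5 - 3 / 4 * Complex.I)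
noncomputable def wc : ℂ := 1 / 2 + Complex.I * qc / 2
noncomputable def wb : ℂ := 1 / 2 - Complex.I * qc / 2
noncomputable def bec : ℂ := (3 / 10 - 3 / 4 * Complex.I) * (10 / 11)
noncomputable def Ac : ℂ := 1 / 2 + qc * psi / 3
noncomputable def Bc : ℂ := -(psi ^ 2 / 3 + 3 / 4) * (10 / 11)
noncomputable def Dc : ℂ := 1 / 2 - qc * psi / 3
/-- minus one minus `θ`: the trace of `g₁ g₂`. -/
noncomputable def tauc : ℂ := -1 - thc

noncomputable def G1 : Matrix (Fin 2) (Fin 2) ℂ := !![wc, bec; 0, wb]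
noncomputable def G2 : Matrix (Fin 2) (Fin 2) ℂ := !![Ac, Bc; 11 / 10, Dc]
noncomputable def G12 : Matrix (Fin 2) (Fin 2) ℂ :=
  !![wc * Ac + bec * (11 / 10), wc * Bc + bec * Dc; wb * (11 / 10), wb * Dc]

lemma t12 : G1 * G2 = G12 := by
  unfold G1 G2 G12
  rw [Matrix.mul_fin_two]
  congr 1
  ext i j
  fin_cases i <;> fin_cases j <;> simp

lemma t11 : G1 * G1 = G1 - 1 := by
  have h := qc_sq
  have hI := Complex.I_sq
  unfold G1
  rw [Matrix.mul_fin_two, Matrix.one_fin_two, Matrix.of_sub_of]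
  ext i j
  fin_cases i <;> fin_cases j <;> simp [wc, wb]
  · linear_combination (1 / 4) * Complex.I ^ 2 * h + (3 / 4) * hI
  · ring
  · linear_combination (1 / 4) * Complex.I ^ 2 * h + (3 / 4) * hI

lemma t22 : G2 * G2 = G2 - 1 := by
  have h := qc_sq
  unfold G2
  rw [Matrix.mul_fin_two, Matrix.one_fin_two, Matrix.of_sub_of]
  ext i j
  fin_cases i <;> fin_cases j <;> simp [Ac, Bc, Dc]
  · linear_combination (1 / 9) * psi ^ 2 * h
  · ring
  · ring
  · linear_combination (1 / 9) * psi ^ 2 * h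

lemma w_add : wc + wb = 1 := by unfold wc wb; ring
lemma A_add : Ac + Dc = 1 := by unfold Ac Dc; ring

lemma tau_eq : tauc = wc * Ac + bec * (11 / 10) + wb * Dc := by
  have h := qc_sq
  have hI := Complex.I_sq
  unfold tauc wc wb bec Ac Dc psi
  linear_combination (-(1 / 3 : ℂ) * Complex.I ^ 2 * (thc + 9 / 5 - 3 / 4 * Complex.I)) * h
    - (thc + 9 / 5 - 3 / 4 * Complex.I) * hI

lemma t21 : G2 * G1 = (tauc - 1) • (1 : Matrix (Fin 2) (Fin 2) ℂ) + G1 + G2 - G12 := by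
  have h1 := w_add
  have h2 := A_add
  have h3 := tau_eq
  unfold G1 G2 G12
  rw [Matrix.mul_fin_two, Matrix.one_fin_two]
  ext i j
  fin_cases i <;> fin_cases j <;> simp
  · linear_combination -h3 - Dc * h1 + (wc - 1) * h2
  · linear_combination bec * h2 + Bc * h1
  · linear_combination (11 / 10) * h1
  · linear_combination -h3 - wc * h2 + (Dc - 1) * h1

lemma t1_12 : G1 * G12 = G12 - G2 := by
  rw [← t12, ← Matrix.mul_assoc, t11, Matrix.sub_mul, Matrix.one_mul]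
lemma t12_2 : G12 * G2 = G12 - G1 := by
  rw [← t12, Matrix.mul_assoc, t22, Matrix.mul_sub, Matrix.mul_one]
lemma t2_12 : G2 * G12 = tauc • G2 + G1 - 1 := by
  rw [← t12, ← Matrix.mul_assoc, t21, Matrix.sub_mul, Matrix.add_mul, Matrix.add_mul,
    Matrix.smul_mul, Matrix.one_mul, t12_2, t12, t22]
  module
lemma t12_1 : G12 * G1 = tauc • G1 + G2 - 1 := by
  rw [← t12, Matrix.mul_assoc, t21, Matrix.mul_sub, Matrix.mul_add, Matrix.mul_add,
    Matrix.mul_smul, Matrix.mul_one, t1_12, t12, t11]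
  module
lemma t12_12 : G12 * G12 = tauc • G12 - 1 := by
  nth_rewrite 1 [← t12]
  rw [Matrix.mul_assoc, t2_12, Matrix.mul_sub, Matrix.mul_add, Matrix.mul_smul, Matrix.mul_one,
    t12, t11]
  module

/-- The representation of the order in `M₂(ℂ)`. -/
noncomputable def phi (x : OQ ℂ) : Matrix (Fin 2) (Fin 2) ℂ :=
  x.x0 • (1 : Matrix (Fin 2) (Fin 2) ℂ) + x.x1 • G1 + x.x2 • G2 + x.x3 • G12

lemma phi_mul (x y : OQ ℂ) : phi (OQ.mul tauc x y) = phi x * phi y := by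
  unfold phi
  simp only [Matrix.add_mul, Matrix.mul_add, Matrix.smul_mul, Matrix.mul_smul, Matrix.one_mul,
    Matrix.mul_one, t11, t12, t21, t22, t1_12, t12_2, t2_12, t12_1, t12_12]
  simp only [OQ.mul]
  module

lemma phi_one : phi OQ.one = 1 := by simp [phi, OQ.one]

lemma phi_conj_entries (x : OQ ℂ) :
    phi (OQ.conj tauc x) = !![phi x 1 1, -(phi x 0 1); -(phi x 1 0), phi x 0 0] := by
  have h1 := w_add
  have h2 := A_add
  have h3 := tau_eq
  ext i j
  fin_cases i <;> fin_cases j <;> simp [phi, OQ.conj, G1, G2, G12]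
  · linear_combination x.x3 * h3 - x.x1 * h1 - x.x2 * h2
  · ring
  · ring
  · linear_combination x.x3 * h3 - x.x1 * h1 - x.x2 * h2

lemma phi_det (x : OQ ℂ) : (phi x).det = OQ.nrm tauc x := by
  have h := phi_mul x (OQ.conj tauc x)
  rw [OQ.mul_conj, phi_conj_entries] at h
  have h0 := congrFun (congrFun h 0) 0
  rw [Matrix.det_fin_two]
  simp [phi, Matrix.mul_apply] at h0
  simp only [phi] at h0 ⊢
  simp
  linear_combination -h0

end Pool.Agent.H26R3
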