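import Pool.Agent.H26R3.MartinSpin
import Pool.Agent.H26R3.MartinOrder

set_option autoImplicit false
open Matrix Polynomial

namespace Pool.Agent.H26R3

noncomputable def evc : ℤ[X] →+* ℂ := (Polynomial.aeval thc : ℤ[X] →ₐ[ℤ] ℂ).toRingHom
noncomputable def ev1 : ℤ[X] →+* ℝ := (Polynomial.aeval th1 : ℤ[X] →ₐ[ℤ] ℝ).toRingHom
noncomputable def ev2 : ℤ[X] →+* ℝ := (Polynomial.aeval th2 : ℤ[X] →ₐ[ℤ] ℝ).toRingHom

noncomputable def tauP : ℤ[X] := -1 - X

lemma evc_tau : evc tauP = tauc := by simp [evc, tauP, tauc]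
lemma ev1_tau : ev1 tauP = -1 - th1 := by simp [ev1, tauP]
lemma ev2_tau : ev2 tauP = -1 - th2 := by simp [ev2, tauP]

/-- Reduced norm one at the three archimedean places. -/
def Good (x : OQ ℤ[X]) : Prop :=
  OQ.nrm tauc (x.map evc) = 1 ∧ OQ.nrm (-1 - th1) (x.map ev1) = 1 ∧
    OQ.nrm (-1 - th2) (x.map ev2) = 1

lemma good_mul {x y : OQ ℤ[X]} (hx : Good x) (hy : Good y) : Good (OQ.mul tauP x y) := by
  refine ⟨?_, ?_, ?_⟩
  · rw [OQ.map_mul, evc_tau, OQ.nrm_mul, hx.1, hy.1, one_mul]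
  · rw [OQ.map_mul, ev1_tau, OQ.nrm_mul, hx.2.1, hy.2.1, one_mul]
  · rw [OQ.map_mul, ev2_tau, OQ.nrm_mul, hx.2.2, hy.2.2, one_mul]

lemma good_conj {x : OQ ℤ[X]} (hx : Good x) : Good (OQ.conj tauP x) := by
  refine ⟨?_, ?_, ?_⟩
  · rw [OQ.map_conj, evc_tau, OQ.nrm_conj, hx.1]
  · rw [OQ.map_conj, ev1_tau, OQ.nrm_conj, hx.2.1]
  · rw [OQ.map_conj, ev2_tau, OQ.nrm_conj, hx.2.2]

lemma good_one : Good OQ.one := by
  refine ⟨?_, ?_, ?_⟩ <;> rw [OQ.map_one, OQ.nrm_one]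

lemma phi_conj_mul {x : OQ ℂ} (hx : OQ.nrm tauc x = 1) : phi (OQ.conj tauc x) * phi x = 1 := by
  apply mul_eq_one_comm.1
  rw [← phi_mul, OQ.mul_conj, hx]
  exact phi_one

/-- The group of units of norm one of the order, acting on Minkowski space. -/
noncomputable def Gam : Subgroup (Matrix.GeneralLinearGroup (Fin 4) ℝ) where
  carrier := {g | (g : Matrix (Fin 4) (Fin 4) ℝ).det = 1 ∧
    ∃ x : OQ ℤ[X], Good x ∧ IsLift (g : Matrix (Fin 4) (Fin 4) ℝ) (phi (x.map evc))}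
  mul_mem' := by
    rintro g h ⟨hg, x, hx, hgx⟩ ⟨hh, y, hy, hhy⟩
    refine ⟨?_, OQ.mul tauP x y, good_mul hx hy, ?_⟩
    · rw [Matrix.GeneralLinearGroup.coe_mul, Matrix.det_mul, hg, hh, one_mul]
    · rw [OQ.map_mul, evc_tau, phi_mul, Matrix.GeneralLinearGroup.coe_mul]
      exact lift_mul hgx hhy
  one_mem' := by
    refine ⟨by simp, OQ.one, good_one, ?_⟩
    rw [OQ.map_one, phi_one]
    simpa using lift_one
  inv_mem' := by
    rintro g ⟨hg, x, hx, hgx⟩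
    have h1 : (g : Matrix (Fin 4) (Fin 4) ℝ) * ((g⁻¹ : Matrix.GeneralLinearGroup (Fin 4) ℝ) :
        Matrix (Fin 4) (Fin 4) ℝ) = 1 := by
      rw [← Matrix.GeneralLinearGroup.coe_mul, mul_inv_cancel]; rfl
    refine ⟨?_, OQ.conj tauP x, good_conj hx, ?_⟩
    · have := congrArg Matrix.det h1
      rw [Matrix.det_mul, hg, one_mul, Matrix.det_one] at this
      exact this
    · rw [OQ.map_conj, evc_tau]
      intro v
      have h2 := hgx (((g⁻¹ : Matrix.GeneralLinearGroup (Fin 4) ℝ) :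
        Matrix (Fin 4) (Fin 4) ℝ) *ᵥ v)
      rw [Matrix.mulVec_mulVec, h1, Matrix.one_mulVec] at h2
      have h3 := phi_conj_mul hx.1
      have h4 := congrArg Matrix.conjTranspose h3
      rw [Matrix.conjTranspose_mul, Matrix.conjTranspose_one] at h4
      rw [h2]
      calc _ = 1 * Hm (((g⁻¹ : Matrix.GeneralLinearGroup (Fin 4) ℝ) :
              Matrix (Fin 4) (Fin 4) ℝ) *ᵥ v) * 1 := by simp
        _ = _ := by
          rw [← h3]
          nth_rewrite 2 [h3]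
          rw [← h4]
          simp only [Matrix.mul_assoc]

lemma Gam_det {g : Matrix.GeneralLinearGroup (Fin 4) ℝ} (hg : g ∈ Gam) :
    (g : Matrix (Fin 4) (Fin 4) ℝ).det = 1 := hg.1

lemma Gam_lift {g : Matrix.GeneralLinearGroup (Fin 4) ℝ} (hg : g ∈ Gam) :
    ∃ X : Matrix (Fin 2) (Fin 2) ℂ, X.det = 1 ∧ IsLift (g : Matrix (Fin 4) (Fin 4) ℝ) X := by
  obtain ⟨-, x, hx, hgx⟩ := hg
  exact ⟨_, by rw [phi_det, hx.1], hgx⟩

lemma Gam_JJ {g : Matrix.GeneralLinearGroup (Fin 4) ℝ} (hg : g ∈ Gam) :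
    (g : Matrix (Fin 4) (Fin 4) ℝ)ᵀ * Matrix.diagonal ![(-1 : ℝ), 1, 1, 1]
      * (g : Matrix (Fin 4) (Fin 4) ℝ) = Matrix.diagonal ![(-1 : ℝ), 1, 1, 1] := by
  obtain ⟨X, hX, h⟩ := Gam_lift hg
  exact lift_JJ h hX

lemma Gam_pos {g : Matrix.GeneralLinearGroup (Fin 4) ℝ} (hg : g ∈ Gam) :
    0 < (g : Matrix (Fin 4) (Fin 4) ℝ) 0 0 := by
  obtain ⟨X, hX, h⟩ := Gam_lift hg
  have h1 := lift_00 h
  by_contra hc
  have n0 := Complex.normSq_nonneg (X 0 0)
  have n1 := Complex.normSq_nonneg (X 0 1)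
  have n2 := Complex.normSq_nonneg (X 1 0)
  have n3 := Complex.normSq_nonneg (X 1 1)
  have z0 : X 0 0 = 0 := Complex.normSq_eq_zero.1 (by linarith)
  have z1 : X 0 1 = 0 := Complex.normSq_eq_zero.1 (by linarith)
  rw [Matrix.det_fin_two, z0, z1] at hX
  simp at hX

/-! ### Discreteness -/

/-- Evaluation of real cubic polynomials at the three places. -/
noncomputable def Lmap : (Fin 4 → ℝ) →ₗ[ℝ] (ℂ × ℝ × ℝ) where
  toFun v := ((v 0 : ℂ) + v 1 * thc + v 2 * thc ^ 2 + v 3 * thc ^ 3,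
    v 0 + v 1 * th1 + v 2 * th1 ^ 2 + v 3 * th1 ^ 3,
    v 0 + v 1 * th2 + v 2 * th2 ^ 2 + v 3 * th2 ^ 3)
  map_add' u v := by
    simp only [Pi.add_apply, Complex.ofReal_add, Prod.mk_add_mk]
    refine Prod.ext ?_ (Prod.ext ?_ ?_) <;> simp only <;> ring
  map_smul' c v := by
    simp only [Pi.smul_apply, smul_eq_mul, Complex.ofReal_mul, RingHom.id_apply, Prod.smul_mk,
      Complex.real_smul]
    refine Prod.ext ?_ (Prod.ext ?_ ?_) <;> simp only <;> ring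

lemma st_pos : 0 < st := by linarith [st_lb]

lemma Lmap_inj : LinearMap.ker Lmap = ⊥ := by
  rw [LinearMap.ker_eq_bot']
  intro v hv
  have hc : (v 0 : ℂ) + v 1 * thc + v 2 * thc ^ 2 + v 3 * thc ^ 3 = 0 := congrArg Prod.fst hv
  have h1 : v 0 + v 1 * th1 + v 2 * th1 ^ 2 + v 3 * th1 ^ 3 = 0 :=
    congrArg (fun p => p.2.1) hv
  have h2 : v 0 + v 1 * th2 + v 2 * th2 ^ 2 + v 3 * th2 ^ 3 = 0 :=
    congrArg (fun p => p.2.2) hv
  have h12 : v 1 + v 2 * (th1 + th2) + v 3 * (th1 ^ 2 + th1 * th2 + th2 ^ 2) = 0 := by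
    have : (v 1 + v 2 * (th1 + th2) + v 3 * (th1 ^ 2 + th1 * th2 + th2 ^ 2)) * (th1 - th2) = 0 := by
      linear_combination h1 - h2
    exact (mul_eq_zero.1 this).resolve_right th_ne
  have h1c : (v 0 : ℂ) + v 1 * th1 + v 2 * th1 ^ 2 + v 3 * th1 ^ 3 = 0 := by exact_mod_cast h1
  have h12c : (v 1 : ℂ) + v 2 * (th1 + th2) + v 3 * (th1 ^ 2 + th1 * th2 + th2 ^ 2) = 0 := by
    exact_mod_cast h12
  have hprod : (thc - th1) * ((thc - th2) * (v 3 * thc + (v 2 + v 3 * (th1 + th2)))) = 0 := by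
    linear_combination hc - h1c - (thc - th1) * h12c
  have n1 : thc - (th1 : ℂ) ≠ 0 := by
    intro h
    have := congrArg Complex.im h
    simp [thc] at this
    exact st_pos.ne' this
  have n2 : thc - (th2 : ℂ) ≠ 0 := by
    intro h
    have := congrArg Complex.im h
    simp [thc] at this
    exact st_pos.ne' this
  have h3 := ((mul_eq_zero.1 hprod).resolve_left n1)
  have h4 := ((mul_eq_zero.1 h3).resolve_left n2)
  have him := congrArg Complex.im h4
  have hre := congrArg Complex.re h4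
  simp [thc] at him hre
  have e3 : v 3 = 0 := him.resolve_right st_pos.ne'
  rw [e3] at hre h12 h1
  have e2 : v 2 = 0 := by linarith
  rw [e2] at h12 h1
  have e1 : v 1 = 0 := by linarith
  rw [e1] at h1
  have e0 : v 0 = 0 := by linarith
  ext i
  fin_cases i
  · exact e0
  · exact e1
  · exact e2
  · exact e3

/-- The quartic polynomial. -/
noncomputable def pP : ℤ[X] := X ^ 4 + C 5 * X ^ 3 + C 7 * X ^ 2 + C 3 * X + C 1

lemma pP_monic : pP.Monic := by unfold pP; monicity!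
lemma pP_natDegree : pP.natDegree = 4 := by unfold pP; compute_degree!

lemma aeval_pP {A : Type} [CommRing A] (t : A) :
    (Polynomial.aeval t : ℤ[X] →ₐ[ℤ] A) pP = t ^ 4 + 5 * t ^ 3 + 7 * t ^ 2 + 3 * t + 1 := by
  unfold pP
  simp only [map_add, _root_.map_mul, map_pow, Polynomial.aeval_X, Polynomial.aeval_C]
  simp

lemma exists_coeffs (P : ℤ[X]) : ∃ n : Fin 4 → ℤ,
    evc P = (n 0 : ℂ) + n 1 * thc + n 2 * thc ^ 2 + n 3 * thc ^ 3 ∧
    ev1 P = n 0 + n 1 * th1 + n 2 * th1 ^ 2 + n 3 * th1 ^ 3 ∧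
    ev2 P = n 0 + n 1 * th2 + n 2 * th2 ^ 2 + n 3 * th2 ^ 3 := by
  have hdeg : (P %ₘ pP).natDegree < 4 := by
    have := Polynomial.natDegree_modByMonic_lt P pP_monic (by
      intro h; have := congrArg Polynomial.natDegree h; rw [pP_natDegree] at this; simp at this)
    rwa [pP_natDegree] at this
  refine ⟨fun i => (P %ₘ pP).coeff i, ?_, ?_, ?_⟩
  · have h1 : evc P = evc (P %ₘ pP) := by
      conv_lhs => rw [← Polynomial.modByMonic_add_div P pP]
      have : evc pP = 0 := (aeval_pP thc).trans thc_root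
      rw [map_add, _root_.map_mul, this]
      ring
    rw [h1]
    conv_lhs => rw [(P %ₘ pP).as_sum_range' 4 hdeg]
    simp [evc, Finset.sum_range_succ, ← Polynomial.C_mul_X_pow_eq_monomial]
  · have h1 : ev1 P = ev1 (P %ₘ pP) := by
      conv_lhs => rw [← Polynomial.modByMonic_add_div P pP]
      have : ev1 pP = 0 := (aeval_pP th1).trans th1_root
      rw [map_add, _root_.map_mul, this]
      ring
    rw [h1]
    conv_lhs => rw [(P %ₘ pP).as_sum_range' 4 hdeg]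
    simp [ev1, Finset.sum_range_succ, ← Polynomial.C_mul_X_pow_eq_monomial]
  · have h1 : ev2 P = ev2 (P %ₘ pP) := by
      conv_lhs => rw [← Polynomial.modByMonic_add_div P pP]
      have : ev2 pP = 0 := (aeval_pP th2).trans th2_root
      rw [map_add, _root_.map_mul, this]
      ring
    rw [h1]
    conv_lhs => rw [(P %ₘ pP).as_sum_range' 4 hdeg]
    simp [ev2, Finset.sum_range_succ, ← Polynomial.C_mul_X_pow_eq_monomial]


lemma fin_vals (C : ℝ) :
    {z : ℂ | ∃ P : ℤ[X], evc P = z ∧ ‖z‖ ≤ C ∧ |ev1 P| ≤ C ∧ |ev2 P| ≤ C}.Finite := by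
  obtain ⟨K, hK, hL⟩ := LinearMap.exists_antilipschitzWith Lmap Lmap_inj
  let M : ℤ := ⌈(K : ℝ) * C⌉
  have hfin : (Set.univ.pi fun _ : Fin 4 => Set.Icc (-M) M).Finite :=
    Set.Finite.pi fun _ => Set.finite_Icc _ _
  refine (hfin.image fun n : Fin 4 → ℤ =>
    (n 0 : ℂ) + n 1 * thc + n 2 * thc ^ 2 + n 3 * thc ^ 3).subset ?_
  rintro z ⟨P, rfl, hc, h1, h2⟩
  obtain ⟨n, e0, e1, e2⟩ := exists_coeffs P
  refine ⟨n, ?_, e0.symm⟩
  intro i _
  have hv : Lmap (fun i => (n i : ℝ)) = (evc P, ev1 P, ev2 P) := by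
    rw [e0, e1, e2]
    simp [Lmap]
  have h3 : ‖(fun i => (n i : ℝ))‖ ≤ K * ‖Lmap (fun i => (n i : ℝ))‖ := by
    have := hL.le_mul_dist (fun i => (n i : ℝ)) 0
    simpa using this
  have h4 : ‖Lmap (fun i => (n i : ℝ))‖ ≤ C := by
    rw [hv]
    simp only [Prod.norm_mk, Real.norm_eq_abs, sup_le_iff]
    exact ⟨hc, h1, h2⟩
  have h5 : |(n i : ℝ)| ≤ K * C := by
    calc |(n i : ℝ)| = ‖(fun i => (n i : ℝ)) i‖ := rfl
      _ ≤ ‖(fun i => (n i : ℝ))‖ := norm_le_pi_norm (fun i => (n i : ℝ)) i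
      _ ≤ K * C := h3.trans (mul_le_mul_of_nonneg_left h4 K.2)
  have h6 : |(n i : ℝ)| ≤ M := h5.trans (Int.le_ceil _)
  have h7 : |n i| ≤ M := by exact_mod_cast h6
  exact ⟨neg_le_of_abs_le h7, le_of_abs_le h7⟩

/-- The real places: coordinates of an element of reduced norm one are bounded. -/
lemma real_bound {t : ℝ} (h1 : 0.6 < t) (h2 : t < 1.906) {x : OQ ℝ} (h : OQ.nrm t x = 1) :
    |x.x0| ≤ 20 ∧ |x.x1| ≤ 20 ∧ |x.x2| ≤ 20 ∧ |x.x3| ≤ 20 := by
  have key : (x.x0 + (x.x1 + x.x2 + t * x.x3) / 2) ^ 2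
      + ((2 - t) / 4) * (x.x1 + x.x2 + x.x3) ^ 2 + ((1 + t) / 4) * (x.x1 - x.x2) ^ 2
      + ((2 - t) * (1 + t) / 4) * x.x3 ^ 2 = 1 := by
    rw [OQ.nrm] at h
    linear_combination h
  have a1 : 0.0235 ≤ (2 - t) / 4 := by linarith
  have a2 : 0.4 ≤ (1 + t) / 4 := by linarith
  have a3 : 0.0376 ≤ (2 - t) * (1 + t) / 4 := by nlinarith
  have s0 := sq_nonneg (x.x0 + (x.x1 + x.x2 + t * x.x3) / 2)
  have s1 := sq_nonneg (x.x1 + x.x2 + x.x3)
  have s2 := sq_nonneg (x.x1 - x.x2)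
  have s3 := sq_nonneg x.x3
  have m1 := mul_le_mul_of_nonneg_right a1 s1
  have m2 := mul_le_mul_of_nonneg_right a2 s2
  have m3 := mul_le_mul_of_nonneg_right a3 s3
  have n1 : 0 ≤ 0.0235 * (x.x1 + x.x2 + x.x3) ^ 2 := by positivity
  have n2 : 0 ≤ 0.4 * (x.x1 - x.x2) ^ 2 := by positivity
  have n3 : 0 ≤ 0.0376 * x.x3 ^ 2 := by positivity
  have b0 : |x.x0 + (x.x1 + x.x2 + t * x.x3) / 2| ≤ 1 :=
    abs_le_of_sq_le_sq (by linarith) (by norm_num)
  have b1 : |x.x1 + x.x2 + x.x3| ≤ 6.6 := abs_le_of_sq_le_sq (by linarith) (by norm_num)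
  have b2 : |x.x1 - x.x2| ≤ 1.6 := abs_le_of_sq_le_sq (by linarith) (by norm_num)
  have b3 : |x.x3| ≤ 5.2 := abs_le_of_sq_le_sq (by linarith) (by norm_num)
  rw [abs_le] at b0 b1 b2 b3
  have c1 : t * x.x3 ≤ 10 := by nlinarith
  have c2 : -10 ≤ t * x.x3 := by nlinarith
  refine ⟨abs_le.2 ⟨by linarith, by linarith⟩, abs_le.2 ⟨by linarith, by linarith⟩,
    abs_le.2 ⟨by linarith, by linarith⟩, abs_le.2 ⟨by linarith, by linarith⟩⟩

/-- The coordinate map of `M₂(ℂ)`. -/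
noncomputable def Pmap : (Fin 4 → ℂ) →ₗ[ℂ] (Fin 4 → ℂ) where
  toFun v := ![phi ⟨v 0, v 1, v 2, v 3⟩ 0 0, phi ⟨v 0, v 1, v 2, v 3⟩ 0 1,
    phi ⟨v 0, v 1, v 2, v 3⟩ 1 0, phi ⟨v 0, v 1, v 2, v 3⟩ 1 1]
  map_add' u v := by
    ext i; fin_cases i <;> simp [phi] <;> ring
  map_smul' c v := by
    ext i; fin_cases i <;> simp [phi] <;> ring

lemma Delta_eq : Complex.I * qc * (Complex.I * qc * Bc + bec * Dc)
    - bec * (Complex.I * qc * Ac + bec * (11 / 10)) = -(thc * (thc + 3)) * (10 / 11) := by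
  have h := qc_sq
  have hI := Complex.I_sq
  have h1 : (Complex.I * qc) * (Complex.I * qc) = -3 := by
    linear_combination Complex.I ^ 2 * h + 3 * hI
  have h2 : Complex.I * qc * (Dc - Ac) = -2 * Complex.I * psi := by
    unfold Dc Ac; linear_combination (-2 / 3 : ℂ) * Complex.I * psi * h
  have h3 : psi ^ 2 - 2 * Complex.I * (bec * (11 / 10)) * psi - (bec * (11 / 10)) ^ 2 + 9 / 4
      = -(thc * (thc + 3)) := by
    unfold psi bec
    linear_combination ((thc + 3 / 2) ^ 2 - (3 / 10 - 3 / 4 * Complex.I) ^ 2) * hI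
  have hB : Bc = -(psi ^ 2 / 3 + 3 / 4) * (10 / 11) := rfl
  linear_combination Bc * h1 + bec * h2 + (10 / 11 : ℂ) * h3 - 3 * hB

lemma thc_ne (a : ℝ) : thc + (a : ℂ) ≠ 0 := by
  intro h
  have := congrArg Complex.im h
  simp [thc] at this
  exact st_pos.ne' this

lemma phi_inj {x0 x1 x2 x3 : ℂ} (h : phi ⟨x0, x1, x2, x3⟩ = 0) :
    x0 = 0 ∧ x1 = 0 ∧ x2 = 0 ∧ x3 = 0 := by
  have h00 := congrFun (congrFun h 0) 0
  have h01 := congrFun (congrFun h 0) 1
  have h10 := congrFun (congrFun h 1) 0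
  have h11 := congrFun (congrFun h 1) 1
  simp [phi, G1, G2, G12] at h00 h01 h10 h11
  have hw := w_add
  have hA := A_add
  have hwd : wc - wb = Complex.I * qc := by unfold wc wb; ring
  have e2 : x2 = -wb * x3 := by linear_combination (10 / 11 : ℂ) * h10
  have k1 : Complex.I * qc * x1 + x3 * (Complex.I * qc * Ac + bec * (11 / 10)) = 0 := by
    rw [← hwd]
    linear_combination h00 - h11 - (Ac - Dc) * e2
  have k2 : bec * x1 + x3 * (Complex.I * qc * Bc + bec * Dc) = 0 := by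
    rw [← hwd]
    linear_combination h01 - Bc * e2
  have k3 : x3 * (-(thc * (thc + 3)) * (10 / 11)) = 0 := by
    rw [← Delta_eq]
    linear_combination Complex.I * qc * k2 - bec * k1
  have n1 : thc ≠ 0 := by simpa using thc_ne 0
  have n2 : thc + 3 ≠ 0 := by simpa using thc_ne 3
  have e3 : x3 = 0 := by
    rcases mul_eq_zero.1 k3 with h | h
    · exact h
    · exfalso
      have : thc * (thc + 3) = 0 := by linear_combination -(11 / 10 : ℂ) * h
      rcases mul_eq_zero.1 this with h | h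
      · exact n1 h
      · exact n2 h
  have e2' : x2 = 0 := by rw [e2, e3]; ring
  have hq : Complex.I * qc ≠ 0 := by
    intro h0
    have h := qc_sq
    have : (-3 : ℂ) = 0 := by
      linear_combination -Complex.I ^ 2 * h - 3 * Complex.I_sq + (Complex.I * qc) * h0
    norm_num at this
  have e1 : x1 = 0 := by
    rw [e3] at k1
    have : Complex.I * qc * x1 = 0 := by linear_combination k1
    exact (mul_eq_zero.1 this).resolve_left hq
  rw [e1, e2', e3] at h00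
  refine ⟨by linear_combination h00, e1, e2', e3⟩

lemma Pmap_inj : LinearMap.ker Pmap = ⊥ := by
  rw [LinearMap.ker_eq_bot']
  intro v hv
  have h : phi ⟨v 0, v 1, v 2, v 3⟩ = 0 := by
    ext i j
    fin_cases i <;> fin_cases j
    · exact congrFun hv 0
    · exact congrFun hv 1
    · exact congrFun hv 2
    · exact congrFun hv 3
  obtain ⟨e0, e1, e2, e3⟩ := phi_inj h
  ext i
  fin_cases i
  · exact e0
  · exact e1
  · exact e2
  · exact e3

lemma th1_bd : 0.6 < -1 - th1 ∧ -1 - th1 < 1.906 := by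
  have := th1_lb; have := th1_ub
  constructor <;> linarith
lemma th2_bd : 0.6 < -1 - th2 ∧ -1 - th2 < 1.906 := by
  have := th2_lb; have := th2_ub
  constructor <;> linarith

/-- Finiteness of the set of group elements with bounded displacement. -/
lemma Gam_finite (K : ℝ) :
    {m : Matrix (Fin 4) (Fin 4) ℝ | ∃ g ∈ Gam, (g : Matrix (Fin 4) (Fin 4) ℝ) = m ∧
      m 0 0 ≤ K}.Finite := by
  obtain ⟨L, hL, hP⟩ := LinearMap.exists_antilipschitzWith Pmap Pmap_inj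
  let C : ℝ := max (L * (2 * K + 1)) 20
  have hS := fin_vals C
  set S := {z : ℂ | ∃ P : ℤ[X], evc P = z ∧ ‖z‖ ≤ C ∧ |ev1 P| ≤ C ∧ |ev2 P| ≤ C} with hSdef
  have hfin : (Set.univ.pi fun _ : Fin 4 => S).Finite := Set.Finite.pi fun _ => hS
  refine (hfin.image fun v : Fin 4 → ℂ => rho (phi ⟨v 0, v 1, v 2, v 3⟩)).subset ?_
  rintro m ⟨g, hg, rfl, hK⟩
  obtain ⟨-, x, hx, hgx⟩ := hg
  refine ⟨![evc x.x0, evc x.x1, evc x.x2, evc x.x3], ?_, ?_⟩
  · have h00 := lift_00 hgx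
    have hn : ∀ i j, ‖phi (x.map evc) i j‖ ≤ 2 * K + 1 := by
      intro i j
      have n0 := Complex.normSq_nonneg (phi (x.map evc) 0 0)
      have n1 := Complex.normSq_nonneg (phi (x.map evc) 0 1)
      have n2 := Complex.normSq_nonneg (phi (x.map evc) 1 0)
      have n3 := Complex.normSq_nonneg (phi (x.map evc) 1 1)
      have h1 : Complex.normSq (phi (x.map evc) i j) ≤ 2 * K := by
        fin_cases i <;> fin_cases j <;> simp <;> linarith
      rw [Complex.normSq_eq_norm_sq] at h1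
      nlinarith [norm_nonneg (phi (x.map evc) i j), sq_nonneg (‖phi (x.map evc) i j‖ - 1)]
    have hK0 : 0 ≤ 2 * K + 1 := (norm_nonneg _).trans (hn 0 0)
    have hb : ‖Pmap ![evc x.x0, evc x.x1, evc x.x2, evc x.x3]‖ ≤ 2 * K + 1 := by
      rw [pi_norm_le_iff_of_nonneg hK0]
      intro i
      fin_cases i
      · exact hn 0 0
      · exact hn 0 1
      · exact hn 1 0
      · exact hn 1 1
    have hv : ‖![evc x.x0, evc x.x1, evc x.x2, evc x.x3]‖ ≤ C := by
      have := hP.le_mul_dist ![evc x.x0, evc x.x1, evc x.x2, evc x.x3] 0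
      simp only [dist_zero_right, map_zero] at this
      exact this.trans ((mul_le_mul_of_nonneg_left hb L.2).trans (le_max_left _ _))
    have hC20 : (20 : ℝ) ≤ C := le_max_right _ _
    have r1 := real_bound th1_bd.1 th1_bd.2 hx.2.1
    have r2 := real_bound th2_bd.1 th2_bd.2 hx.2.2
    simp only [OQ.map] at r1 r2
    intro i _
    have hi : ‖![evc x.x0, evc x.x1, evc x.x2, evc x.x3] i‖ ≤ C :=
      (norm_le_pi_norm ![evc x.x0, evc x.x1, evc x.x2, evc x.x3] i).trans hv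
    fin_cases i
    · exact ⟨x.x0, rfl, hi, r1.1.trans hC20, r2.1.trans hC20⟩
    · exact ⟨x.x1, rfl, hi, r1.2.1.trans hC20, r2.2.1.trans hC20⟩
    · exact ⟨x.x2, rfl, hi, r1.2.2.1.trans hC20, r2.2.2.1.trans hC20⟩
    · exact ⟨x.x3, rfl, hi, r1.2.2.2.trans hC20, r2.2.2.2.trans hC20⟩
  · exact lift_unique (rho_lift _) hgx

lemma Gam_discrete : DiscreteTopology
    ((fun g : Matrix.GeneralLinearGroup (Fin 4) ℝ => (g : Matrix (Fin 4) (Fin 4) ℝ)) ''
        (Gam : Set (Matrix.GeneralLinearGroup (Fin 4) ℝ))) := by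
  rw [discreteTopology_iff_isOpen_singleton]
  rintro ⟨m, hm⟩
  set s := ((fun g : Matrix.GeneralLinearGroup (Fin 4) ℝ => (g : Matrix (Fin 4) (Fin 4) ℝ)) ''
        (Gam : Set (Matrix.GeneralLinearGroup (Fin 4) ℝ))) with hs
  have hT := Gam_finite (m 0 0 + 1)
  set T := {m' : Matrix (Fin 4) (Fin 4) ℝ | ∃ g ∈ Gam, (g : Matrix (Fin 4) (Fin 4) ℝ) = m' ∧
      m' 0 0 ≤ m 0 0 + 1} with hTd
  have hU : IsOpen {m' : Matrix (Fin 4) (Fin 4) ℝ | m' 0 0 < m 0 0 + 1} :=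
    isOpen_lt (by fun_prop) continuous_const
  have hV : IsOpen ({m' : Matrix (Fin 4) (Fin 4) ℝ | m' 0 0 < m 0 0 + 1} ∩ (T \ {m})ᶜ) :=
    hU.inter (hT.subset Set.sdiff_subset).isClosed.isOpen_compl
  have hpre : ({⟨m, hm⟩} : Set s) = Subtype.val ⁻¹'
      ({m' : Matrix (Fin 4) (Fin 4) ℝ | m' 0 0 < m 0 0 + 1} ∩ (T \ {m})ᶜ) := by
    ext ⟨m', hm'⟩
    simp only [Set.mem_singleton_iff, Subtype.mk.injEq, Set.mem_preimage, Set.mem_inter_iff,
      Set.mem_ofPred_eq, Set.mem_compl_iff, Set.mem_sdiff, not_and, not_not]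
    constructor
    · rintro rfl
      exact ⟨by linarith, fun _ => rfl⟩
    · rintro ⟨h1, h2⟩
      apply h2
      obtain ⟨g, hg, hgm⟩ := hm'
      exact ⟨g, hg, hgm, h1.le⟩
  rw [hpre]
  exact hV.preimage continuous_subtype_val

end Pool.Agent.H26R3
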