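import Mathlib

set_option autoImplicit false
open Matrix

namespace Pool.Agent.H26R3

/-- The Lorentz form on `ℝ⁴`. -/
def LB (x y : Fin 4 → ℝ) : ℝ := x ⬝ᵥ (Matrix.diagonal ![(-1 : ℝ), 1, 1, 1] *ᵥ y)

lemma LB_eq (x y : Fin 4 → ℝ) :
    LB x y = -(x 0 * y 0) + x 1 * y 1 + x 2 * y 2 + x 3 * y 3 := by
  simp only [LB, Matrix.mulVec_diagonal, dotProduct, Fin.sum_univ_four]
  simp

lemma cs3 (a b c x y z : ℝ) :
    (a * x + b * y + c * z) ^ 2 ≤ (a ^ 2 + b ^ 2 + c ^ 2) * (x ^ 2 + y ^ 2 + z ^ 2) := by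
  nlinarith [sq_nonneg (a * y - b * x), sq_nonneg (a * z - c * x), sq_nonneg (b * z - c * y)]

/-- Two timelike vectors with nonpositive Lorentz product and one of them in the future. -/
lemma future_of_neg {v w : Fin 4 → ℝ} (hv : LB v v < 0) (hw : LB w w < 0) (hv0 : 0 < v 0)
    (h : LB v w < 0) : 0 < w 0 := by
  rw [LB_eq] at hv hw h
  by_contra hc
  push Not at hc
  have h1 := cs3 (v 1) (v 2) (v 3) (w 1) (w 2) (w 3)
  have h2 : v 1 ^ 2 + v 2 ^ 2 + v 3 ^ 2 < v 0 ^ 2 := by nlinarith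
  have h3 : w 1 ^ 2 + w 2 ^ 2 + w 3 ^ 2 < w 0 ^ 2 := by nlinarith
  have h4 : (v 1 ^ 2 + v 2 ^ 2 + v 3 ^ 2) * (w 1 ^ 2 + w 2 ^ 2 + w 3 ^ 2) ≤ v 0 ^ 2 * w 0 ^ 2 :=
    mul_le_mul h2.le h3.le (by positivity) (by positivity)
  have h5 : (v 1 * w 1 + v 2 * w 2 + v 3 * w 3) ^ 2 ≤ (-(v 0 * w 0)) ^ 2 := by nlinarith
  have h6 : 0 ≤ -(v 0 * w 0) := by nlinarith
  have h7 := abs_le_of_sq_le_sq h5 h6
  have h8 := neg_le_of_abs_le h7
  linarith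

/-- The golden ratio. -/
noncomputable def gf : ℝ := (1 + √5) / 2

lemma gf_sq : gf ^ 2 = gf + 1 := by
  have h : √5 ^ 2 = 5 := Real.sq_sqrt (by norm_num)
  unfold gf
  nlinarith

lemma s5_lb : (2.2360679 : ℝ) < √5 := by
  apply Real.lt_sqrt_of_sq_lt; norm_num

lemma s5_ub : √5 < (2.2360680 : ℝ) := by
  rw [Real.sqrt_lt' (by norm_num)]; norm_num

lemma gf_lb : (1.6180339 : ℝ) < gf := by unfold gf; linarith [s5_lb]
lemma gf_ub : gf < (1.6180340 : ℝ) := by unfold gf; linarith [s5_ub]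

noncomputable def rr : ℝ := √((2 - gf) / 3)
noncomputable def TT : ℝ := √((3 * gf - 1) / 4)
noncomputable def q3 : ℝ := √3

lemma rr_sq : rr ^ 2 = (2 - gf) / 3 := Real.sq_sqrt (by linarith [gf_ub])
lemma TT_sq : TT ^ 2 = (3 * gf - 1) / 4 := Real.sq_sqrt (by linarith [gf_lb])
lemma q3_sq : q3 ^ 2 = 3 := Real.sq_sqrt (by norm_num)
lemma rr_pos : 0 < rr := Real.sqrt_pos.2 (by linarith [gf_ub])
lemma TT_pos : 0 < TT := Real.sqrt_pos.2 (by linarith [gf_lb])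
lemma q3_pos : 0 < q3 := Real.sqrt_pos.2 (by norm_num)

/-- The unit normals of the `3-5-3` tetrahedron. -/
noncomputable def ee : Fin 4 → (Fin 4 → ℝ) :=
  ![![0, 1, 0, 0], ![0, -(1 / 2), q3 / 2, 0], ![0, 0, -(gf / q3), rr],
    ![TT, 0, 0, -(1 / (2 * rr))]]

lemma inv_rr : (1 / (2 * rr)) ^ 2 = 3 / (4 * (2 - gf)) := by
  have h1 : (2 - gf) ≠ 0 := by linarith [gf_ub]
  have h2 := rr_pos.ne'
  have h3 := rr_sq
  field_simp
  nlinarith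

lemma ee00 : LB (ee 0) (ee 0) = 1 := by simp [LB_eq, ee]
lemma ee11 : LB (ee 1) (ee 1) = 1 := by
  simp [LB_eq, ee]; nlinarith [q3_sq]
lemma ee22 : LB (ee 2) (ee 2) = 1 := by
  simp [LB_eq, ee]
  have h1 := q3_pos.ne'
  have h2 := q3_sq
  have h3 := rr_sq
  have h4 := gf_sq
  have : gf / q3 * (gf / q3) = gf ^ 2 / 3 := by
    rw [← h2]; field_simp
  nlinarith
lemma ee33 : LB (ee 3) (ee 3) = 1 := by
  simp only [LB_eq, ee]
  have h := inv_rr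
  have h1 : (2 - gf) ≠ 0 := by linarith [gf_ub]
  have h4 := gf_sq
  have h5 := TT_sq
  have : 3 / (4 * (2 - gf)) = 1 + (3 * gf - 1) / 4 := by
    field_simp
    nlinarith
  simp
  rw [this] at h
  have h6 : (1 / (2 * rr)) ^ 2 = rr⁻¹ * 2⁻¹ * (rr⁻¹ * 2⁻¹) := by
    rw [one_div, mul_inv]; ring
  nlinarith
lemma ee01 : LB (ee 0) (ee 1) = -(1 / 2) := by simp [LB_eq, ee]
lemma ee02 : LB (ee 0) (ee 2) = 0 := by simp [LB_eq, ee]
lemma ee03 : LB (ee 0) (ee 3) = 0 := by simp [LB_eq, ee]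
lemma ee12 : LB (ee 1) (ee 2) = -(gf / 2) := by
  have h1 := q3_pos.ne'
  simp [LB_eq, ee]; field_simp
lemma ee13 : LB (ee 1) (ee 3) = 0 := by simp [LB_eq, ee]
lemma ee23 : LB (ee 2) (ee 3) = -(1 / 2) := by
  have h1 := rr_pos.ne'
  simp [LB_eq, ee]; field_simp

noncomputable def y0c : ℝ := (5 + 7 * gf) / (2 * TT)

lemma y0c_pos : 0 < y0c := by
  have := TT_pos; have := gf_lb
  unfold y0c; positivity

lemma y0T : y0c * TT = (5 + 7 * gf) / 2 := by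
  have := TT_pos.ne'
  unfold y0c; field_simp

lemma y0c_sq : y0c ^ 2 = 19 + 31 * gf := by
  have h := y0T
  have h1 := TT_sq
  have h2 := gf_sq
  have h3 : y0c ^ 2 * TT ^ 2 = (5 + 7 * gf) ^ 2 / 4 := by
    rw [← mul_pow, h]; ring
  rw [h1] at h3
  have h4 : (3 * gf - 1) / 4 ≠ 0 := by linarith [gf_lb]
  have h5 : (19 + 31 * gf) * ((3 * gf - 1) / 4) = (5 + 7 * gf) ^ 2 / 4 := by nlinarith
  exact mul_right_cancel₀ h4 (h3.trans h5.symm)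

/-- The midpoint direction of the edge of the tetrahedron fixed by the symmetry. -/
noncomputable def YY : Fin 4 → ℝ := ![y0c, 0, -(2 / q3), -((3 + 2 * gf) / (3 * rr))]

lemma YY0 : LB YY (ee 0) = 0 := by simp [LB_eq, YY, ee]
lemma YY1 : LB YY (ee 1) = -1 := by
  have h1 := q3_pos.ne'
  simp [LB_eq, YY, ee]
  exact h1
lemma YY2 : LB YY (ee 2) = -1 := by
  have h1 := q3_pos.ne'
  have h2 := q3_sq
  have h3 := rr_pos.ne'
  simp only [LB_eq, YY, ee]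
  simp
  have e1 : 2 / q3 * (gf / q3) = 2 * gf / 3 := by rw [← h2]; field_simp
  have e2 : (3 + 2 * gf) / (3 * rr) * rr = (3 + 2 * gf) / 3 := by field_simp
  linarith
lemma YY3 : LB YY (ee 3) = 0 := by
  have h3 := rr_pos.ne'
  have h4 := rr_sq
  have h5 := gf_sq
  have h6 := y0T
  have h7 : (2 - gf) ≠ 0 := by linarith [gf_ub]
  simp only [LB_eq, YY, ee]
  simp
  have e2 : (3 + 2 * gf) / (3 * rr) * (rr⁻¹ * 2⁻¹) = (3 + 2 * gf) / (6 * rr ^ 2) := by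
    field_simp; ring
  rw [e2, h4, h6]
  field_simp
  nlinarith

lemma YYYY : LB YY YY = -(8 + 16 * gf) := by
  have h1 := q3_pos.ne'
  have h2 := q3_sq
  have h3 := rr_pos.ne'
  have h4 := rr_sq
  have h5 := gf_sq
  have h6 := y0c_sq
  have h7 : (2 - gf) ≠ 0 := by linarith [gf_ub]
  simp only [LB_eq, YY]
  simp
  have e1 : 2 / q3 * (2 / q3) = 4 / 3 := by rw [← h2]; field_simp; norm_num
  have e2 : (3 + 2 * gf) / (3 * rr) * ((3 + 2 * gf) / (3 * rr))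
      = (3 + 2 * gf) ^ 2 / (9 * rr ^ 2) := by field_simp; ring
  rw [e1, e2, h4]
  have e3 : (3 + 2 * gf) ^ 2 / (9 * ((2 - gf) / 3)) = (29 + 45 * gf) / 3 := by
    field_simp
    nlinarith
  rw [e3]
  nlinarith


/-- The reflection in `eᵢ`. -/
noncomputable def RE (i : Fin 4) : Matrix (Fin 4) (Fin 4) ℝ :=
  (1 : Matrix (Fin 4) (Fin 4) ℝ) - (2 : ℝ) • Matrix.vecMulVec (ee i)
    (Matrix.diagonal ![(-1 : ℝ), 1, 1, 1] *ᵥ ee i)

lemma RE_mulVec (i : Fin 4) (v : Fin 4 → ℝ) :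
    RE i *ᵥ v = v - (2 * LB v (ee i)) • ee i := by
  have h : (Matrix.diagonal ![(-1 : ℝ), 1, 1, 1] *ᵥ ee i) ⬝ᵥ v = LB v (ee i) := by
    rw [LB, dotProduct_comm]
  unfold RE
  rw [Matrix.sub_mulVec, Matrix.one_mulVec, Matrix.smul_mulVec, Matrix.vecMulVec_mulVec, h]
  ext k
  simp
  ring

lemma LB_add (x y z : Fin 4 → ℝ) : LB (x + y) z = LB x z + LB y z := by
  simp only [LB_eq, Pi.add_apply]; ring
lemma LB_smul (c : ℝ) (x z : Fin 4 → ℝ) : LB (c • x) z = c * LB x z := by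
  simp only [LB_eq, Pi.smul_apply, smul_eq_mul]; ring
lemma LB_comm (x z : Fin 4 → ℝ) : LB x z = LB z x := by
  simp only [LB_eq]; ring
lemma LB_sub (x y z : Fin 4 → ℝ) : LB (x - y) z = LB x z - LB y z := by
  simp only [LB_eq, Pi.sub_apply]; ring

/-- The vector `Y + ∑ xᵢ eᵢ`. -/
noncomputable def VV (x0 x1 x2 x3 : ℝ) : Fin 4 → ℝ :=
  YY + x0 • ee 0 + x1 • ee 1 + x2 • ee 2 + x3 • ee 3

lemma LB_VV0 (x0 x1 x2 x3 : ℝ) : LB (VV x0 x1 x2 x3) (ee 0) = x0 - x1 / 2 := by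
  simp only [VV, LB_add, LB_smul, YY0, ee00, LB_comm (ee 1) (ee 0), LB_comm (ee 2) (ee 0),
    LB_comm (ee 3) (ee 0), ee01, ee02, ee03]
  ring
lemma LB_VV1 (x0 x1 x2 x3 : ℝ) :
    LB (VV x0 x1 x2 x3) (ee 1) = -1 - x0 / 2 + x1 - gf * x2 / 2 := by
  simp only [VV, LB_add, LB_smul, YY1, ee11, LB_comm (ee 2) (ee 1),
    LB_comm (ee 3) (ee 1), ee01, ee12, ee13]
  ring
lemma LB_VV2 (x0 x1 x2 x3 : ℝ) :
    LB (VV x0 x1 x2 x3) (ee 2) = -1 - gf * x1 / 2 + x2 - x3 / 2 := by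
  simp only [VV, LB_add, LB_smul, YY2, ee22, LB_comm (ee 3) (ee 2), ee02, ee12, ee23]
  ring
lemma LB_VV3 (x0 x1 x2 x3 : ℝ) : LB (VV x0 x1 x2 x3) (ee 3) = x3 - x2 / 2 := by
  simp only [VV, LB_add, LB_smul, YY3, ee33, ee03, ee13, ee23]
  ring
lemma LB_VVY (x0 x1 x2 x3 : ℝ) :
    LB (VV x0 x1 x2 x3) YY = -(8 + 16 * gf) - x1 - x2 := by
  simp only [VV, LB_add, LB_smul, YYYY, LB_comm (ee 0) YY, LB_comm (ee 1) YY,
    LB_comm (ee 2) YY, LB_comm (ee 3) YY, YY0, YY1, YY2, YY3]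
  ring
lemma LB_VVVV (x0 x1 x2 x3 : ℝ) :
    LB (VV x0 x1 x2 x3) (VV x0 x1 x2 x3) = -(8 + 16 * gf) - 2 * x1 - 2 * x2
      + (x0 ^ 2 + x1 ^ 2 + x2 ^ 2 + x3 ^ 2 - x0 * x1 - gf * x1 * x2 - x2 * x3) := by
  have h : LB (VV x0 x1 x2 x3) (VV x0 x1 x2 x3) = LB (VV x0 x1 x2 x3) YY
      + x0 * LB (VV x0 x1 x2 x3) (ee 0) + x1 * LB (VV x0 x1 x2 x3) (ee 1)
      + x2 * LB (VV x0 x1 x2 x3) (ee 2) + x3 * LB (VV x0 x1 x2 x3) (ee 3) := by
    generalize hW : VV x0 x1 x2 x3 = W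
    have : LB W W = LB (VV x0 x1 x2 x3) W := by rw [hW]
    rw [this, VV]
    simp only [LB_add, LB_smul]
    rw [LB_comm YY W, LB_comm (ee 0) W, LB_comm (ee 1) W, LB_comm (ee 2) W, LB_comm (ee 3) W]
  rw [h, LB_VVY, LB_VV0, LB_VV1, LB_VV2, LB_VV3]
  ring

lemma RE_VV0 (x0 x1 x2 x3 : ℝ) : RE 0 *ᵥ VV x0 x1 x2 x3 = VV (-x0 + x1) x1 x2 x3 := by
  rw [RE_mulVec, LB_VV0]; ext k; simp [VV]; ring
lemma RE_VV1 (x0 x1 x2 x3 : ℝ) :
    RE 1 *ᵥ VV x0 x1 x2 x3 = VV x0 (-x1 + 2 + x0 + gf * x2) x2 x3 := by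
  rw [RE_mulVec, LB_VV1]; ext k; simp [VV]; ring
lemma RE_VV2 (x0 x1 x2 x3 : ℝ) :
    RE 2 *ᵥ VV x0 x1 x2 x3 = VV x0 x1 (-x2 + 2 + gf * x1 + x3) x3 := by
  rw [RE_mulVec, LB_VV2]; ext k; simp [VV]; ring
lemma RE_VV3 (x0 x1 x2 x3 : ℝ) : RE 3 *ᵥ VV x0 x1 x2 x3 = VV x0 x1 x2 (-x3 + x2) := by
  rw [RE_mulVec, LB_VV3]; ext k; simp [VV]; ring

lemma LB_sub_right (x y z : Fin 4 → ℝ) : LB z (x - y) = LB z x - LB z y := by
  simp only [LB_eq, Pi.sub_apply]; ring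
lemma LB_smul_right (c : ℝ) (x z : Fin 4 → ℝ) : LB z (c • x) = c * LB z x := by
  simp only [LB_eq, Pi.smul_apply, smul_eq_mul]; ring

lemma eeii (i : Fin 4) : LB (ee i) (ee i) = 1 := by
  fin_cases i
  · exact ee00
  · exact ee11
  · exact ee22
  · exact ee33

lemma RE_future (i : Fin 4) {v : Fin 4 → ℝ} (hv : LB v v < 0) (h0 : 0 < v 0) :
    0 < (RE i *ᵥ v) 0 := by
  have h1 : LB (RE i *ᵥ v) (RE i *ᵥ v) = LB v v := by
    rw [RE_mulVec]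
    simp only [LB_sub, LB_sub_right, LB_smul, LB_smul_right, eeii, LB_comm (ee i) v]
    ring
  have h2 : LB v (RE i *ᵥ v) < 0 := by
    rw [RE_mulVec, LB_sub_right, LB_smul_right]
    nlinarith [sq_nonneg (LB v (ee i))]
  exact future_of_neg hv (h1 ▸ hv) h0 h2

/-- The orbit invariant: `V = Y + 2 ∑ (aᵢ + bᵢ φ) eᵢ` is future timelike of the same norm. -/
def SS (V : Fin 4 → ℝ) : Prop :=
  ∃ a0 a1 a2 a3 b0 b1 b2 b3 : ℤ,
    V = VV (2 * ((a0 : ℝ) + b0 * gf)) (2 * ((a1 : ℝ) + b1 * gf)) (2 * ((a2 : ℝ) + b2 * gf))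
      (2 * ((a3 : ℝ) + b3 * gf)) ∧
    a0 ^ 2 + b0 ^ 2 + (a1 ^ 2 + b1 ^ 2) + (a2 ^ 2 + b2 ^ 2) + (a3 ^ 2 + b3 ^ 2)
      - (a0 * a1 + b0 * b1) - (a1 * b2 + b1 * a2 + b1 * b2) - (a2 * a3 + b2 * b3) - a1 - a2 = 0 ∧
    (2 * a0 * b0 + b0 ^ 2) + (2 * a1 * b1 + b1 ^ 2) + (2 * a2 * b2 + b2 ^ 2)
      + (2 * a3 * b3 + b3 ^ 2) - (a0 * b1 + b0 * a1 + b0 * b1)
      - (a1 * a2 + b1 * b2 + (a1 * b2 + b1 * a2 + b1 * b2)) - (a2 * b3 + b2 * a3 + b2 * b3)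
      - b1 - b2 = 0 ∧
    0 < V 0


lemma SS_norm {V : Fin 4 → ℝ} (h : SS V) : LB V V = -(8 + 16 * gf) := by
  obtain ⟨a0, a1, a2, a3, b0, b1, b2, b3, rfl, hP, hQ, -⟩ := h
  have hP' : ((a0 : ℝ)) ^ 2 + b0 ^ 2 + (a1 ^ 2 + b1 ^ 2) + (a2 ^ 2 + b2 ^ 2) + (a3 ^ 2 + b3 ^ 2)
      - (a0 * a1 + b0 * b1) - (a1 * b2 + b1 * a2 + b1 * b2) - (a2 * a3 + b2 * b3) - a1 - a2 = 0 := by
    exact_mod_cast hP
  have hQ' : (2 * (a0 : ℝ) * b0 + b0 ^ 2) + (2 * a1 * b1 + b1 ^ 2) + (2 * a2 * b2 + b2 ^ 2)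
      + (2 * a3 * b3 + b3 ^ 2) - (a0 * b1 + b0 * a1 + b0 * b1)
      - (a1 * a2 + b1 * b2 + (a1 * b2 + b1 * a2 + b1 * b2)) - (a2 * b3 + b2 * a3 + b2 * b3)
      - b1 - b2 = 0 := by exact_mod_cast hQ
  rw [LB_VVVV]
  have h2 := gf_sq
  linear_combination 4 * hP' + 4 * gf * hQ' + 4 * ((b0 : ℝ) ^ 2 + b1 ^ 2 + b2 ^ 2 + b3 ^ 2
    - b0 * b1 - (a1 * b2 + b1 * a2 + b1 * b2) - b2 * b3 - gf * b1 * b2) * h2

lemma SS_Y : SS YY := by
  refine ⟨0, 0, 0, 0, 0, 0, 0, 0, ?_, by norm_num, by norm_num, ?_⟩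
  · simp [VV]
  · simp [YY, y0c_pos]

lemma SS_RE (k : Fin 4) {V : Fin 4 → ℝ} (h : SS V) : SS (RE k *ᵥ V) := by
  have hn := SS_norm h
  have hneg : LB V V < 0 := by rw [hn]; linarith [gf_lb]
  have h0 : 0 < V 0 := by
    obtain ⟨a0, a1, a2, a3, b0, b1, b2, b3, -, -, -, h0⟩ := h
    exact h0
  have hf := RE_future k hneg h0
  have g2 := gf_sq
  obtain ⟨a0, a1, a2, a3, b0, b1, b2, b3, rfl, hP, hQ, -⟩ := h
  fin_cases k
  · refine ⟨-a0 + a1, a1, a2, a3, -b0 + b1, b1, b2, b3, ?_, ?_, ?_, hf⟩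
    · show RE 0 *ᵥ _ = _
      rw [RE_VV0]; congr 1; push_cast; ring
    · linear_combination hP
    · linear_combination hQ
  · refine ⟨a0, -a1 + 1 + a0 + b2, a2, a3, b0, -b1 + b0 + a2 + b2, b2, b3, ?_, ?_, ?_, hf⟩
    · show RE 1 *ᵥ _ = _
      rw [RE_VV1]; congr 1; push_cast; linear_combination 2 * (b2 : ℝ) * g2
    · linear_combination hP
    · linear_combination hQ
  · refine ⟨a0, a1, -a2 + 1 + b1 + a3, a3, b0, b1, -b2 + a1 + b1 + b3, b3, ?_, ?_, ?_, hf⟩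
    · show RE 2 *ᵥ _ = _
      rw [RE_VV2]; congr 1; push_cast; linear_combination 2 * (b1 : ℝ) * g2
    · linear_combination hP
    · linear_combination hQ
  · refine ⟨a0, a1, a2, -a3 + a2, b0, b1, b2, -b3 + b2, ?_, ?_, ?_, hf⟩
    · show RE 3 *ᵥ _ = _
      rw [RE_VV3]; congr 1; push_cast; ring
    · linear_combination hP
    · linear_combination hQ


/-- The matrix with columns `eᵢ`. -/
noncomputable def EM : Matrix (Fin 4) (Fin 4) ℝ := Matrix.of fun i j => ee j i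

/-- The reversal permutation matrix. -/
def PM : Matrix (Fin 4) (Fin 4) ℝ := !![0, 0, 0, 1; 0, 0, 1, 0; 0, 1, 0, 0; 1, 0, 0, 0]

lemma EM_det : EM.det ≠ 0 := by
  have h : EM.det = -(TT * (q3 / 2) * rr) := by
    unfold EM
    rw [Matrix.det_succ_row_zero]
    simp [Fin.sum_univ_succ, Matrix.det_fin_three, Matrix.submatrix_apply, ee, Fin.succAbove]
    ring
  rw [h]
  have h1 := TT_pos; have h2 := q3_pos; have h3 := rr_pos
  have : 0 < TT * (q3 / 2) * rr := by positivity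
  linarith

/-- The linear symmetry `eᵢ ↦ e₃₋ᵢ`. -/
noncomputable def tm : Matrix (Fin 4) (Fin 4) ℝ := EM * PM * EM⁻¹

lemma tm_mul : tm * EM = EM * PM := by
  unfold tm
  rw [Matrix.mul_assoc, Matrix.nonsing_inv_mul _ (isUnit_iff_ne_zero.2 EM_det), Matrix.mul_one]

lemma tm_ee (j : Fin 4) : tm *ᵥ ee j = (EM * PM) *ᵥ Pi.single j 1 := by
  rw [← tm_mul, ← Matrix.mulVec_mulVec]
  congr 1
  ext i
  simp [EM]

lemma tm_e0 : tm *ᵥ ee 0 = ee 3 := by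
  rw [tm_ee]; ext i; simp [EM, PM, Matrix.mul_apply, Fin.sum_univ_four]
lemma tm_e1 : tm *ᵥ ee 1 = ee 2 := by
  rw [tm_ee]; ext i; simp [EM, PM, Matrix.mul_apply, Fin.sum_univ_four]
lemma tm_e2 : tm *ᵥ ee 2 = ee 1 := by
  rw [tm_ee]; ext i; simp [EM, PM, Matrix.mul_apply, Fin.sum_univ_four]
lemma tm_e3 : tm *ᵥ ee 3 = ee 0 := by
  rw [tm_ee]; ext i; simp [EM, PM, Matrix.mul_apply, Fin.sum_univ_four]

lemma YY_comb : YY = (2 * (1 + 2 * gf)) • ee 0 + (4 * (1 + 2 * gf)) • ee 1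
    + (4 * (1 + 2 * gf)) • ee 2 + (2 * (1 + 2 * gf)) • ee 3 := by
  have h1 := q3_pos.ne'
  have h2 := q3_sq
  have h3 := rr_pos.ne'
  have h4 := rr_sq
  have h5 := gf_sq
  have h6 := TT_pos.ne'
  have h7 := TT_sq
  ext k
  fin_cases k
  · simp [YY, ee, y0c]
    field_simp
    rw [h7]
    linear_combination (-6) * h5
  · simp [YY, ee]
    ring
  · simp [YY, ee]
    field_simp
    rw [h2]
    linear_combination 16 * h5
  · simp [YY, ee]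
    field_simp
    rw [h4]
    linear_combination 8 * h5

lemma tm_Y : tm *ᵥ YY = YY := by
  rw [YY_comb]
  simp only [Matrix.mulVec_add, Matrix.mulVec_smul, tm_e0, tm_e1, tm_e2, tm_e3]
  ext k
  simp
  ring

lemma tm_VV (x0 x1 x2 x3 : ℝ) : tm *ᵥ VV x0 x1 x2 x3 = VV x3 x2 x1 x0 := by
  unfold VV
  simp only [Matrix.mulVec_add, Matrix.mulVec_smul, tm_e0, tm_e1, tm_e2, tm_e3, tm_Y]
  ext k
  simp
  ring

lemma SS_tm {V : Fin 4 → ℝ} (h : SS V) : SS (tm *ᵥ V) := by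
  have hn := SS_norm h
  have hneg : LB V V < 0 := by rw [hn]; linarith [gf_lb]
  have hYneg : LB YY YY < 0 := by rw [YYYY]; linarith [gf_lb]
  have hY0 : 0 < YY 0 := by simp [YY, y0c_pos]
  obtain ⟨a0, a1, a2, a3, b0, b1, b2, b3, rfl, hP, hQ, h0⟩ := h
  have h1 : LB (VV (2 * ((a0 : ℝ) + b0 * gf)) (2 * ((a1 : ℝ) + b1 * gf))
      (2 * ((a2 : ℝ) + b2 * gf)) (2 * ((a3 : ℝ) + b3 * gf))) YY < 0 := by
    by_contra hc
    push Not at hc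
    -- a future timelike vector has negative product with `Y`
    set V := VV (2 * ((a0 : ℝ) + b0 * gf)) (2 * ((a1 : ℝ) + b1 * gf))
      (2 * ((a2 : ℝ) + b2 * gf)) (2 * ((a3 : ℝ) + b3 * gf)) with hV
    have e1 := cs3 (V 1) (V 2) (V 3) (YY 1) (YY 2) (YY 3)
    rw [LB_eq] at hneg hYneg hc
    have h2 : V 1 ^ 2 + V 2 ^ 2 + V 3 ^ 2 < V 0 ^ 2 := by nlinarith
    have h3 : YY 1 ^ 2 + YY 2 ^ 2 + YY 3 ^ 2 < YY 0 ^ 2 := by nlinarith
    have h4 : (V 1 ^ 2 + V 2 ^ 2 + V 3 ^ 2) * (YY 1 ^ 2 + YY 2 ^ 2 + YY 3 ^ 2)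
        < V 0 ^ 2 * YY 0 ^ 2 :=
      mul_lt_mul'' h2 h3 (by positivity) (by positivity)
    have h5 : (V 1 * YY 1 + V 2 * YY 2 + V 3 * YY 3) ^ 2 < (V 0 * YY 0) ^ 2 := by nlinarith
    have h6 : 0 ≤ V 0 * YY 0 := by positivity
    have h7 := abs_lt_of_sq_lt_sq h5 h6
    have h8 := lt_of_abs_lt h7
    linarith
  have hS : SS (VV (2 * ((a0 : ℝ) + b0 * gf)) (2 * ((a1 : ℝ) + b1 * gf))
      (2 * ((a2 : ℝ) + b2 * gf)) (2 * ((a3 : ℝ) + b3 * gf))) :=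
    ⟨a0, a1, a2, a3, b0, b1, b2, b3, rfl, hP, hQ, h0⟩
  rw [tm_VV]
  have hneg' : LB (VV (2 * ((a3 : ℝ) + b3 * gf)) (2 * ((a2 : ℝ) + b2 * gf))
      (2 * ((a1 : ℝ) + b1 * gf)) (2 * ((a0 : ℝ) + b0 * gf)))
      (VV (2 * ((a3 : ℝ) + b3 * gf)) (2 * ((a2 : ℝ) + b2 * gf))
      (2 * ((a1 : ℝ) + b1 * gf)) (2 * ((a0 : ℝ) + b0 * gf))) < 0 := by
    rw [LB_VVVV] at hneg ⊢
    linarith
  refine ⟨a3, a2, a1, a0, b3, b2, b1, b0, rfl, ?_, ?_, ?_⟩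
  · linear_combination hP
  · linear_combination hQ
  · refine future_of_neg hYneg hneg' hY0 ?_
    rw [LB_comm, LB_VVY]
    rw [LB_VVY] at h1
    linarith


/-- The bound at the conjugate place. -/
lemma conj_bound {x0 x1 x2 x3 g : ℝ} (hg : g ^ 2 = 1 - g) (hg1 : 0.6180 < g) (hg2 : g < 0.6181)
    (h : x0 ^ 2 + x1 ^ 2 + x2 ^ 2 + x3 ^ 2 - x0 * x1 + g * x1 * x2 - x2 * x3 - x1 - x2 = 0) :
    -1 < x3 ∧ x3 < 1.6 := by
  have e1 : (3 / 4) * x1 ^ 2 + x2 ^ 2 + g * x1 * x2 - x1 - (1 + x3) * x2 + x3 ^ 2 ≤ 0 := by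
    nlinarith [sq_nonneg (x0 - x1 / 2)]
  have e2 : x2 ^ 2 - (1 + x3) * x2 + x3 ^ 2 - (1 - g * x2) ^ 2 / 3 ≤ 0 := by
    nlinarith [sq_nonneg (x1 - (2 / 3) * (1 - g * x2))]
  have e3 : ((2 + g) / 3) * x2 ^ 2 - (1 + x3 - 2 * g / 3) * x2 + x3 ^ 2 - 1 / 3 ≤ 0 := by
    have : (1 - g * x2) ^ 2 = 1 - 2 * g * x2 + (1 - g) * x2 ^ 2 := by rw [← hg]; ring
    rw [this] at e2
    nlinarith
  have e4 : 4 * ((2 + g) / 3) * (x3 ^ 2 - 1 / 3) - (1 + x3 - 2 * g / 3) ^ 2 ≤ 0 := by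
    have hk : 0 < 4 * ((2 + g) / 3) := by linarith
    nlinarith [sq_nonneg (2 * ((2 + g) / 3) * x2 - (1 + x3 - 2 * g / 3)),
      mul_le_mul_of_nonneg_left e3 hk.le]
  constructor
  · by_contra hc
    push Not at hc
    nlinarith [mul_nonneg (sub_nonneg.2 hc) (sub_nonneg.2 hc), mul_pos (sub_pos.2 hg1) (sub_pos.2 hg2)]
  · by_contra hc
    push Not at hc
    nlinarith [mul_nonneg (sub_nonneg.2 hc) (sub_nonneg.2 hc), mul_pos (sub_pos.2 hg1) (sub_pos.2 hg2)]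

lemma TT_lb : 0.98159 < TT := by
  unfold TT; apply Real.lt_sqrt_of_sq_lt; linarith [gf_lb]
lemma TT_ub : TT < 0.9816 := by
  unfold TT; rw [Real.sqrt_lt' (by norm_num)]; linarith [gf_ub]

lemma y0c_lb : 8.3161 < y0c := by
  have h := y0c_sq
  have h0 := y0c_pos
  have h1 := gf_lb
  by_contra hc
  push Not at hc
  nlinarith
lemma y0c_ub : y0c < 8.3163 := by
  have h := y0c_sq
  have h0 := y0c_pos
  have h1 := gf_ub
  by_contra hc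
  push Not at hc
  nlinarith

lemma SS_bound {V : Fin 4 → ℝ} (h : SS V) : y0c ≤ V 0 := by
  have hn := SS_norm h
  have h5 : √5 ^ 2 = 5 := Real.sq_sqrt (by norm_num)
  obtain ⟨a0, a1, a2, a3, b0, b1, b2, b3, rfl, hP, hQ, h0⟩ := h
  have hP' : ((a0 : ℝ)) ^ 2 + b0 ^ 2 + (a1 ^ 2 + b1 ^ 2) + (a2 ^ 2 + b2 ^ 2) + (a3 ^ 2 + b3 ^ 2)
      - (a0 * a1 + b0 * b1) - (a1 * b2 + b1 * a2 + b1 * b2) - (a2 * a3 + b2 * b3) - a1 - a2 = 0 := by
    exact_mod_cast hP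
  have hQ' : (2 * (a0 : ℝ) * b0 + b0 ^ 2) + (2 * a1 * b1 + b1 ^ 2) + (2 * a2 * b2 + b2 ^ 2)
      + (2 * a3 * b3 + b3 ^ 2) - (a0 * b1 + b0 * a1 + b0 * b1)
      - (a1 * a2 + b1 * b2 + (a1 * b2 + b1 * a2 + b1 * b2)) - (a2 * b3 + b2 * a3 + b2 * b3)
      - b1 - b2 = 0 := by exact_mod_cast hQ
  obtain ⟨g, hgdef⟩ : ∃ g : ℝ, g = gf - 1 := ⟨_, rfl⟩
  have hgf : gf = g + 1 := by linarith
  have hg : g ^ 2 = 1 - g := by have := gf_sq; rw [hgf] at this; linarith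
  have hg1 : 0.6180 < g := by linarith [gf_lb]
  have hg2 : g < 0.6181 := by linarith [gf_ub]
  have hc := conj_bound (x0 := a0 - b0 * g) (x1 := a1 - b1 * g) (x2 := a2 - b2 * g)
    (x3 := a3 - b3 * g) hg hg1 hg2 (by
      linear_combination hP' - g * hQ' + ((b0 : ℝ) ^ 2 + b1 ^ 2 + b2 ^ 2 + b3 ^ 2
        - b0 * b1 - (a1 * b2 + b1 * a2 + b1 * b2) - b2 * b3 + g * b1 * b2) * hg)
  obtain ⟨hc1, hc2⟩ := hc
  -- the time component
  have hV0 : (VV (2 * ((a0 : ℝ) + b0 * gf)) (2 * ((a1 : ℝ) + b1 * gf))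
      (2 * ((a2 : ℝ) + b2 * gf)) (2 * ((a3 : ℝ) + b3 * gf))) 0
      = y0c + 2 * ((a3 : ℝ) + b3 * gf) * TT := by
    simp [VV, YY, ee]
  have hsq : (8 + 16 * gf) ≤ ((VV (2 * ((a0 : ℝ) + b0 * gf)) (2 * ((a1 : ℝ) + b1 * gf))
      (2 * ((a2 : ℝ) + b2 * gf)) (2 * ((a3 : ℝ) + b3 * gf))) 0) ^ 2 := by
    rw [LB_eq] at hn
    nlinarith [sq_nonneg ((VV (2 * ((a0 : ℝ) + b0 * gf)) (2 * ((a1 : ℝ) + b1 * gf))
      (2 * ((a2 : ℝ) + b2 * gf)) (2 * ((a3 : ℝ) + b3 * gf))) 1),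
      sq_nonneg ((VV (2 * ((a0 : ℝ) + b0 * gf)) (2 * ((a1 : ℝ) + b1 * gf))
      (2 * ((a2 : ℝ) + b2 * gf)) (2 * ((a3 : ℝ) + b3 * gf))) 2),
      sq_nonneg ((VV (2 * ((a0 : ℝ) + b0 * gf)) (2 * ((a1 : ℝ) + b1 * gf))
      (2 * ((a2 : ℝ) + b2 * gf)) (2 * ((a3 : ℝ) + b3 * gf))) 3)]
  rw [hV0] at h0 hsq ⊢
  have hT1 := TT_lb
  have hT2 := TT_ub
  have hy1 := y0c_lb
  have hy2 := y0c_ub
  have hg3 := gf_lb
  have hg4 := gf_ub
  set m : ℝ := (a3 : ℝ) + b3 * gf with hm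
  -- real place: `m > -3/2`
  have hm1 : -1.5 < m := by
    by_contra hcon
    push Not at hcon
    have h1 : m * TT ≤ -1.5 * TT := mul_le_mul_of_nonneg_right hcon TT_pos.le
    have h2 : y0c + 2 * m * TT ≤ 5.3718 := by linarith
    have h3 : (y0c + 2 * m * TT) ^ 2 ≤ 5.3718 ^ 2 := pow_le_pow_left₀ h0.le h2 2
    linarith
  by_contra hcon
  push Not at hcon
  have hm0 : m < 0 := by
    by_contra hx
    push Not at hx
    have := mul_nonneg hx TT_pos.le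
    linarith
  -- now no such integers
  have hb : (b3 : ℝ) * (gf + g) = m - (a3 - b3 * g) := by rw [hm]; ring
  have hgg : (2.2 : ℝ) < gf + g := by linarith
  have hbb1 : -2 < (b3 : ℝ) := by
    by_contra hx
    push Not at hx
    have := mul_le_mul_of_nonneg_right hx (by linarith : 0 ≤ gf + g)
    linarith
  have hbb2 : (b3 : ℝ) < 1 := by
    by_contra hx
    push Not at hx
    have := mul_le_mul_of_nonneg_right hx (by linarith : 0 ≤ gf + g)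
    linarith
  have hb1 : -2 < b3 := by exact_mod_cast hbb1
  have hb2 : b3 < 1 := by exact_mod_cast hbb2
  have hb3 : b3 = -1 ∨ b3 = 0 := by omega
  rcases hb3 with hb3 | hb3
  · rw [hb3] at hm hc1 hc2
    push_cast at hm hc1 hc2
    have h1 : (0 : ℝ) < a3 := by linarith
    have h2 : (a3 : ℝ) < 2 := by linarith
    have h3 : 0 < a3 := by exact_mod_cast h1
    have h4 : a3 < 2 := by exact_mod_cast h2
    have h6 : a3 = 1 := by omega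
    rw [h6] at hc2
    push_cast at hc2
    linarith
  · rw [hb3] at hm hc1 hc2
    push_cast at hm hc1 hc2
    have h1 : (-2 : ℝ) < a3 := by linarith
    have h2 : (a3 : ℝ) < 0 := by linarith
    have h3 : -2 < a3 := by exact_mod_cast h1
    have h4 : a3 < 0 := by exact_mod_cast h2
    have h6 : a3 = -1 := by omega
    rw [h6] at hc1
    push_cast at hc1
    linarith


lemma SS_closure {g : Matrix (Fin 4) (Fin 4) ℝ}
    (hg : g ∈ Submonoid.closure {m : Matrix (Fin 4) (Fin 4) ℝ |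
      (∃ i j : Fin 4, m = RE i * RE j) ∨ m = tm}) :
    ∀ V, SS V → SS (g *ᵥ V) := by
  induction hg using Submonoid.closure_induction with
  | mem x hx =>
    intro V hV
    rcases hx with ⟨i, j, rfl⟩ | rfl
    · rw [← Matrix.mulVec_mulVec]
      exact SS_RE i (SS_RE j hV)
    · exact SS_tm hV
  | one => intro V hV; simpa using hV
  | mul x y _ _ hx hy =>
    intro V hV
    rw [← Matrix.mulVec_mulVec]
    exact hx _ (hy _ hV)

/-- The scaling factor. -/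
noncomputable def MM : ℝ := √(8 + 16 * gf)

lemma MM_sq : MM ^ 2 = 8 + 16 * gf := Real.sq_sqrt (by linarith [gf_lb])
lemma MM_pos : 0 < MM := Real.sqrt_pos.2 (by linarith [gf_lb])

/-- The vertex of the tetrahedron opposite to the last face. -/
def X0 : Fin 4 → ℝ := ![1, 0, 0, 0]
/-- The midpoint of the edge. -/
noncomputable def Y0 : Fin 4 → ℝ := (1 / MM) • YY

lemma X0X0 : LB X0 X0 = -1 := by simp [LB_eq, X0]
lemma Y0Y0 : LB Y0 Y0 = -1 := by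
  unfold Y0
  rw [LB_smul, LB_smul_right, YYYY, ← MM_sq]
  have := MM_pos.ne'
  field_simp
lemma X0_pos : 0 < X0 0 := by simp [X0]
lemma Y0_pos : 0 < Y0 0 := by
  have h1 := MM_pos
  have h2 := y0c_pos
  simp only [Y0, YY, Pi.smul_apply, smul_eq_mul]
  simp
  positivity

lemma lower_bound {g : Matrix (Fin 4) (Fin 4) ℝ}
    (hg : g ∈ Submonoid.closure {m : Matrix (Fin 4) (Fin 4) ℝ |
      (∃ i j : Fin 4, m = RE i * RE j) ∨ m = tm}) :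
    1.4285 ≤ -(LB X0 (g *ᵥ Y0)) := by
  have h1 := SS_bound (SS_closure hg _ SS_Y)
  have h2 : LB X0 (g *ᵥ Y0) = -((1 / MM) * (g *ᵥ YY) 0) := by
    unfold Y0
    rw [Matrix.mulVec_smul, LB_smul_right, LB_eq]
    simp [X0]
  rw [h2, neg_neg]
  have h3 := MM_pos
  have h4 := MM_sq
  have h5 := y0c_sq
  have h6 := y0c_pos
  have h7 : 1.4285 * MM ≤ y0c := by
    apply (sq_le_sq₀ (by positivity) h6.le).1
    rw [mul_pow, h4, h5]
    linarith [gf_lb, gf_ub]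
  rw [one_div, inv_mul_eq_div, le_div_iff₀ h3]
  linarith

end Pool.Agent.H26R3
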