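import Pool.Agent.H26R3.MartinLower

set_option autoImplicit false
open Matrix

namespace Pool.Agent.H26R3

/-- The Hermitian matrix of a vector of Minkowski space. -/
noncomputable def Hm (v : Fin 4 → ℝ) : Matrix (Fin 2) (Fin 2) ℂ :=
  !![((v 0 + v 3 : ℝ) : ℂ), (v 1 : ℂ) + (v 2 : ℂ) * Complex.I;
    (v 1 : ℂ) - (v 2 : ℂ) * Complex.I, ((v 0 - v 3 : ℝ) : ℂ)]

/-- The inverse of `Hm`. -/
noncomputable def Hinv (M : Matrix (Fin 2) (Fin 2) ℂ) : Fin 4 → ℝ :=
  ![((M 0 0).re + (M 1 1).re) / 2, (M 0 1).re, (M 0 1).im, ((M 0 0).re - (M 1 1).re) / 2]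

lemma Hinv_Hm (v : Fin 4 → ℝ) : Hinv (Hm v) = v := by
  ext i; fin_cases i <;> simp [Hinv, Hm]

lemma Hm_inj {u v : Fin 4 → ℝ} (h : Hm u = Hm v) : u = v := by
  rw [← Hinv_Hm u, h, Hinv_Hm]

lemma Hm_add (u v : Fin 4 → ℝ) : Hm (u + v) = Hm u + Hm v := by
  ext i j; fin_cases i <;> fin_cases j <;> simp [Hm] <;> ring

lemma Hm_smul (c : ℝ) (v : Fin 4 → ℝ) : Hm (c • v) = (c : ℂ) • Hm v := by
  ext i j; fin_cases i <;> fin_cases j <;> simp [Hm] <;> ring

lemma Hinv_add (M N : Matrix (Fin 2) (Fin 2) ℂ) : Hinv (M + N) = Hinv M + Hinv N := by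
  ext i; fin_cases i <;> simp [Hinv] <;> ring

lemma Hinv_smul (c : ℝ) (M : Matrix (Fin 2) (Fin 2) ℂ) : Hinv ((c : ℂ) • M) = c • Hinv M := by
  ext i; fin_cases i <;> simp [Hinv] <;> ring

lemma Hm_herm (v : Fin 4 → ℝ) : (Hm v)ᴴ = Hm v := by
  ext i j; fin_cases i <;> fin_cases j <;> simp [Hm, Matrix.conjTranspose_apply] <;> ring

lemma Hm_Hinv {M : Matrix (Fin 2) (Fin 2) ℂ} (h : Mᴴ = M) : Hm (Hinv M) = M := by
  have h00 := congrFun (congrFun h 0) 0
  have h11 := congrFun (congrFun h 1) 1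
  have h10 := congrFun (congrFun h 1) 0
  simp only [Matrix.conjTranspose_apply] at h00 h11 h10
  have i00 : (M 0 0).im = 0 := by
    have := congrArg Complex.im h00
    simp at this
    linarith
  have i11 : (M 1 1).im = 0 := by
    have := congrArg Complex.im h11
    simp at this
    linarith
  ext i j
  fin_cases i <;> fin_cases j
  · apply Complex.ext <;> simp [Hm, Hinv, i00] <;> ring
  · apply Complex.ext <;> simp [Hm, Hinv]
  · show Hm (Hinv M) 1 0 = M 1 0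
    rw [← h10]
    apply Complex.ext <;> simp [Hm, Hinv]
  · apply Complex.ext <;> simp [Hm, Hinv, i11] <;> ring

/-- `g` is the Lorentz transformation of `X`. -/
def IsLift (g : Matrix (Fin 4) (Fin 4) ℝ) (X : Matrix (Fin 2) (Fin 2) ℂ) : Prop :=
  ∀ v, Hm (g *ᵥ v) = X * Hm v * Xᴴ

lemma lift_one : IsLift 1 1 := by intro v; simp

lemma lift_mul {g h : Matrix (Fin 4) (Fin 4) ℝ} {X Y : Matrix (Fin 2) (Fin 2) ℂ}
    (hg : IsLift g X) (hh : IsLift h Y) : IsLift (g * h) (X * Y) := by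
  intro v
  rw [← Matrix.mulVec_mulVec, hg, hh, Matrix.conjTranspose_mul]
  simp only [Matrix.mul_assoc]

lemma lift_unique {g h : Matrix (Fin 4) (Fin 4) ℝ} {X : Matrix (Fin 2) (Fin 2) ℂ}
    (hg : IsLift g X) (hh : IsLift h X) : g = h := by
  apply Matrix.ext_of_mulVec_single
  intro i
  exact Hm_inj ((hg _).trans (hh _).symm)

lemma lift_neg {g : Matrix (Fin 4) (Fin 4) ℝ} {X : Matrix (Fin 2) (Fin 2) ℂ}
    (hg : IsLift g X) : IsLift g (-X) := by
  intro v
  rw [hg]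
  simp

/-- The linear map of `X`. -/
noncomputable def rhoL (X : Matrix (Fin 2) (Fin 2) ℂ) : (Fin 4 → ℝ) →ₗ[ℝ] (Fin 4 → ℝ) where
  toFun v := Hinv (X * Hm v * Xᴴ)
  map_add' u v := by rw [Hm_add, Matrix.mul_add, Matrix.add_mul, Hinv_add]
  map_smul' c v := by
    rw [Hm_smul, Matrix.mul_smul, Matrix.smul_mul, Hinv_smul]; rfl

/-- The Lorentz transformation of `X`. -/
noncomputable def rho (X : Matrix (Fin 2) (Fin 2) ℂ) : Matrix (Fin 4) (Fin 4) ℝ :=
  LinearMap.toMatrix' (rhoL X)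

lemma rho_lift (X : Matrix (Fin 2) (Fin 2) ℂ) : IsLift (rho X) X := by
  intro v
  have h : rho X *ᵥ v = Hinv (X * Hm v * Xᴴ) := by
    rw [rho, LinearMap.toMatrix'_mulVec]; rfl
  rw [h]
  apply Hm_Hinv
  rw [Matrix.conjTranspose_mul, Matrix.conjTranspose_mul, Matrix.conjTranspose_conjTranspose,
    Hm_herm, Matrix.mul_assoc]

lemma Hm_det (v : Fin 4 → ℝ) : (Hm v).det = ((-(LB v v) : ℝ) : ℂ) := by
  rw [Matrix.det_fin_two, LB_eq]
  simp [Hm]
  linear_combination (v 2 : ℂ) ^ 2 * Complex.I_sq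

lemma lift_norm {g : Matrix (Fin 4) (Fin 4) ℝ} {X : Matrix (Fin 2) (Fin 2) ℂ}
    (hg : IsLift g X) (hX : X.det = 1) (v : Fin 4 → ℝ) : LB (g *ᵥ v) (g *ᵥ v) = LB v v := by
  have h := congrArg Matrix.det (hg v)
  rw [Matrix.det_mul, Matrix.det_mul, Matrix.det_conjTranspose, hX, Hm_det, Hm_det] at h
  simp at h
  exact_mod_cast h

lemma LB_add_right (x y z : Fin 4 → ℝ) : LB z (x + y) = LB z x + LB z y := by
  simp only [LB_eq, Pi.add_apply]; ring

lemma lift_form {g : Matrix (Fin 4) (Fin 4) ℝ} {X : Matrix (Fin 2) (Fin 2) ℂ}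
    (hg : IsLift g X) (hX : X.det = 1) (u v : Fin 4 → ℝ) : LB (g *ᵥ u) (g *ᵥ v) = LB u v := by
  have h1 := lift_norm hg hX (u + v)
  have h2 := lift_norm hg hX u
  have h3 := lift_norm hg hX v
  rw [Matrix.mulVec_add] at h1
  simp only [LB_add, LB_add_right] at h1
  rw [LB_comm (g *ᵥ v) (g *ᵥ u), LB_comm v u] at h1
  linarith

lemma lift_JJ {g : Matrix (Fin 4) (Fin 4) ℝ} {X : Matrix (Fin 2) (Fin 2) ℂ}
    (hg : IsLift g X) (hX : X.det = 1) :
    gᵀ * Matrix.diagonal ![(-1 : ℝ), 1, 1, 1] * g = Matrix.diagonal ![(-1 : ℝ), 1, 1, 1] := by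
  ext i j
  have h := lift_form hg hX (Pi.single i 1) (Pi.single j 1)
  unfold LB at h
  rw [Matrix.mulVec_single_one, Matrix.mulVec_single_one] at h
  have h1 : (gᵀ * Matrix.diagonal ![(-1 : ℝ), 1, 1, 1] * g) i j
      = (g.col i) ⬝ᵥ (Matrix.diagonal ![(-1 : ℝ), 1, 1, 1] *ᵥ (g.col j)) := by
    rw [Matrix.mul_assoc, Matrix.mul_apply, dotProduct]
    apply Finset.sum_congr rfl
    intro k _
    congr 1
  rw [h1, h]
  by_cases hij : i = j
  · subst hij
    simp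
  · simp [Matrix.diagonal_apply_ne _ hij, Pi.single_apply, Ne.symm hij, eq_comm, hij]

lemma lift_00 {g : Matrix (Fin 4) (Fin 4) ℝ} {X : Matrix (Fin 2) (Fin 2) ℂ}
    (hg : IsLift g X) :
    2 * g 0 0 = Complex.normSq (X 0 0) + Complex.normSq (X 0 1) + Complex.normSq (X 1 0)
      + Complex.normSq (X 1 1) := by
  have h := hg (Pi.single 0 1)
  have h0 := congrArg Complex.re (congrFun (congrFun h 0) 0)
  have h1 := congrArg Complex.re (congrFun (congrFun h 1) 1)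
  simp [Hm, Matrix.mul_apply, Fin.sum_univ_two] at h0 h1
  simp only [Complex.normSq_apply]
  linarith

lemma detJ : (Matrix.diagonal ![(-1 : ℝ), 1, 1, 1]).det = -1 := by
  simp [Matrix.det_diagonal, Fin.prod_univ_four]

lemma lift_det_sq {g : Matrix (Fin 4) (Fin 4) ℝ} {X : Matrix (Fin 2) (Fin 2) ℂ}
    (hg : IsLift g X) (hX : X.det = 1) : g.det * g.det = 1 := by
  have h := congrArg Matrix.det (lift_JJ hg hX)
  rw [Matrix.det_mul, Matrix.det_mul, Matrix.det_transpose, detJ] at h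
  linarith

lemma exists_sqrt {X : Matrix (Fin 2) (Fin 2) ℂ} (hX : X.det = 1)
    (ht : X 0 0 + X 1 1 + 2 ≠ 0) :
    ∃ Y : Matrix (Fin 2) (Fin 2) ℂ, Y.det = 1 ∧ Y * Y = X := by
  obtain ⟨s, hs⟩ : ∃ s : ℂ, s ^ 2 = X 0 0 + X 1 1 + 2 :=
    IsAlgClosed.exists_pow_nat_eq _ (by norm_num)
  have hs0 : s ≠ 0 := by
    intro h; rw [h] at hs; apply ht; rw [← hs]; simp
  rw [Matrix.det_fin_two] at hX
  refine ⟨!![(X 0 0 + 1) / s, X 0 1 / s; X 1 0 / s, (X 1 1 + 1) / s], ?_, ?_⟩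
  · rw [Matrix.det_fin_two_of]
    field_simp
    rw [hs]
    linear_combination hX
  · rw [Matrix.mul_fin_two]
    ext i j
    fin_cases i <;> fin_cases j <;> simp
    · field_simp
      rw [hs]
      linear_combination -hX
    · field_simp
      rw [hs]
      ring
    · field_simp
      rw [hs]
      ring
    · field_simp
      rw [hs]
      linear_combination -hX

lemma rho_det {X : Matrix (Fin 2) (Fin 2) ℂ} (hX : X.det = 1) : (rho X).det = 1 := by
  have key : ∀ Z : Matrix (Fin 2) (Fin 2) ℂ, Z.det = 1 → Z 0 0 + Z 1 1 + 2 ≠ 0 →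
      (rho Z).det = 1 := by
    intro Z hZ ht
    obtain ⟨Y, hY, hYY⟩ := exists_sqrt hZ ht
    have h1 : rho Z = rho Y * rho Y := by
      apply lift_unique (rho_lift Z)
      rw [← hYY]
      exact lift_mul (rho_lift Y) (rho_lift Y)
    rw [h1, Matrix.det_mul]
    exact lift_det_sq (rho_lift Y) hY
  by_cases ht : X 0 0 + X 1 1 + 2 = 0
  · have h1 : rho X = rho (-X) := lift_unique (lift_neg (rho_lift X)) (rho_lift (-X))
    rw [h1]
    apply key
    · rw [Matrix.det_neg]; simp [hX]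
    · intro h
      simp at h
      have : (4 : ℂ) = 0 := by linear_combination ht + h
      norm_num at this
  · exact key X hX ht

end Pool.Agent.H26R3
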