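import Mathlib

set_option autoImplicit false

namespace Pool.Agent.H26R3

/-- The quartic polynomial of discriminant `-283`, as a function. -/
def pq (t : ℝ) : ℝ := t ^ 4 + 5 * t ^ 3 + 7 * t ^ 2 + 3 * t + 1

lemma pq_cont : Continuous pq := by unfold pq; fun_prop

lemma exists_th1 : ∃ t : ℝ, -1.67104361 ≤ t ∧ t ≤ -1.67104360 ∧ pq t = 0 := by
  have h := intermediate_value_uIcc (a := (-1.67104361 : ℝ)) (b := -1.67104360)
    (f := pq) pq_cont.continuousOn
  have h0 : (0 : ℝ) ∈ Set.uIcc (pq (-1.67104361)) (pq (-1.67104360)) := by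
    rw [Set.mem_uIcc]
    unfold pq
    norm_num
  obtain ⟨t, ht, h1⟩ := h h0
  rw [Set.uIcc_of_le (by norm_num)] at ht
  exact ⟨t, ht.1, ht.2, h1⟩

lemma exists_th2 : ∃ t : ℝ, -2.90516617 ≤ t ∧ t ≤ -2.90516616 ∧ pq t = 0 := by
  have h := intermediate_value_uIcc (a := (-2.90516617 : ℝ)) (b := -2.90516616)
    (f := pq) pq_cont.continuousOn
  have h0 : (0 : ℝ) ∈ Set.uIcc (pq (-2.90516617)) (pq (-2.90516616)) := by
    rw [Set.mem_uIcc]
    unfold pq
    norm_num
  obtain ⟨t, ht, h1⟩ := h h0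
  rw [Set.uIcc_of_le (by norm_num)] at ht
  exact ⟨t, ht.1, ht.2, h1⟩

noncomputable def th1 : ℝ := exists_th1.choose
noncomputable def th2 : ℝ := exists_th2.choose

lemma th1_lb : -1.67104361 ≤ th1 := exists_th1.choose_spec.1
lemma th1_ub : th1 ≤ -1.67104360 := exists_th1.choose_spec.2.1
lemma th1_root : th1 ^ 4 + 5 * th1 ^ 3 + 7 * th1 ^ 2 + 3 * th1 + 1 = 0 :=
  exists_th1.choose_spec.2.2
lemma th2_lb : -2.90516617 ≤ th2 := exists_th2.choose_spec.1
lemma th2_ub : th2 ≤ -2.90516616 := exists_th2.choose_spec.2.1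
lemma th2_root : th2 ^ 4 + 5 * th2 ^ 3 + 7 * th2 ^ 2 + 3 * th2 + 1 = 0 :=
  exists_th2.choose_spec.2.2

lemma th_ne : th1 - th2 ≠ 0 := by
  have := th1_lb; have := th2_ub
  intro h; linarith

/-- Sum and product of the real roots, and the other quadratic factor. -/
noncomputable def se : ℝ := th1 + th2
noncomputable def pe : ℝ := th1 * th2
noncomputable def be' : ℝ := 7 + se * (5 + se) - pe

lemma coef1 : 3 - (pe * (5 + se) - se * be') = 0 := by
  have h1 := th1_root
  have h2 := th2_root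
  have h3 : (3 - (pe * (5 + se) - se * be')) * (th1 - th2) = 0 := by
    unfold be' se pe
    linear_combination h1 - h2
  exact (mul_eq_zero.1 h3).resolve_right th_ne

lemma coef0 : 1 - pe * be' = 0 := by
  have h1 := th1_root
  have h3 := coef1
  have h4 : (3 - (pe * (5 + se) - se * be')) * th1 + (1 - pe * be') = 0 := by
    unfold be' se pe
    linear_combination h1
  rw [h3] at h4
  linarith

/-- real part of `θ`. -/
noncomputable def rt : ℝ := -(5 + se) / 2

lemma se_lb : -4.57620978 ≤ se := by unfold se; linarith [th1_lb, th2_lb]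
lemma se_ub : se ≤ -4.57620976 := by unfold se; linarith [th1_ub, th2_ub]
lemma rt_lb : -0.21189512 ≤ rt := by unfold rt; linarith [se_ub]
lemma rt_ub : rt ≤ -0.21189511 := by unfold rt; linarith [se_lb]

lemma pe_lb : 4.8546593 ≤ pe := by
  have h1 := mul_nonneg (sub_nonneg.2 th1_ub) (sub_nonneg.2 th2_ub)
  unfold pe
  linarith [th1_ub, th2_ub]
lemma pe_ub : pe ≤ 4.8546594 := by
  have h1 := mul_nonneg (sub_nonneg.2 th1_lb) (sub_nonneg.2 th2_ub)
  have h2 := th2_lb
  have h3 := th1_lb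
  have h4 := th1_ub
  unfold pe
  linarith

lemma be_lb : 0.205987674 ≤ be' := by
  have h := coef0
  have h1 := pe_ub
  have h2 := pe_lb
  by_contra hc
  push Not at hc
  have h3 : pe * be' < pe * 0.205987674 := mul_lt_mul_of_pos_left hc (by linarith)
  linarith
lemma be_ub : be' ≤ 0.205987679 := by
  have h := coef0
  have h1 := pe_ub
  have h2 := pe_lb
  by_contra hc
  push Not at hc
  have h3 : pe * 0.205987679 < pe * be' := mul_lt_mul_of_pos_left hc (by linarith)
  linarith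

lemma rt_sq_lb : 0.0448995375 ≤ rt ^ 2 := by
  have h1 := rt_ub
  nlinarith
lemma rt_sq_ub : rt ^ 2 ≤ 0.0448995425 := by
  have h1 := rt_lb
  have h2 := rt_ub
  nlinarith

/-- imaginary part of `θ`. -/
noncomputable def st : ℝ := √(be' - rt ^ 2)

lemma st_sq : st ^ 2 = be' - rt ^ 2 :=
  Real.sq_sqrt (by linarith [be_lb, rt_sq_ub])
lemma st_lb : 0.4013578 ≤ st := by
  apply Real.le_sqrt_of_sq_le
  linarith [be_lb, rt_sq_ub]
lemma st_ub : st ≤ 0.4013579 := by
  unfold st
  rw [Real.sqrt_le_iff]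
  constructor
  · norm_num
  · linarith [be_ub, rt_sq_lb]

/-- The non-real root. -/
noncomputable def thc : ℂ := ⟨rt, st⟩

lemma thc_quad : thc ^ 2 + ((5 + se : ℝ) : ℂ) * thc + (be' : ℂ) = 0 := by
  have h := st_sq
  have h1 : (5 + se) = -2 * rt := by unfold rt; ring
  rw [h1]
  apply Complex.ext
  · simp [thc, pow_two]
    nlinarith
  · simp [thc, pow_two]
    ring

lemma thc_root : thc ^ 4 + 5 * thc ^ 3 + 7 * thc ^ 2 + 3 * thc + 1 = 0 := by
  have h := thc_quad
  have c1 : ((3 - (pe * (5 + se) - se * be') : ℝ) : ℂ) = 0 := by rw [coef1]; simp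
  have c0 : ((1 - pe * be' : ℝ) : ℂ) = 0 := by rw [coef0]; simp
  have c2 : (be' : ℂ) = 7 + se * (5 + se) - pe := by unfold be'; push_cast; ring
  push_cast at h c1 c0
  linear_combination (thc ^ 2 - se * thc + pe) * h + thc * c1 + c0 - thc ^ 2 * c2

end Pool.Agent.H26R3
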