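import Mathlib

set_option autoImplicit false
open UpperHalfPlane

namespace Pool.Agent.H26R3

/-- A group `Γ` of isometries of the hyperbolic plane is a surface group if it consists of
orientation preserving isometries, acts freely, and acts properly discontinuously. Then `Γ \ ℍ` is
a complete connected oriented hyperbolic surface without boundary, and `Γ` is its fundamental
group. -/
structure IsSurfaceGroup (Γ : Subgroup (ℍ ≃ᵢ ℍ)) : Prop where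
  orientation : ∀ γ ∈ Γ, ∃ m : Matrix.SpecialLinearGroup (Fin 2) ℝ, ∀ z : ℍ, γ z = m • z
  free : ∀ γ ∈ Γ, ∀ z : ℍ, γ z = z → γ = 1
  proper : ∀ (z : ℍ) (R : ℝ), {γ : ℍ ≃ᵢ ℍ | γ ∈ Γ ∧ dist z (γ z) ≤ R}.Finite

/-- Orbit equivalence for a group of isometries of the hyperbolic plane. -/
def orbitSetoid (Γ : Subgroup (ℍ ≃ᵢ ℍ)) : Setoid ℍ where
  r z w := ∃ γ ∈ Γ, γ z = w
  iseqv :=
    { refl := fun z => ⟨1, Γ.one_mem, rfl⟩
      symm := by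
        rintro z w ⟨γ, hγ, rfl⟩
        exact ⟨γ⁻¹, Γ.inv_mem hγ, IsometryEquiv.inv_apply_self γ z⟩
      trans := by
        rintro z w u ⟨γ, hγ, rfl⟩ ⟨δ, hδ, rfl⟩
        exact ⟨δ * γ, Γ.mul_mem hδ hγ, rfl⟩ }

/-- The surface `Γ \ ℍ`; it carries the quotient topology. -/
abbrev Surf (Γ : Subgroup (ℍ ≃ᵢ ℍ)) : Type := Quotient (orbitSetoid Γ)

/-- The universal covering map `ℍ → Γ \ ℍ`. -/
def proj (Γ : Subgroup (ℍ ≃ᵢ ℍ)) (z : ℍ) : Surf Γ := Quotient.mk (orbitSetoid Γ) z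

/-- `C` is (the set of points of) a simple closed geodesic of length `ℓ` on the surface `Γ \ ℍ`:
the image of a complete unit speed geodesic `c` of the hyperbolic plane which closes up in the
surface after time `ℓ` and is injective in the surface on `[0, ℓ)`. -/
def IsSimpleClosedGeodesic (Γ : Subgroup (ℍ ≃ᵢ ℍ)) (C : Set (Surf Γ)) (ℓ : ℝ) : Prop :=
  0 < ℓ ∧ ∃ c : ℝ → ℍ, Isometry c ∧ (∃ γ ∈ Γ, ∀ t : ℝ, c (t + ℓ) = γ (c t)) ∧
    (∀ s t : ℝ, 0 ≤ s → s < t → t < ℓ → proj Γ (c s) ≠ proj Γ (c t)) ∧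
    C = Set.range (fun t : ℝ => proj Γ (c t))

/-- The surface `Γ \ ℍ` is Nielsen-convex: every point `p` lies on a geodesic segment (the image
of `c` restricted to `[s, t]`) whose endpoints lie on simple closed geodesics. -/
def NielsenConvex (Γ : Subgroup (ℍ ≃ᵢ ℍ)) : Prop :=
  ∀ p : Surf Γ, ∃ c : ℝ → ℍ, Isometry c ∧ ∃ s t₀ t : ℝ, s ≤ t₀ ∧ t₀ ≤ t ∧ proj Γ (c t₀) = p ∧
    (∃ (C : Set (Surf Γ)) (ℓ : ℝ), IsSimpleClosedGeodesic Γ C ℓ ∧ proj Γ (c s) ∈ C) ∧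
    (∃ (C : Set (Surf Γ)) (ℓ : ℝ), IsSimpleClosedGeodesic Γ C ℓ ∧ proj Γ (c t) ∈ C)

/-- The multiplicity (in `ℕ ∪ {∞}`) of `ℓ` in the simple length spectrum of `Γ \ ℍ`: the number
of simple closed geodesics of length `ℓ`. -/
noncomputable def simpleMult (Γ : Subgroup (ℍ ≃ᵢ ℍ)) (ℓ : ℝ) : ℕ∞ :=
  {C : Set (Surf Γ) | IsSimpleClosedGeodesic Γ C ℓ}.encard

/-- The two surfaces have the same simple length spectrum (as multisets). -/
def SameSimpleLengthSpectrum (Γ Γ' : Subgroup (ℍ ≃ᵢ ℍ)) : Prop :=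
  ∀ ℓ : ℝ, simpleMult Γ ℓ = simpleMult Γ' ℓ

/-- The surfaces `Γ \ ℍ` and `Γ' \ ℍ` are isometric (possibly with reversal of the orientation):
the groups are conjugate by an isometry of the hyperbolic plane. -/
def IsometricSurfaces (Γ Γ' : Subgroup (ℍ ≃ᵢ ℍ)) : Prop :=
  ∃ g : ℍ ≃ᵢ ℍ, ∀ γ : ℍ ≃ᵢ ℍ, γ ∈ Γ ↔ g * γ * g⁻¹ ∈ Γ'

end Pool.Agent.H26R3
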