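import Mathlib

set_option autoImplicit false
open UpperHalfPlane

namespace Pool.Agent.H26R3

/-- Vectors of Minkowski space in isotropic coordinates. -/
abbrev V3 : Type := Fin 3 → ℝ

/-- The Lorentz form `v₁² - v₀ v₂`, polarised. -/
noncomputable def Bf (u v : V3) : ℝ := u 1 * v 1 - (u 0 * v 2 + u 2 * v 0) / 2

lemma Bf_comm (u v : V3) : Bf u v = Bf v u := by unfold Bf; ring
lemma Bf_add_right (u v w : V3) : Bf u (v + w) = Bf u v + Bf u w := by
  unfold Bf; simp only [Pi.add_apply]; ring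
lemma Bf_sub_right (u v w : V3) : Bf u (v - w) = Bf u v - Bf u w := by
  unfold Bf; simp only [Pi.sub_apply]; ring
lemma Bf_smul_right (c : ℝ) (u v : V3) : Bf u (c • v) = c * Bf u v := by
  unfold Bf; simp only [Pi.smul_apply, smul_eq_mul]; ring
lemma Bf_add_left (u v w : V3) : Bf (u + v) w = Bf u w + Bf v w := by
  unfold Bf; simp only [Pi.add_apply]; ring
lemma Bf_sub_left (u v w : V3) : Bf (u - v) w = Bf u w - Bf v w := by
  unfold Bf; simp only [Pi.sub_apply]; ring
lemma Bf_smul_left (c : ℝ) (u v : V3) : Bf (c • u) v = c * Bf u v := by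
  unfold Bf; simp only [Pi.smul_apply, smul_eq_mul]; ring

/-- The point of the hyperboloid corresponding to `z`. -/
noncomputable def pt (z : ℍ) : V3 := ![1 / z.im, z.re / z.im, (z.re ^ 2 + z.im ^ 2) / z.im]

lemma pt0 (z : ℍ) : pt z 0 = 1 / z.im := rfl
lemma pt1 (z : ℍ) : pt z 1 = z.re / z.im := rfl
lemma pt2 (z : ℍ) : pt z 2 = (z.re ^ 2 + z.im ^ 2) / z.im := rfl

lemma pt0_pos (z : ℍ) : 0 < pt z 0 := by rw [pt0]; exact one_div_pos.2 z.im_pos

lemma pt_self (z : ℍ) : Bf (pt z) (pt z) = -1 := by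
  have h := z.im_ne_zero
  unfold Bf
  rw [pt0, pt1, pt2]
  field_simp
  ring

lemma pt_inj {z w : ℍ} (h : pt z = pt w) : z = w := by
  have h0 := congrFun h 0
  have h1 := congrFun h 1
  rw [pt0, pt0] at h0
  rw [pt1, pt1] at h1
  have e : z.im = w.im := by
    have := z.im_pos; have := w.im_pos
    field_simp at h0
    linarith
  rw [e] at h1
  have := w.im_ne_zero
  have e2 : z.re = w.re := by
    field_simp at h1
    linarith
  exact UpperHalfPlane.ext_re_im e2 e

/-- The point of `ℍ` given by a vector of the hyperboloid. -/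
noncomputable def ofVec (v : V3) (h0 : 0 < v 0) : ℍ :=
  ⟨⟨v 1 / v 0, 1 / v 0⟩, by simpa using h0⟩

lemma pt_ofVec (v : V3) (h : Bf v v = -1) (h0 : 0 < v 0) : pt (ofVec v h0) = v := by
  have hr : (ofVec v h0).re = v 1 / v 0 := rfl
  have hi : (ofVec v h0).im = 1 / v 0 := rfl
  have h' : v 0 * v 2 = 1 + v 1 ^ 2 := by unfold Bf at h; nlinarith
  have hn := h0.ne'
  ext i
  fin_cases i
  · show pt _ 0 = v 0
    rw [pt0, hi]; field_simp
  · show pt _ 1 = v 1
    rw [pt1, hr, hi]; field_simp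
  · show pt _ 2 = v 2
    rw [pt2, hr, hi]; field_simp
    linarith

lemma cosh_dist_eq (z w : ℍ) : Real.cosh (dist z w) = -Bf (pt z) (pt w) := by
  rw [UpperHalfPlane.cosh_dist']
  unfold Bf
  rw [pt0, pt1, pt2, pt0, pt1, pt2]
  have := z.im_ne_zero; have := w.im_ne_zero
  field_simp
  ring

lemma dist_eq_of_Bf {z w z' w' : ℍ} (h : Bf (pt z) (pt w) = Bf (pt z') (pt w')) :
    dist z w = dist z' w' := by
  have h1 : Real.cosh (dist z w) = Real.cosh (dist z' w') := by
    rw [cosh_dist_eq, cosh_dist_eq, h]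
  have h2 := (Real.cosh_le_cosh.1 h1.le)
  have h3 := (Real.cosh_le_cosh.1 h1.ge)
  rw [abs_of_nonneg dist_nonneg, abs_of_nonneg dist_nonneg] at h2 h3
  exact le_antisymm h2 h3

/-- `cosh` of the distance. -/
noncomputable def cd (z w : ℍ) : ℝ := -Bf (pt z) (pt w)

lemma cd_eq (z w : ℍ) : cd z w = Real.cosh (dist z w) := (cosh_dist_eq z w).symm
lemma cd_ge (z w : ℍ) : 1 ≤ cd z w := by rw [cd_eq]; exact Real.one_le_cosh _
lemma cd_comm (z w : ℍ) : cd z w = cd w z := by unfold cd; rw [Bf_comm]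
lemma cd_isom (g : ℍ ≃ᵢ ℍ) (z w : ℍ) : cd (g z) (g w) = cd z w := by
  rw [cd_eq, cd_eq, g.dist_eq]

/-- The spacelike unit vector of the geodesic with endpoints `p < q`; it is nonnegative on the
exterior. -/
noncomputable def ev (p q : ℝ) : V3 := ![-2 / (q - p), -(p + q) / (q - p), -2 * (p * q) / (q - p)]

lemma ev0 (p q : ℝ) : ev p q 0 = -2 / (q - p) := rfl
lemma ev1' (p q : ℝ) : ev p q 1 = -(p + q) / (q - p) := rfl
lemma ev2' (p q : ℝ) : ev p q 2 = -2 * (p * q) / (q - p) := rfl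

/-- The (normalised) defining function of the geodesic with endpoints `p < q`. -/
noncomputable def lam (p q : ℝ) (z : ℍ) : ℝ := Bf (ev p q) (pt z)

lemma lam_eq {p q : ℝ} (h : p < q) (z : ℍ) :
    lam p q z = ((z.re - p) * (z.re - q) + z.im ^ 2) / ((q - p) * z.im) := by
  have h1 : q - p ≠ 0 := by intro h2; linarith
  have h2 := z.im_ne_zero
  unfold lam Bf
  rw [ev0, ev1', ev2', pt0, pt1, pt2]
  field_simp
  ring

lemma ev_self {p q : ℝ} (h : p < q) : Bf (ev p q) (ev p q) = 1 := by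
  have h1 : q - p ≠ 0 := by intro h2; linarith
  unfold Bf
  rw [ev0, ev1', ev2']
  field_simp
  ring

lemma ev_ev {p q s t : ℝ} (h : p < q) (h' : s < t) :
    Bf (ev p q) (ev s t) = -((s - p) * (t - q) + (s - q) * (t - p)) / ((q - p) * (t - s)) := by
  have h1 : q - p ≠ 0 := by intro h2; linarith
  have h2 : t - s ≠ 0 := by intro h2; linarith
  unfold Bf
  rw [ev0, ev1', ev2', ev0, ev1', ev2']
  field_simp
  ring

/-- The image of a point under reflection in the geodesic with endpoints `p`, `q`. -/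
noncomputable def reflFun (p q : ℝ) (h : p < q) (z : ℍ) : ℍ :=
  ⟨⟨(p + q) / 2 + ((q - p) / 2) ^ 2 * (z.re - (p + q) / 2) /
      ((z.re - (p + q) / 2) ^ 2 + z.im ^ 2),
    ((q - p) / 2) ^ 2 * z.im / ((z.re - (p + q) / 2) ^ 2 + z.im ^ 2)⟩, by
    have h1 : 0 < q - p := by linarith
    have h2 := z.im_pos
    show 0 < ((q - p) / 2) ^ 2 * z.im / ((z.re - (p + q) / 2) ^ 2 + z.im ^ 2)
    positivity⟩

lemma reflFun_re (p q : ℝ) (h : p < q) (z : ℍ) : (reflFun p q h z).re =
  (p + q) / 2 + ((q - p) / 2) ^ 2 * (z.re - (p + q) / 2) /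
      ((z.re - (p + q) / 2) ^ 2 + z.im ^ 2) := rfl
lemma reflFun_im (p q : ℝ) (h : p < q) (z : ℍ) : (reflFun p q h z).im =
  ((q - p) / 2) ^ 2 * z.im / ((z.re - (p + q) / 2) ^ 2 + z.im ^ 2) := rfl

lemma pt_reflFun (p q : ℝ) (h : p < q) (z : ℍ) :
    pt (reflFun p q h z) = pt z - (2 * lam p q z) • ev p q := by
  have h1 : q - p ≠ 0 := by intro h2; linarith
  have h2 := z.im_ne_zero
  have h3 : (z.re - (p + q) / 2) ^ 2 + z.im ^ 2 ≠ 0 := by
    have := z.im_pos; positivity
  ext i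
  fin_cases i
  · show pt _ 0 = pt z 0 - (2 * lam p q z) * ev p q 0
    rw [pt0, pt0, reflFun_im, lam_eq h, ev0]
    field_simp
    ring
  · show pt _ 1 = pt z 1 - (2 * lam p q z) * ev p q 1
    rw [pt1, pt1, reflFun_re, reflFun_im, lam_eq h, ev1']
    field_simp
    ring
  · show pt _ 2 = pt z 2 - (2 * lam p q z) * ev p q 2
    rw [pt2, pt2, reflFun_re, reflFun_im, lam_eq h, ev2']
    field_simp
    ring

lemma lam_reflFun (p q : ℝ) (h : p < q) (z : ℍ) : lam p q (reflFun p q h z) = -lam p q z := by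
  unfold lam
  rw [pt_reflFun, Bf_sub_right, Bf_smul_right, ev_self h]
  unfold lam
  ring

lemma reflFun_invol (p q : ℝ) (h : p < q) (z : ℍ) : reflFun p q h (reflFun p q h z) = z := by
  apply pt_inj
  rw [pt_reflFun, lam_reflFun, pt_reflFun]
  module

/-- Reflection in the geodesic with endpoints `p < q`. -/
noncomputable def refl (p q : ℝ) (h : p < q) : ℍ ≃ᵢ ℍ where
  toFun := reflFun p q h
  invFun := reflFun p q h
  left_inv := reflFun_invol p q h
  right_inv := reflFun_invol p q h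
  isometry_toFun := by
    apply Isometry.of_dist_eq
    intro z w
    apply dist_eq_of_Bf
    rw [pt_reflFun, pt_reflFun]
    simp only [Bf_sub_left, Bf_sub_right, Bf_smul_left, Bf_smul_right, ev_self h]
    have e1 : Bf (ev p q) (pt w) = lam p q w := rfl
    have e2 : Bf (pt z) (ev p q) = lam p q z := by rw [Bf_comm]; rfl
    rw [e1, e2]
    ring

lemma pt_refl (p q : ℝ) (h : p < q) (z : ℍ) :
    pt (refl p q h z) = pt z - (2 * lam p q z) • ev p q := pt_reflFun p q h z
lemma lam_refl (p q : ℝ) (h : p < q) (z : ℍ) : lam p q (refl p q h z) = -lam p q z :=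
  lam_reflFun p q h z
lemma refl_refl (p q : ℝ) (h : p < q) (z : ℍ) : refl p q h (refl p q h z) = z :=
  reflFun_invol p q h z
lemma refl_fix (p q : ℝ) (h : p < q) {z : ℍ} (hz : lam p q z = 0) : refl p q h z = z := by
  apply pt_inj
  rw [pt_refl, hz]
  simp
lemma refl_mul_self (p q : ℝ) (h : p < q) : refl p q h * refl p q h = 1 := by
  ext1 z
  exact refl_refl p q h z

lemma cd_refl (p q : ℝ) (h : p < q) (z w : ℍ) :
    cd (refl p q h z) w = cd z w + 2 * lam p q z * lam p q w := by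
  unfold cd
  rw [pt_refl, Bf_sub_left, Bf_smul_left]
  unfold lam
  ring

lemma lam_refl' (p q s t : ℝ) (h : p < q) (z : ℍ) :
    lam s t (refl p q h z) = lam s t z - 2 * lam p q z * Bf (ev s t) (ev p q) := by
  unfold lam
  rw [pt_refl, Bf_sub_right, Bf_smul_right]
  unfold lam
  ring

/-- Horizontal translation. -/
noncomputable def trans (k : ℝ) : ℍ ≃ᵢ ℍ where
  toFun z := ⟨⟨z.re + k, z.im⟩, z.im_pos⟩
  invFun z := ⟨⟨z.re - k, z.im⟩, z.im_pos⟩
  left_inv z := by
    apply UpperHalfPlane.ext_re_im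
    · show z.re + k - k = z.re
      ring
    · rfl
  right_inv z := by
    apply UpperHalfPlane.ext_re_im
    · show z.re - k + k = z.re
      ring
    · rfl
  isometry_toFun := by
    apply Isometry.of_dist_eq
    intro z w
    have h1 : Real.cosh (dist (⟨⟨z.re + k, z.im⟩, z.im_pos⟩ : ℍ) ⟨⟨w.re + k, w.im⟩, w.im_pos⟩)
        = Real.cosh (dist z w) := by
      rw [UpperHalfPlane.cosh_dist', UpperHalfPlane.cosh_dist']
      show ((z.re + k - (w.re + k)) ^ 2 + z.im ^ 2 + w.im ^ 2) / (2 * z.im * w.im) = _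
      congr 1
      ring
    have h2 := (Real.cosh_le_cosh.1 h1.le)
    have h3 := (Real.cosh_le_cosh.1 h1.ge)
    rw [abs_of_nonneg dist_nonneg, abs_of_nonneg dist_nonneg] at h2 h3
    exact le_antisymm h2 h3

lemma trans_re (k : ℝ) (z : ℍ) : (trans k z).re = z.re + k := rfl
lemma trans_im (k : ℝ) (z : ℍ) : (trans k z).im = z.im := rfl

lemma lam_trans {p q : ℝ} (h : p < q) (k : ℝ) (z : ℍ) :
    lam (p + k) (q + k) (trans k z) = lam p q z := by
  rw [lam_eq (by linarith), lam_eq h, trans_re, trans_im]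
  congr 1
  · ring
  · ring

lemma refl_trans {p q : ℝ} (h : p < q) (k : ℝ) (h' : p + k < q + k) (z : ℍ) :
    refl (p + k) (q + k) h' (trans k z) = trans k (refl p q h z) := by
  apply UpperHalfPlane.ext_re_im
  · rw [trans_re]
    show (reflFun _ _ h' _).re = (reflFun _ _ h _).re + k
    rw [reflFun_re, reflFun_re, trans_re, trans_im]
    have e : z.re + k - (p + k + (q + k)) / 2 = z.re - (p + q) / 2 := by ring
    have e2 : q + k - (p + k) = q - p := by ring
    rw [e, e2]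
    ring
  · rw [trans_im]
    show (reflFun _ _ h' _).im = (reflFun _ _ h _).im
    rw [reflFun_im, reflFun_im, trans_re, trans_im]
    have e : z.re + k - (p + k + (q + k)) / 2 = z.re - (p + q) / 2 := by ring
    have e2 : q + k - (p + k) = q - p := by ring
    rw [e, e2]

/-! ### Geodesics -/

lemma future {u w : V3} (hu : Bf u u = -1) (hu0 : 0 < u 0) (hw : Bf w w = -1)
    (h : Bf u w < 0) : 0 < w 0 := by
  unfold Bf at hu hw h
  have hu' : u 0 * u 2 = 1 + u 1 ^ 2 := by nlinarith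
  have hw' : w 0 * w 2 = 1 + w 1 ^ 2 := by nlinarith
  have hu2 : 0 < u 2 := by
    by_contra hc
    push Not at hc
    nlinarith [mul_nonneg hu0.le (neg_nonneg.2 hc), sq_nonneg (u 1)]
  by_contra hc
  push Not at hc
  have hw0 : w 0 < 0 := by
    rcases hc.lt_or_eq with h1 | h1
    · exact h1
    · rw [h1] at hw'; nlinarith [sq_nonneg (w 1)]
  have hw2 : w 2 < 0 := by
    by_contra hc2
    push Not at hc2
    nlinarith [mul_nonneg (neg_nonneg.2 hw0.le) hc2, sq_nonneg (w 1)]
  have k1 : 0 < u 0 * (-w 2) := mul_pos hu0 (by linarith)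
  have k2 : 0 < u 2 * (-w 0) := mul_pos hu2 (by linarith)
  have k3 : (2 * (u 1 * w 1)) ^ 2 < (u 0 * (-w 2) + u 2 * (-w 0)) ^ 2 := by
    have e1 : (u 0 * (-w 2)) * (u 2 * (-w 0)) = (1 + u 1 ^ 2) * (1 + w 1 ^ 2) := by
      rw [← hu', ← hw']; ring
    nlinarith [sq_nonneg (u 0 * (-w 2) - u 2 * (-w 0)), sq_nonneg (u 1), sq_nonneg (w 1)]
  have k4 := abs_lt_of_sq_lt_sq k3 (by linarith)
  have k5 := (abs_lt.1 k4).1
  linarith

lemma exists_geod (z : ℍ) (v : V3) (hv : Bf v v = 1) (hzv : Bf (pt z) v = 0) :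
    ∃ c : ℝ → ℍ, Isometry c ∧ ∀ t, pt (c t) = Real.cosh t • pt z + Real.sinh t • v := by
  have key : ∀ s t : ℝ, Bf (Real.cosh s • pt z + Real.sinh s • v)
      (Real.cosh t • pt z + Real.sinh t • v) = -Real.cosh (s - t) := by
    intro s t
    simp only [Bf_add_left, Bf_add_right, Bf_smul_left, Bf_smul_right, pt_self, hv, hzv,
      Bf_comm v (pt z)]
    rw [Real.cosh_sub]
    ring
  have hself : ∀ t : ℝ, Bf (Real.cosh t • pt z + Real.sinh t • v)
      (Real.cosh t • pt z + Real.sinh t • v) = -1 := by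
    intro t; rw [key, sub_self, Real.cosh_zero]
  have hpos : ∀ t : ℝ, 0 < (Real.cosh t • pt z + Real.sinh t • v) 0 := by
    intro t
    apply future (pt_self z) (pt0_pos z) (hself t)
    rw [Bf_add_right, Bf_smul_right, Bf_smul_right, hzv, pt_self]
    have := Real.cosh_pos t
    linarith
  refine ⟨fun t => ofVec _ (hpos t), ?_, fun t => pt_ofVec _ (hself t) (hpos t)⟩
  apply Isometry.of_dist_eq
  intro s t
  have h1 : Real.cosh (dist (ofVec _ (hpos s)) (ofVec _ (hpos t))) = Real.cosh (s - t) := by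
    rw [cosh_dist_eq, pt_ofVec _ (hself s), pt_ofVec _ (hself t), key, neg_neg]
  have h2 := (Real.cosh_le_cosh.1 h1.le)
  have h3 := (Real.cosh_le_cosh.1 h1.ge)
  rw [abs_of_nonneg dist_nonneg] at h2 h3
  rw [Real.dist_eq]
  exact le_antisymm h2 h3

end Pool.Agent.H26R3
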