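import Pool.Agent.H26R3.SlsGeom
import Pool.Agent.H26R3.SlsDefs

set_option autoImplicit false
open UpperHalfPlane

namespace Pool.Agent.H26R3

/-- A bi-infinite increasing sequence of integers with gaps one or two. -/
structure Verts where
  a : ℤ → ℤ
  gap : ∀ n, a (n + 1) = a n + 1 ∨ a (n + 1) = a n + 2

lemma lam_pos_iff {p q : ℝ} (h : p < q) (z : ℍ) :
    0 < lam p q z ↔ 0 < (z.re - p) * (z.re - q) + z.im ^ 2 := by
  have h1 : 0 < (q - p) * z.im := mul_pos (by linarith) z.im_pos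
  rw [lam_eq h]
  constructor
  · intro h2
    by_contra hc
    push Not at hc
    have := div_nonpos_of_nonpos_of_nonneg hc h1.le
    linarith
  · intro h2; exact div_pos h2 h1

lemma lam_nonpos_iff {p q : ℝ} (h : p < q) (z : ℍ) :
    lam p q z ≤ 0 ↔ (z.re - p) * (z.re - q) + z.im ^ 2 ≤ 0 := by
  have := lam_pos_iff h z
  constructor
  · intro h2; by_contra hc; push Not at hc; linarith [this.2 hc]
  · intro h2; by_contra hc; push Not at hc; linarith [this.1 hc]

lemma lam_nonneg_iff {p q : ℝ} (h : p < q) (z : ℍ) :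
    0 ≤ lam p q z ↔ 0 ≤ (z.re - p) * (z.re - q) + z.im ^ 2 := by
  have h1 : 0 < (q - p) * z.im := mul_pos (by linarith) z.im_pos
  rw [lam_eq h]
  constructor
  · intro h2
    by_contra hc
    push Not at hc
    have := div_neg_of_neg_of_pos hc h1
    linarith
  · intro h2; exact div_nonneg h2 h1.le

/-- Reduced words in the letters `ℤ`. -/
def Red : List ℤ → Prop
  | [] => True
  | [_] => True
  | n :: m :: w => n ≠ m ∧ Red (m :: w)

lemma Red.tail {n : ℤ} {w : List ℤ} (h : Red (n :: w)) : Red w := by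
  cases w with
  | nil => trivial
  | cons m w => exact h.2

namespace Verts
variable (V : Verts)

lemma lt (n : ℤ) : (V.a n : ℝ) < (V.a (n + 1) : ℝ) := by
  have : V.a n < V.a (n + 1) := by rcases V.gap n with h | h <;> omega
  exact_mod_cast this

lemma add_le (n : ℤ) (k : ℕ) : V.a n + k ≤ V.a (n + k) := by
  induction k with
  | zero => simp
  | succ k ih =>
    have h := V.gap (n + k)
    have e : n + ((k + 1 : ℕ) : ℤ) = n + k + 1 := by push_cast; ring
    rw [e]
    push_cast
    rcases h with h | h <;> omega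

lemma add_ge (n : ℤ) (k : ℕ) : V.a (n + k) ≤ V.a n + 2 * k := by
  induction k with
  | zero => simp
  | succ k ih =>
    have h := V.gap (n + k)
    have e : n + ((k + 1 : ℕ) : ℤ) = n + k + 1 := by push_cast; ring
    rw [e]
    push_cast
    rcases h with h | h <;> omega

lemma mono {m n : ℤ} (h : m ≤ n) : V.a m + (n - m) ≤ V.a n := by
  obtain ⟨k, hk⟩ := Int.eq_ofNat_of_zero_le (sub_nonneg.2 h)
  have := V.add_le m k
  rw [show m + (k : ℤ) = n by omega] at this
  omega

lemma mono' {m n : ℤ} (h : m ≤ n) : (V.a m : ℝ) ≤ (V.a n : ℝ) := by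
  have := V.mono h
  have : V.a m ≤ V.a n := by omega
  exact_mod_cast this

/-- Defining function of the side number `n`. -/
noncomputable def L (n : ℤ) (z : ℍ) : ℝ := lam (V.a n) (V.a (n + 1)) z
/-- Unit normal of the side number `n`. -/
noncomputable def E (n : ℤ) : V3 := ev (V.a n) (V.a (n + 1))
/-- Reflection in the side number `n`. -/
noncomputable def r (n : ℤ) : ℍ ≃ᵢ ℍ := refl (V.a n) (V.a (n + 1)) (V.lt n)
/-- The isometry of a word. -/
noncomputable def act (w : List ℤ) : ℍ ≃ᵢ ℍ := (w.map V.r).prod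
/-- The ideal polygon. -/
def P : Set ℍ := {z | ∀ n, 0 ≤ V.L n z}

@[simp] lemma act_nil : V.act [] = 1 := rfl
lemma act_cons (n : ℤ) (w : List ℤ) : V.act (n :: w) = V.r n * V.act w := by simp [act]
lemma act_append (v w : List ℤ) : V.act (v ++ w) = V.act v * V.act w := by simp [act]
lemma act_cons_apply (n : ℤ) (w : List ℤ) (z : ℍ) : V.act (n :: w) z = V.r n (V.act w z) := by
  rw [act_cons]; rfl
lemma act_append_apply (v w : List ℤ) (z : ℍ) : V.act (v ++ w) z = V.act v (V.act w z) := by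
  rw [act_append]; rfl
lemma r_r (n : ℤ) : V.r n * V.r n = 1 := refl_mul_self _ _ _
lemma r_r_apply (n : ℤ) (z : ℍ) : V.r n (V.r n z) = z := refl_refl _ _ _ z
lemma act_reverse_mul (w : List ℤ) : V.act w.reverse * V.act w = 1 := by
  induction w with
  | nil => simp
  | cons n w ih =>
    rw [List.reverse_cons, act_append, act_cons, act_cons, act_nil, mul_one, mul_assoc,
      ← mul_assoc (V.r n), r_r, one_mul, ih]
lemma act_reverse (w : List ℤ) : V.act w.reverse = (V.act w)⁻¹ :=
  eq_inv_of_mul_eq_one_left (V.act_reverse_mul w)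
lemma act_reverse_apply (w : List ℤ) (z : ℍ) : V.act w.reverse (V.act w z) = z := by
  have := congrArg (fun g : ℍ ≃ᵢ ℍ => g z) (V.act_reverse_mul w)
  exact this
lemma act_reverse_apply' (w : List ℤ) (z : ℍ) : V.act w (V.act w.reverse z) = z := by
  have := V.act_reverse_apply w.reverse z
  rwa [List.reverse_reverse] at this

lemma L_r (n : ℤ) (z : ℍ) : V.L n (V.r n z) = -V.L n z := lam_refl _ _ _ z

lemma disj {m n : ℤ} (h : m ≠ n) {z : ℍ} (hz : V.L m z ≤ 0) : 0 < V.L n z := by
  unfold L at *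
  rw [lam_nonpos_iff (V.lt m)] at hz
  rw [lam_pos_iff (V.lt n)]
  have h1 := z.im_pos
  have h1' : 0 < z.im ^ 2 := by positivity
  have hm := V.lt m
  have hn := V.lt n
  have hx1 : (V.a m : ℝ) < z.re := by
    by_contra hc; push Not at hc
    nlinarith [mul_nonneg (sub_nonneg.2 hc) (show (0 : ℝ) ≤ V.a (m + 1) - z.re by linarith)]
  have hx2 : z.re < (V.a (m + 1) : ℝ) := by
    by_contra hc; push Not at hc
    nlinarith [mul_nonneg (sub_nonneg.2 hc) (show (0 : ℝ) ≤ z.re - V.a m by linarith)]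
  rcases lt_or_gt_of_ne h with h2 | h2
  · have h3 := V.mono' (show m + 1 ≤ n by omega)
    nlinarith [mul_nonneg (show (0 : ℝ) ≤ V.a n - z.re by linarith)
      (show (0 : ℝ) ≤ V.a (n + 1) - z.re by linarith)]
  · have h3 := V.mono' (show n + 1 ≤ m by omega)
    nlinarith [mul_nonneg (show (0 : ℝ) ≤ z.re - V.a n by linarith)
      (show (0 : ℝ) ≤ z.re - V.a (n + 1) by linarith)]

lemma nest {n : ℤ} {w : List ℤ} (h : Red (n :: w)) {p : ℍ} (hp : p ∈ V.P) :
    V.L n (V.act (n :: w) p) ≤ 0 := by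
  induction w generalizing n with
  | nil =>
    rw [act_cons_apply, L_r]
    have := hp n
    simpa using this
  | cons m w ih =>
    have h1 := ih h.2
    have h2 := V.disj (Ne.symm h.1) h1
    rw [act_cons_apply, L_r]
    linarith

lemma strict {w : List ℤ} (h : Red w) {p : ℍ} (hp : p ∈ V.P) (hq : V.act w p ∈ V.P) :
    w = [] ∨ ∃ n, w = [n] ∧ V.L n p = 0 := by
  match w, h with
  | [], _ => exact Or.inl rfl
  | [n], _ =>
    right
    refine ⟨n, rfl, ?_⟩
    have h1 := hq n
    rw [act_cons_apply, L_r] at h1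
    have h2 := hp n
    simp at h1
    linarith
  | n :: m :: w, h =>
    exfalso
    have h1 := V.nest h.2 hp
    have h2 := V.disj (Ne.symm h.1) h1
    have h3 := hq n
    rw [act_cons_apply, L_r] at h3
    linarith

end Verts

lemma reduce (w : List ℤ) : ∃ w', Red w' ∧ (∀ V : Verts, V.act w' = V.act w) ∧
    w'.length % 2 = w.length % 2 := by
  induction w with
  | nil => exact ⟨[], trivial, fun _ => rfl, rfl⟩
  | cons n w ih =>
    obtain ⟨w', hr, ha, hl⟩ := ih
    match w', hr, ha, hl with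
    | [], _, ha, hl =>
      refine ⟨[n], trivial, fun V => ?_, ?_⟩
      · rw [Verts.act_cons, ha V, Verts.act_cons]
      · simp at hl ⊢; omega
    | m :: w'', hr, ha, hl =>
      by_cases hnm : n = m
      · subst hnm
        refine ⟨w'', hr.tail, fun V => ?_, ?_⟩
        · rw [Verts.act_cons, ← ha V, Verts.act_cons, ← mul_assoc, V.r_r, one_mul]
        · simp at hl ⊢; omega
      · refine ⟨n :: m :: w'', ⟨hnm, hr⟩, fun V => ?_, ?_⟩
        · rw [Verts.act_cons, ha V, Verts.act_cons]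
        · simp at hl ⊢; omega

/-- The base point. -/
noncomputable def p0 : ℍ := ⟨⟨0, 10⟩, by norm_num⟩

lemma p0_re : p0.re = 0 := rfl
lemma p0_im : p0.im = 10 := rfl

namespace Verts
variable (V : Verts)

/-- The strictness of the fundamental domain for arbitrary words. -/
lemma strict' (w : List ℤ) {p q : ℍ} (hp : p ∈ V.P) (hq : q ∈ V.P) (h : V.act w p = q) :
    p = q ∧ ((w.length % 2 = 0 ∧ ∀ V' : Verts, V'.act w = 1) ∨
      (∃ n, w.length % 2 = 1 ∧ V.L n p = 0 ∧ ∀ V' : Verts, V'.act w = V'.r n)) := by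
  obtain ⟨w', hr, ha, hl⟩ := reduce w
  rw [← ha V] at h
  rcases V.strict hr hp (by rw [h]; exact hq) with h1 | ⟨n, h1, h2⟩
  · subst h1
    refine ⟨h, Or.inl ⟨by simpa using hl.symm, fun V' => (ha V').symm⟩⟩
  · subst h1
    refine ⟨?_, Or.inr ⟨n, by simpa using hl.symm, h2, fun V' => ?_⟩⟩
    · rw [← h, act_cons_apply]
      exact (refl_fix _ _ (V.lt n) h2).symm
    · rw [← ha V', act_cons, act_nil, mul_one]

lemma L_p0 (n : ℤ) : 0 < V.L n p0 := by
  unfold L
  rw [lam_pos_iff (V.lt n), p0_re, p0_im]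
  rcases V.gap n with h | h
  · rw [h]; push_cast; nlinarith [sq_nonneg ((V.a n : ℝ) + 1 / 2)]
  · rw [h]; push_cast; nlinarith [sq_nonneg ((V.a n : ℝ) + 1)]

lemma p0_mem : p0 ∈ V.P := fun n => (V.L_p0 n).le

lemma red_inj {v w : List ℤ} (hv : Red v) (hw : Red w) (h : V.act v p0 = V.act w p0) :
    v = w := by
  induction v generalizing w with
  | nil =>
    cases w with
    | nil => rfl
    | cons n w =>
      exfalso
      have h1 := V.nest hw V.p0_mem
      rw [← h] at h1
      have := V.L_p0 n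
      simp at h1
      linarith
  | cons n v ih =>
    cases w with
    | nil =>
      exfalso
      have h1 := V.nest hv V.p0_mem
      rw [h] at h1
      have := V.L_p0 n
      simp at h1
      linarith
    | cons m w =>
      have h1 := V.nest hv V.p0_mem
      have h2 := V.nest hw V.p0_mem
      rw [h] at h1
      by_cases hnm : n = m
      · subst hnm
        rw [act_cons_apply, act_cons_apply] at h
        have := ih hv.tail hw.tail ((V.r n).injective h)
        rw [this]
      · exfalso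
        have := V.disj hnm h1
        linarith

/-- Integrality of ten times the orbit of the base point. -/
lemma integral (w : List ℤ) : ∃ A B C : ℤ, pt (V.act w p0) = ![(A : ℝ) / 10, B / 10, C / 10] := by
  induction w with
  | nil =>
    refine ⟨1, 0, 100, ?_⟩
    ext i
    fin_cases i
    · show pt p0 0 = _
      rw [pt0, p0_im]; simp
    · show pt p0 1 = _
      rw [pt1, p0_im, p0_re]; simp
    · show pt p0 2 = _
      rw [pt2, p0_im, p0_re]; norm_num
  | cons n w ih =>
    obtain ⟨A, B, C, h⟩ := ih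
    have hq := V.gap n
    rw [act_cons_apply, r, pt_refl]
    have hl : lam (V.a n) (V.a (n + 1)) (V.act w p0)
        = Bf (ev (V.a n) (V.a (n + 1))) ![(A : ℝ) / 10, B / 10, C / 10] := by
      unfold lam; rw [h]
    rw [hl, h]
    set a := V.a n
    rcases hq with hq | hq
    · rw [hq]
      have e : Bf (ev a ((a + 1 : ℤ) : ℝ)) ![(A : ℝ) / 10, B / 10, C / 10]
          = ((-(2 * a + 1) * B + C + a * (a + 1) * A : ℤ) : ℝ) / 10 := by
        simp [Bf, ev]
        ring
      rw [e]
      refine ⟨A + 4 * (-(2 * a + 1) * B + C + a * (a + 1) * A),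
        B + 2 * (2 * a + 1) * (-(2 * a + 1) * B + C + a * (a + 1) * A),
        C + 4 * (a * (a + 1)) * (-(2 * a + 1) * B + C + a * (a + 1) * A), ?_⟩
      ext i
      fin_cases i <;> simp [ev] <;> ring
    · rw [hq]
      have e : Bf (ev a ((a + 2 : ℤ) : ℝ)) ![(A : ℝ) / 10, B / 10, C / 10]
          = ((-(2 * a + 2) * B + C + a * (a + 2) * A : ℤ) : ℝ) / 20 := by
        simp [Bf, ev]
        ring
      rw [e]
      refine ⟨A + (-(2 * a + 2) * B + C + a * (a + 2) * A),
        B + (a + 1) * (-(2 * a + 2) * B + C + a * (a + 2) * A),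
        C + (a * (a + 2)) * (-(2 * a + 2) * B + C + a * (a + 2) * A), ?_⟩
      ext i
      fin_cases i <;> simp [ev] <;> ring

lemma act_eq_of_p0 {v w : List ℤ} (h : V.act v p0 = V.act w p0) : V.act v = V.act w := by
  obtain ⟨v', hv, hav, -⟩ := reduce v
  obtain ⟨w', hw, haw, -⟩ := reduce w
  rw [← hav V, ← haw V] at h ⊢
  rw [V.red_inj hv hw h]

lemma finite0 (K : ℝ) :
    {g : ℍ ≃ᵢ ℍ | (∃ w, V.act w = g) ∧ dist p0 (g p0) ≤ K}.Finite := by
  set M : ℤ := ⌈400 * Real.cosh K⌉ with hM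
  have hbox : ((Set.Icc (-M) M) ×ˢ ((Set.Icc (-M) M) ×ˢ (Set.Icc (-M) M))).Finite :=
    (Set.finite_Icc _ _).prod ((Set.finite_Icc _ _).prod (Set.finite_Icc _ _))
  have hS := hbox.image (fun t : ℤ × ℤ × ℤ => (![(t.1 : ℝ) / 10, t.2.1 / 10, t.2.2 / 10] : V3))
  apply Set.Finite.of_finite_image (f := fun g : ℍ ≃ᵢ ℍ => pt (g p0))
  · apply hS.subset
    rintro _ ⟨g, ⟨⟨w, rfl⟩, hK⟩, rfl⟩
    obtain ⟨A, B, C, h⟩ := V.integral w
    have hc : cd p0 (V.act w p0) ≤ Real.cosh K := by
      rw [cd_eq]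
      apply Real.cosh_le_cosh.2
      rw [abs_of_nonneg dist_nonneg]
      exact hK.trans (le_abs_self _)
    have hself := pt_self (V.act w p0)
    have hpos := pt0_pos (V.act w p0)
    have h0 := pt0 p0
    have h1 := pt1 p0
    have h2 := pt2 p0
    rw [p0_re, p0_im] at *
    unfold cd Bf at hc
    unfold Bf at hself
    rw [h0, h1, h2, h] at hc
    rw [h] at hself hpos
    simp at hc hself hpos
    have hK1 : 1 ≤ Real.cosh K := Real.one_le_cosh K
    have hposR : (0 : ℝ) < A := by exact_mod_cast hpos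
    have hAC : (A : ℝ) * C = 100 + B ^ 2 := by linarith [hself]
    have hC : (0 : ℝ) < C := by
      by_contra hcc; push Not at hcc
      nlinarith [mul_nonneg hposR.le (neg_nonneg.2 hcc), sq_nonneg (B : ℝ)]
    have hA2 : (A : ℝ) ≤ 400 * Real.cosh K := by linarith
    have hC2 : (C : ℝ) ≤ 400 * Real.cosh K := by linarith
    have hCA : (C : ℝ) + 100 * A ≤ 200 * Real.cosh K := by linarith
    have hB2 : |(B : ℝ)| ≤ 400 * Real.cosh K := by
      apply abs_le_of_sq_le_sq _ (by positivity)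
      nlinarith [mul_nonneg hposR.le hC.le, sq_nonneg ((A : ℝ) - C)]
    have hMr : 400 * Real.cosh K ≤ M := Int.le_ceil _
    have hA3 : A ≤ M := by exact_mod_cast hA2.trans hMr
    have hC3 : C ≤ M := by exact_mod_cast hC2.trans hMr
    have hB3 : |B| ≤ M := by exact_mod_cast hB2.trans hMr
    have hA4 : 0 < A := by exact_mod_cast hpos
    have hC4 : 0 < C := by exact_mod_cast hC
    refine ⟨(A, B, C), ⟨⟨?_, hA3⟩, ⟨neg_le_of_abs_le hB3, le_of_abs_le hB3⟩,
      ⟨?_, hC3⟩⟩, h.symm⟩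
    · show -M ≤ A
      omega
    · show -M ≤ C
      omega
  · rintro _ ⟨⟨v, rfl⟩, -⟩ _ ⟨⟨w, rfl⟩, -⟩ h
    exact V.act_eq_of_p0 (pt_inj h)

lemma finite_z (z : ℍ) (K : ℝ) :
    {g : ℍ ≃ᵢ ℍ | (∃ w, V.act w = g) ∧ dist p0 (g z) ≤ K}.Finite := by
  apply (V.finite0 (K + dist p0 z)).subset
  rintro g ⟨hw, hg⟩
  refine ⟨hw, ?_⟩
  calc dist p0 (g p0) ≤ dist p0 (g z) + dist (g z) (g p0) := dist_triangle _ _ _
    _ ≤ K + dist p0 z := by rw [g.dist_eq, dist_comm z p0]; linarith

lemma exists_fold (z : ℍ) : ∃ (w : List ℤ) (p : ℍ), p ∈ V.P ∧ V.act w p = z := by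
  have hfin := V.finite_z z (dist p0 z)
  obtain ⟨g, ⟨⟨w, rfl⟩, hg⟩, hmin⟩ := Set.exists_min_image _
    (fun g : ℍ ≃ᵢ ℍ => dist p0 (g z)) hfin ⟨1, ⟨[], rfl⟩, le_refl _⟩
  have hmin' : ∀ v, dist p0 (V.act w z) ≤ dist p0 (V.act v z) := by
    intro v
    by_cases hc : dist p0 (V.act v z) ≤ dist p0 z
    · exact hmin _ ⟨⟨v, rfl⟩, hc⟩
    · push Not at hc; linarith
  refine ⟨w.reverse, V.act w z, ?_, V.act_reverse_apply w z⟩
  intro n
  by_contra hc
  push Not at hc
  have h1 := hmin' (n :: w)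
  rw [act_cons_apply] at h1
  have h2 : cd (V.act w z) p0 ≤ cd (V.r n (V.act w z)) p0 := by
    rw [cd_comm, cd_comm (V.r n _), cd_eq, cd_eq]
    apply Real.cosh_le_cosh.2
    rw [abs_of_nonneg dist_nonneg, abs_of_nonneg dist_nonneg]
    exact h1
  have h3 := cd_refl _ _ (V.lt n) (V.act w z) p0
  have h4 := mul_pos (neg_pos.2 hc) (V.L_p0 n)
  unfold r at h2
  rw [h3] at h2
  unfold L at h4 hc
  nlinarith

/-- The polygon is the Dirichlet domain of the base point. -/
lemma dirichlet (w : List ℤ) {q : ℍ} (hq : q ∈ V.P) : cd p0 q ≤ cd (V.act w p0) q := by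
  obtain ⟨w', hr, ha, -⟩ := reduce w
  rw [← ha V]
  clear ha
  induction w' with
  | nil => simp
  | cons n w' ih =>
    have h1 := ih hr.tail
    have h2 : 0 ≤ V.L n (V.act w' p0) := by
      cases w' with
      | nil => exact (V.L_p0 n).le
      | cons m w'' => exact (V.disj (Ne.symm hr.1) (V.nest hr.2 V.p0_mem)).le
    have h3 := cd_refl _ _ (V.lt n) (V.act w' p0) q
    have h4 := mul_nonneg h2 (hq n)
    rw [act_cons_apply]
    unfold r
    rw [h3]
    unfold L at h4
    nlinarith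

lemma dist_act_p0_le (w : List ℤ) {q : ℍ} (hq : q ∈ V.P) :
    dist (V.act w p0) (V.act w q) ≤ dist p0 (V.act w q) := by
  have h1 := V.dirichlet w.reverse hq
  have h2 : cd (V.act w.reverse p0) q = cd p0 (V.act w q) := by
    rw [← cd_isom (V.act w) (V.act w.reverse p0) q, V.act_reverse_apply']
  rw [h2, cd_eq, cd_eq] at h1
  have h3 := Real.cosh_le_cosh.1 h1
  rw [abs_of_nonneg dist_nonneg, abs_of_nonneg dist_nonneg] at h3
  rw [(V.act w).dist_eq]
  exact h3

/-- Only finitely many translates of the polygon meet a ball. -/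
lemma locally_finite (z : ℍ) (K : ℝ) :
    {w : List ℤ | Red w ∧ ∃ q ∈ V.P, dist z (V.act w q) ≤ K}.Finite := by
  have h := V.finite0 (2 * (dist p0 z + K))
  apply Set.Finite.of_finite_image (f := V.act)
  · apply h.subset
    rintro _ ⟨w, ⟨-, q, hq, hd⟩, rfl⟩
    refine ⟨⟨w, rfl⟩, ?_⟩
    have h1 := V.dist_act_p0_le w hq
    have h2 : dist p0 (V.act w q) ≤ dist p0 z + K := (dist_triangle _ z _).trans (by linarith)
    calc dist p0 (V.act w p0) ≤ dist p0 (V.act w q) + dist (V.act w q) (V.act w p0) :=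
          dist_triangle _ _ _
      _ ≤ 2 * (dist p0 z + K) := by rw [dist_comm (V.act w q)]; linarith
  · rintro v ⟨hv, -⟩ w ⟨hw, -⟩ h
    exact V.red_inj hv hw (by rw [h])

/-- The even words. -/
noncomputable def Gam : Subgroup (ℍ ≃ᵢ ℍ) where
  carrier := {g | ∃ w : List ℤ, w.length % 2 = 0 ∧ V.act w = g}
  mul_mem' := by
    rintro _ _ ⟨v, hv, rfl⟩ ⟨w, hw, rfl⟩
    exact ⟨v ++ w, by rw [List.length_append]; omega, V.act_append v w⟩
  one_mem' := ⟨[], rfl, rfl⟩
  inv_mem' := by
    rintro _ ⟨v, hv, rfl⟩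
    exact ⟨v.reverse, by rw [List.length_reverse]; exact hv, V.act_reverse v⟩

end Verts

end Pool.Agent.H26R3
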