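import Pool.Agent.H26R3.SlsSurf

set_option autoImplicit false
open UpperHalfPlane

namespace Pool.Agent.H26R3

namespace Verts
variable (V V' : Verts)

lemma exists_idx (x : ℝ) : ∃ n : ℤ, (V.a n : ℝ) ≤ x ∧ x < V.a (n + 1) := by
  have hb : ∃ b : ℤ, ∀ z : ℤ, (V.a z : ℝ) ≤ x → z ≤ b := by
    refine ⟨max 0 (⌈x⌉ - V.a 0), fun z hz => ?_⟩
    by_contra hc
    push Not at hc
    have h1 : 0 ≤ z := by omega
    have h2 := V.mono h1
    have h3 : ⌈x⌉ < V.a z := by omega
    have h4 : x ≤ ⌈x⌉ := Int.le_ceil x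
    have h5 : (⌈x⌉ : ℝ) < V.a z := by exact_mod_cast h3
    linarith
  have hne : ∃ z : ℤ, (V.a z : ℝ) ≤ x := by
    refine ⟨min 0 (⌊x⌋ - V.a 0), ?_⟩
    have h1 : min 0 (⌊x⌋ - V.a 0) ≤ 0 := min_le_left _ _
    have h2 := V.mono h1
    have h3 : V.a (min 0 (⌊x⌋ - V.a 0)) ≤ ⌊x⌋ := by omega
    have h4 : (⌊x⌋ : ℝ) ≤ x := Int.floor_le x
    have h5 : (V.a (min 0 (⌊x⌋ - V.a 0)) : ℝ) ≤ ⌊x⌋ := by exact_mod_cast h3
    linarith
  obtain ⟨n, hn, hmax⟩ := Int.exists_greatest_of_bdd hb hne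
  refine ⟨n, hn, ?_⟩
  by_contra hc
  push Not at hc
  have := hmax _ hc
  omega

/-- The index of the side below or above `x`. -/
noncomputable def idx (x : ℝ) : ℤ := (V.exists_idx x).choose
lemma idx_le (x : ℝ) : (V.a (V.idx x) : ℝ) ≤ x := (V.exists_idx x).choose_spec.1
lemma lt_idx (x : ℝ) : x < (V.a (V.idx x + 1) : ℝ) := (V.exists_idx x).choose_spec.2

lemma idx_unique {x : ℝ} {n : ℤ} (h1 : (V.a n : ℝ) ≤ x) (h2 : x < V.a (n + 1)) : V.idx x = n := by
  by_contra hc
  rcases lt_or_gt_of_ne hc with h | h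
  · have h3 := V.mono' (show V.idx x + 1 ≤ n by omega)
    have := V.lt_idx x
    linarith
  · have h3 := V.mono' (show n + 1 ≤ V.idx x by omega)
    have := V.idx_le x
    linarith

/-- Half of the gap function. -/
noncomputable def g (n : ℤ) : ℝ := (V.a (n + 1) : ℝ) - V.a n

lemma g_eq (n : ℤ) : V.g n = 1 ∨ V.g n = 2 := by
  unfold g
  rcases V.gap n with h | h
  · left; rw [h]; push_cast; ring
  · right; rw [h]; push_cast; ring

lemma g_pos (n : ℤ) : 0 < V.g n := by rcases V.g_eq n with h | h <;> rw [h] <;> norm_num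

/-- The height of the side number `n`, normalised. -/
noncomputable def hs (n : ℤ) (x : ℝ) : ℝ := √((x - V.a n) * (V.a (n + 1) - x)) / V.g n

lemma hs_nonneg (n : ℤ) (x : ℝ) : 0 ≤ V.hs n x := div_nonneg (Real.sqrt_nonneg _) (V.g_pos n).le

/-- The comparison map between polygons, over the side number `n`. -/
noncomputable def phi (n : ℤ) (z : ℍ) : ℍ :=
  ⟨⟨V'.a n + V'.g n * (z.re - V.a n) / V.g n,
    max (z.im + (V'.g n - V.g n) * V.hs n z.re) (z.im / 4)⟩, by
      have := z.im_pos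
      exact lt_max_of_lt_right (by positivity)⟩

lemma phi_re (n : ℤ) (z : ℍ) :
    (phi V V' n z).re = V'.a n + V'.g n * (z.re - V.a n) / V.g n := rfl
lemma phi_im (n : ℤ) (z : ℍ) :
    (phi V V' n z).im = max (z.im + (V'.g n - V.g n) * V.hs n z.re) (z.im / 4) := rfl

lemma _root_.Pool.Agent.H26R3.cont_mk {X : Type} [TopologicalSpace X] {f g : X → ℝ}
    (hf : Continuous f) (hg : Continuous g) : Continuous (fun x => (⟨f x, g x⟩ : ℂ)) := by
  have h : (fun x => (⟨f x, g x⟩ : ℂ)) = fun x => ((f x : ℝ) : ℂ) + ((g x : ℝ) : ℂ) * Complex.I := by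
    funext x
    apply Complex.ext <;> simp
  rw [h]
  exact (Complex.continuous_ofReal.comp hf).add
    ((Complex.continuous_ofReal.comp hg).mul continuous_const)

lemma phi_cont (n : ℤ) : Continuous (phi V V' n) := by
  have h1 : Continuous (fun z : ℍ => z.re) := UpperHalfPlane.continuous_re
  have h2 : Continuous (fun z : ℍ => z.im) := UpperHalfPlane.continuous_im
  apply Continuous.upperHalfPlaneMk
  apply cont_mk
  · exact continuous_const.add ((continuous_const.mul (h1.sub continuous_const)).div_const _)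
  · apply Continuous.max
    · apply h2.add
      apply continuous_const.mul
      unfold hs
      apply Continuous.div_const
      exact Real.continuous_sqrt.comp ((h1.sub continuous_const).mul (continuous_const.sub h1))
    · exact h2.div_const _

/-- The comparison map between the polygons. -/
noncomputable def phiT (z : ℍ) : ℍ := phi V V' (V.idx z.re) z

lemma phi_right (n : ℤ) {z : ℍ} (h : z.re = V.a (n + 1)) : phi V V' n z = phi V V' (n + 1) z := by
  have hg := (V.g_pos n).ne'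
  apply UpperHalfPlane.ext_re_im
  · rw [phi_re, phi_re, h]
    have e1 : (V.a (n + 1) : ℝ) - V.a n = V.g n := rfl
    have e2 : (V'.a (n + 1) : ℝ) - V'.a n = V'.g n := rfl
    rw [e1, sub_self, mul_zero, zero_div, add_zero, mul_div_cancel_right₀ _ hg]
    linarith
  · rw [phi_im, phi_im, h]
    unfold hs
    simp

lemma phiT_eq {n : ℤ} {z : ℍ} (h1 : (V.a n : ℝ) ≤ z.re) (h2 : z.re ≤ V.a (n + 1)) :
    phiT V V' z = phi V V' n z := by
  unfold phiT
  rcases h2.lt_or_eq with h2 | h2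
  · rw [V.idx_unique h1 h2]
  · have h3 : V.idx z.re = n + 1 := by
      apply V.idx_unique h2.ge
      rw [h2]
      exact V.lt (n + 1)
    rw [h3]
    exact (phi_right V V' n h2).symm

lemma phiT_cont : Continuous (phiT V V') := by
  have hlf : LocallyFinite (fun n : ℤ => Set.Icc (V.a n : ℝ) (V.a (n + 1))) := by
    intro x
    refine ⟨Set.Ioo (x - 1) (x + 1), Ioo_mem_nhds (by linarith) (by linarith), ?_⟩
    apply (Set.finite_Icc (V.idx (x - 1) - 1) (V.idx (x + 1) + 1)).subset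
    rintro n ⟨y, ⟨h1, h2⟩, h3, h4⟩
    constructor
    · by_contra hc
      push Not at hc
      have h5 := V.mono' (show n + 1 ≤ V.idx (x - 1) by omega)
      have h6 := V.idx_le (x - 1)
      linarith
    · by_contra hc
      push Not at hc
      have h5 := V.mono' (show V.idx (x + 1) + 1 ≤ n by omega)
      have h6 := V.lt_idx (x + 1)
      linarith
  have hlf2 := hlf.preimage_continuous UpperHalfPlane.continuous_re
  apply hlf2.continuous
  · ext z
    simp only [Set.mem_iUnion, Set.mem_preimage, Set.mem_univ, iff_true]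
    exact ⟨V.idx z.re, V.idx_le _, (V.lt_idx _).le⟩
  · intro n
    exact isClosed_Icc.preimage UpperHalfPlane.continuous_re
  · intro n
    apply (phi_cont V V' n).continuousOn.congr
    rintro z ⟨h1, h2⟩
    exact phiT_eq V V' h1 h2

/-- Membership in the polygon. -/
lemma mem_P_iff (z : ℍ) : z ∈ V.P ↔ ∀ n, 0 ≤ (z.re - V.a n) * (z.re - V.a (n + 1)) + z.im ^ 2 := by
  constructor
  · intro h n
    exact (lam_nonneg_iff (V.lt n) z).1 (h n)
  · intro h n
    exact (lam_nonneg_iff (V.lt n) z).2 (h n)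

lemma mem_P_of_cell {n : ℤ} {z : ℍ} (h1 : (V.a n : ℝ) ≤ z.re) (h2 : z.re ≤ V.a (n + 1))
    (h : 0 ≤ (z.re - V.a n) * (z.re - V.a (n + 1)) + z.im ^ 2) : z ∈ V.P := by
  rw [mem_P_iff]
  intro m
  rcases lt_trichotomy m n with h3 | h3 | h3
  · have h4 := V.mono' (show m + 1 ≤ n by omega)
    have h5 := V.lt m
    have := mul_nonneg (show (0 : ℝ) ≤ z.re - V.a m by linarith)
      (show (0 : ℝ) ≤ z.re - V.a (m + 1) by linarith)
    positivity
  · rw [h3]; exact h
  · have h4 := V.mono' (show n + 1 ≤ m by omega)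
    have h5 := V.lt m
    have := mul_nonneg (show (0 : ℝ) ≤ V.a m - z.re by linarith)
      (show (0 : ℝ) ≤ V.a (m + 1) - z.re by linarith)
    nlinarith [sq_nonneg z.im]

lemma isClosed_P : IsClosed V.P := by
  have h : V.P = ⋂ n : ℤ, {z : ℍ | 0 ≤ (z.re - V.a n) * (z.re - V.a (n + 1)) + z.im ^ 2} := by
    ext z
    rw [mem_P_iff]
    simp
  rw [h]
  apply isClosed_iInter
  intro n
  have h1 : Continuous (fun z : ℍ => z.re) := UpperHalfPlane.continuous_re
  have h2 : Continuous (fun z : ℍ => z.im) := UpperHalfPlane.continuous_im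
  exact isClosed_le continuous_const
    (((h1.sub continuous_const).mul (h1.sub continuous_const)).add (h2.pow 2))

/-- In the polygon over the side `n`, the height is at least the height of the side. -/
lemma hs_le {n : ℤ} {z : ℍ} (h : 0 ≤ (z.re - V.a n) * (z.re - V.a (n + 1)) + z.im ^ 2) :
    V.g n * V.hs n z.re ≤ z.im := by
  unfold hs
  rw [mul_div_cancel₀ _ (V.g_pos n).ne']
  apply Real.sqrt_le_iff.2
  exact ⟨z.im_pos.le, by nlinarith⟩

lemma hs_sq {n : ℤ} {x : ℝ} (h1 : (V.a n : ℝ) ≤ x) (h2 : x ≤ V.a (n + 1)) :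
    (V.g n * V.hs n x) ^ 2 = (x - V.a n) * (V.a (n + 1) - x) := by
  unfold hs
  rw [mul_div_cancel₀ _ (V.g_pos n).ne']
  exact Real.sq_sqrt (mul_nonneg (by linarith) (by linarith))

lemma phi_im' {n : ℤ} {z : ℍ} (h : 0 ≤ (z.re - V.a n) * (z.re - V.a (n + 1)) + z.im ^ 2) :
    (phi V V' n z).im = z.im + (V'.g n - V.g n) * V.hs n z.re := by
  rw [phi_im]
  apply max_eq_left
  have h1 := V.hs_le h
  have h2 := V.hs_nonneg n z.re
  have h3 := z.im_pos
  rcases V.g_eq n with hg | hg <;> rcases V'.g_eq n with hg' | hg' <;> rw [hg] at h1 <;>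
    rw [hg, hg'] <;> linarith

lemma phi_re_mem {n : ℤ} {z : ℍ} (h1 : (V.a n : ℝ) ≤ z.re) (h2 : z.re ≤ V.a (n + 1)) :
    (V'.a n : ℝ) ≤ (phi V V' n z).re ∧ (phi V V' n z).re ≤ V'.a (n + 1) := by
  rw [phi_re]
  have hg := V.g_pos n
  have hg' := V'.g_pos n
  have e : (V'.a (n + 1) : ℝ) = V'.a n + V'.g n := by unfold g; ring
  have e2 : (V.a (n + 1) : ℝ) = V.a n + V.g n := by unfold g; ring
  constructor
  · have := div_nonneg (mul_nonneg hg'.le (sub_nonneg.2 h1)) hg.le
    linarith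
  · rw [e, add_le_add_iff_left, div_le_iff₀ hg]
    apply mul_le_mul_of_nonneg_left _ hg'.le
    linarith

lemma phi_hs {n : ℤ} {z : ℍ} :
    V'.hs n (phi V V' n z).re = V.hs n z.re := by
  have hg := V.g_pos n
  have hg' := V'.g_pos n
  have e : (V'.a (n + 1) : ℝ) = V'.a n + V'.g n := by unfold g; ring
  have e2 : (V.a (n + 1) : ℝ) = V.a n + V.g n := by unfold g; ring
  unfold hs
  rw [phi_re, e, e2]
  have k : (V'.a n + V'.g n * (z.re - V.a n) / V.g n - V'.a n)
      * (V'.a n + V'.g n - (V'.a n + V'.g n * (z.re - V.a n) / V.g n))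
      = (V'.g n / V.g n) ^ 2 * ((z.re - V.a n) * (V.a n + V.g n - z.re)) := by
    field_simp
    ring
  rw [k, Real.sqrt_mul (by positivity), Real.sqrt_sq (by positivity)]
  field_simp

lemma phi_num {n : ℤ} {z : ℍ} (h1 : (V.a n : ℝ) ≤ z.re) (h2 : z.re ≤ V.a (n + 1)) :
    ((phi V V' n z).re - V'.a n) * ((phi V V' n z).re - V'.a (n + 1))
      = -(V'.g n * V.hs n z.re) ^ 2 := by
  obtain ⟨h3, h4⟩ := phi_re_mem V V' h1 h2
  rw [← phi_hs V V', V'.hs_sq h3 h4]
  ring

lemma phi_mem {n : ℤ} {z : ℍ} (h1 : (V.a n : ℝ) ≤ z.re) (h2 : z.re ≤ V.a (n + 1))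
    (h : 0 ≤ (z.re - V.a n) * (z.re - V.a (n + 1)) + z.im ^ 2) : phi V V' n z ∈ V'.P := by
  obtain ⟨h3, h4⟩ := phi_re_mem V V' h1 h2
  apply V'.mem_P_of_cell h3 h4
  rw [phi_num V V' h1 h2, phi_im' V V' h]
  have h5 := V.hs_le h
  have h6 := V.hs_nonneg n z.re
  have h7 := V'.g_pos n
  nlinarith [mul_nonneg h7.le h6]

lemma phi_side {n : ℤ} {z : ℍ} (h1 : (V.a n : ℝ) ≤ z.re) (h2 : z.re ≤ V.a (n + 1))
    (h : (z.re - V.a n) * (z.re - V.a (n + 1)) + z.im ^ 2 = 0) : V'.L n (phi V V' n z) = 0 := by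
  have h5 : V.g n * V.hs n z.re = z.im := by
    have h6 := V.hs_sq h1 h2
    have h7 := V.hs_nonneg n z.re
    have h8 := V.g_pos n
    have h9 : (V.g n * V.hs n z.re) ^ 2 = z.im ^ 2 := by rw [h6]; linarith
    exact (sq_eq_sq₀ (by positivity) z.im_pos.le).1 h9
  unfold L
  rw [lam_eq (V'.lt n), phi_num V V' h1 h2, phi_im' V V' h.ge]
  have : -(V'.g n * V.hs n z.re) ^ 2 + (z.im + (V'.g n - V.g n) * V.hs n z.re) ^ 2 = 0 := by
    rw [← h5]; ring
  rw [this, zero_div]

lemma phi_phi {n : ℤ} {z : ℍ} (h1 : (V.a n : ℝ) ≤ z.re) (h2 : z.re ≤ V.a (n + 1))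
    (h : 0 ≤ (z.re - V.a n) * (z.re - V.a (n + 1)) + z.im ^ 2) :
    phi V' V n (phi V V' n z) = z := by
  have hm := phi_mem V V' h1 h2 h
  rw [mem_P_iff] at hm
  have hg := (V.g_pos n).ne'
  have hg' := (V'.g_pos n).ne'
  apply UpperHalfPlane.ext_re_im
  · rw [phi_re, phi_re]
    field_simp
    ring
  · rw [phi_im' V' V (hm n), phi_hs, phi_im' V V' h]
    ring

lemma phiT_mem {z : ℍ} (hz : z ∈ V.P) : phiT V V' z ∈ V'.P := by
  rw [phiT_eq V V' (V.idx_le z.re) (V.lt_idx z.re).le]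
  exact phi_mem V V' (V.idx_le z.re) (V.lt_idx z.re).le ((V.mem_P_iff z).1 hz _)

lemma phiT_phiT {z : ℍ} (hz : z ∈ V.P) : phiT V' V (phiT V V' z) = z := by
  have h1 := V.idx_le z.re
  have h2 := (V.lt_idx z.re).le
  rw [phiT_eq V V' h1 h2]
  obtain ⟨h3, h4⟩ := phi_re_mem V V' h1 h2
  rw [phiT_eq V' V h3 h4]
  exact phi_phi V V' h1 h2 ((V.mem_P_iff z).1 hz _)

lemma side_re {n : ℤ} {z : ℍ} (h : V.L n z = 0) :
    (V.a n : ℝ) ≤ z.re ∧ z.re ≤ V.a (n + 1) ∧
      (z.re - V.a n) * (z.re - V.a (n + 1)) + z.im ^ 2 = 0 := by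
  have h1 : (z.re - V.a n) * (z.re - V.a (n + 1)) + z.im ^ 2 = 0 :=
    le_antisymm ((lam_nonpos_iff (V.lt n) z).1 h.le) ((lam_nonneg_iff (V.lt n) z).1 h.ge)
  have h2 := V.lt n
  have h3 := z.im_pos
  refine ⟨?_, ?_, h1⟩
  · by_contra hc; push Not at hc
    nlinarith [mul_nonneg (sub_nonneg.2 hc.le) (show (0 : ℝ) ≤ V.a (n + 1) - z.re by linarith)]
  · by_contra hc; push Not at hc
    nlinarith [mul_nonneg (sub_nonneg.2 hc.le) (show (0 : ℝ) ≤ z.re - V.a n by linarith)]

lemma phiT_side {n : ℤ} {z : ℍ} (h : V.L n z = 0) : V'.L n (phiT V V' z) = 0 := by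
  obtain ⟨h1, h2, h3⟩ := V.side_re h
  rw [phiT_eq V V' h1 h2]
  exact phi_side V V' h1 h2 h3

/-- A chosen word folding a point into the polygon. -/
noncomputable def fw (z : ℍ) : List ℤ := (V.exists_fold z).choose
/-- The folded point. -/
noncomputable def fp (z : ℍ) : ℍ := (V.exists_fold z).choose_spec.choose
lemma fp_mem (z : ℍ) : V.fp z ∈ V.P := (V.exists_fold z).choose_spec.choose_spec.1
lemma fw_fp (z : ℍ) : V.act (V.fw z) (V.fp z) = z := (V.exists_fold z).choose_spec.choose_spec.2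

/-- The equivariant comparison homeomorphism. -/
noncomputable def Phi (z : ℍ) : ℍ := V'.act (V.fw z) (phiT V V' (V.fp z))

lemma Phi_act (w : List ℤ) {p : ℍ} (hp : p ∈ V.P) :
    Phi V V' (V.act w p) = V'.act w (phiT V V' p) := by
  set z := V.act w p with hz
  have h1 : V.act ((V.fw z).reverse ++ w) p = V.fp z := by
    rw [act_append_apply, ← hz]
    nth_rewrite 2 [← V.fw_fp z]
    rw [act_reverse_apply]
  obtain ⟨h2, h3⟩ := V.strict' _ hp (V.fp_mem z) h1
  unfold Phi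
  rw [← h2]
  have h5 : V'.act w (phiT V V' p)
      = V'.act (V.fw z) (V'.act ((V.fw z).reverse ++ w) (phiT V V' p)) := by
    rw [act_append_apply, act_reverse_apply']
  rw [h5]
  rcases h3 with h3 | ⟨n, -, h3, h4⟩
  · rw [h3.2 V']; rfl
  · rw [h4 V']
    congr 1
    exact (refl_fix _ _ (V'.lt n) (phiT_side V V' h3)).symm

lemma Phi_Phi (z : ℍ) : Phi V' V (Phi V V' z) = z := by
  obtain ⟨w, p, hp, rfl⟩ := V.exists_fold z
  rw [Phi_act V V' w hp, Phi_act V' V w (phiT_mem V V' hp), phiT_phiT V V' hp]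

lemma Phi_equiv (v : List ℤ) (z : ℍ) : Phi V V' (V.act v z) = V'.act v (Phi V V' z) := by
  obtain ⟨w, p, hp, rfl⟩ := V.exists_fold z
  rw [← act_append_apply, Phi_act V V' _ hp, Phi_act V V' w hp, act_append_apply]

lemma Phi_cont : Continuous (Phi V V') := by
  have hlf : LocallyFinite (fun w : {w : List ℤ // Red w} => (V.act w.1) '' V.P) := by
    intro z
    refine ⟨Metric.closedBall z 1, Metric.closedBall_mem_nhds z one_pos, ?_⟩
    apply Set.Finite.of_finite_image (f := Subtype.val)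
    · apply (V.locally_finite z 1).subset
      rintro _ ⟨w, ⟨_, ⟨q, hq, rfl⟩, hd⟩, rfl⟩
      refine ⟨w.2, q, hq, ?_⟩
      rw [dist_comm]; exact hd
    · exact Subtype.val_injective.injOn
  apply hlf.continuous
  · ext z
    simp only [Set.mem_iUnion, Set.mem_univ, iff_true]
    obtain ⟨w, p, hp, hw⟩ := V.exists_fold z
    obtain ⟨w', hr, ha, -⟩ := reduce w
    exact ⟨⟨w', hr⟩, p, hp, by show V.act w' p = z; rw [ha V, hw]⟩
  · rintro ⟨w, -⟩
    exact (V.act w).toHomeomorph.isClosedMap _ V.isClosed_P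
  · rintro ⟨w, -⟩
    have h1 : Continuous (fun z => V'.act w (phiT V V' ((V.act w).symm z))) :=
      (V'.act w).continuous.comp ((phiT_cont V V').comp (V.act w).symm.continuous)
    apply h1.continuousOn.congr
    rintro _ ⟨p, hp, rfl⟩
    rw [Phi_act V V' w hp]
    show _ = V'.act w (phiT V V' ((V.act w).symm (V.act w p)))
    rw [IsometryEquiv.symm_apply_apply]

lemma Phi_rel {z w : ℍ} (h : (orbitSetoid V.Gam) z w) :
    (orbitSetoid V'.Gam) (Phi V V' z) (Phi V V' w) := by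
  obtain ⟨_, ⟨v, hv, rfl⟩, rfl⟩ := h
  exact ⟨V'.act v, ⟨v, hv, rfl⟩, (Phi_equiv V V' v z).symm⟩

/-- The comparison map of the surfaces. -/
noncomputable def PhiBar : Surf V.Gam → Surf V'.Gam :=
  Quotient.map (Phi V V') (fun _ _ h => Phi_rel V V' h)

lemma PhiBar_cont : Continuous (PhiBar V V') := by
  apply Continuous.quotient_map' (Phi_cont V V')

lemma PhiBar_PhiBar (x : Surf V.Gam) : PhiBar V' V (PhiBar V V' x) = x := by
  induction x using Quotient.inductionOn with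
  | h z =>
    show Quotient.mk _ (Phi V' V (Phi V V' z)) = _
    rw [Phi_Phi]

/-- The homeomorphism between the surfaces. -/
noncomputable def homeo : Surf V.Gam ≃ₜ Surf V'.Gam where
  toFun := PhiBar V V'
  invFun := PhiBar V' V
  left_inv := PhiBar_PhiBar V V'
  right_inv := PhiBar_PhiBar V' V
  continuous_toFun := PhiBar_cont V V'
  continuous_invFun := PhiBar_cont V' V

end Verts
end Pool.Agent.H26R3
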