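import Pool.Agent.H26R3.SlsScg
import Pool.Agent.H26R3.SlsHomeo

set_option autoImplicit false
open UpperHalfPlane

namespace Pool.Agent.H26R3

/-- The null vector of a real boundary point. -/
noncomputable def nv (p : ℝ) : V3 := ![1, p, p ^ 2]

lemma Bf_nv (e : V3) (p : ℝ) : Bf e (nv p) = -(e 0 * p ^ 2 - 2 * e 1 * p + e 2) / 2 := by
  simp [Bf, nv]; ring

lemma Bf_pt (e : V3) (z : ℍ) : Bf e (pt z)
    = -(e 0 * z.re ^ 2 - 2 * e 1 * z.re + e 2 + e 0 * z.im ^ 2) / (2 * z.im) := by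
  have := z.im_ne_zero
  unfold Bf
  rw [pt0, pt1, pt2]
  field_simp
  ring

lemma quad_neg (α β γ : ℝ) (hγ : 0 < γ) : ∃ k : ℕ, α + β * k - γ * k ^ 2 < 0 := by
  obtain ⟨k, hk⟩ := exists_nat_gt ((|α| + |β|) / γ + 1)
  refine ⟨k, ?_⟩
  have h1 : (1 : ℝ) < k := by
    have : 0 ≤ (|α| + |β|) / γ := by positivity
    linarith
  have h2 : |α| + |β| + γ < γ * k := by
    have h3 : (|α| + |β|) / γ < k - 1 := by linarith
    rw [div_lt_iff₀ hγ] at h3
    linarith
  have h4 : (|α| + |β| + γ) * k < γ * k * k := mul_lt_mul_of_pos_right h2 (by linarith)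
  have h5 := le_abs_self α
  have h6 := le_abs_self β
  have h7 : |α| * 1 ≤ |α| * k := mul_le_mul_of_nonneg_left h1.le (abs_nonneg _)
  have h8 : β * k ≤ |β| * k := mul_le_mul_of_nonneg_right h6 (by linarith)
  have h9 : 0 < γ * k := by positivity
  nlinarith

namespace Verts
variable (V : Verts)

lemma E_add (n : ℤ) : ∃ κ : ℝ, 0 < κ ∧ V.E n + V.E (n + 1) = (-κ) • nv (V.a (n + 1)) := by
  have h1 := V.lt n
  have h2 := V.lt (n + 1)
  have g1 : (V.a (n + 1) : ℝ) - V.a n ≠ 0 := by intro h; linarith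
  have g2 : (V.a (n + 1 + 1) : ℝ) - V.a (n + 1) ≠ 0 := by intro h; linarith
  refine ⟨2 / (V.a (n + 1) - V.a n) + 2 / (V.a (n + 1 + 1) - V.a (n + 1)), ?_, ?_⟩
  · have g1' : 0 < (V.a (n + 1) : ℝ) - V.a n := by linarith
    have g2' : 0 < (V.a (n + 1 + 1) : ℝ) - V.a (n + 1) := by linarith
    positivity
  · ext k
    fin_cases k
    · simp only [Pi.add_apply, Pi.smul_apply, smul_eq_mul, E, ev, nv]
      simp
      field_simp
      ring
    · simp only [Pi.add_apply, Pi.smul_apply, smul_eq_mul, E, ev, nv]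
      simp
      field_simp
      ring
    · simp only [Pi.add_apply, Pi.smul_apply, smul_eq_mul, E, ev, nv]
      simp
      field_simp
      ring

lemma parab (n : ℤ) (z : ℍ) (hz : V.OnScg z) (k : ℕ) : ∃ x : ℍ, V.OnScg x ∧
    pt x = pt z - (2 * k * Bf (V.E n + V.E (n + 1)) (pt z)) • V.E (n + 1)
      - (2 * (k * Bf (V.E n) (pt z) + Bf (V.E n + V.E (n + 1)) (pt z) * (k * (k - 1))))
        • (V.E n + V.E (n + 1)) := by
  have g := V.EE_succ n
  have g' : Bf (V.E (n + 1)) (V.E n) = -1 := by rw [Bf_comm]; exact g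
  induction k with
  | zero => exact ⟨z, hz, by simp⟩
  | succ k ih =>
    obtain ⟨x, hx, hpx⟩ := ih
    refine ⟨V.r (n + 1) (V.r n x), (hx.r n).r (n + 1), ?_⟩
    set s := Bf (V.E n + V.E (n + 1)) (pt z) with hs
    set b := Bf (V.E n) (pt z) with hb
    have hE1 : Bf (V.E (n + 1)) (pt z) = s - b := by rw [hs, hb, Bf_add_left]; ring
    have hb' : V.L n x = b + 2 * k * s := by
      rw [L_eq_Bf, hpx]
      simp only [Bf_sub_right, Bf_smul_right, Bf_add_right, V.EE, g]
      rw [← hb]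
      ring
    have hL' : V.L (n + 1) (V.r n x) = s + (b + 2 * k * s) := by
      rw [L_eq_Bf, pt_r, hb', hpx]
      simp only [Bf_sub_right, Bf_smul_right, Bf_add_right, V.EE, g']
      rw [hE1]
      ring
    rw [pt_r, hL', pt_r, hb', hpx]
    push_cast
    module

lemma exists_vertex {e : V3} {p : ℍ} (hp : p ∈ V.P) (he : Bf e (pt p) < 0) :
    ∃ n, Bf e (nv (V.a n)) < 0 := by
  by_contra hc
  push Not at hc
  have hq : ∀ n, e 0 * (V.a n : ℝ) ^ 2 - 2 * e 1 * V.a n + e 2 ≤ 0 := by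
    intro n
    have := hc n
    rw [Bf_nv] at this
    linarith
  have hy := p.im_pos
  rw [Bf_pt, div_lt_iff₀ (by positivity)] at he
  rcases lt_or_ge 0 (e 0) with h0 | h0
  · obtain ⟨k, hk⟩ := exists_nat_gt ((2 * |e 1| + |e 2|) / e 0 + 1 + |(V.a 0 : ℝ)|)
    have h1 := V.add_le 0 k
    rw [zero_add] at h1
    have h1' : (V.a 0 : ℝ) + k ≤ V.a k := by exact_mod_cast h1
    have h2 := neg_abs_le (V.a 0 : ℝ)
    set t : ℝ := ((V.a (k : ℤ) : ℤ) : ℝ) with ht
    have h3 : (2 * |e 1| + |e 2|) / e 0 + 1 < t := by linarith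
    have h3' : (1 : ℝ) < t := by
      have : 0 ≤ (2 * |e 1| + |e 2|) / e 0 := by positivity
      linarith
    have h4 : 2 * |e 1| + |e 2| + e 0 < e 0 * t := by
      have h5 : (2 * |e 1| + |e 2|) / e 0 < t - 1 := by linarith
      rw [div_lt_iff₀ h0] at h5
      linarith
    have h6 : (2 * |e 1| + |e 2| + e 0) * t < e 0 * t * t :=
      mul_lt_mul_of_pos_right h4 (by linarith)
    have h7 : e 1 * t ≤ |e 1| * t := mul_le_mul_of_nonneg_right (le_abs_self _) (by linarith)
    have h8 := neg_abs_le (e 2)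
    have h9 : |e 2| * 1 ≤ |e 2| * t := mul_le_mul_of_nonneg_left h3'.le (abs_nonneg _)
    have h10 := hq k
    have h11 : 0 < e 0 * t := by positivity
    nlinarith
  · have h1 := V.idx_le p.re
    have h2 := (V.lt_idx p.re).le
    set n := V.idx p.re
    have h3 := (V.mem_P_iff p).1 hp n
    have h4 := V.lt n
    have h5 := mul_nonneg (show (0 : ℝ) ≤ V.a (n + 1) - p.re by linarith)
      (neg_nonneg.2 (hq n))
    have h6 := mul_nonneg (show (0 : ℝ) ≤ p.re - V.a n by linarith) (neg_nonneg.2 (hq (n + 1)))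
    have h7 : ((V.a (n + 1) : ℝ) - V.a n) * (e 0 * p.re ^ 2 - 2 * e 1 * p.re + e 2)
        = (V.a (n + 1) - p.re) * (e 0 * (V.a n : ℝ) ^ 2 - 2 * e 1 * V.a n + e 2)
        + (p.re - V.a n) * (e 0 * (V.a (n + 1) : ℝ) ^ 2 - 2 * e 1 * V.a (n + 1) + e 2)
        + e 0 * ((p.re - V.a n) * (p.re - V.a (n + 1))) * ((V.a (n + 1) : ℝ) - V.a n) := by
      ring
    have h8 : 0 < ((V.a (n + 1) : ℝ) - V.a n) * (e 0 * p.re ^ 2 - 2 * e 1 * p.re + e 2
        + e 0 * p.im ^ 2) := mul_pos (by linarith) (by linarith)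
    have h9 := mul_nonneg (mul_nonneg (neg_nonneg.2 h0) h3) (show (0 : ℝ) ≤ V.a (n + 1) - V.a n by linarith)
    nlinarith

/-- Every open half-plane contains a point of a lift of a simple closed geodesic. -/
lemma dense {e : V3} {z : ℍ} (he : Bf e (pt z) < 0) : ∃ x, V.OnScg x ∧ Bf e (pt x) < 0 := by
  obtain ⟨w, p, hp, rfl⟩ := V.exists_fold z
  induction w generalizing e with
  | nil =>
    obtain ⟨n, hn⟩ := V.exists_vertex hp he
    obtain ⟨u, c, hc, -, -, ℓ, hscg⟩ := V.perp (show (0 : ℤ) + 1 < 2 by norm_num)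
    have hx0 : V.OnScg (c 0) := ⟨_, ℓ, hscg, 0, rfl⟩
    obtain ⟨κ, hκ, hN⟩ := V.E_add (n - 1)
    rw [sub_add_cancel] at hN
    set s := Bf (V.E (n - 1) + V.E n) (pt (c 0)) with hs
    have hspos : 0 < s := by
      rw [hs, hN, Bf_smul_left]
      have h1 : Bf (nv (V.a n)) (pt (c 0)) < 0 := by
        rw [Bf_pt]
        have hy := (c 0).im_pos
        apply div_neg_of_neg_of_pos _ (by positivity)
        simp only [nv]
        simp
        nlinarith [sq_nonneg ((c 0).re - V.a n), sq_nonneg (c 0).im, mul_pos hy hy]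
      nlinarith
    have hη : 0 < Bf e (V.E (n - 1) + V.E n) := by
      rw [hN, Bf_smul_right]
      nlinarith
    obtain ⟨k, hk⟩ := quad_neg (Bf e (pt (c 0)))
      (-2 * s * Bf e (V.E n) - 2 * Bf (V.E (n - 1)) (pt (c 0)) * Bf e (V.E (n - 1) + V.E n)
        + 2 * s * Bf e (V.E (n - 1) + V.E n)) (2 * s * Bf e (V.E (n - 1) + V.E n))
      (by positivity)
    obtain ⟨x, hx, hpx⟩ := V.parab (n - 1) (c 0) hx0 k
    rw [sub_add_cancel] at hpx
    refine ⟨x, hx, ?_⟩
    rw [hpx, Bf_sub_right, Bf_sub_right, Bf_smul_right, Bf_smul_right]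
    refine lt_of_eq_of_lt ?_ hk
    ring
  | cons n w ih =>
    rw [act_cons_apply, pt_r, L_eq_Bf] at he
    have he' : Bf (e - (2 * Bf e (V.E n)) • V.E n) (pt (V.act w p)) < 0 := by
      rw [Bf_sub_left, Bf_smul_left]
      rw [Bf_sub_right, Bf_smul_right] at he
      linarith
    obtain ⟨x, hx, hxe⟩ := ih he'
    refine ⟨V.r n x, hx.r n, ?_⟩
    rw [pt_r, L_eq_Bf, Bf_sub_right, Bf_smul_right]
    rw [Bf_sub_left, Bf_smul_left] at hxe
    linarith

lemma nielsenConvex : NielsenConvex V.Gam := by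
  intro x
  obtain ⟨z, rfl⟩ := Quotient.exists_rep x
  obtain ⟨f', hff', hgood'⟩ := V.exists_goodLine
  -- a geodesic through `z` is available
  by_cases hz0 : Bf f' (pt z) = 0
  · obtain ⟨C, ℓ, ⟨hℓ, c, hc, hper, hsim, hC⟩, hzC⟩ := hgood' z hz0
    have hz1 := hzC
    rw [hC] at hz1
    obtain ⟨t₀, ht₀⟩ := hz1
    have hmem : proj V.Gam (c t₀) ∈ C := by rw [hC]; exact ⟨t₀, rfl⟩
    exact ⟨c, hc, t₀, t₀, t₀, le_rfl, le_rfl, ht₀, ⟨C, ℓ, ⟨hℓ, c, hc, hper, hsim, hC⟩, hmem⟩,
      ⟨C, ℓ, ⟨hℓ, c, hc, hper, hsim, hC⟩, hmem⟩⟩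
  · obtain ⟨f, hff, hgood, hb⟩ : ∃ f : V3, 0 < Bf f f ∧ (∀ z : ℍ, Bf f (pt z) = 0 → V.OnScg z) ∧
        0 < Bf f (pt z) := by
      rcases lt_or_gt_of_ne hz0 with h | h
      · refine ⟨(-1 : ℝ) • f', ?_, ?_, ?_⟩
        · rw [Bf_smul_left, Bf_smul_right]; linarith
        · intro w hw
          rw [Bf_smul_left] at hw
          exact hgood' w (by linarith)
        · rw [Bf_smul_left]; linarith
      · exact ⟨f', hff', hgood', h⟩
    set u := pt z with hu
    set b := Bf f u with hbdef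
    have huu : Bf u u = -1 := pt_self z
    -- the reflected vector
    set e : V3 := (-1 : ℝ) • f - (2 * b) • u with he
    have hee : ∀ w : V3, Bf e w = -Bf f w - 2 * b * Bf u w := by
      intro w
      rw [he, Bf_sub_left, Bf_smul_left, Bf_smul_left]
      ring
    -- a point in the half-plane
    set D := √(Bf f f + b ^ 2) with hD
    have hD2 : D ^ 2 = Bf f f + b ^ 2 := Real.sq_sqrt (by positivity)
    have hD0 : 0 ≤ D := Real.sqrt_nonneg _
    have hDb : b < D := by
      apply lt_of_pow_lt_pow_left₀ 2 hD0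
      rw [hD2]; linarith
    have hDpos : 0 < D := by linarith
    obtain ⟨c₀, hc₀, hpc₀⟩ := exists_geod z ((1 / D) • (f + b • u))
      (by
        simp only [Bf_smul_left, Bf_smul_right, Bf_add_left, Bf_add_right, huu, Bf_comm u f,
          ← hbdef]
        field_simp
        rw [hD2]
        ring)
      (by
        rw [← hu]
        simp only [Bf_smul_right, Bf_add_right, huu, Bf_comm u f, ← hbdef]
        ring)
    obtain ⟨ζ₀, hζ₀⟩ : ∃ ζ₀ : ℍ, Bf e (pt ζ₀) < 0 := by
      obtain ⟨t, ht⟩ : ∃ t : ℝ, Real.cosh t * b - Real.sinh t * D < 0 := by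
        refine ⟨Real.log ((D + b) / (D - b)), ?_⟩
        have h1 : 0 < (D + b) / (D - b) := div_pos (by linarith) (by linarith)
        rw [Real.cosh_eq, Real.sinh_eq, Real.exp_neg, Real.exp_log h1]
        have h2 : 0 < D - b := by linarith
        have h3 : 0 < D + b := by linarith
        have h4 : ((D + b) / (D - b) + ((D + b) / (D - b))⁻¹) / 2 * b
            - ((D + b) / (D - b) - ((D + b) / (D - b))⁻¹) / 2 * D = -b := by
          field_simp
          ring
        rw [h4]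
        linarith
      refine ⟨c₀ t, ?_⟩
      rw [hpc₀, hee, ← hu]
      simp only [Bf_smul_right, Bf_add_right, huu, Bf_comm u f, ← hbdef]
      have h5 : -(Real.cosh t * b + Real.sinh t * (1 / D * (Bf f f + b * b)))
          - 2 * b * (Real.cosh t * -1 + Real.sinh t * (1 / D * (b + b * -1)))
          = Real.cosh t * b - Real.sinh t * D := by
        have h6 : 1 / D * (Bf f f + b * b) = D := by
          field_simp
          linarith
        rw [h6]
        ring
      rw [h5]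
      exact ht
    obtain ⟨ζ, hζs, hζ⟩ := V.dense hζ₀
    -- the geodesic from `z` to `ζ`
    set C := -Bf u (pt ζ) with hC
    have hζζ := pt_self ζ
    have hC1 : 1 ≤ C := cd_ge z ζ
    have hC1' : 1 < C := by
      rcases hC1.lt_or_eq with h | h
      · exact h
      · exfalso
        have h1 : dist z ζ = 0 := by
          have h2 : Real.cosh (dist z ζ) = 1 := by rw [← cd_eq]; exact h.symm
          have h3 : Real.cosh (dist z ζ) ≤ Real.cosh 0 := by rw [h2, Real.cosh_zero]
          have h4 := Real.cosh_le_cosh.1 h3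
          rw [abs_of_nonneg dist_nonneg, abs_zero] at h4
          exact le_antisymm h4 dist_nonneg
        have h2 : z = ζ := dist_eq_zero.1 h1
        rw [← h2, ← hu, hee, huu] at hζ
        linarith
    set S := √(C ^ 2 - 1) with hS
    have hS2 : S ^ 2 = C ^ 2 - 1 := Real.sq_sqrt (by nlinarith)
    have hSpos : 0 < S := Real.sqrt_pos.2 (by nlinarith)
    have hCu : Bf u (pt ζ) = -C := by rw [hC]; ring
    have hCu' : Bf (pt ζ) u = -C := by rw [Bf_comm]; exact hCu
    set v : V3 := (1 / S) • (pt ζ - C • u) with hv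
    have huv : Bf (pt z) v = 0 := by
      rw [← hu, hv, Bf_smul_right, Bf_sub_right, Bf_smul_right, huu, hCu]; ring
    have hvv : Bf v v = 1 := by
      rw [hv]
      simp only [Bf_smul_right, Bf_sub_right, Bf_smul_left, Bf_sub_left, huu, hCu, hCu', hζζ]
      field_simp
      rw [hS2]
      ring
    obtain ⟨c, hc, hpc⟩ := exists_geod z v hvv huv
    have hT : Real.cosh (Real.arsinh S) = C := by
      rw [Real.cosh_arsinh, hS2, show 1 + (C ^ 2 - 1) = C ^ 2 by ring]
      exact Real.sqrt_sq (by linarith)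
    have hTpos : 0 < Real.arsinh S := Real.arsinh_pos_iff.2 hSpos
    have hζv : pt ζ = C • u + S • v := by
      rw [hv, smul_smul]
      have : S * (1 / S) = 1 := by field_simp
      rw [this]
      module
    have hcT : c (Real.arsinh S) = ζ := by
      apply pt_inj
      rw [hpc, hT, Real.sinh_arsinh, hζv]
    have hc0 : c 0 = z := by
      apply pt_inj
      rw [hpc, Real.cosh_zero, Real.sinh_zero]
      simp
    have hF : ContinuousOn (fun t : ℝ => Real.cosh t * b - Real.sinh t * Bf f v)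
        (Set.Icc 0 (Real.arsinh S)) := by
      apply Continuous.continuousOn
      fun_prop
    have hF0 : (0 : ℝ) ≤ (fun t : ℝ => Real.cosh t * b - Real.sinh t * Bf f v) 0 := by
      simp only [Real.cosh_zero, Real.sinh_zero]
      linarith
    have hFT : (fun t : ℝ => Real.cosh t * b - Real.sinh t * Bf f v) (Real.arsinh S) ≤ 0 := by
      simp only
      rw [hT, Real.sinh_arsinh]
      rw [hee, hCu, hζv, Bf_add_right, Bf_smul_right, Bf_smul_right, ← hbdef] at hζ
      linarith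
    obtain ⟨t, ⟨ht0, htT⟩, ht⟩ := intermediate_value_Icc' hTpos.le hF ⟨hFT, hF0⟩
    have hzero : Bf f (pt (c (-t))) = 0 := by
      rw [hpc, Real.cosh_neg, Real.sinh_neg, Bf_add_right, Bf_smul_right, Bf_smul_right]
      simp only at ht
      linarith
    obtain ⟨C1, ℓ1, h1, h1'⟩ := hgood _ hzero
    obtain ⟨C2, ℓ2, h2, h2'⟩ := hζs
    exact ⟨c, hc, -t, 0, Real.arsinh S, by linarith, hTpos.le, by rw [hc0]; rfl,
      ⟨C1, ℓ1, h1, h1'⟩, ⟨C2, ℓ2, h2, by rw [hcT]; exact h2'⟩⟩

end Verts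
end Pool.Agent.H26R3
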