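import Pool.Agent.H26R3.SlsSpec

set_option autoImplicit false
open UpperHalfPlane

namespace Pool.Agent.H26R3

/-! ### A universal binary sequence -/

/-- A binary sequence containing every finite pattern arbitrarily far out. -/
def univ (k : ℕ) : Bool := Nat.testBit (Nat.unpair (Nat.log2 k)).1 (k - 2 ^ Nat.log2 k)

lemma log2_block {s i : ℕ} (h : i < 2 ^ s) : Nat.log2 (2 ^ s + i) = s := by
  have h0 : 2 ^ s + i ≠ 0 := by have := Nat.two_pow_pos s; omega
  have h1 : s ≤ Nat.log2 (2 ^ s + i) := (Nat.le_log2 h0).2 (by omega)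
  have h2 : Nat.log2 (2 ^ s + i) < s + 1 := (Nat.log2_lt h0).2 (by rw [pow_succ]; omega)
  omega

lemma univ_spec (f : ℕ → Bool) (L N : ℕ) : ∃ s, N ≤ s ∧ ∀ i < L, univ (s + i) = f i := by
  set m := Nat.ofBits (fun i : Fin L => f i) with hm
  set t := Nat.pair m (L + N) with ht
  have ht1 : L + N ≤ t := Nat.right_le_pair _ _
  have ht2 : t < 2 ^ t := Nat.lt_two_pow_self
  refine ⟨2 ^ t, by omega, fun i hi => ?_⟩
  unfold univ
  rw [log2_block (by omega), ht, Nat.unpair_pair]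
  simp only
  rw [Nat.add_sub_cancel_left, hm]
  exact Nat.testBit_ofBits_lt (f := fun i : Fin L => f i) i hi

/-! ### The family of vertex sequences -/

/-- One or two. -/
def bg (b : Bool) : ℤ := if b then 2 else 1

lemma bg_cases (b : Bool) : bg b = 1 ∨ bg b = 2 := by cases b <;> simp [bg]

/-- The gap number `n` of the vertex sequence of `ω`. -/
def gapf (ω : ℕ → Bool) : ℤ → ℤ
  | Int.ofNat 0 => 1
  | Int.ofNat (j + 1) => bg (ω j)
  | Int.negSucc j => bg (univ j)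

/-- The vertex sequence of `ω`. -/
def vf (ω : ℕ → Bool) : ℤ → ℤ
  | Int.ofNat n => ∑ j ∈ Finset.range n, gapf ω (Int.ofNat j)
  | Int.negSucc n => -∑ j ∈ Finset.range (n + 1), gapf ω (Int.negSucc j)

lemma vf_succ (ω : ℕ → Bool) (n : ℤ) : vf ω (n + 1) = vf ω n + gapf ω n := by
  cases n with
  | ofNat n =>
    show vf ω (Int.ofNat (n + 1)) = _
    simp only [vf]
    rw [Finset.sum_range_succ]
  | negSucc n =>
    cases n with
    | zero =>
      show vf ω (Int.ofNat 0) = _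
      simp [vf]
    | succ n =>
      have : Int.negSucc (n + 1) + 1 = Int.negSucc n := by omega
      rw [this]
      simp only [vf]
      rw [Finset.sum_range_succ _ (n + 1)]
      ring

lemma gapf_cases (ω : ℕ → Bool) (n : ℤ) : gapf ω n = 1 ∨ gapf ω n = 2 := by
  match n with
  | Int.ofNat 0 => left; rfl
  | Int.ofNat (j + 1) => exact bg_cases _
  | Int.negSucc j => exact bg_cases _

/-- The vertex sequence of `ω`. -/
def VV' (ω : ℕ → Bool) : Verts where
  a := vf ω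
  gap n := by
    rw [vf_succ]
    rcases gapf_cases ω n with h | h <;> rw [h]
    · left; rfl
    · right; rfl

lemma VV'_succ (ω : ℕ → Bool) (n : ℤ) : (VV' ω).a (n + 1) = (VV' ω).a n + gapf ω n := vf_succ ω n

lemma VV'_neg (ω : ℕ → Bool) (j : ℕ) :
    (VV' ω).a (-(j : ℤ)) = (VV' ω).a (-(j : ℤ) - 1) + bg (univ j) := by
  have h := VV'_succ ω (Int.negSucc j)
  have e : Int.negSucc j = -(j : ℤ) - 1 := by omega
  have e2 : Int.negSucc j + 1 = -(j : ℤ) := by omega
  rw [e2] at h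
  rw [h, e]
  rw [← e]
  rfl

lemma pattern (V : Verts) (ω : ℕ → Bool) (M B : ℤ) :
    ∃ m k : ℤ, k ≤ B ∧ Verts.Match V (VV' ω) M m k := by
  obtain ⟨K, hK⟩ : ∃ K : ℕ, M ≤ K := ⟨M.toNat, Int.self_le_toNat M⟩
  set f : ℕ → Bool := fun i => decide (V.a ((K : ℤ) - 1 - i + 1) = V.a ((K : ℤ) - 1 - i) + 2)
    with hf
  obtain ⟨N, hN⟩ : ∃ N : ℕ, |(VV' ω).a 0| + |V.a 0| + |B| ≤ N :=
    ⟨(|(VV' ω).a 0| + |V.a 0| + |B|).toNat, Int.self_le_toNat _⟩
  obtain ⟨s, hs, hsf⟩ := univ_spec f (2 * K) N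
  set m : ℤ := -(K : ℤ) - s with hm
  set k : ℤ := (VV' ω).a (-(K : ℤ) + m) - V.a (-(K : ℤ)) with hk
  have key : ∀ t : ℕ, t ≤ 2 * K → (VV' ω).a (-(K : ℤ) + m + t) = V.a (-(K : ℤ) + t) + k := by
    intro t
    induction t with
    | zero => intro _; simp [hk]
    | succ t ih =>
      intro ht
      have h1 := ih (by omega)
      have e1 : -(K : ℤ) + m + ((t + 1 : ℕ) : ℤ) = -(K : ℤ) + m + t + 1 := by push_cast; ring
      have e2 : -(K : ℤ) + ((t + 1 : ℕ) : ℤ) = -(K : ℤ) + t + 1 := by push_cast; ring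
      rw [e1, e2]
      -- the gap of the universal part
      have h2 := hsf (2 * K - 1 - t) (by omega)
      have h3 := VV'_neg ω (s + (2 * K - 1 - t))
      have e3 : -((s + (2 * K - 1 - t) : ℕ) : ℤ) = -(K : ℤ) + m + t + 1 := by
        push_cast [Nat.sub_sub, show 1 + t ≤ 2 * K by omega]; omega
      have e4 : -(K : ℤ) + m + t + 1 - 1 = -(K : ℤ) + m + t := by ring
      rw [e3, e4, h2, h1] at h3
      rw [h3]
      have e5 : (K : ℤ) - 1 - ((2 * K - 1 - t : ℕ) : ℤ) = -(K : ℤ) + t := by omega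
      have h4 : f (2 * K - 1 - t) = decide (V.a (-(K : ℤ) + t + 1) = V.a (-(K : ℤ) + t) + 2) := by
        rw [hf]; simp only; rw [e5]
      rw [h4]
      rcases V.gap (-(K : ℤ) + t) with hg | hg
      · rw [hg]; simp [bg]; ring
      · rw [hg]; simp [bg]; ring
  have hmatch : Verts.Match V (VV' ω) K m k := by
    intro n h1 h2
    obtain ⟨t, ht⟩ := Int.eq_ofNat_of_zero_le (show 0 ≤ n + K by omega)
    have h3 := key t (by omega)
    have e1 : -(K : ℤ) + m + t = n + m := by omega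
    have e2 : -(K : ℤ) + t = n := by omega
    rw [e1, e2] at h3
    exact h3
  refine ⟨m, k, ?_, fun n h1 h2 => hmatch n (by omega) (by omega)⟩
  have h1 := hmatch 0 (by omega) (by omega)
  rw [zero_add] at h1
  have h2 := (VV' ω).mono (show m ≤ 0 by omega)
  have h3 := le_abs_self ((VV' ω).a 0)
  have h4 := neg_abs_le (V.a 0)
  have h5 := neg_abs_le B
  omega

/-! ### Rigidity -/

lemma null_three {w : V3} {a b c : ℝ} (hab : a ≠ b) (hbc : b ≠ c) (hac : a ≠ c)
    (ha : Bf (nv a) w = 0) (hb : Bf (nv b) w = 0) (hc : Bf (nv c) w = 0) : w = 0 := by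
  rw [Bf_comm, Bf_nv] at ha hb hc
  have ha' : w 0 * a ^ 2 - 2 * w 1 * a + w 2 = 0 := by linarith
  have hb' : w 0 * b ^ 2 - 2 * w 1 * b + w 2 = 0 := by linarith
  have hc' : w 0 * c ^ 2 - 2 * w 1 * c + w 2 = 0 := by linarith
  have h1 : w 0 * (a + b) - 2 * w 1 = 0 := by
    have : (w 0 * (a + b) - 2 * w 1) * (a - b) = 0 := by linear_combination ha' - hb'
    exact (mul_eq_zero.1 this).resolve_right (sub_ne_zero.2 hab)
  have h2 : w 0 * (b + c) - 2 * w 1 = 0 := by
    have : (w 0 * (b + c) - 2 * w 1) * (b - c) = 0 := by linear_combination hb' - hc'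
    exact (mul_eq_zero.1 this).resolve_right (sub_ne_zero.2 hbc)
  have h3 : w 0 = 0 := by
    have : w 0 * (a - c) = 0 := by linear_combination h1 - h2
    exact (mul_eq_zero.1 this).resolve_right (sub_ne_zero.2 hac)
  rw [h3] at h1 ha'
  have h4 : w 1 = 0 := by linarith
  rw [h4] at ha'
  have h5 : w 2 = 0 := by linarith
  ext i
  fin_cases i
  · exact h3
  · exact h4
  · exact h5

namespace Verts
variable (V : Verts)

lemma displacement (n : ℤ) (x : ℍ) : cd x (V.act [n, n + 1] x)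
    = 1 + 2 * Bf (V.E n + V.E (n + 1)) (pt x) ^ 2 := by
  rw [act_cons_apply, act_cons_apply, act_nil]
  show cd x (V.r n (V.r (n + 1) x)) = _
  rw [← cd_isom (V.r n) x, V.r_r_apply]
  unfold cd
  rw [pt_r, pt_r, L_eq_Bf, L_eq_Bf]
  simp only [Bf_sub_left, Bf_sub_right, Bf_smul_left, Bf_smul_right, V.EE_succ, pt_self,
    Bf_add_left, Bf_comm (pt x)]
  ring

lemma centralizer {f : ℍ ≃ᵢ ℍ} (h : ∀ n ∈ ({0, 1, 2} : Set ℤ), ∀ x,
    f (V.act [n, n + 1] x) = V.act [n, n + 1] (f x)) : f = 1 := by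
  ext1 x
  show f x = x
  apply pt_inj
  have key : ∀ n ∈ ({0, 1, 2} : Set ℤ), Bf (nv (V.a (n + 1))) (pt (f x) - pt x) = 0 := by
    intro n hn
    have h1 : cd (f x) (V.act [n, n + 1] (f x)) = cd x (V.act [n, n + 1] x) := by
      rw [← h n hn x, cd_isom]
    rw [displacement, displacement] at h1
    obtain ⟨κ, hκ, hN⟩ := V.E_add n
    have hneg : ∀ y : ℍ, Bf (nv (V.a (n + 1))) (pt y) < 0 := by
      intro y
      rw [Bf_pt]
      have hy := y.im_pos
      apply div_neg_of_neg_of_pos _ (by positivity)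
      simp only [nv]
      simp
      nlinarith [sq_nonneg (y.re - V.a (n + 1)), mul_pos hy hy]
    rw [hN, Bf_smul_left, Bf_smul_left] at h1
    have h2 := hneg x
    have h3 := hneg (f x)
    have h4 : (κ * Bf (nv (V.a (n + 1))) (pt (f x))) ^ 2
        = (κ * Bf (nv (V.a (n + 1))) (pt x)) ^ 2 := by linarith
    have h5 : κ * -Bf (nv (V.a (n + 1))) (pt (f x)) = κ * -Bf (nv (V.a (n + 1))) (pt x) := by
      apply (sq_eq_sq₀ (mul_nonneg hκ.le (by linarith)) (mul_nonneg hκ.le (by linarith))).1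
      linarith
    have h6 := mul_left_cancel₀ hκ.ne' h5
    rw [Bf_sub_right]
    linarith
  have l1 : (V.a (0 + 1) : ℝ) < V.a (1 + 1) := V.lt 1
  have l2 : (V.a (1 + 1) : ℝ) < V.a (2 + 1) := V.lt 2
  have := null_three l1.ne l2.ne (l1.trans l2).ne (key 0 (by simp)) (key 1 (by simp))
    (key 2 (by simp))
  exact sub_eq_zero.1 this

lemma noncomm : ∃ γ ∈ V.Gam, ∃ δ ∈ V.Gam, γ * δ ≠ δ * γ := by
  refine ⟨V.act [0, 1], ⟨[0, 1], by simp, rfl⟩, V.act [1, 2], ⟨[1, 2], by simp, rfl⟩, ?_⟩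
  intro h
  rw [← act_append, ← act_append] at h
  have h1 : V.act ([0, 1] ++ [1, 2]) = V.act [0, 2] := by
    simp only [List.cons_append, List.nil_append, act_cons, act_nil]
    rw [← mul_assoc (V.r 1) (V.r 1), V.r_r, one_mul]
  rw [h1] at h
  have h2 := V.red_inj (v := [0, 2]) (w := [1, 2] ++ [0, 1]) ⟨by norm_num, trivial⟩
    (show Red [1, 2, 0, 1] from ⟨by norm_num, by norm_num, by norm_num, trivial⟩) (by rw [h])
  simp at h2

end Verts

/-- Reflections in geodesics with integral endpoints. -/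
noncomputable def rr (t : ℤ × ℤ) : ℍ ≃ᵢ ℍ :=
  if h : (t.1 : ℝ) < t.2 then refl t.1 t.2 h else 1

lemma V_act_rr (V : Verts) (w : List ℤ) :
    V.act w = ((w.map (fun n => (V.a n, V.a (n + 1)))).map rr).prod := by
  unfold Verts.act
  rw [List.map_map]
  congr 1
  apply List.map_congr_left
  intro n _
  show V.r n = rr (V.a n, V.a (n + 1))
  unfold rr
  rw [dif_pos (V.lt n)]
  rfl

/-- All isometries which are products of such reflections. -/
def Gall : Set (ℍ ≃ᵢ ℍ) := Set.range (fun l : List (ℤ × ℤ) => (l.map rr).prod)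

lemma Gall_countable : Gall.Countable := Set.countable_range _

lemma Gam_sub (V : Verts) {γ : ℍ ≃ᵢ ℍ} (h : γ ∈ V.Gam) : γ ∈ Gall := by
  obtain ⟨w, -, rfl⟩ := h
  exact ⟨_, (V_act_rr V w).symm⟩

/-- The point above a vertex. -/
noncomputable def above (t : ℝ) : ℍ := ⟨⟨t, 1⟩, by norm_num⟩

lemma above_re (t : ℝ) : (above t).re = t := rfl
lemma above_im (t : ℝ) : (above t).im = 1 := rfl

lemma no_gap (V V' : Verts) (h : V'.Gam = V.Gam) {n : ℤ} (hn : V'.a n = V.a n)
    (h0 : V'.a 0 = V.a 0) (h1 : V'.a 1 = V.a 1) (g1 : V.a (n + 1) = V.a n + 1)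
    (g2 : V'.a (n + 1) = V'.a n + 2) : False := by
  have hmem : V'.act [n, 0] ∈ V.Gam := by
    rw [← h]; exact ⟨[n, 0], by simp, rfl⟩
  obtain ⟨v, hv, hve⟩ := hmem
  have hr0 : V'.r 0 = V.r 0 := by
    unfold Verts.r
    exact refl_congr (by rw [h0]) (by
      show ((V'.a (0 + 1) : ℤ) : ℝ) = ((V.a (0 + 1) : ℤ) : ℝ)
      rw [zero_add, h1]) _ _
  have hrn : V'.r n = V.act (v ++ [0]) := by
    rw [Verts.act_append, hve, Verts.act_cons, Verts.act_cons, Verts.act_nil, mul_one,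
      Verts.act_cons, Verts.act_nil, mul_one, ← hr0, mul_assoc, V'.r_r, mul_one]
  set z := above (V.a (n + 1)) with hz
  have hfix : V'.r n z = z := by
    apply refl_fix
    rw [lam_eq (V'.lt n), hz, above_re, above_im, g1, g2, hn]
    push_cast
    have : ((V.a n : ℝ) + 1 - V.a n) * (V.a n + 1 - (V.a n + 2)) + 1 ^ 2 = 0 := by ring
    rw [this, zero_div]
  have hzP : z ∈ V.P := by
    apply V.mem_P_of_cell (n := n)
    · rw [hz, above_re]; exact (V.lt n).le
    · rw [hz, above_re]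
    · rw [hz, above_re, above_im]; norm_num
  rw [hrn] at hfix
  obtain ⟨-, h3 | ⟨m, -, h4, -⟩⟩ := V.strict' _ hzP hzP hfix
  · simp only [List.length_append, List.length_cons, List.length_nil] at h3
    omega
  · obtain ⟨h5, h6, h7⟩ := V.side_re h4
    rw [hz, above_re, above_im] at h7
    rw [hz, above_re] at h5 h6
    have h8 := V.lt m
    rcases lt_or_ge m (n + 1) with h9 | h9
    · have h10 := V.mono' (show m + 1 ≤ n + 1 by omega)
      have : (V.a (n + 1) : ℝ) = V.a (m + 1) := le_antisymm h6 h10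
      rw [this] at h7
      norm_num at h7
    · have h10 := V.mono' h9
      have : (V.a (n + 1) : ℝ) = V.a m := le_antisymm h10 h5
      rw [this] at h7
      norm_num at h7

lemma vf_congr {ω ω' : ℕ → Bool} {j : ℕ} (h : ∀ i < j, ω i = ω' i) :
    vf ω ((j + 1 : ℕ) : ℤ) = vf ω' ((j + 1 : ℕ) : ℤ) := by
  show (∑ i ∈ Finset.range (j + 1), gapf ω (Int.ofNat i))
    = ∑ i ∈ Finset.range (j + 1), gapf ω' (Int.ofNat i)
  apply Finset.sum_congr rfl
  intro i hi
  rw [Finset.mem_range] at hi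
  cases i with
  | zero => rfl
  | succ i =>
    show bg (ω i) = bg (ω' i)
    rw [h i (by omega)]

lemma Gam_injective {ω ω' : ℕ → Bool} (h : (VV' ω).Gam = (VV' ω').Gam) : ω = ω' := by
  by_contra hne
  have hex : ∃ j, ω j ≠ ω' j := by
    by_contra hc
    push Not at hc
    exact hne (funext hc)
  classical
  set j := Nat.find hex with hj
  have hj1 : ω j ≠ ω' j := Nat.find_spec hex
  have hj2 : ∀ i < j, ω i = ω' i := by
    intro i hi
    by_contra hc
    exact Nat.find_min hex hi hc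
  have e0 : (VV' ω).a 0 = (VV' ω').a 0 := rfl
  have e1 : (VV' ω).a 1 = (VV' ω').a 1 := by
    show vf ω ((0 + 1 : ℕ) : ℤ) = vf ω' ((0 + 1 : ℕ) : ℤ)
    exact vf_congr (by simp)
  have en : (VV' ω).a ((j + 1 : ℕ) : ℤ) = (VV' ω').a ((j + 1 : ℕ) : ℤ) := vf_congr hj2
  have g := VV'_succ ω ((j + 1 : ℕ) : ℤ)
  have g' := VV'_succ ω' ((j + 1 : ℕ) : ℤ)
  have k1 : gapf ω ((j + 1 : ℕ) : ℤ) = bg (ω j) := rfl
  have k2 : gapf ω' ((j + 1 : ℕ) : ℤ) = bg (ω' j) := rfl
  rw [k1] at g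
  rw [k2] at g'
  cases hω : ω j with
  | false =>
    have hω' : ω' j = true := by
      cases h3 : ω' j with
      | false => exact absurd (hω.trans h3.symm) hj1
      | true => rfl
    rw [hω] at g
    rw [hω'] at g'
    exact no_gap (VV' ω) (VV' ω') h.symm en.symm e0.symm e1.symm g g'
  | true =>
    have hω' : ω' j = false := by
      cases h3 : ω' j with
      | true => exact absurd (hω.trans h3.symm) hj1
      | false => rfl
    rw [hω] at g
    rw [hω'] at g'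
    exact no_gap (VV' ω') (VV' ω) h en e0 e1 g' g

/-- Some member of the family is not isometric to the first one. -/
lemma exists_nonisometric (V : Verts) :
    ∃ ω : ℕ → Bool, ¬ IsometricSurfaces V.Gam (VV' ω).Gam := by
  by_contra hc
  push Not at hc
  choose g hg using hc
  have hmem : ∀ n : ℤ, V.act [n, n + 1] ∈ V.Gam := fun n => ⟨[n, n + 1], by simp, rfl⟩
  let F : (ℕ → Bool) → Gall × Gall × Gall := fun ω =>
    (⟨g ω * V.act [0, 0 + 1] * (g ω)⁻¹, Gam_sub _ ((hg ω _).1 (hmem 0))⟩,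
     ⟨g ω * V.act [1, 1 + 1] * (g ω)⁻¹, Gam_sub _ ((hg ω _).1 (hmem 1))⟩,
     ⟨g ω * V.act [2, 2 + 1] * (g ω)⁻¹, Gam_sub _ ((hg ω _).1 (hmem 2))⟩)
  have hF : Function.Injective F := by
    intro ω ω' h
    have h0 : g ω * V.act [0, 0 + 1] * (g ω)⁻¹ = g ω' * V.act [0, 0 + 1] * (g ω')⁻¹ :=
      congrArg (fun t => (t.1 : ℍ ≃ᵢ ℍ)) h
    have h1 : g ω * V.act [1, 1 + 1] * (g ω)⁻¹ = g ω' * V.act [1, 1 + 1] * (g ω')⁻¹ :=
      congrArg (fun t => (t.2.1 : ℍ ≃ᵢ ℍ)) h
    have h2 : g ω * V.act [2, 2 + 1] * (g ω)⁻¹ = g ω' * V.act [2, 2 + 1] * (g ω')⁻¹ :=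
      congrArg (fun t => (t.2.2 : ℍ ≃ᵢ ℍ)) h
    have hcomm : ∀ γ : ℍ ≃ᵢ ℍ, g ω * γ * (g ω)⁻¹ = g ω' * γ * (g ω')⁻¹ →
        ∀ x, ((g ω')⁻¹ * g ω) (γ x) = γ (((g ω')⁻¹ * g ω) x) := by
      intro γ hγ x
      have h3 : (g ω')⁻¹ * g ω * γ = γ * ((g ω')⁻¹ * g ω) := by
        calc (g ω')⁻¹ * g ω * γ = (g ω')⁻¹ * (g ω * γ * (g ω)⁻¹) * g ω := by group
          _ = (g ω')⁻¹ * (g ω' * γ * (g ω')⁻¹) * g ω := by rw [hγ]
          _ = γ * ((g ω')⁻¹ * g ω) := by group
      exact congrArg (fun e : ℍ ≃ᵢ ℍ => e x) h3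
    have hone : (g ω')⁻¹ * g ω = 1 := by
      apply V.centralizer
      intro n hn x
      simp only [Set.mem_insert_iff, Set.mem_singleton_iff] at hn
      rcases hn with rfl | rfl | rfl
      · exact hcomm _ h0 x
      · exact hcomm _ h1 x
      · exact hcomm _ h2 x
    have hgg : g ω = g ω' := by
      have := inv_mul_eq_one.1 hone
      exact this.symm
    apply Gam_injective
    ext γ
    have e1 := hg ω ((g ω)⁻¹ * γ * g ω)
    have e2 := hg ω' ((g ω)⁻¹ * γ * g ω)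
    rw [← hgg] at e2
    have e3 : g ω * ((g ω)⁻¹ * γ * g ω) * (g ω)⁻¹ = γ := by group
    rw [e3] at e1 e2
    exact e1.symm.trans e2
  have : Countable Gall := Gall_countable.to_subtype
  have hcount : Countable (ℕ → Bool) := hF.countable
  obtain ⟨s, hs⟩ := exists_surjective_nat (ℕ → Bool)
  obtain ⟨n, hn⟩ := hs (fun k => !(s k k))
  have := congrFun hn n
  simp at this

end Pool.Agent.H26R3
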