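import Pool.Agent.H26R3.SlsSurf

set_option autoImplicit false
open UpperHalfPlane

namespace Pool.Agent.H26R3

lemma ev_ev_le {p q s t : ℝ} (h : p < q) (h' : s < t) (h2 : q ≤ s) :
    Bf (ev p q) (ev s t) ≤ -1 := by
  rw [ev_ev h h', div_le_iff₀ (mul_pos (by linarith) (by linarith))]
  have h3 := mul_nonneg (show 0 ≤ s - q by linarith) (show 0 ≤ t - p by linarith)
  have h4 : (q - p) * (t - s) ≤ (s - p) * (t - q) :=
    mul_le_mul (by linarith) (by linarith) (by linarith) (by linarith)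
  linarith

lemma ev_ev_lt {p q s t : ℝ} (h : p < q) (h' : s < t) (h2 : q < s) :
    Bf (ev p q) (ev s t) < -1 := by
  rw [ev_ev h h', div_lt_iff₀ (mul_pos (by linarith) (by linarith))]
  have h3 := mul_pos (show 0 < s - q by linarith) (show 0 < t - p by linarith)
  have h4 : (q - p) * (t - s) ≤ (s - p) * (t - q) :=
    mul_le_mul (by linarith) (by linarith) (by linarith) (by linarith)
  linarith

/-- The vector orthogonal to `u` and `e`. -/
noncomputable def crs (u e : V3) : V3 :=
  ![-2 * (u 0 * e 1 - u 1 * e 0), u 2 * e 0 - u 0 * e 2, -2 * (u 1 * e 2 - u 2 * e 1)]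

lemma crs_self (u e : V3) :
    Bf (crs u e) (crs u e) = -4 * (Bf u u * Bf e e - Bf u e ^ 2) := by
  simp [Bf, crs]; ring

lemma expand (u e w : V3) : (Bf u u * Bf e e - Bf u e ^ 2) • w
    = (Bf w u * Bf e e - Bf w e * Bf u e) • u + (Bf w e * Bf u u - Bf w u * Bf u e) • e
      - (1 / 4 * Bf (crs u e) w) • crs u e := by
  ext k
  fin_cases k <;> simp [Bf, crs] <;> ring

namespace Verts
variable (V : Verts)

lemma EE (n : ℤ) : Bf (V.E n) (V.E n) = 1 := ev_self (V.lt n)

lemma EE_le {m n : ℤ} (h : m ≠ n) : Bf (V.E m) (V.E n) ≤ -1 := by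
  rcases lt_or_gt_of_ne h with h1 | h1
  · exact ev_ev_le (V.lt m) (V.lt n) (V.mono' (by omega))
  · rw [Bf_comm]
    exact ev_ev_le (V.lt n) (V.lt m) (V.mono' (by omega))

lemma EE_lt {m n : ℤ} (h : m + 1 < n) : Bf (V.E m) (V.E n) < -1 := by
  apply ev_ev_lt (V.lt m) (V.lt n)
  have h1 := V.lt (m + 1)
  have h2 := V.mono' (show m + 1 + 1 ≤ n by omega)
  linarith

lemma EE_succ (n : ℤ) : Bf (V.E n) (V.E (n + 1)) = -1 := by
  have h1 := V.lt n
  have h2 := V.lt (n + 1)
  unfold E
  rw [ev_ev h1 h2]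
  have : ((V.a (n + 1) : ℝ) - V.a n) * (V.a (n + 1 + 1) - V.a (n + 1)) ≠ 0 := by
    apply mul_ne_zero <;> intro h <;> linarith
  rw [div_eq_iff this]
  ring

lemma L_eq_Bf (n : ℤ) (z : ℍ) : V.L n z = Bf (V.E n) (pt z) := rfl

lemma pt_r (n : ℤ) (z : ℍ) : pt (V.r n z) = pt z - (2 * V.L n z) • V.E n := pt_refl _ _ _ z

/-- `z` lies on a lift of a simple closed geodesic. -/
def OnScg (z : ℍ) : Prop :=
  ∃ (C : Set (Surf V.Gam)) (ℓ : ℝ), IsSimpleClosedGeodesic V.Gam C ℓ ∧ proj V.Gam z ∈ C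

lemma proj_eq_iff (z w : ℍ) : proj V.Gam z = proj V.Gam w ↔
    ∃ v : List ℤ, v.length % 2 = 0 ∧ V.act v z = w := by
  unfold proj
  rw [Quotient.eq]
  constructor
  · rintro ⟨_, ⟨v, hv, rfl⟩, h⟩
    exact ⟨v, hv, h⟩
  · rintro ⟨v, hv, h⟩
    exact ⟨_, ⟨v, hv, rfl⟩, h⟩

/-- The common perpendicular of two disjoint sides gives a simple closed geodesic. -/
lemma perp {i j : ℤ} (hij : i + 1 < j) : ∃ (u : ℍ) (c : ℝ → ℍ), Isometry c ∧
    Bf (pt u) (V.E i) = 0 ∧ (∀ t, pt (c t) = Real.cosh t • pt u + Real.sinh t • V.E i) ∧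
    ∃ ℓ, IsSimpleClosedGeodesic V.Gam (Set.range (fun t : ℝ => proj V.Gam (c t))) ℓ := by
  set X := -Bf (V.E i) (V.E j) with hX
  have hX1 : 1 < X := by have := V.EE_lt hij; linarith
  have hS0 : 0 < X ^ 2 - 1 := by nlinarith
  set S := √(X ^ 2 - 1) with hS
  have hSpos : 0 < S := Real.sqrt_pos.2 hS0
  have hS2 : S ^ 2 = X ^ 2 - 1 := Real.sq_sqrt hS0.le
  set d := Real.arsinh S with hd
  have hsd : Real.sinh d = S := Real.sinh_arsinh S
  have hcd : Real.cosh d = X := by
    rw [hd, Real.cosh_arsinh, hS2]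
    rw [show 1 + (X ^ 2 - 1) = X ^ 2 by ring]
    exact Real.sqrt_sq (by linarith)
  have hdpos : 0 < d := Real.arsinh_pos_iff.2 hSpos
  have hEij : Bf (V.E i) (V.E j) = -X := by rw [hX]; ring
  have hEji : Bf (V.E j) (V.E i) = -X := by rw [Bf_comm]; exact hEij
  set uv : V3 := (-(1 / S)) • (V.E j + X • V.E i) with huv
  have huu : Bf uv uv = -1 := by
    rw [huv]
    simp only [Bf_add_left, Bf_add_right, Bf_smul_left, Bf_smul_right, V.EE, hEij, hEji]
    field_simp
    rw [hS2]
    ring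
  have hu0 : 0 < uv 0 := by
    have h1 : V.E i 0 < 0 := by
      unfold E; rw [ev0]; exact div_neg_of_neg_of_pos (by norm_num) (by linarith [V.lt i])
    have h2 : V.E j 0 < 0 := by
      unfold E; rw [ev0]; exact div_neg_of_neg_of_pos (by norm_num) (by linarith [V.lt j])
    have h3 : V.E j 0 + X * V.E i 0 < 0 := by nlinarith
    have h4 : uv 0 = (1 / S) * (-(V.E j 0 + X * V.E i 0)) := by
      rw [huv]; simp only [Pi.smul_apply, Pi.add_apply, smul_eq_mul]; ring
    rw [h4]
    exact mul_pos (by positivity) (by linarith)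
  set u : ℍ := ofVec uv hu0 with hu
  have hpu : pt u = uv := pt_ofVec uv huu hu0
  have huE : Bf (pt u) (V.E i) = 0 := by
    rw [hpu, huv]
    simp only [Bf_add_left, Bf_smul_left, V.EE, hEji]
    ring
  have hEj : V.E j = (-S) • pt u - X • V.E i := by
    rw [hpu, huv, smul_smul]
    have : -S * -(1 / S) = 1 := by field_simp
    rw [this, one_smul]
    abel
  obtain ⟨c, hc, hpc⟩ := exists_geod u (V.E i) (V.EE i) huE
  have hinj : Function.Injective c := hc.injective
  have hLi : ∀ t, V.L i (c t) = Real.sinh t := by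
    intro t
    rw [L_eq_Bf, hpc, Bf_add_right, Bf_smul_right, Bf_smul_right, V.EE, Bf_comm, huE]
    ring
  have hEju : Bf (V.E j) (pt u) = S := by
    rw [hpu, huv]
    simp only [Bf_add_right, Bf_smul_right, V.EE, hEji]
    field_simp
    rw [hS2]
    ring
  have hLj : ∀ t, V.L j (c t) = Real.sinh (d - t) := by
    intro t
    rw [L_eq_Bf, hpc, Bf_add_right, Bf_smul_right, Bf_smul_right, hEji, hEju, Real.sinh_sub,
      hsd, hcd]
    ring
  have hLn : ∀ n t, n ≠ i → n ≠ j → 0 < V.L n (c t) := by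
    intro n t hni hnj
    have g1 := V.EE_le hni
    have g2 := V.EE_le hnj
    have e1 : V.L n (c t) = (1 / S) * (-Bf (V.E n) (V.E j) * Real.cosh t
        + -Bf (V.E n) (V.E i) * Real.cosh (d - t)) := by
      rw [L_eq_Bf, hpc, Bf_add_right, Bf_smul_right, Bf_smul_right, hpu, huv, Bf_smul_right,
        Bf_add_right, Bf_smul_right, Real.cosh_sub, hsd, hcd]
      field_simp
      ring
    rw [e1]
    have := Real.cosh_pos t
    have := Real.cosh_pos (d - t)
    apply mul_pos (by positivity)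
    apply add_pos
    · exact mul_pos (by linarith) (Real.cosh_pos _)
    · exact mul_pos (by linarith) (Real.cosh_pos _)
  have hri : ∀ t, V.r i (c t) = c (-t) := by
    intro t
    apply pt_inj
    rw [pt_r, hLi, hpc, hpc, Real.cosh_neg, Real.sinh_neg]
    module
  have hrj : ∀ t, V.r j (c t) = c (2 * d - t) := by
    intro t
    apply pt_inj
    have e1 : Real.cosh (2 * d - t) = Real.cosh t + 2 * S * Real.sinh (d - t) := by
      have h1 : 2 * d - t = d + (d - t) := by ring
      have h2 : t = d - (d - t) := by ring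
      rw [h1, Real.cosh_add]
      nth_rewrite 3 [h2]
      rw [Real.cosh_sub d (d - t), hsd]
      ring
    have e2 : Real.sinh (2 * d - t) = Real.sinh t + 2 * X * Real.sinh (d - t) := by
      have h1 : 2 * d - t = d + (d - t) := by ring
      have h2 : t = d - (d - t) := by ring
      rw [h1, Real.sinh_add]
      nth_rewrite 3 [h2]
      rw [Real.sinh_sub d (d - t), hcd]
      ring
    rw [pt_r, hLj, hpc, hpc, e1, e2]
    rw [hEj]
    module
  have hP : ∀ t, 0 ≤ t → t ≤ d → c t ∈ V.P := by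
    intro t h1 h2 n
    by_cases hni : n = i
    · rw [hni, hLi]; exact Real.sinh_nonneg_iff.2 h1
    by_cases hnj : n = j
    · rw [hnj, hLj]; exact Real.sinh_nonneg_iff.2 (by linarith)
    exact (hLn n t hni hnj).le
  refine ⟨u, c, hc, huE, hpc, 2 * d, by positivity, c, hc, ⟨V.act [j, i], ⟨[j, i], by simp, rfl⟩, ?_⟩,
    ?_, rfl⟩
  · intro t
    rw [act_cons_apply, act_cons_apply, act_nil]
    show c (t + 2 * d) = V.r j (V.r i (c t))
    rw [hri, hrj]
    congr 1
    ring
  · intro s t h0 hst ht2 heq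
    rw [proj_eq_iff] at heq
    obtain ⟨w, hw, hwc⟩ := heq
    by_cases hsd' : s ≤ d
    · by_cases htd : t ≤ d
      · obtain ⟨h1, -⟩ := V.strict' w (hP s h0 hsd') (hP t (by linarith) htd) hwc
        have := hinj h1
        linarith
      · push Not at htd
        have h2 : V.act (j :: w) (c s) = c (2 * d - t) := by
          rw [act_cons_apply, hwc, hrj]
        obtain ⟨h1, h3⟩ := V.strict' _ (hP s h0 hsd') (hP (2 * d - t) (by linarith) (by linarith)) h2
        have h4 := hinj h1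
        rcases h3 with ⟨h3, -⟩ | ⟨n, -, h3, -⟩
        · simp only [List.length_cons] at h3
          omega
        · by_cases hni : n = i
          · rw [hni, hLi] at h3
            have := Real.sinh_eq_zero.1 h3
            linarith
          by_cases hnj : n = j
          · rw [hnj, hLj] at h3
            have := Real.sinh_eq_zero.1 h3
            linarith
          have := hLn n s hni hnj
          linarith
    · push Not at hsd'
      have h2 : V.act (j :: (w ++ [j])) (c (2 * d - s)) = c (2 * d - t) := by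
        rw [act_cons_apply, act_append_apply, act_cons_apply, act_nil]
        show V.r j (V.act w (V.r j (c (2 * d - s)))) = _
        rw [hrj, show 2 * d - (2 * d - s) = s by ring, hwc, hrj]
      obtain ⟨h1, -⟩ := V.strict' _ (hP (2 * d - s) (by linarith) (by linarith))
        (hP (2 * d - t) (by linarith) (by linarith)) h2
      have := hinj h1
      linarith

lemma even_conj {w : List ℤ} (n : ℤ) (hw : w.length % 2 = 0) :
    (n :: (w ++ [n])).length % 2 = 0 := by
  simp only [List.length_cons, List.length_append, List.length_nil]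
  omega

lemma act_conj (n : ℤ) (w : List ℤ) (z : ℍ) :
    V.act (n :: (w ++ [n])) z = V.r n (V.act w (V.r n z)) := by
  rw [act_cons_apply, act_append_apply, act_cons_apply, act_nil]
  rfl

lemma OnScg.r {V : Verts} {z : ℍ} (h : V.OnScg z) (n : ℤ) : V.OnScg (V.r n z) := by
  obtain ⟨C, ℓ, ⟨hℓ, c, hc, ⟨γ, ⟨w, hw, hγ⟩, hper⟩, hsim, rfl⟩, t₀, ht₀⟩ := h
  refine ⟨_, ℓ, ⟨hℓ, fun t => V.r n (c t), (V.r n).isometry.comp hc,
    ⟨V.act (n :: (w ++ [n])), ⟨_, even_conj n hw, rfl⟩, ?_⟩, ?_, rfl⟩, t₀, ?_⟩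
  · intro t
    rw [act_conj, V.r_r_apply, hγ, ← hper]
  · intro s t h0 hst ht heq
    apply hsim s t h0 hst ht
    rw [proj_eq_iff] at heq ⊢
    obtain ⟨v, hv, hvc⟩ := heq
    refine ⟨n :: (v ++ [n]), even_conj n hv, ?_⟩
    rw [act_conj, hvc, V.r_r_apply]
  · simp only at ht₀ ⊢
    rw [proj_eq_iff] at ht₀ ⊢
    obtain ⟨v, hv, hvc⟩ := ht₀
    refine ⟨n :: (v ++ [n]), even_conj n hv, ?_⟩
    rw [act_conj, V.r_r_apply, hvc]

lemma OnScg.act {V : Verts} {z : ℍ} (h : V.OnScg z) (w : List ℤ) : V.OnScg (V.act w z) := by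
  induction w with
  | nil => exact h
  | cons n w ih => rw [act_cons_apply]; exact ih.r n

/-- A line consisting of lifts of a simple closed geodesic. -/
lemma exists_goodLine : ∃ f : V3, 0 < Bf f f ∧ ∀ z : ℍ, Bf f (pt z) = 0 → V.OnScg z := by
  obtain ⟨u, c, hc, huE, hpc, ℓ, hscg⟩ := V.perp (show (0 : ℤ) + 1 < 2 by norm_num)
  refine ⟨crs (pt u) (V.E 0), ?_, ?_⟩
  · rw [crs_self, pt_self, V.EE, huE]; norm_num
  · intro z hz
    have h1 := expand (pt u) (V.E 0) (pt z)
    rw [pt_self, V.EE, huE, hz] at h1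
    have h2 : pt z = (-Bf (pt z) (pt u)) • pt u + (Bf (pt z) (V.E 0)) • V.E 0 := by
      calc pt z = -((-1 * 1 - (0 : ℝ) ^ 2) • pt z) := by norm_num
        _ = _ := by
          rw [h1]
          module
    set α := -Bf (pt z) (pt u) with hα
    set β := Bf (pt z) (V.E 0) with hβ
    have h4 : α ^ 2 - β ^ 2 = 1 := by
      have h5 := pt_self z
      rw [h2] at h5
      simp only [Bf_add_left, Bf_add_right, Bf_smul_left, Bf_smul_right, pt_self, V.EE, huE,
        Bf_comm (V.E 0) (pt u)] at h5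
      linarith
    have hα1 : 1 ≤ α := cd_ge z u
    have h6 : Real.cosh (Real.arsinh β) = α := by
      rw [Real.cosh_arsinh, show 1 + β ^ 2 = α ^ 2 by linarith]
      exact Real.sqrt_sq (by linarith)
    have h7 : z = c (Real.arsinh β) := by
      apply pt_inj
      rw [hpc, h6, Real.sinh_arsinh]
      exact h2
    exact ⟨_, ℓ, hscg, Real.arsinh β, by rw [h7]⟩

end Verts
end Pool.Agent.H26R3
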