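import Pool.Agent.H26R3.SlsNielsen

set_option autoImplicit false
open UpperHalfPlane

namespace Pool.Agent.H26R3

lemma refl_congr {p q p' q' : ℝ} (hp : p = p') (hq : q = q') (h : p < q) (h' : p' < q') :
    refl p q h = refl p' q' h' := by
  subst hp hq; rfl

lemma re_bound {p : ℍ} {R : ℝ} (h : dist p0 p ≤ R) : |p.re| ≤ 10 * Real.exp R := by
  have h1 := UpperHalfPlane.dist_coe_le p p0
  rw [p0_im] at h1
  have h2 : |p.re| ≤ dist (p : ℂ) p0 := by
    have := Complex.abs_re_le_norm ((p : ℂ) - p0)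
    rw [Complex.dist_eq]
    simpa [p0_re] using this
  have h3 : Real.exp (dist p p0) ≤ Real.exp R := by
    rw [dist_comm]; exact Real.exp_le_exp.2 h
  linarith

namespace Verts

section
variable (V : Verts)

lemma fp_eq {w : List ℤ} {p : ℍ} (hp : p ∈ V.P) : V.fp (V.act w p) = p := by
  set z := V.act w p with hz
  have h1 : V.act ((V.fw z).reverse ++ w) p = V.fp z := by
    rw [act_append_apply, ← hz]
    nth_rewrite 2 [← V.fw_fp z]
    rw [act_reverse_apply]
  exact (V.strict' _ hp (V.fp_mem z) h1).1.symm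

lemma fp_act (w : List ℤ) (z : ℍ) : V.fp (V.act w z) = V.fp z := by
  obtain ⟨v, p, hp, rfl⟩ := V.exists_fold z
  rw [← act_append_apply, fp_eq V hp, fp_eq V hp]

lemma dist_fp (z : ℍ) : dist p0 (V.fp z) ≤ dist p0 z := by
  have h1 := V.dist_act_p0_le (V.fw z) (V.fp_mem z)
  rw [(V.act _).dist_eq, V.fw_fp z] at h1
  exact h1

lemma fp_bound {C : Set (Surf V.Gam)} {ℓ : ℝ} (hC : IsSimpleClosedGeodesic V.Gam C ℓ) :
    ∃ b : ℝ, ∀ z, proj V.Gam z ∈ C → b ≤ (V.fp z).re := by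
  obtain ⟨hℓ, c, hc, ⟨γ, hγ, hper⟩, -, rfl⟩ := hC
  refine ⟨-(10 * Real.exp (dist p0 (c 0) + ℓ)), ?_⟩
  rintro z ⟨t, ht⟩
  have hp : Function.Periodic (fun t => proj V.Gam (c t)) ℓ := by
    intro t
    simp only
    rw [hper t]
    exact (Quotient.sound ⟨γ, hγ, rfl⟩ : proj V.Gam (c t) = proj V.Gam (γ (c t))).symm
  obtain ⟨s, ⟨hs0, hsℓ⟩, hs⟩ := hp.exists_mem_Ico₀ hℓ t
  simp only at ht hs
  rw [hs, proj_eq_iff] at ht
  obtain ⟨v, -, hv⟩ := ht
  rw [← hv, fp_act]
  have h1 : dist p0 (V.fp (c s)) ≤ dist p0 (c 0) + ℓ := by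
    calc dist p0 (V.fp (c s)) ≤ dist p0 (c s) := V.dist_fp _
      _ ≤ dist p0 (c 0) + dist (c 0) (c s) := dist_triangle _ _ _
      _ ≤ dist p0 (c 0) + ℓ := by
        rw [hc.dist_eq, Real.dist_eq, zero_sub, abs_neg, abs_of_nonneg hs0]
        linarith
  exact neg_le_of_abs_le (re_bound h1)

end

section
variable (V V' : Verts)

/-- `V'` looks like `V` near the letters between `-M` and `M`, after shifting the letters by `m`
and translating by `k`. -/
def Match (M m k : ℤ) : Prop := ∀ n, -M ≤ n → n ≤ M → V'.a (n + m) = V.a n + k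

variable {V V'}

lemma Match.r {M m k : ℤ} (h : Match V V' M m k) {n : ℤ} (h1 : -M ≤ n) (h2 : n < M) (z : ℍ) :
    V'.r (n + m) (trans k z) = trans k (V.r n z) := by
  have e1 : ((V'.a (n + m) : ℤ) : ℝ) = V.a n + k := by rw [h n h1 h2.le]; push_cast; rfl
  have e2 : ((V'.a (n + m + 1) : ℤ) : ℝ) = V.a (n + 1) + k := by
    rw [show n + m + 1 = n + 1 + m by ring, h (n + 1) (by omega) (by omega)]; push_cast; rfl
  unfold Verts.r
  have h3 : (V.a n : ℝ) + k < V.a (n + 1) + k := by linarith [V.lt n]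
  rw [refl_congr e1 e2 (V'.lt (n + m)) h3]
  exact refl_trans (V.lt n) k h3 z

lemma Match.act {M m k : ℤ} (h : Match V V' M m k) {w : List ℤ}
    (hw : ∀ n ∈ w, -M ≤ n ∧ n < M) (z : ℍ) :
    V'.act (w.map (· + m)) (trans k z) = trans k (V.act w z) := by
  induction w with
  | nil => rfl
  | cons n w ih =>
    rw [List.map_cons, act_cons_apply, act_cons_apply,
      ih (fun x hx => hw x (List.mem_cons_of_mem _ hx)),
      h.r (hw n List.mem_cons_self).1 (hw n List.mem_cons_self).2]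

lemma Match.mem {M m k : ℤ} (h : Match V V' M m k) {p : ℍ} (hp : p ∈ V.P)
    (h1 : (V.a (-M) : ℝ) < p.re) (h2 : p.re < V.a M) : trans k p ∈ V'.P := by
  have h3 := V.idx_le p.re
  have h4 := V.lt_idx p.re
  set n := V.idx p.re
  have h5 : -M ≤ n := by
    by_contra hc
    push Not at hc
    have := V.mono' (show n + 1 ≤ -M by omega)
    linarith
  have h6 : n < M := by
    by_contra hc
    push Not at hc
    have := V.mono' hc
    linarith
  have e1 : ((V'.a (n + m) : ℤ) : ℝ) = V.a n + k := by rw [h n h5 h6.le]; push_cast; rfl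
  have e2 : ((V'.a (n + m + 1) : ℤ) : ℝ) = V.a (n + 1) + k := by
    rw [show n + m + 1 = n + 1 + m by ring, h (n + 1) (by omega) (by omega)]; push_cast; rfl
  apply V'.mem_P_of_cell (n := n + m)
  · rw [e1, trans_re]; linarith
  · rw [e2, trans_re]; linarith
  · rw [e1, e2, trans_re, trans_im]
    have h7 := (V.mem_P_iff p).1 hp n
    have : (p.re + ↑k - (↑(V.a n) + ↑k)) * (p.re + ↑k - (↑(V.a (n + 1)) + ↑k)) + p.im ^ 2
      = (p.re - V.a n) * (p.re - V.a (n + 1)) + p.im ^ 2 := by ring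
    rw [this]
    exact h7

lemma Match.side {M m k : ℤ} (h : Match V V' M m k) (hM : 0 ≤ M) {p : ℍ}
    (h1 : (V.a (-M) : ℝ) < p.re) (h2 : p.re < V.a M) {j : ℤ} (hj : V'.L j (trans k p) = 0) :
    -M ≤ j - m ∧ j - m < M := by
  obtain ⟨h3, h4, -⟩ := V'.side_re hj
  rw [trans_re] at h3 h4
  have e1 : ((V'.a (-M + m) : ℤ) : ℝ) = V.a (-M) + k := by
    rw [h (-M) le_rfl (by omega)]; push_cast; rfl
  have e2 : ((V'.a (M + m) : ℤ) : ℝ) = V.a M + k := by
    rw [h M (by omega) le_rfl]; push_cast; rfl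
  constructor
  · by_contra hc
    push Not at hc
    have := V'.mono' (show j + 1 ≤ -M + m by omega)
    linarith
  · by_contra hc
    push Not at hc
    have := V'.mono' (show M + m ≤ j by omega)
    linarith

lemma transplant {ℓ : ℝ} {C : Set (Surf V.Gam)} (hC : IsSimpleClosedGeodesic V.Gam C ℓ) :
    ∃ (M : ℤ) (R : ℝ), ∀ m k : ℤ, Match V V' M m k →
      ∃ C' : Set (Surf V'.Gam), IsSimpleClosedGeodesic V'.Gam C' ℓ ∧
        ∃ z, proj V'.Gam z ∈ C' ∧ (V'.fp z).re ≤ R + k := by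
  obtain ⟨hℓ, c, hc, ⟨γ, ⟨wγ, hwγ, hγ⟩, hper⟩, hsim, rfl⟩ := hC
  have hfin := V.locally_finite (c 0) ℓ
  set R : ℝ := 10 * Real.exp (dist p0 (c 0) + ℓ) with hR
  have hR0 : 0 < R := by positivity
  -- a bound for the letters
  obtain ⟨M₁, hM₁⟩ : ∃ M₁ : ℤ, ∀ w : List ℤ, (w = wγ ∨ (Red w ∧ ∃ q ∈ V.P,
      dist (c 0) (V.act w q) ≤ ℓ)) → ∀ n ∈ w, |n| ≤ M₁ := by
    have hfin2 : ({w : List ℤ | w = wγ ∨ (Red w ∧ ∃ q ∈ V.P,
      dist (c 0) (V.act w q) ≤ ℓ)}).Finite := by
      have : {w : List ℤ | w = wγ ∨ (Red w ∧ ∃ q ∈ V.P, dist (c 0) (V.act w q) ≤ ℓ)}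
          = {wγ} ∪ {w : List ℤ | Red w ∧ ∃ q ∈ V.P, dist (c 0) (V.act w q) ≤ ℓ} := by
        ext w; simp
      rw [this]
      exact (Set.finite_singleton _).union hfin
    have hfin3 : (⋃ w ∈ {w : List ℤ | w = wγ ∨ (Red w ∧ ∃ q ∈ V.P,
        dist (c 0) (V.act w q) ≤ ℓ)}, {n : ℤ | n ∈ w}).Finite :=
      hfin2.biUnion (fun w _ => List.finite_toSet w)
    obtain ⟨B, hB⟩ := (hfin3.image (fun n : ℤ => |n|)).bddAbove
    refine ⟨B, fun w hw n hn => hB ⟨n, ?_, rfl⟩⟩
    simp only [Set.mem_iUnion]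
    exact ⟨w, hw, hn⟩
  set M : ℤ := |M₁| + |V.a 0| + ⌈R⌉ + 1 with hM
  have hRc : R ≤ ⌈R⌉ := Int.le_ceil R
  have hRc0 : 0 ≤ ⌈R⌉ := Int.ceil_nonneg hR0.le
  have hM0 : 0 ≤ M := by positivity
  have hMM₁ : M₁ < M := by
    have := le_abs_self M₁
    have := abs_nonneg (V.a 0)
    omega
  have haM : R < (V.a M : ℝ) := by
    have h1 := V.mono hM0
    have h2 := neg_abs_le (V.a 0)
    have h3 := abs_nonneg M₁
    have h4 : ⌈R⌉ < V.a M := by omega
    have h5 : (⌈R⌉ : ℝ) < V.a M := by exact_mod_cast h4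
    linarith
  have haM' : (V.a (-M) : ℝ) < -R := by
    have h1 := V.mono (show -M ≤ 0 by omega)
    have h2 := le_abs_self (V.a 0)
    have h3 := abs_nonneg M₁
    have h4 : V.a (-M) < -⌈R⌉ := by omega
    have h5 : (V.a (-M) : ℝ) < -⌈R⌉ := by exact_mod_cast h4
    linarith
  -- folding of the points of the geodesic
  have hfold : ∀ t, 0 ≤ t → t ≤ ℓ → ∃ (w : List ℤ) (p : ℍ), p ∈ V.P ∧ V.act w p = c t ∧
      (∀ n ∈ w, -M ≤ n ∧ n < M) ∧ (V.a (-M) : ℝ) < p.re ∧ p.re < V.a M ∧ p.re ≤ R := by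
    intro t h0 h1
    obtain ⟨w, p, hp, hwp⟩ := V.exists_fold (c t)
    obtain ⟨w', hr, ha, -⟩ := reduce w
    have hwp' : V.act w' p = c t := by rw [ha V, hwp]
    have hd : dist (c 0) (c t) ≤ ℓ := by
      rw [hc.dist_eq, Real.dist_eq, zero_sub, abs_neg, abs_of_nonneg h0]; exact h1
    have hpR : |p.re| ≤ R := by
      apply re_bound
      have h2 := V.dist_act_p0_le w' hp
      rw [(V.act w').dist_eq, hwp'] at h2
      exact h2.trans ((dist_triangle _ (c 0) _).trans (by linarith))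
    refine ⟨w', p, hp, hwp', ?_, ?_, ?_, ?_⟩
    · intro n hn
      have h3 := hM₁ w' (Or.inr ⟨hr, p, hp, by rw [hwp']; exact hd⟩) n hn
      rw [abs_le] at h3
      omega
    · have := neg_le_of_abs_le hpR; linarith
    · have := le_of_abs_le hpR; linarith
    · exact le_of_abs_le hpR
  refine ⟨M, R, fun m k hmatch => ?_⟩
  refine ⟨Set.range (fun t => proj V'.Gam (trans k (c t))), ⟨hℓ, fun t => trans k (c t),
    (trans k).isometry.comp hc, ⟨V'.act (wγ.map (· + m)), ⟨_, by rw [List.length_map]; exact hwγ,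
      rfl⟩, ?_⟩, ?_, rfl⟩, trans k (c 0), ⟨0, rfl⟩, ?_⟩
  · intro t
    show trans k (c (t + ℓ)) = V'.act (wγ.map (· + m)) (trans k (c t))
    rw [hmatch.act, hper, hγ]
    intro n hn
    have h3 := hM₁ wγ (Or.inl rfl) n hn
    rw [abs_le] at h3
    omega
  · intro s t h0 hst ht heq
    rw [proj_eq_iff] at heq
    obtain ⟨v, hv, hvc'⟩ := heq
    have hvc : V'.act v (trans k (c s)) = trans k (c t) := hvc'
    clear hvc'
    obtain ⟨w1, p1, hp1, hc1, hl1, ha1, hb1, -⟩ := hfold s h0 (by linarith)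
    obtain ⟨w2, p2, hp2, hc2, hl2, ha2, hb2, -⟩ := hfold t (by linarith) ht.le
    have e1 : trans k (c s) = V'.act (w1.map (· + m)) (trans k p1) := by
      rw [hmatch.act hl1, hc1]
    have e2 : trans k (c t) = V'.act (w2.map (· + m)) (trans k p2) := by
      rw [hmatch.act hl2, hc2]
    have hy : V'.act ((w2.map (· + m)).reverse ++ (v ++ w1.map (· + m))) (trans k p1)
        = trans k p2 := by
      rw [act_append_apply, act_append_apply, ← e1, hvc, e2, act_reverse_apply]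
    obtain ⟨-, h3⟩ := V'.strict' _ (hmatch.mem hp1 ha1 hb1) (hmatch.mem hp2 ha2 hb2) hy
    have hvdec : ∀ x, V'.act v x = V'.act (w2.map (· + m))
        (V'.act ((w2.map (· + m)).reverse ++ (v ++ w1.map (· + m)))
          (V'.act (w1.map (· + m)).reverse x)) := by
      intro x
      rw [act_append_apply, act_append_apply, act_reverse_apply', act_reverse_apply']
    apply hsim s t h0 hst ht
    rw [proj_eq_iff]
    have hrev : (w1.map (· + m)).reverse = w1.reverse.map (· + m) := by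
      rw [List.map_reverse]
    have hl1' : ∀ n ∈ w1.reverse, -M ≤ n ∧ n < M := fun n hn => hl1 n (List.mem_reverse.1 hn)
    rcases h3 with ⟨h3, h4⟩ | ⟨j, h3, h4, h5⟩
    · refine ⟨w2 ++ w1.reverse, ?_, ?_⟩
      · simp only [List.length_append, List.length_reverse, List.length_map] at h3 ⊢
        omega
      · apply (trans k).injective
        rw [← hmatch.act (w := w2 ++ w1.reverse), List.map_append, act_append_apply, ← hvc,
          hvdec, h4 V', hrev]
        · rfl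
        · intro n hn
          rcases List.mem_append.1 hn with hn | hn
          · exact hl2 n hn
          · exact hl1' n hn
    · have hjj := hmatch.side hM0 ha1 hb1 h4
      refine ⟨w2 ++ ((j - m) :: w1.reverse), ?_, ?_⟩
      · simp only [List.length_append, List.length_reverse, List.length_map,
          List.length_cons] at h3 ⊢
        omega
      · apply (trans k).injective
        rw [← hmatch.act (w := w2 ++ ((j - m) :: w1.reverse)), List.map_append, act_append_apply,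
          List.map_cons, act_cons_apply, ← hvc, hvdec, h5 V', hrev, sub_add_cancel]
        intro n hn
        rcases List.mem_append.1 hn with hn | hn
        · exact hl2 n hn
        · rcases List.mem_cons.1 hn with hn | hn
          · rw [hn]; exact hjj
          · exact hl1' n hn
  · obtain ⟨w1, p1, hp1, hc1, hl1, ha1, hb1, hR1⟩ := hfold 0 le_rfl hℓ.le
    have e1 : trans k (c 0) = V'.act (w1.map (· + m)) (trans k p1) := by
      rw [hmatch.act hl1, hc1]
    rw [e1, fp_eq V' (hmatch.mem hp1 ha1 hb1), trans_re]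
    linarith

/-- If every finite pattern of `V` occurs in `V'` arbitrarily far to the left, then every length
of `V` has infinite multiplicity in `V'`. -/
lemma infinite_of_match (hpat : ∀ M B : ℤ, ∃ m k : ℤ, k ≤ B ∧ Match V V' M m k) {ℓ : ℝ}
    {C : Set (Surf V.Gam)} (hC : IsSimpleClosedGeodesic V.Gam C ℓ) :
    {C' : Set (Surf V'.Gam) | IsSimpleClosedGeodesic V'.Gam C' ℓ}.Infinite := by
  intro hfin
  obtain ⟨M, R, hMR⟩ := transplant (V' := V') hC
  have hb : ∀ C' ∈ {C' : Set (Surf V'.Gam) | IsSimpleClosedGeodesic V'.Gam C' ℓ},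
      ∃ b : ℝ, ∀ z, proj V'.Gam z ∈ C' → b ≤ (V'.fp z).re := fun C' hC' => V'.fp_bound hC'
  choose! b hb using hb
  obtain ⟨B, hB⟩ := (hfin.image b).bddBelow
  obtain ⟨m, k, hk, hmatch⟩ := hpat M (⌊B - R⌋ - 1)
  obtain ⟨C', hC', z, hz, hzR⟩ := hMR m k hmatch
  have h1 := hb C' hC' z hz
  have h2 := hB ⟨C', hC', rfl⟩
  have h3 : (k : ℝ) ≤ ⌊B - R⌋ - 1 := by exact_mod_cast hk
  have h4 := Int.floor_le (B - R)
  linarith

lemma sameSpectrum (h1 : ∀ M B : ℤ, ∃ m k : ℤ, k ≤ B ∧ Match V V' M m k)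
    (h2 : ∀ M B : ℤ, ∃ m k : ℤ, k ≤ B ∧ Match V' V M m k) :
    SameSimpleLengthSpectrum V.Gam V'.Gam := by
  intro ℓ
  unfold simpleMult
  by_cases h : ∃ C : Set (Surf V.Gam), IsSimpleClosedGeodesic V.Gam C ℓ
  · obtain ⟨C, hC⟩ := h
    have h3 := infinite_of_match h1 hC
    obtain ⟨C', hC'⟩ := h3.nonempty
    have h4 := infinite_of_match h2 hC'
    rw [h3.encard_eq, h4.encard_eq]
  · have e1 : {C : Set (Surf V.Gam) | IsSimpleClosedGeodesic V.Gam C ℓ} = ∅ := by
      ext C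
      simp only [Set.mem_ofPred_eq, Set.mem_empty_iff_false, iff_false]
      exact fun hC => h ⟨C, hC⟩
    have e2 : {C : Set (Surf V'.Gam) | IsSimpleClosedGeodesic V'.Gam C ℓ} = ∅ := by
      ext C
      simp only [Set.mem_ofPred_eq, Set.mem_empty_iff_false, iff_false]
      intro hC
      obtain ⟨C', hC'⟩ := (infinite_of_match h2 hC).nonempty
      exact h ⟨C', hC'⟩
    rw [e1, e2]
    simp

end
end Verts
end Pool.Agent.H26R3
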