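import Pool.Agent.H26R3.SlsGroup

set_option autoImplicit false
open UpperHalfPlane ComplexConjugate

namespace Pool.Agent.H26R3

lemma coe_refl (p q : ℝ) (h : p < q) (z : ℍ) :
    ((refl p q h z : ℍ) : ℂ) * (2 * conj (z : ℂ) - (p + q)) = (p + q) * conj (z : ℂ) - 2 * (p * q) := by
  have hr : (refl p q h z).re = _ := reflFun_re p q h z
  have hi : (refl p q h z).im = _ := reflFun_im p q h z
  have h3 : (z.re - (p + q) / 2) ^ 2 + z.im ^ 2 ≠ 0 := by
    have := z.im_pos; positivity
  apply Complex.ext
  · simp only [Complex.mul_re, Complex.sub_re, Complex.sub_im, Complex.conj_re, Complex.conj_im,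
      Complex.add_re, Complex.add_im, Complex.ofReal_re, Complex.ofReal_im, Complex.mul_im,
      Complex.re_ofNat, Complex.im_ofNat, UpperHalfPlane.coe_re, UpperHalfPlane.coe_im]
    rw [hr, hi]
    field_simp
    ring
  · simp only [Complex.mul_re, Complex.sub_re, Complex.sub_im, Complex.conj_re, Complex.conj_im,
      Complex.add_re, Complex.add_im, Complex.ofReal_re, Complex.ofReal_im, Complex.mul_im,
      Complex.re_ofNat, Complex.im_ofNat, UpperHalfPlane.coe_re, UpperHalfPlane.coe_im]
    rw [hr, hi]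
    field_simp
    ring

lemma refl_refl_sl {p q s t : ℝ} (h : p < q) (h' : s < t) :
    ∃ M : Matrix.SpecialLinearGroup (Fin 2) ℝ, ∀ z : ℍ, refl p q h (refl s t h' z) = M • z := by
  have h1 : q - p ≠ 0 := by intro h2; linarith
  have h2 : t - s ≠ 0 := by intro h2; linarith
  refine ⟨⟨!![((p + q) * (s + t) - 4 * (p * q)) / ((q - p) * (t - s)),
    (-2 * (s * t) * (p + q) + 2 * (p * q) * (s + t)) / ((q - p) * (t - s));
    (2 * (s + t) - 2 * (p + q)) / ((q - p) * (t - s)),
    (-4 * (s * t) + (p + q) * (s + t)) / ((q - p) * (t - s))], ?_⟩, ?_⟩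
  · rw [Matrix.det_fin_two_of]
    field_simp
    ring
  · intro z
    set M : Matrix.SpecialLinearGroup (Fin 2) ℝ := ⟨!![((p + q) * (s + t) - 4 * (p * q)) / ((q - p) * (t - s)),
      (-2 * (s * t) * (p + q) + 2 * (p * q) * (s + t)) / ((q - p) * (t - s));
      (2 * (s + t) - 2 * (p + q)) / ((q - p) * (t - s)),
      (-4 * (s * t) + (p + q) * (s + t)) / ((q - p) * (t - s))], by
        rw [Matrix.det_fin_two_of]; field_simp; ring⟩ with hM
    have hden := UpperHalfPlane.denom_ne_zero (M : Matrix.GeneralLinearGroup (Fin 2) ℝ) z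
    apply UpperHalfPlane.ext
    rw [UpperHalfPlane.coe_specialLinearGroup_apply]
    have hden' : (algebraMap ℝ ℝ (M 1 0) : ℂ) * z + (algebraMap ℝ ℝ (M 1 1) : ℂ) ≠ 0 := hden
    rw [eq_div_iff hden']
    have e1 := coe_refl p q h (refl s t h' z)
    have e2 := congrArg conj (coe_refl s t h' z)
    simp only [map_mul, map_sub, map_add, Complex.conj_conj, Complex.conj_ofReal,
      Complex.conj_ofNat] at e2
    have m00 : M 0 0 = ((p + q) * (s + t) - 4 * (p * q)) / ((q - p) * (t - s)) := rfl
    have m01 : M 0 1 = (-2 * (s * t) * (p + q) + 2 * (p * q) * (s + t)) / ((q - p) * (t - s)) := rfl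
    have m10 : M 1 0 = (2 * (s + t) - 2 * (p + q)) / ((q - p) * (t - s)) := rfl
    have m11 : M 1 1 = (-4 * (s * t) + (p + q) * (s + t)) / ((q - p) * (t - s)) := rfl
    have hd1 : ((q : ℂ) - p) ≠ 0 := by exact_mod_cast h1
    have hd2 : ((t : ℂ) - s) ≠ 0 := by exact_mod_cast h2
    simp only [Algebra.algebraMap_self, RingHom.id_apply]
    rw [m00, m01, m10, m11]
    push_cast
    field_simp
    linear_combination (2 * (z : ℂ) - (s + t)) * e1
      + ((p : ℂ) + q - 2 * ((refl p q h (refl s t h' z) : ℍ) : ℂ)) * e2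

namespace Verts
variable (V : Verts)

lemma even_sl (k : ℕ) : ∀ w : List ℤ, w.length = 2 * k →
    ∃ M : Matrix.SpecialLinearGroup (Fin 2) ℝ, ∀ z : ℍ, V.act w z = M • z := by
  induction k with
  | zero =>
    intro w hw
    have : w = [] := List.length_eq_zero_iff.1 (by simpa using hw)
    subst this
    exact ⟨1, fun z => by simp⟩
  | succ k ih =>
    intro w hw
    match w, hw with
    | n :: m :: w', hw =>
      obtain ⟨M, hM⟩ := ih w' (by simp at hw; omega)
      obtain ⟨N, hN⟩ := refl_refl_sl (V.lt n) (V.lt m)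
      refine ⟨N * M, fun z => ?_⟩
      rw [act_cons_apply, act_cons_apply, hM z, mul_smul]
      exact hN _

lemma isSurfaceGroup : IsSurfaceGroup V.Gam where
  orientation := by
    rintro _ ⟨w, hw, rfl⟩
    exact V.even_sl (w.length / 2) w (by omega)
  free := by
    rintro _ ⟨w, hw, rfl⟩ z hz
    obtain ⟨v, p, hp, rfl⟩ := V.exists_fold z
    have h1 : V.act (v.reverse ++ (w ++ v)) p = p := by
      rw [act_append_apply, act_append_apply, hz, act_reverse_apply]
    obtain ⟨-, h2 | ⟨n, h2, -⟩⟩ := V.strict' _ hp hp h1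
    · have h3 := h2.2 V
      rw [act_append, act_append, act_reverse] at h3
      have h4 : V.act w = V.act v * ((V.act v)⁻¹ * (V.act w * V.act v)) * (V.act v)⁻¹ := by
        group
      rw [h4, h3]
      group
    · rw [List.length_append, List.length_append, List.length_reverse] at h2
      omega
  proper := by
    intro z R
    apply (V.finite0 (R + 2 * dist p0 z)).subset
    rintro _ ⟨⟨w, -, rfl⟩, hR⟩
    refine ⟨⟨w, rfl⟩, ?_⟩
    calc dist p0 (V.act w p0) ≤ dist p0 z + dist z (V.act w p0) := dist_triangle _ _ _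
      _ ≤ dist p0 z + (dist z (V.act w z) + dist (V.act w z) (V.act w p0)) := by
          gcongr; exact dist_triangle _ _ _
      _ ≤ R + 2 * dist p0 z := by
          rw [(V.act w).dist_eq, dist_comm z p0]; linarith

end Verts

end Pool.Agent.H26R3
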