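import Mathlib
import Pool.Agent.H866R4.VD.Stmts

/-!
# Project H866-VD, task A (volunteer helper26): the colouring without a monochromatic image
-/

set_option autoImplicit false

open Finset

namespace Pool.Agent.H26R3.VDAvoid

open Pool.Agent.H866R4.VD

/-- The complete graph on `κ + 1` vertices has a vector colouring of value `κ + 1`. -/
theorem gram_top (κ : ℕ) (hκ : 1 ≤ κ) : Gram (⊤ : SimpleGraph (Fin (κ + 1))) (κ : ℝ) := by
  classical
  have hk : (0 : ℝ) < κ := by exact_mod_cast hκ
  refine ⟨fun x y => if x = y then 1 else -(1 / (κ : ℝ)), ?_, ?_, ?_, ?_⟩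
  · intro x y
    by_cases h : x = y
    · subst h; rfl
    · simp only [h, Ne.symm h, if_false]
  · intro z
    have key : Q (fun x y : Fin (κ + 1) => if x = y then (1 : ℝ) else -(1 / (κ : ℝ))) z
        = (1 + 1 / (κ : ℝ)) * ∑ x, z x ^ 2 - (1 / (κ : ℝ)) * (∑ x, z x) ^ 2 := by
      unfold Q
      have h1 : ∀ x y : Fin (κ + 1), (if x = y then (1 : ℝ) else -(1 / (κ : ℝ))) * z x * z y
          = (if x = y then (1 + 1 / (κ : ℝ)) * z x ^ 2 else 0) - (1 / (κ : ℝ)) * (z x * z y) := by
        intro x y
        by_cases h : x = y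
        · subst h
          simp only [if_true]
          ring
        · simp only [h, if_false]
          ring
      simp only [h1, Finset.sum_sub_distrib, Finset.sum_ite_eq, Finset.mem_univ, if_true]
      rw [← Finset.mul_sum]
      congr 1
      rw [sq, Finset.sum_mul_sum, Finset.mul_sum]
      refine Finset.sum_congr rfl fun x _ => ?_
      rw [Finset.mul_sum]
    rw [key]
    have hcs : (∑ x, z x) ^ 2 ≤ ((κ : ℝ) + 1) * ∑ x, z x ^ 2 := by
      have := sq_sum_le_card_mul_sum_sq (s := (Finset.univ : Finset (Fin (κ + 1)))) (f := z)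
      simpa using this
    have h2 : (1 / (κ : ℝ)) * (∑ x, z x) ^ 2 ≤ (1 / (κ : ℝ)) * (((κ : ℝ) + 1) * ∑ x, z x ^ 2) :=
      mul_le_mul_of_nonneg_left hcs (by positivity)
    have h3 : (1 / (κ : ℝ)) * (((κ : ℝ) + 1) * ∑ x, z x ^ 2) = (1 + 1 / (κ : ℝ)) * ∑ x, z x ^ 2 := by
      field_simp
    linarith
  · intro x
    simp
  · intro x y h
    have : x ≠ y := by simpa using h
    simp [this]

theorem taskAvoid : TaskAvoid := by
  classical
  intro hN τ l κ m hκ hl T hLoc hT H hC
  have hk : (0 : ℝ) < κ := by exact_mod_cast hκ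
  let e : Fin (τ * l) ≃ Fin τ × Fin l := finProdFinEquiv.symm
  refine ⟨fun a b => decide ((e a).1 = (e b).1 ∨ T.Adj (e a).1 (e b).1), ?_, ?_⟩
  · intro a b
    apply decide_eq_decide.mpr
    rw [eq_comm, T.adj_comm]
  · rintro b x f ⟨h1, h2⟩
    cases b with
    | false =>
      refine hN (Fin m) (Fin τ) H Tᶜ κ hk hC hT ⟨⟨fun i => (e (f i)).1, ?_⟩⟩
      intro i j hij
      have h3 := (h2 i j hij).2
      have h4 := of_decide_eq_false h3
      rw [SimpleGraph.compl_adj]
      exact ⟨fun h => h4 (Or.inl h), fun h => h4 (Or.inr h)⟩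
    | true =>
      have hx : ∀ i, (e x).1 = (e (f i)).1 ∨ T.Adj (e x).1 (e (f i)).1 := fun i =>
        of_decide_eq_true (h1 i).2
      let t : Fin τ := (e x).1
      let y : Fin m → Fin τ := fun i => (e (f i)).1
      let r : Fin m → Fin l := fun i => (e (f i)).2
      let c : Fin m → Fin 3 := fun i =>
        if y i = t then 0 else if ∃ y1, y1 < y i ∧ T.Adj t y1 ∧ T.Adj (y i) y1 then 2 else 1
      have hc0 : ∀ i, y i = t → c i = 0 := fun i h => if_pos h
      have hc2 : ∀ i, y i ≠ t → (∃ y1, y1 < y i ∧ T.Adj t y1 ∧ T.Adj (y i) y1) → c i = 2 := by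
        intro i h h'
        show (if y i = t then (0 : Fin 3) else _) = 2
        rw [if_neg h, if_pos h']
      have hc1 : ∀ i, y i ≠ t → ¬ (∃ y1, y1 < y i ∧ T.Adj t y1 ∧ T.Adj (y i) y1) → c i = 1 := by
        intro i h h'
        show (if y i = t then (0 : Fin 3) else _) = 1
        rw [if_neg h, if_neg h']
      have hne : ∀ i j, H.Adj i j → c i = c j → r i = r j → False := by
        have main : ∀ i j, H.Adj i j → c i = c j → r i = r j → y i < y j → False := by
          intro i j hij hcc hrr hlt
          have h3 := h2 i j hij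
          have h4 : y i = y j ∨ T.Adj (y i) (y j) := of_decide_eq_true h3.2
          have h5 : T.Adj (y i) (y j) := h4.resolve_left hlt.ne
          by_cases hi : y i = t
          · have hj : y j ≠ t := fun h => hlt.ne (hi.trans h.symm)
            rw [hc0 i hi] at hcc
            by_cases hE : ∃ y1, y1 < y j ∧ T.Adj t y1 ∧ T.Adj (y j) y1
            · rw [hc2 j hj hE] at hcc
              exact absurd hcc (by decide)
            · rw [hc1 j hj hE] at hcc
              exact absurd hcc (by decide)
          · by_cases hj : y j = t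
            · rw [hc0 j hj] at hcc
              by_cases hE : ∃ y1, y1 < y i ∧ T.Adj t y1 ∧ T.Adj (y i) y1
              · rw [hc2 i hi hE] at hcc
                exact absurd hcc (by decide)
              · rw [hc1 i hi hE] at hcc
                exact absurd hcc (by decide)
            · have hti : T.Adj t (y i) := (hx i).resolve_left fun h => hi h.symm
              have htj : T.Adj t (y j) := (hx j).resolve_left fun h => hj h.symm
              have hj2 : c j = 2 := hc2 j hj ⟨y i, hlt, hti, h5.symm⟩
              rw [hj2] at hcc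
              by_cases hE : ∃ y1, y1 < y i ∧ T.Adj t y1 ∧ T.Adj (y i) y1
              · obtain ⟨y1, hy1, ha, hb⟩ := hE
                have := hLoc t (y i) y1 (y j) hti ha htj hb h5
                rw [this] at hy1
                exact absurd (hy1.trans hlt) (lt_irrefl _)
              · rw [hc1 i hi hE] at hcc
                exact absurd hcc (by decide)
        intro i j hij hcc hrr
        rcases lt_trichotomy (y i) (y j) with h | h | h
        · exact main i j hij hcc hrr h
        · have : f i = f j := e.injective (Prod.ext h hrr)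
          exact (h2 i j hij).1 this
        · exact main j i hij.symm hcc.symm hrr.symm h
      refine hN (Fin m) (Fin (κ + 1)) H ⊤ κ hk hC (gram_top κ hκ)
        ⟨⟨fun i => Fin.castLE hl (finProdFinEquiv (c i, r i)), ?_⟩⟩
      intro i j hij
      rw [SimpleGraph.top_adj]
      intro h
      have h' : finProdFinEquiv (c i, r i) = finProdFinEquiv (c j, r j) :=
        Fin.castLE_injective hl h
      have h'' := finProdFinEquiv.injective h'
      exact hne i j hij (Prod.ext_iff.mp h'').1 (Prod.ext_iff.mp h'').2

end Pool.Agent.H26R3.VDAvoid
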